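import Pool.Agent.H8.OA.LDa
import Pool.Agent.H12.ON.Val

/-! # [H8 OA LD] Linear disjointness of a regular extension and a field of transcendence degree one

`k → E → M`, `k → F → M`, `k` algebraically closed in `E`, characteristic zero, `x ∈ F` transcendental over `E` (in `M`), `F` algebraic over `k(x)`. Then `E` and `F` are linearly disjoint over `k`.
Proof. Suppose `∑ c_i w_i = 0`, not all `w_i = 0`. `exists_inf` (ON/Val, for `E` and `x⁻¹`, transcendental over `E`): a valuation ring `V` of `M` over `E` with `x⁻¹ ∉ V`, so `x ∈ V.nonunits`. Choose `i₀` with `w_(i₀) ≠ 0` and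
`w_i/w_(i₀) ∈ V` for all `i` (finitely many elements of a valuation ring; largest valuation), and divide: we may assume `w_i ∈ V` for all `i` and `w_(i₀) = 1`. Let `κ = IsLocalRing.ResidueField V`, an `E`-algebra by `E → V → κ`. Residues:
`∑ c_i r_i = 0` in `κ`, `r_(i₀) = 1`. Every `r_i` is algebraic over `k`: `w_i` is algebraic over `k(x)`, so there is `P ∈ k[X][T]`, `P ≠ 0`, `P(x, w_i) = 0`; divide `P` by the largest power of `X` (not zero at `x`): `P(0,T) ≠ 0`; reduce: `P(0, r_i) = 0`.
`ld_alg` with `M := κ`: `r_(i₀) = 0`, contradiction. -/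

namespace Pool.Agent.H8.OA

open IntermediateField Pool.Agent.H12.ON

open scoped IntermediateField.algebraAdjoinAdjoin in
/-- the residue of an element algebraic over `k(x)` is algebraic over `k` if the residue of `x` is zero -/
private theorem res_alg {k F M : Type} [Field k] [Field F] [Field M] [Algebra k F] [Algebra F M] [Algebra k M]
    [IsScalarTower k F M] (V : ValuationSubring M) (φ : k →+* V) (hφ : ∀ e, (φ e : M) = algebraMap k M e)
    {x z : F} (hz : IsAlgebraic k⟮x⟯ z) (hXV : algebraMap F M x ∈ V)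
    (hXr : IsLocalRing.residue V ⟨algebraMap F M x, hXV⟩ = 0) (hx0 : algebraMap F M x ≠ 0)
    (hU : algebraMap F M z ∈ V) :
    ∃ Q : Polynomial k, Q ≠ 0 ∧ Q.eval₂ ((IsLocalRing.residue V).comp φ)
      (IsLocalRing.residue V ⟨algebraMap F M z, hU⟩) = 0 := by
  classical
  have h1 : IsAlgebraic (Algebra.adjoin k {x}) z :=
    (IsFractionRing.isAlgebraic_iff (Algebra.adjoin k {x}) k⟮x⟯ F).2 hz
  obtain ⟨p, hp0, hp⟩ := h1
  have hc : ∀ n, ∃ q : Polynomial k, Polynomial.aeval x q = ((p.coeff n : Algebra.adjoin k {x}) : F) := by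
    intro n
    have h2 : ∀ y : F, y ∈ Algebra.adjoin k {x} → ∃ q : Polynomial k, Polynomial.aeval x q = y := by
      intro y hy
      rw [Algebra.adjoin_singleton_eq_range_aeval] at hy
      exact hy
    exact h2 _ (p.coeff n).2
  choose q hq using hc
  obtain ⟨P, hP⟩ : ∃ P : Polynomial (Polynomial k), P = ∑ n ∈ p.support, Polynomial.monomial n (q n) := ⟨_, rfl⟩
  have hPc : P.coeff p.natDegree = q p.natDegree := by
    rw [hP, Polynomial.finsetSum_coeff, Finset.sum_eq_single p.natDegree]
    · rw [Polynomial.coeff_monomial, if_pos rfl]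
    · intro n _ hn
      rw [Polynomial.coeff_monomial, if_neg hn]
    · intro hn
      exact absurd (Polynomial.natDegree_mem_support_of_nonzero hp0) hn
  have hP0 : P ≠ 0 := by
    intro h0
    have h2 := hq p.natDegree
    rw [← hPc, h0, Polynomial.coeff_zero, map_zero] at h2
    have h3 : p.coeff p.natDegree = 0 := Subtype.ext h2.symm
    exact hp0 (Polynomial.leadingCoeff_eq_zero.1 h3)
  have hPz : P.eval₂ (Polynomial.aeval x : Polynomial k →ₐ[k] F).toRingHom z = 0 := by
    rw [hP, Polynomial.eval₂_finsetSum]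
    have h2 : Polynomial.aeval z p = ∑ n ∈ p.support, ((p.coeff n : Algebra.adjoin k {x}) : F) * z ^ n := by
      rw [Polynomial.aeval_def, Polynomial.eval₂_eq_sum, Polynomial.sum_def]
      rfl
    rw [← hp, h2]
    refine Finset.sum_congr rfl fun n _ => ?_
    rw [Polynomial.eval₂_monomial, ← hq n]
    rfl
  obtain ⟨ev, hev⟩ : ∃ ev : Polynomial k →+* V,
      ev = Polynomial.eval₂RingHom φ ⟨algebraMap F M x, hXV⟩ := ⟨_, rfl⟩
  have hevX : ev Polynomial.X = ⟨algebraMap F M x, hXV⟩ := by
    rw [hev]; simp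
  have hevC : ∀ a, ev (Polynomial.C a) = φ a := by
    intro a
    rw [hev]; simp
  have hsub : V.subtype.comp ev = (algebraMap F M).comp (Polynomial.aeval x : Polynomial k →ₐ[k] F).toRingHom := by
    refine Polynomial.ringHom_ext ?_ ?_
    · intro a
      rw [RingHom.comp_apply, RingHom.comp_apply, hevC]
      change (φ a : M) = algebraMap F M (Polynomial.aeval x (Polynomial.C a))
      rw [hφ, Polynomial.aeval_C, ← IsScalarTower.algebraMap_apply]
    · rw [RingHom.comp_apply, RingHom.comp_apply, hevX]
      change algebraMap F M x = algebraMap F M (Polynomial.aeval x Polynomial.X)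
      rw [Polynomial.aeval_X]
  have hPV : P.eval₂ ev ⟨algebraMap F M z, hU⟩ = 0 := by
    apply Subtype.val_injective
    have h2 : V.subtype (P.eval₂ ev ⟨algebraMap F M z, hU⟩) = 0 := by
      rw [Polynomial.hom_eval₂, hsub]
      have h3 := congrArg (algebraMap F M) hPz
      rw [Polynomial.hom_eval₂, map_zero] at h3
      exact h3
    exact h2
  have hXirr : Irreducible (Polynomial.C (Polynomial.X : Polynomial k)) :=
    (Polynomial.prime_C_iff.2 Polynomial.prime_X).irreducible
  obtain ⟨n, P', hnd, hPP⟩ := WfDvdMonoid.max_power_factor hP0 hXirr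
  have hP'V : P'.eval₂ ev ⟨algebraMap F M z, hU⟩ = 0 := by
    rw [hPP, Polynomial.eval₂_mul, Polynomial.eval₂_pow, Polynomial.eval₂_C, hevX] at hPV
    rcases mul_eq_zero.1 hPV with h2 | h2
    · exact absurd (congrArg Subtype.val (eq_zero_of_pow_eq_zero h2)) hx0
    · exact h2
  have hi : ∃ i, (P'.coeff i).coeff 0 ≠ 0 := by
    by_contra hno
    push Not at hno
    exact hnd (Polynomial.C_dvd_iff_dvd_coeff _ _ |>.2 fun i => Polynomial.X_dvd_iff.2 (hno i))
  obtain ⟨i, hi⟩ := hi
  refine ⟨P'.map Polynomial.constantCoeff, ?_, ?_⟩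
  · intro h0
    apply hi
    have h2 := congrArg (fun r => Polynomial.coeff r i) h0
    simpa using h2
  · rw [Polynomial.eval₂_map]
    have h2 := congrArg (IsLocalRing.residue V) hP'V
    rw [Polynomial.hom_eval₂, map_zero] at h2
    rw [← h2]
    congr 1
    refine Polynomial.ringHom_ext ?_ ?_
    · intro a
      rw [RingHom.comp_apply, RingHom.comp_apply, RingHom.comp_apply, hevC]
      simp
    · rw [RingHom.comp_apply, RingHom.comp_apply, RingHom.comp_apply, hevX, hXr]
      simp

theorem ld {k E F M : Type} [Field k] [CharZero k] [Field E] [Field F] [Field M] [Algebra k E] [Algebra k F]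
    [Algebra E M] [Algebra F M] [Algebra k M] [IsScalarTower k E M] [IsScalarTower k F M] (hcl : RelCl k E)
    {x : F} (hx : Transcendental E (algebraMap F M x)) (hF : Algebra.IsAlgebraic k⟮x⟯ F)
    {ι : Type} [Fintype ι] {c : ι → E} (hc : LinearIndependent k c) {w : ι → F}
    (h : ∑ i, algebraMap E M (c i) * algebraMap F M (w i) = 0) : ∀ i, w i = 0 := by
  classical
  by_contra hno
  push Not at hno
  obtain ⟨j, hj⟩ := hno
  obtain ⟨X, hXd⟩ : ∃ X : M, X = algebraMap F M x := ⟨_, rfl⟩
  have hX0 : X ≠ 0 := by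
    intro h0
    rw [← hXd, h0] at hx
    exact hx isAlgebraic_zero
  have hXt : Transcendental E X⁻¹ := fun h1 => hx (by rw [← hXd]; exact IsAlgebraic.inv_iff.1 h1)
  obtain ⟨V, hV, hXV'⟩ := exists_inf hXt
  have hXV : X ∈ V := by
    rcases V.mem_or_inv_mem X with h1 | h1
    · exact h1
    · exact absurd h1 hXV'
  -- the element of largest valuation
  obtain ⟨i₀, -, hmax⟩ := Finset.exists_max_image (Finset.univ : Finset ι)
    (fun i => V.valuation (algebraMap F M (w i))) ⟨j, Finset.mem_univ _⟩
  have hinj : Function.Injective (algebraMap F M) := (algebraMap F M).injective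
  have hw0 : algebraMap F M (w i₀) ≠ 0 := by
    intro h0
    have h1 := hmax j (Finset.mem_univ _)
    rw [h0, map_zero, le_zero_iff, map_eq_zero, map_eq_zero_iff _ hinj] at h1
    exact hj h1
  have hw0' : w i₀ ≠ 0 := by
    intro h0
    exact hw0 (by rw [h0, map_zero])
  have hUV : ∀ i, algebraMap F M (w i / w i₀) ∈ V := by
    intro i
    rw [← V.valuation_le_one_iff, map_div₀, map_div₀]
    exact (div_le_one₀ (zero_lt_iff.2 ((map_ne_zero _).2 hw0))).2 (hmax i (Finset.mem_univ _))
  obtain ⟨φE, hφE⟩ : ∃ φ : E →+* V, ∀ e, (φ e : M) = algebraMap E M e :=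
    ⟨(algebraMap E M).codRestrict V.toSubring hV, fun e => rfl⟩
  let _ : Algebra E (IsLocalRing.ResidueField V) := ((IsLocalRing.residue V).comp φE).toAlgebra
  let _ : Algebra k (IsLocalRing.ResidueField V) :=
    (((IsLocalRing.residue V).comp φE).comp (algebraMap k E)).toAlgebra
  have hST : IsScalarTower k E (IsLocalRing.ResidueField V) := IsScalarTower.of_algebraMap_eq fun _ => rfl
  have hXr : IsLocalRing.residue V ⟨X, hXV⟩ = 0 := by
    rw [IsLocalRing.residue_eq_zero_iff, IsLocalRing.mem_maximalIdeal, mem_nonunits_iff]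
    intro hu
    obtain ⟨y, hy⟩ := hu.exists_right_inv
    apply hXV'
    have h1 : X * (y : M) = 1 := congrArg Subtype.val hy
    rw [← eq_inv_of_mul_eq_one_right h1]
    exact y.2
  have key := ld_alg (M := IsLocalRing.ResidueField V) hcl hc
    (w := fun i => IsLocalRing.residue V ⟨algebraMap F M (w i / w i₀), hUV i⟩) ?_ ?_ i₀
  · have h1 : (⟨algebraMap F M (w i₀ / w i₀), hUV i₀⟩ : V) = 1 := by
      apply Subtype.ext
      change algebraMap F M (w i₀ / w i₀) = 1
      rw [div_self hw0', map_one]
    simp only [h1, map_one] at key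
    exact one_ne_zero key
  · intro i
    obtain ⟨Q, hQ0, hQ⟩ := res_alg V (φE.comp (algebraMap k E)) (fun e => by
        rw [RingHom.comp_apply, hφE, ← IsScalarTower.algebraMap_apply])
      (hF.isAlgebraic (w i / w i₀)) (by rw [← hXd]; exact hXV) (by simpa only [← hXd] using hXr)
      (by rw [← hXd]; exact hX0) (hUV i)
    exact ⟨Q, hQ0, hQ⟩
  · have h1 : ∑ i, φE (c i) * (⟨algebraMap F M (w i / w i₀), hUV i⟩ : V) = 0 := by
      apply Subtype.val_injective
      have h2 : V.subtype (∑ i, φE (c i) * (⟨algebraMap F M (w i / w i₀), hUV i⟩ : V)) = 0 := by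
        rw [map_sum]
        have h3 : ∀ i, V.subtype (φE (c i) * (⟨algebraMap F M (w i / w i₀), hUV i⟩ : V)) =
            algebraMap E M (c i) * algebraMap F M (w i) * (algebraMap F M (w i₀))⁻¹ := by
          intro i
          rw [map_mul]
          change (φE (c i) : M) * algebraMap F M (w i / w i₀) = _
          rw [hφE, map_div₀]
          ring
        rw [Finset.sum_congr rfl fun i _ => h3 i, ← Finset.sum_mul, h, zero_mul]
      exact h2
    have h4 := congrArg (IsLocalRing.residue V) h1
    rw [map_sum, map_zero] at h4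
    rw [← h4]
    refine Finset.sum_congr rfl fun i _ => ?_
    rw [map_mul]
    rfl

end Pool.Agent.H8.OA
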