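import Pool.Agent.H12.ON.Def

/-! # [H8 OA LDA] Linear disjointness from algebraic elements

`k` algebraically closed in `E` (`RelCl`), characteristic zero, `k → E → M`. `w i ∈ M` algebraic over `k`, `c i ∈ E` linearly independent over `k`, `∑ c_i w_i = 0`: all `w i = 0`.
Proof. `k(w) = k(β)` (primitive element, finite separable: `IntermediateField.adjoin` of the finite set, `Field.exists_primitive_element`; or work with `IntermediateField.adjoin k (Set.range w)`, finite dimensional). Let `d = deg β` over `k`,
`w_i = ∑_{j<d} a_ij β^j`, `a_ij ∈ k`. The minimal polynomial `q` of `β` over `E` divides `p.map`, `p = minpoly k β`; its coefficients are in `E` and algebraic over `k` (in a splitting field of `p.map` over `M` the monic `q` is a product of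
`X - C β'` with `β'` zeros of `p`, so integral over `k`; Mathlib: `IsIntegral.coeff_of_dvd`-like lemmas, `Polynomial.isIntegral_coeff_of_dvd`/`integralClosure.mem_lifts_of_monic_of_dvd_map`), so in `k`:
`q = q'.map`, `q'(β) = 0`, so `deg q ≥ d`. So `1, β, .., β^(d-1)` are independent over `E`, and `∑_j (∑_i c_i a_ij) β^j = 0` gives `∑_i a_ij c_i = 0` for every `j`, `a_ij = 0`. -/

namespace Pool.Agent.H8.OA

/-- `k` is algebraically closed in `E` -/
def RelCl (k E : Type) [Field k] [Field E] [Algebra k E] : Prop :=
  ∀ z : E, IsAlgebraic k z → z ∈ (algebraMap k E).range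

theorem ld_alg {k E M : Type} [Field k] [CharZero k] [Field E] [Field M] [Algebra k E] [Algebra E M] [Algebra k M]
    [IsScalarTower k E M] (hcl : RelCl k E) {ι : Type} [Fintype ι] {c : ι → E} (hc : LinearIndependent k c)
    {w : ι → M} (hw : ∀ i, IsAlgebraic k (w i)) (h : ∑ i, algebraMap E M (c i) * w i = 0) : ∀ i, w i = 0 := by
  classical
  -- a primitive element
  have hint : ∀ y ∈ Set.range w, IsIntegral k y := by
    rintro _ ⟨i, rfl⟩
    exact (hw i).isIntegral
  have : FiniteDimensional k (IntermediateField.adjoin k (Set.range w)) :=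
    IntermediateField.finiteDimensional_adjoin hint
  obtain ⟨α, hα⟩ := Field.exists_primitive_element k (IntermediateField.adjoin k (Set.range w))
  obtain ⟨β, hβ⟩ : ∃ β : M, β = (α : M) := ⟨_, rfl⟩
  have hαi : IsIntegral k α := IsIntegral.of_finite k α
  have hβi : IsIntegral k β := by
    rw [hβ]
    exact hαi.map (IntermediateField.adjoin k (Set.range w)).val
  have hrep : ∀ i, ∃ p : Polynomial k, Polynomial.aeval β p = w i := by
    intro i
    have h1 : (⟨w i, IntermediateField.subset_adjoin k _ ⟨i, rfl⟩⟩ :
        IntermediateField.adjoin k (Set.range w)) ∈ IntermediateField.adjoin k {α} := by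
      rw [hα]; exact IntermediateField.mem_top
    rw [← IntermediateField.mem_toSubalgebra,
      IntermediateField.adjoin_simple_toSubalgebra_of_isAlgebraic hαi.isAlgebraic,
      Algebra.adjoin_singleton_eq_range_aeval] at h1
    obtain ⟨p, hp⟩ := h1
    refine ⟨p, ?_⟩
    have h2 := congrArg (IntermediateField.adjoin k (Set.range w)).val hp
    rw [hβ]
    change (IntermediateField.adjoin k (Set.range w)).val (Polynomial.aeval α p) = w i at h2
    rw [← Polynomial.aeval_algHom_apply] at h2
    exact h2
  have hm : (minpoly k β).Monic := minpoly.monic hβi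
  have hdeg : ∀ i, ∃ p : Polynomial k, p.degree < (minpoly k β).degree ∧ Polynomial.aeval β p = w i := by
    intro i
    obtain ⟨p, hp⟩ := hrep i
    refine ⟨p %ₘ minpoly k β, Polynomial.degree_modByMonic_lt _ hm, ?_⟩
    rw [Polynomial.aeval_modByMonic_eq_self_of_root (minpoly.aeval k β), hp]
  choose p hpd hp using hdeg
  -- the minimal polynomial over E has the same degree
  have hβE : IsIntegral E β := hβi.tower_top
  have hmE : (minpoly E β).Monic := minpoly.monic hβE
  have hdvd : minpoly E β ∣ (minpoly k β).map (algebraMap k E) := by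
    apply minpoly.dvd
    rw [Polynomial.aeval_map_algebraMap, minpoly.aeval]
  have hl := integralClosure.mem_lifts_of_monic_of_dvd_map E hm hmE hdvd
  have hl2 : minpoly E β ∈ Polynomial.lifts (algebraMap k E) := by
    rw [Polynomial.lifts_iff_coeff_lifts] at hl ⊢
    intro n
    obtain ⟨y, hy⟩ := hl n
    have h1 : IsIntegral k (algebraMap (integralClosure k E) E y) := y.2
    rw [hy] at h1
    exact hcl _ h1.isAlgebraic
  obtain ⟨q, hq1, hq2, hq3⟩ := Polynomial.lifts_and_natDegree_eq_and_monic hl2 hmE
  have hqr : Polynomial.aeval β q = 0 := by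
    have h1 : Polynomial.aeval β (q.map (algebraMap k E)) = 0 := by rw [hq1, minpoly.aeval]
    rwa [Polynomial.aeval_map_algebraMap] at h1
  have hle : (minpoly k β).degree ≤ (minpoly E β).degree := by
    have h1 := minpoly.degree_le_of_ne_zero k β hq3.ne_zero hqr
    rwa [Polynomial.degree_eq_natDegree hq3.ne_zero, hq2, ← Polynomial.degree_eq_natDegree hmE.ne_zero] at h1
  -- the polynomial relation
  have hP : ∑ i, Polynomial.C (c i) * (p i).map (algebraMap k E) = 0 := by
    by_contra hne
    have h1 : Polynomial.aeval β (∑ i, Polynomial.C (c i) * (p i).map (algebraMap k E)) = 0 := by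
      rw [map_sum, ← h]
      refine Finset.sum_congr rfl fun i _ => ?_
      rw [map_mul, Polynomial.aeval_C, Polynomial.aeval_map_algebraMap, hp i]
    have h2 := minpoly.degree_le_of_ne_zero E β hne h1
    have h3 : (∑ i, Polynomial.C (c i) * (p i).map (algebraMap k E)).degree < (minpoly k β).degree := by
      refine (Polynomial.degree_sum_le _ _).trans_lt ?_
      rw [Finset.sup_lt_iff (Ne.bot_lt (by
        intro hb
        exact hm.ne_zero (Polynomial.degree_eq_bot.1 hb)))]
      intro i _
      refine lt_of_le_of_lt ?_ (hpd i)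
      refine (Polynomial.degree_mul_le _ _).trans ?_
      refine (add_le_add Polynomial.degree_C_le Polynomial.degree_map_le).trans ?_
      rw [zero_add]
    exact absurd (h2.trans_lt h3) (not_lt.2 hle)
  have hcoef : ∀ i n, (p i).coeff n = 0 := by
    intro i n
    have h1 := congrArg (fun r => Polynomial.coeff r n) hP
    simp only [Polynomial.finsetSum_coeff, Polynomial.coeff_C_mul, Polynomial.coeff_map,
      Polynomial.coeff_zero] at h1
    refine Fintype.linearIndependent_iff.1 hc (fun i => (p i).coeff n) ?_ i
    rw [← h1]
    refine Finset.sum_congr rfl fun j _ => ?_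
    rw [Algebra.smul_def, mul_comm]
  intro i
  have h0 : p i = 0 := Polynomial.ext fun n => by rw [hcoef i n, Polynomial.coeff_zero]
  rw [← hp i, h0, map_zero]

end Pool.Agent.H8.OA
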