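import Pool.Agent.H8.OA.Sqd

/-! # [H8 OA NG1] A function of the point near the generator

`ty_g` (H8/OA/Ty2.lean) with `B = (H N)^C₀` for every `N`: `A N`, `D N` of degree `≤ C`, coefficients `≤ (H N B)^C = (H N)^(C(C₀+1))`; `Bg`: the condition `(H B)^C ≤ |u|` holds for almost all `N`. `γ N = A N (x N, y N)/D N (x N, y N)` (rational; `0` if the denominator vanishes).
`|γ - la| |u| ≤ (H B)^C`. `cl γ ∈ LL H x y`: numerator and denominator are values at `(qz x, qz y)` of polynomials of degree `≤ C` with the coefficients `cl (coeff m (A N)) ∈ Q0 H` (finite sums of classes; compare `exists_isu` in H12/ON/Trf.lean and `zer_pt` in H12/ON/Zer.lean). -/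

namespace Pool.Agent.H8.OA

open Filter IntermediateField Pool.Agent.H82.NS Pool.Agent.H12.ON

/-- the value of a polynomial of degree at most `C` as a sum over all exponents -/
private theorem ng_eval {p : MvPolynomial (Fin 2) ℤ} {C : ℕ} (hp : p.totalDegree ≤ C) (x y : ℤ) :
    MvPolynomial.eval ![x, y] p = ∑ t ∈ Finset.range (C + 1) ×ˢ Finset.range (C + 1),
      p.coeff (Finsupp.single 0 t.1 + Finsupp.single 1 t.2) * (x ^ t.1 * y ^ t.2) := by
  classical
  rw [MvPolynomial.eval_eq']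
  have hinj : Set.InjOn (fun t : ℕ × ℕ => (Finsupp.single 0 t.1 + Finsupp.single 1 t.2 : Fin 2 →₀ ℕ))
      (Finset.range (C + 1) ×ˢ Finset.range (C + 1) : Finset (ℕ × ℕ)) := by
    intro s _ t _ h
    have h0 := DFunLike.congr_fun h 0
    have h1 := DFunLike.congr_fun h 1
    simp at h0 h1
    exact Prod.ext h0 h1
  have hsub : p.support ⊆ (Finset.range (C + 1) ×ˢ Finset.range (C + 1)).image
      (fun t : ℕ × ℕ => (Finsupp.single 0 t.1 + Finsupp.single 1 t.2 : Fin 2 →₀ ℕ)) := by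
    intro m hm
    have h := MvPolynomial.le_totalDegree hm
    rw [Finsupp.sum_fintype _ _ (fun _ => rfl), Fin.sum_univ_two] at h
    refine Finset.mem_image.2 ⟨(m 0, m 1), ?_, ?_⟩
    · exact Finset.mem_product.2 ⟨Finset.mem_range.2 (by show m 0 < C + 1; omega),
        Finset.mem_range.2 (by show m 1 < C + 1; omega)⟩
    · ext i
      fin_cases i <;> simp
  rw [Finset.sum_subset hsub, Finset.sum_image hinj]
  · refine Finset.sum_congr rfl fun t _ => ?_
    rw [Fin.prod_univ_two]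
    simp
  · intro m _ hm
    rw [MvPolynomial.notMem_support_iff.1 hm, zero_mul]

/-- the class of the values of a sequence of polynomials -/
private theorem ng_cl {H : ℕ → ℕ} {x y : ℕ → ℤ} {P : ℕ → MvPolynomial (Fin 2) ℤ} {C E : ℕ}
    (hP : ∀ N, (P N).totalDegree ≤ C) (hc : ∀ N m, |(P N).coeff m| ≤ ((H N + 2 : ℕ) : ℤ) ^ E) :
    (cl (fun N => ((MvPolynomial.eval ![x N, y N] (P N) : ℤ) : ℚ)) : QS) ∈ LL H x y := by
  have h1 : (cl (fun N => ((MvPolynomial.eval ![x N, y N] (P N) : ℤ) : ℚ)) : QS) =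
      ∑ t ∈ Finset.range (C + 1) ×ˢ Finset.range (C + 1),
        (cl (fun N => (((P N).coeff (Finsupp.single 0 t.1 + Finsupp.single 1 t.2) : ℤ) : ℚ)) : QS) *
          (qz x ^ t.1 * qz y ^ t.2) := by
    have h2 : ∀ t : ℕ × ℕ, (cl (fun N => (((P N).coeff (Finsupp.single 0 t.1 + Finsupp.single 1 t.2) : ℤ) : ℚ)) : QS) *
        (qz x ^ t.1 * qz y ^ t.2) = clHom ℚ (fun N => (((P N).coeff (Finsupp.single 0 t.1 + Finsupp.single 1 t.2) : ℤ) : ℚ) *
          ((x N : ℚ) ^ t.1 * (y N : ℚ) ^ t.2)) := by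
      intro t
      have hx : qz x ^ t.1 = clHom ℚ (fun N => (x N : ℚ) ^ t.1) := by
        unfold qz
        rw [← clHom_apply, ← map_pow]
        rfl
      have hy : qz y ^ t.2 = clHom ℚ (fun N => (y N : ℚ) ^ t.2) := by
        unfold qz
        rw [← clHom_apply, ← map_pow]
        rfl
      rw [hx, hy]
      rfl
    rw [Finset.sum_congr rfl fun t _ => h2 t, ← map_sum, clHom_apply]
    congr 1
    funext N
    rw [Finset.sum_apply, ng_eval (hP N)]
    push_cast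
    rfl
  rw [h1]
  refine sum_mem fun t _ => ?_
  refine (LL H x y).mul_mem ?_ ((LL H x y).mul_mem (pow_mem (x_mem H x y) _) (pow_mem (y_mem H x y) _))
  have h2 : (cl (fun N => (((P N).coeff (Finsupp.single 0 t.1 + Finsupp.single 1 t.2) : ℤ) : ℚ)) : QS) ∈ Q0 H := by
    refine ⟨_, ⟨E, fun N => ?_⟩, rfl⟩
    rw [Rat.num_intCast, Rat.den_intCast]
    refine ⟨?_, Nat.one_le_pow _ _ (by omega)⟩
    have h3 := hc N (Finsupp.single 0 t.1 + Finsupp.single 1 t.2)
    rw [Int.abs_eq_natAbs] at h3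
    exact_mod_cast h3
  exact (LL H x y).algebraMap_mem (⟨_, h2⟩ : Q0 H)

theorem ng {n : ℕ} {K : ℕ → Subfield ℝ} {H : ℕ → ℕ} {x y : ℕ → ℤ} (hs : Sq n K H x y) (hb : Bg H (uu n x y))
    {H' : ℕ → ℕ} (hle : ∀ N, H' N ≤ H N) {la : ℕ → ℝ} (hla : Sgs K H' la) :
    ∃ γ : ℕ → ℚ, cl γ ∈ LL H x y ∧ Nr H (uu n x y) la γ := by
  obtain ⟨C, hC⟩ := ty_g n
  obtain ⟨C₀, hC₀⟩ := hla
  have hB1 : ∀ N, 1 ≤ H N ^ C₀ := fun N => Nat.one_le_pow _ _ (by have := hs.H2 N; omega)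
  have hSg : ∀ N, Sg (K N) (H N ^ C₀) (la N) := by
    intro N
    obtain ⟨h1, h2, h3, h4⟩ := hC₀ N
    refine ⟨h1, h2, h3, fun φ => (h4 φ).trans ?_⟩
    exact_mod_cast Nat.pow_le_pow_left (hle N) C₀
  have key := fun N => hC (K N) (H N) (x N) (y N) (hs.ty N) (H N ^ C₀) (la N) (hB1 N) (hSg N)
  choose A D hA hD hAc hDc hmain using key
  have hbd : ∀ N, (H N * H N ^ C₀) ^ C ≤ (H N + 2) ^ ((C₀ + 1) * C) := by
    intro N
    calc (H N * H N ^ C₀) ^ C = H N ^ ((C₀ + 1) * C) := by rw [pow_mul, pow_succ', mul_comm]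
      _ ≤ (H N + 2) ^ ((C₀ + 1) * C) := Nat.pow_le_pow_left (by omega) _
  have hAm := ng_cl (H := H) (x := x) (y := y) hA (E := (C₀ + 1) * C) (fun N m => (hAc N m).trans (by exact_mod_cast hbd N))
  have hDm := ng_cl (H := H) (x := x) (y := y) hD (E := (C₀ + 1) * C) (fun N m => (hDc N m).trans (by exact_mod_cast hbd N))
  refine ⟨fun N => ((MvPolynomial.eval ![x N, y N] (A N) : ℤ) : ℚ) / ((MvPolynomial.eval ![x N, y N] (D N) : ℤ) : ℚ),
    ?_, (C₀ + 1) * C, ?_⟩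
  · have h1 := (LL H x y).mul_mem hAm ((LL H x y).inv_mem hDm)
    rw [cl_inv, cl_mul] at h1
    exact h1
  · filter_upwards [hb ((C₀ + 1) * C)] with N h1
    have h2 : ((H N * H N ^ C₀ : ℕ) : ℤ) ^ C ≤ |y N + x N ^ (n + 1)| := by
      refine le_trans ?_ h1
      exact_mod_cast hbd N
    obtain ⟨h3, h4⟩ := hmain N h2
    have h5 : (0 : ℝ) < |((MvPolynomial.eval ![x N, y N] (D N) : ℤ) : ℝ)| := abs_pos.2 (by exact_mod_cast h3)
    have h6 : ((((MvPolynomial.eval ![x N, y N] (A N) : ℤ) : ℚ) / ((MvPolynomial.eval ![x N, y N] (D N) : ℤ) : ℚ) : ℚ) : ℝ) -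
        la N = ((MvPolynomial.eval ![x N, y N] (A N) : ℝ) - la N * (MvPolynomial.eval ![x N, y N] (D N) : ℝ)) /
          ((MvPolynomial.eval ![x N, y N] (D N) : ℤ) : ℝ) := by
      rw [sub_div, mul_div_cancel_right₀ _ (abs_pos.1 h5)]
      push_cast
      rfl
    rw [h6, abs_div, div_mul_eq_mul_div, div_le_iff₀ h5]
    refine h4.trans ?_
    refine mul_le_mul_of_nonneg_right ?_ h5.le
    exact_mod_cast hbd N

theorem ngen {n : ℕ} {K : ℕ → Subfield ℝ} {H : ℕ → ℕ} {x y : ℕ → ℤ} (hs : Sq n K H x y) :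
    ∃ la : ℕ → ℝ, Sgs K H la := by
  obtain ⟨C, hC⟩ := ty_gen n
  choose la hla using fun N => hC (K N) (H N) (x N) (y N) (hs.ty N)
  exact ⟨la, C, hla⟩

end Pool.Agent.H8.OA
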