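import Pool.Agent.H8.OA.Sqd
import Pool.Agent.H97.SI.TRA

/-! # [H8 OA NG2] The minimal polynomial of the generator in the frame

`sg_poly` (H8/OA/Ty2.lean) with `B = (H N)^C₀` for every `N`: `p N ∈ ℤ[X]` monic, irreducible over `ℚ`, `3 ≤ deg ≤ n(n+1)`, coefficients `≤ (B+1)^(n(n+1)) ≤ (H N + 2)^C`, `p N (la N) = 0`. The degree is constant `= r` for almost all `N`. `P = X^r + ∑_(i<r) cl (coeff i (p N)) X^i` over `Q0 H`.
Irreducible over `QS` (transfer: a factorisation of the image over `QS` into monic factors of degrees `e, r - e`, `1 ≤ e < r`, gives one of `p N` over `ℚ` for almost all `N`: coefficients of the factors are classes; H97/SI/TRA.lean, TRB.lean (`irrm1`-like), or `tir` in H12/ON/Tir.lean), so over `Q0 H`.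
`np_non`: `p N (γ N) = p N (γ N) - p N (la N)`, `|la N| ≤ (H N)^C₀` (the embedding `K ⊆ ℝ ⊆ ℂ`), so for `|γ N - la N| ≤ 1`: `|p N (γ N)| ≤ (H' N + 2)^C₁ |γ N - la N| ≤ (H' N + 2)^(C₁ + C)/|u' N|`, smaller than every positive element of `Q0 H'` (`Bg H' u'`), and `aeval (cl γ) P = cl (p N (γ N))`.
`nr_sub`: `|γ N - γ' N| ≤ (H' + 2)^C (1/|u| + 1/|u'|)`: the same. -/

namespace Pool.Agent.H8.OA

open Filter IntermediateField Pool.Agent.H82.NS Pool.Agent.H12.ON Pool.Agent.H97.SI Polynomial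

private theorem non_of {H : ℕ → ℕ} {z : ℕ → ℚ}
    (h : ∀ C : ℕ, ∀ᶠ N in UU, |(z N : ℝ)| * ((H N + 2 : ℕ) : ℝ) ^ C < 1) : (cl z : QS) ∈ (V0 H).nonunits := by
  rw [(V0 H).mem_nonunits_iff_or]
  by_contra hc
  push Not at hc
  obtain ⟨h0, r, ⟨f, ⟨C, hC⟩, rfl⟩, hr⟩ := hc
  have h1 : ∀ᶠ N in UU, z N ≠ 0 := by
    refine Ultrafilter.eventually_not.2 fun h2 => h0 ?_
    rw [cl_zero, cl_eq]
    exact h2
  rw [cl_inv] at hr
  have h2 := cl_le.1 ((le_abs_self _).trans hr)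
  have h3 := (neg_le_abs _).trans hr
  rw [cl_neg] at h3
  have h3 := cl_le.1 h3
  obtain ⟨N, hz, h4, h5, h6⟩ := (h1.and (h2.and (h3.and (h C)))).exists
  have h7 : |z N|⁻¹ ≤ f N := by
    rw [← abs_inv]
    exact abs_le'.2 ⟨h4, h5⟩
  have h8 : f N ≤ ((H N + 2 : ℕ) : ℚ) ^ C := by
    have e1 : (1 : ℚ) ≤ ((f N).den : ℚ) := by exact_mod_cast (f N).den_pos
    have e2 : (f N : ℚ) * ((f N).den : ℚ) = ((f N).num : ℚ) := Rat.mul_den_eq_num (f N)
    have e3 : ((f N).num : ℚ) ≤ ((f N).num.natAbs : ℚ) := by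
      rw [Nat.cast_natAbs]
      exact_mod_cast le_abs_self _
    have e4 : ((f N).num.natAbs : ℚ) ≤ ((H N + 2 : ℕ) : ℚ) ^ C := by exact_mod_cast (hC N).1
    have e5 : 0 < f N := (inv_pos.2 (abs_pos.2 hz)).trans_le h7
    calc f N ≤ f N * ((f N).den : ℚ) := le_mul_of_one_le_right e5.le e1
      _ ≤ _ := by rw [e2]; exact e3.trans e4
  have h9 : |z N| * ((H N + 2 : ℕ) : ℚ) ^ C < 1 := by
    have e1 : ((|z N| * ((H N + 2 : ℕ) : ℚ) ^ C : ℚ) : ℝ) < ((1 : ℚ) : ℝ) := by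
      push_cast at h6 ⊢
      exact h6
    exact_mod_cast e1
  have h10 : |z N| * |z N|⁻¹ = 1 := mul_inv_cancel₀ (abs_pos.2 hz).ne'
  have h11 : |z N| * |z N|⁻¹ ≤ |z N| * ((H N + 2 : ℕ) : ℚ) ^ C :=
    mul_le_mul_of_nonneg_left (h7.trans h8) (abs_nonneg _)
  rw [h10] at h11
  exact absurd h9 (not_lt.2 h11)

private theorem h2le (H : ℕ) : (2 : ℝ) ≤ ((H + 2 : ℕ) : ℝ) := by
  push_cast
  have : (0 : ℝ) ≤ (H : ℝ) := Nat.cast_nonneg _
  linarith

private theorem nr_lt {H : ℕ → ℕ} {u : ℕ → ℤ} {la : ℕ → ℝ} {γ : ℕ → ℚ} (hb : Bg H u) (h : Nr H u la γ) (C' : ℕ) :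
    ∀ᶠ N in UU, |(γ N : ℝ) - la N| * ((H N + 2 : ℕ) : ℝ) ^ C' < 1 := by
  obtain ⟨C, hC⟩ := h
  filter_upwards [hC, hb (C + C' + 1)] with N h1 h3
  have h3' : ((H N + 2 : ℕ) : ℝ) ^ (C + C' + 1) ≤ |(u N : ℝ)| := by exact_mod_cast h3
  have h2 := h2le (H N)
  obtain ⟨t, ht⟩ : ∃ t : ℝ, t = ((H N + 2 : ℕ) : ℝ) := ⟨_, rfl⟩
  rw [← ht] at h1 h2 h3' ⊢
  by_contra hc
  rw [not_lt] at hc
  have h4 : |(u N : ℝ)| ≤ t ^ (C + C') := by
    calc |(u N : ℝ)| ≤ (|(γ N : ℝ) - la N| * t ^ C') * |(u N : ℝ)| := le_mul_of_one_le_left (abs_nonneg _) hc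
      _ = (|(γ N : ℝ) - la N| * |(u N : ℝ)|) * t ^ C' := by ring
      _ ≤ t ^ C * t ^ C' := mul_le_mul_of_nonneg_right h1 (by positivity)
      _ = t ^ (C + C') := (pow_add _ _ _).symm
  have h5 : t ^ (C + C') < t ^ (C + C' + 1) := pow_lt_pow_right₀ (by linarith) (Nat.lt_succ_self _)
  linarith

private theorem hpow (H C : ℕ) : H ^ C + 1 ≤ (H + 2) ^ (C + 1) := by
  have h1 : H ^ C ≤ (H + 2) ^ C := Nat.pow_le_pow_left (by omega) C
  have h2 : 1 ≤ (H + 2) ^ C := Nat.one_le_pow _ _ (by omega)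
  rw [pow_succ]
  nlinarith

private theorem ev_bd (p : ℤ[X]) {r : ℕ} (hr : p.natDegree ≤ r) {B D a b : ℝ} (hB : 1 ≤ B) (ha : |a| ≤ B)
    (hb : |b| ≤ B) (hD : ∀ i, |(p.coeff i : ℝ)| ≤ D) :
    |aeval a p - aeval b p| ≤ |a - b| * ((r + 1) * (D * (r * B ^ r))) := by
  have hD0 : 0 ≤ D := (abs_nonneg _).trans (hD 0)
  rw [aeval_eq_sum_range' (Nat.lt_succ_of_le hr), aeval_eq_sum_range' (Nat.lt_succ_of_le hr), ← Finset.sum_sub_distrib]
  refine (Finset.abs_sum_le_sum_abs _ _).trans ?_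
  have h1 : ∀ i ∈ Finset.range (r + 1), |p.coeff i • a ^ i - p.coeff i • b ^ i| ≤ |a - b| * (D * (r * B ^ r)) := by
    intro i hi
    have hi' : i ≤ r := Nat.lt_succ_iff.1 (Finset.mem_range.1 hi)
    rw [zsmul_eq_mul, zsmul_eq_mul, ← mul_sub, abs_mul]
    have h2 : |a ^ i - b ^ i| ≤ |a - b| * (r * B ^ r) := by
      refine (abs_pow_sub_pow_le a b i).trans ?_
      rw [mul_assoc]
      refine mul_le_mul_of_nonneg_left ?_ (abs_nonneg _)
      refine mul_le_mul (by exact_mod_cast hi') ?_ (by positivity) (Nat.cast_nonneg _)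
      calc max |a| |b| ^ (i - 1) ≤ B ^ (i - 1) := pow_le_pow_left₀ (le_max_of_le_left (abs_nonneg _)) (max_le ha hb) _
        _ ≤ B ^ r := pow_le_pow_right₀ hB (by omega)
    calc |(p.coeff i : ℝ)| * |a ^ i - b ^ i| ≤ D * (|a - b| * (r * B ^ r)) :=
          mul_le_mul (hD i) h2 (abs_nonneg _) hD0
      _ = _ := by ring
  refine (Finset.sum_le_sum h1).trans ?_
  rw [Finset.sum_const, Finset.card_range, nsmul_eq_mul]
  push_cast
  exact le_of_eq (by ring)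

private theorem sg_abs {K : Subfield ℝ} {B : ℕ} {r : ℝ} (h : Sg K B r) : |r| ≤ B := by
  obtain ⟨hr, -, -, hb⟩ := h
  have h1 := hb (Complex.ofRealHom.comp K.subtype)
  have h2 : (Complex.ofRealHom.comp K.subtype) ⟨r, hr⟩ = (r : ℂ) := rfl
  rw [h2, Complex.norm_real, Real.norm_eq_abs] at h1
  exact h1

theorem np {n : ℕ} {K : ℕ → Subfield ℝ} {H : ℕ → ℕ} {x y : ℕ → ℤ} (hs : Sq n K H x y) {la : ℕ → ℝ}
    (hla : Sgs K H la) : ∃ P : (Q0 H)[X], P.Monic ∧ Irreducible (P.map (algebraMap (Q0 H) QS)) ∧ Irreducible P ∧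
      3 ≤ P.natDegree ∧ ∀ (H' : ℕ → ℕ) (u' : ℕ → ℤ) (γ : ℕ → ℚ), (∀ N, H N ≤ H' N) → Bg H' u' → Nr H' u' la γ →
        aeval (cl γ : QS) P ∈ (V0 H').nonunits := by
  obtain ⟨C₀, hC₀⟩ := hla
  choose p hpm hpi hp3 hpf hpd hp0 hpc using fun N => sg_poly n (hs.ty N) (hC₀ N)
  have h2 : ∀ᶠ N in UU, ∃ r, r ∈ ((Finset.range (n * (n + 1) + 1) : Finset ℕ) : Set ℕ) ∧ (p N).natDegree = r :=
    Filter.Eventually.of_forall fun N => ⟨(p N).natDegree, Finset.mem_coe.2 (Finset.mem_range.2 (Nat.lt_succ_of_le (hpd N))), rfl⟩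
  rw [Ultrafilter.eventually_exists_mem_iff (Finset.finite_toSet _)] at h2
  obtain ⟨r, -, hr⟩ := h2
  have hcb : ∀ N i, |(p N).coeff i| ≤ ((H N + 2 : ℕ) : ℤ) ^ ((C₀ + 1) * (n * (n + 1))) := by
    intro N i
    refine (hpc N i).trans ?_
    rw [pow_mul _ (C₀ + 1)]
    refine pow_le_pow_left₀ (Int.natCast_nonneg _) ?_ _
    have := hpow (H N) C₀
    exact_mod_cast this
  have hsm : ∀ i, Small H (fun N => ((p N).coeff i : ℚ)) := by
    intro i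
    refine ⟨(C₀ + 1) * (n * (n + 1)), fun N => ⟨?_, ?_⟩⟩
    · show (((p N).coeff i : ℤ) : ℚ).num.natAbs ≤ _
      rw [Rat.num_intCast]
      have h3 := hcb N i
      rw [Int.abs_eq_natAbs] at h3
      exact_mod_cast h3
    · show (((p N).coeff i : ℤ) : ℚ).den ≤ _
      rw [Rat.den_intCast]
      exact Nat.one_le_pow _ _ (by omega)
  obtain ⟨c, hc⟩ : ∃ c : ℕ → Q0 H, ∀ i, (c i : QS) = cl (fun N => ((p N).coeff i : ℚ)) :=
    ⟨fun i => ⟨_, _, hsm i, rfl⟩, fun i => rfl⟩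
  have hdeg : (∑ j ∈ Finset.range r, C (c j) * X ^ j : (Q0 H)[X]).degree < (r : WithBot ℕ) := by
    rw [← mem_degreeLT]
    refine Submodule.sum_mem _ fun j hj => ?_
    rw [mem_degreeLT]
    refine (degree_C_mul_X_pow_le _ _).trans_lt ?_
    exact_mod_cast Finset.mem_range.1 hj
  obtain ⟨P, hP⟩ : ∃ P : (Q0 H)[X], P = X ^ r + ∑ j ∈ Finset.range r, C (c j) * X ^ j := ⟨_, rfl⟩
  have hPm : P.Monic := by
    rw [hP]
    exact monic_X_pow_add hdeg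
  have hPd : P.natDegree = r := by
    rw [hP]
    refine natDegree_eq_of_degree_eq_some ?_
    rw [degree_add_eq_left_of_degree_lt (by rw [degree_X_pow]; exact hdeg), degree_X_pow]
  obtain ⟨S, hS⟩ : ∃ S : (ℕ → ℚ)[X], S = X ^ r + ∑ j ∈ Finset.range r, C (fun N => ((p N).coeff j : ℚ)) * X ^ j := ⟨_, rfl⟩
  have hSP : S.map (clH ℚ) = P.map (algebraMap (Q0 H) QS) := by
    rw [hS, hP]
    simp only [Polynomial.map_add, Polynomial.map_pow, map_X, Polynomial.map_sum, Polynomial.map_mul, map_C]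
    congr 1
    refine Finset.sum_congr rfl fun j _ => ?_
    congr 2
    exact (hc j).symm
  have hSN : ∀ N, (p N).natDegree = r → S.map (evN ℚ N) = (p N).map (Int.castRingHom ℚ) := by
    intro N hN
    rw [hS]
    simp only [Polynomial.map_add, Polynomial.map_pow, map_X, Polynomial.map_sum, Polynomial.map_mul, map_C]
    conv_rhs => rw [(p N).as_sum_range_C_mul_X_pow, hN, Finset.sum_range_succ]
    have h1 : (p N).coeff r = 1 := by
      rw [← hN]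
      exact hpm N
    rw [h1, C_1, one_mul, add_comm]
    simp only [Polynomial.map_add, Polynomial.map_pow, map_X, Polynomial.map_sum, Polynomial.map_mul, map_C]
    congr 1
  have h3r : 3 ≤ r := by
    obtain ⟨N, hN⟩ := hr.exists
    rw [← hN]
    exact hp3 N
  have hPQ : Irreducible (P.map (algebraMap (Q0 H) QS)) := by
    have hne1 : P.map (algebraMap (Q0 H) QS) ≠ 1 := by
      intro h
      have h1 := congrArg natDegree h
      rw [hPm.natDegree_map, natDegree_one, hPd] at h1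
      omega
    rw [irreducible_of_monic (hPm.map _) hne1]
    intro A B hA hB hAB
    have hl : ∀ q : QS[X], q ∈ lifts (clH ℚ) := by
      intro q
      rw [mem_lifts]
      exact map_surjective _ clH_surj q
    obtain ⟨A', hA', -, hA'm⟩ := lifts_and_natDegree_eq_and_monic (hl A) hA
    obtain ⟨B', hB', -, hB'm⟩ := lifts_and_natDegree_eq_and_monic (hl B) hB
    have h4 : (A' * B').map (clH ℚ) = S.map (clH ℚ) := by
      rw [Polynomial.map_mul, hA', hB', hAB, hSP]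
    have h5 := eq1.1 h4
    obtain ⟨N, hN1, hN2⟩ := (h5.and hr).exists
    rw [hSN N hN2, Polynomial.map_mul] at hN1
    have hne2 : (p N).map (Int.castRingHom ℚ) ≠ 1 := by
      intro h
      have h1 := congrArg natDegree h
      rw [(hpm N).natDegree_map, natDegree_one, hN2] at h1
      omega
    rcases (irreducible_of_monic ((hpm N).map _) hne2).1 (hpi N) _ _ (hA'm.map _) (hB'm.map _) hN1 with h | h
    · left
      have h6 := hA'm.natDegree_map (evN ℚ N)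
      rw [h, natDegree_one] at h6
      have h7 := (hA'm.natDegree_eq_zero).1 h6.symm
      rw [← hA', h7, Polynomial.map_one]
    · right
      have h6 := hB'm.natDegree_map (evN ℚ N)
      rw [h, natDegree_one] at h6
      have h7 := (hB'm.natDegree_eq_zero).1 h6.symm
      rw [← hB', h7, Polynomial.map_one]
  refine ⟨P, hPm, hPQ, hPm.irreducible_of_irreducible_map _ _ hPQ, by rw [hPd]; exact h3r, ?_⟩
  intro H' u' γ hHH hb' hγ
  have hev : aeval (cl γ : QS) P = cl (fun N => eval (γ N) (S.map (evN ℚ N))) := by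
    have e1 : aeval (cl γ : QS) P = eval (clH ℚ γ) (S.map (clH ℚ)) := by
      rw [hSP, eval_map_algebraMap]
      rfl
    have e2 : (fun N => eval (γ N) (S.map (evN ℚ N))) = eval γ S := by
      funext N
      exact eval_map_apply (evN ℚ N) γ
    rw [e1, e2]
    exact eval_map_apply (clH ℚ) γ
  rw [hev]
  refine non_of fun C' => ?_
  obtain ⟨C₁, hC₁⟩ : ∃ C₁ : ℕ, C₁ = (r + 1) + ((C₀ + 1) * (n * (n + 1)) + (r + (C₀ + 1) * r)) := ⟨_, rfl⟩
  filter_upwards [hr, nr_lt hb' hγ (C₁ + C'), nr_lt hb' hγ 0] with N hN h1 h0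
  rw [hSN N hN]
  have h2 := h2le (H' N)
  have hHt : ((H N + 2 : ℕ) : ℝ) ≤ ((H' N + 2 : ℕ) : ℝ) := by exact_mod_cast Nat.add_le_add_right (hHH N) 2
  obtain ⟨t, ht⟩ : ∃ t : ℝ, t = ((H' N + 2 : ℕ) : ℝ) := ⟨_, rfl⟩
  rw [← ht] at h1 h2 h0 hHt ⊢
  rw [pow_zero, mul_one] at h0
  have ht1 : 1 ≤ t := by linarith
  have hl1 : |la N| + 1 ≤ t ^ (C₀ + 1) := by
    have e1 := sg_abs (hC₀ N)
    have e2 : (((H N) ^ C₀ + 1 : ℕ) : ℝ) ≤ ((H N + 2 : ℕ) : ℝ) ^ (C₀ + 1) := by exact_mod_cast hpow (H N) C₀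
    have e3 : ((H N + 2 : ℕ) : ℝ) ^ (C₀ + 1) ≤ t ^ (C₀ + 1) := pow_le_pow_left₀ (by positivity) hHt _
    push_cast at e1 e2 e3
    linarith
  have hl2 : |(γ N : ℝ)| ≤ t ^ (C₀ + 1) := by
    have e1 := abs_add_le ((γ N : ℝ) - la N) (la N)
    rw [sub_add_cancel] at e1
    linarith
  have hl3 : |la N| ≤ t ^ (C₀ + 1) := by linarith
  have hD : ∀ i, |((p N).coeff i : ℝ)| ≤ t ^ ((C₀ + 1) * (n * (n + 1))) := by
    intro i
    have e1 : |((p N).coeff i : ℝ)| ≤ ((H N + 2 : ℕ) : ℝ) ^ ((C₀ + 1) * (n * (n + 1))) := by exact_mod_cast hcb N i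
    exact e1.trans (pow_le_pow_left₀ (by positivity) hHt _)
  have h6 := ev_bd (p N) hN.le (one_le_pow₀ ht1) hl2 hl3 hD
  rw [hp0 N, sub_zero] at h6
  have h7 : ((eval (γ N) ((p N).map (Int.castRingHom ℚ)) : ℚ) : ℝ) = aeval (γ N : ℝ) (p N) := by
    rw [aeval_def, eval_map]
    have e1 := hom_eval₂ (p N) (Int.castRingHom ℚ) (algebraMap ℚ ℝ) (γ N)
    exact e1
  rw [h7]
  have hr1 : ((r : ℝ) + 1) ≤ t ^ (r + 1) := by
    have e1 : ((r + 1 : ℕ) : ℝ) ≤ ((2 ^ (r + 1) : ℕ) : ℝ) := by exact_mod_cast Nat.lt_two_pow_self.le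
    push_cast at e1
    exact e1.trans (pow_le_pow_left₀ (by norm_num) h2 _)
  have hr2 : (r : ℝ) ≤ t ^ r := by
    have e1 : (r : ℝ) ≤ ((2 ^ r : ℕ) : ℝ) := by exact_mod_cast Nat.lt_two_pow_self.le
    push_cast at e1
    exact e1.trans (pow_le_pow_left₀ (by norm_num) h2 _)
  have h8 : ((r : ℝ) + 1) * (t ^ ((C₀ + 1) * (n * (n + 1))) * (r * (t ^ (C₀ + 1)) ^ r)) ≤ t ^ C₁ := by
    have e1 : t ^ C₁ = t ^ (r + 1) * (t ^ ((C₀ + 1) * (n * (n + 1))) * (t ^ r * (t ^ (C₀ + 1)) ^ r)) := by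
      rw [hC₁, ← pow_mul t (C₀ + 1) r, ← pow_add, ← pow_add, ← pow_add]
    rw [e1]
    gcongr
  calc |aeval (γ N : ℝ) (p N)| * t ^ C' ≤ (|(γ N : ℝ) - la N| * t ^ C₁) * t ^ C' := by
        refine mul_le_mul_of_nonneg_right (h6.trans ?_) (by positivity)
        exact mul_le_mul_of_nonneg_left h8 (abs_nonneg _)
    _ = |(γ N : ℝ) - la N| * t ^ (C₁ + C') := by rw [pow_add]; ring
    _ < 1 := h1

theorem nr_sub {H : ℕ → ℕ} {u u' : ℕ → ℤ} {la : ℕ → ℝ} {γ γ' : ℕ → ℚ} (hb : Bg H u) (hb' : Bg H u')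
    (h : Nr H u la γ) (h' : Nr H u' la γ') : (cl γ - cl γ' : QS) ∈ (V0 H).nonunits := by
  have h1 : (cl γ - cl γ' : QS) = cl (fun N => γ N - γ' N) := rfl
  rw [h1]
  refine non_of fun C' => ?_
  filter_upwards [nr_lt hb h (C' + 1), nr_lt hb' h' (C' + 1)] with N h3 h4
  have h2 := h2le (H N)
  obtain ⟨t, ht⟩ : ∃ t : ℝ, t = ((H N + 2 : ℕ) : ℝ) := ⟨_, rfl⟩
  rw [← ht] at h2 h3 h4 ⊢
  push_cast
  have h5 : |(γ N : ℝ) - γ' N| ≤ |(γ N : ℝ) - la N| + |(γ' N : ℝ) - la N| := by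
    have e1 := abs_sub ((γ N : ℝ) - la N) ((γ' N : ℝ) - la N)
    rw [sub_sub_sub_cancel_right] at e1
    exact e1
  have h6 : 0 < t ^ C' := by positivity
  rw [pow_succ] at h3 h4
  have h7 : |(γ N : ℝ) - γ' N| * t ^ C' ≤ |(γ N : ℝ) - la N| * t ^ C' + |(γ' N : ℝ) - la N| * t ^ C' := by
    rw [← add_mul]
    exact mul_le_mul_of_nonneg_right h5 h6.le
  have h8 : (|(γ N : ℝ) - la N| * t ^ C' + |(γ' N : ℝ) - la N| * t ^ C') * t < 2 := by
    have e1 : (|(γ N : ℝ) - la N| * t ^ C' + |(γ' N : ℝ) - la N| * t ^ C') * t =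
        |(γ N : ℝ) - la N| * (t ^ C' * t) + |(γ' N : ℝ) - la N| * (t ^ C' * t) := by ring
    rw [e1]
    linarith
  have h9 : 0 ≤ |(γ N : ℝ) - γ' N| * t ^ C' := by positivity
  nlinarith

theorem nr_mono {H H' : ℕ → ℕ} {u : ℕ → ℤ} {la : ℕ → ℝ} {γ : ℕ → ℚ} (h : Nr H u la γ) (hle : ∀ N, H N ≤ H' N) :
    Nr H' u la γ := by
  obtain ⟨C, hC⟩ := h
  refine ⟨C, hC.mono fun N hN => hN.trans ?_⟩
  refine pow_le_pow_left₀ (by positivity) ?_ _
  exact_mod_cast Nat.add_le_add_right (hle N) 2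

end Pool.Agent.H8.OA
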