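import Pool.Agent.H8.OA.Sqd
import Pool.Agent.H12.ON.Zer

/-! # [H8 OA SQ1] The function field of a sequence of exceptional points

`H₁ ≤ H`, the points have type with respect to `H₁`, `|u|` is larger than all powers of `H`.
`bg_v0`: `zer_big` (H12/ON/Zer.lean). `bg_tr`: an element algebraic over `Q0 H` is in `Q0 H` (`q0_alg`), so in `V0 H`.
`sq_int`: from `hs.ty N`: `ev d F u (a x) = 0`, `F 0 d = 1` (`Q.lead`), `4 ≤ d ≤ n(n+1)` (`Q.d4, Q.dn`), `|F i j| ≤ b ≤ (H₁ N)^(cR n)`, `a ≠ 0`, `|a| ≤ H₁ N`. Choose the data for every `N`; `d N` takes finitely many values, so it is constant `= d` for almost all `N`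
(ultrafilter: `Ultrafilter.eventually_exists_mem_iff` or finite pigeonhole). The classes `φ_ij = cl (F N i j)` and `α = cl (a N)` are in `Q0 H`, `α ≠ 0`, `φ_0d = 1`, and `∑_(i+j ≤ d) φ_ij U^i (α X)^j = 0` in `QS` (`ev` is a finite sum): `α X` is a root of a monic polynomial over
`(Q0 H)[U]`, `X = α⁻¹ (α X)` is integral, `Y = U - X^(n+1)` too. (Everything may be done in `LL H x y` or in `QS`; the algebra `Algebra.adjoin (Q0 H) {U}`.)
`sq_ff`: `LL = (Q0 H)(X, Y)`, `X, Y` algebraic over `(Q0 H)(U)`: finitely generated and algebraic, so finite. `sq_uni`: `uni` (H12/ON/Uni.lean) with `L := LL H x y`, `x := ul n H x y`.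
`sq_cl`: `z ∈ LL H x y` algebraic over `Q0 H`: `q0_alg`. -/

namespace Pool.Agent.H8.OA

open Filter IntermediateField Pool.Agent.H82.NS Pool.Agent.H12.ON Pool.Agent.H12.OG

private theorem sq_q0v {H : ℕ → ℕ} {z : QS} (hz : z ∈ Q0 H) : z ∈ V0 H := by
  rcases abs_choice z with h | h
  · exact ⟨z, hz, le_of_eq h⟩
  · exact ⟨-z, (Q0 H).neg_mem hz, le_of_eq h⟩

theorem bg_v0 {H : ℕ → ℕ} {u : ℕ → ℤ} (hb : Bg H u) : qz u ∉ V0 H := zer_big hb

theorem bg_tr {H : ℕ → ℕ} {u : ℕ → ℤ} (hb : Bg H u) : Transcendental (Q0 H) (qz u) :=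
  fun h => bg_v0 hb (sq_q0v (q0_alg H _ h))

/-- a root of a polynomial which is monic in the second variable is integral over the first variable -/
private theorem sq_gen {k L : Type} [Field k] [Field L] [Algebra k L] {u v : L} {D : ℕ} {c : ℕ → ℕ → k}
    (hl : c 0 D = 1)
    (h : ∑ i ∈ Finset.range (D + 1), ∑ j ∈ Finset.range (D + 1 - i), algebraMap k L (c i j) * u ^ i * v ^ j = 0) :
    IsInt k u v := by
  have hu : u ∈ Algebra.adjoin k {u} := Algebra.self_mem_adjoin_singleton k u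
  refine ⟨∑ i ∈ Finset.range (D + 1), ∑ j ∈ Finset.range (D + 1 - i),
    Polynomial.C (algebraMap k (Algebra.adjoin k {u}) (c i j) * ⟨u, hu⟩ ^ i) * Polynomial.X ^ j, ?_, ?_⟩
  · refine Polynomial.monic_of_natDegree_le_of_coeff_eq_one D ?_ ?_
    · refine Polynomial.natDegree_sum_le_of_forall_le _ _ fun i hi => ?_
      refine Polynomial.natDegree_sum_le_of_forall_le _ _ fun j hj => ?_
      refine (Polynomial.natDegree_C_mul_X_pow_le _ _).trans ?_
      rw [Finset.mem_range] at hi hj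
      omega
    · simp only [Polynomial.finsetSum_coeff, Polynomial.coeff_C_mul, Polynomial.coeff_X_pow]
      rw [Finset.sum_eq_single 0, Finset.sum_eq_single D]
      · rw [hl]
        simp
      · intro j _ hj
        rw [if_neg (Ne.symm hj), mul_zero]
      · intro hD
        exact (hD (Finset.mem_range.2 (by omega))).elim
      · intro i _ hi
        refine Finset.sum_eq_zero fun j hj => ?_
        rw [Finset.mem_range] at hj
        rw [if_neg (by omega), mul_zero]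
      · intro hD
        exact (hD (Finset.mem_range.2 (by omega))).elim
  · rw [← h, Polynomial.eval₂_finsetSum]
    refine Finset.sum_congr rfl fun i _ => ?_
    rw [Polynomial.eval₂_finsetSum]
    refine Finset.sum_congr rfl fun j _ => ?_
    rw [Polynomial.eval₂_mul, Polynomial.eval₂_C, Polynomial.eval₂_X_pow]
    rfl

private theorem sq_pol {n : ℕ} {x y : ℕ → ℤ} {D : ℕ} {d : ℕ → ℕ} {F : ℕ → ℕ → ℕ → ℤ} {a : ℕ → ℤ}
    (hD : ∀ᶠ N in UU, d N = D)
    (hev : ∀ N, Pool.Agent.H72.ES.ev (d N) (F N) (y N + x N ^ (n + 1)) (a N * x N) = 0) :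
    ∑ i ∈ Finset.range (D + 1), ∑ j ∈ Finset.range (D + 1 - i),
      (cl (fun N => (F N i j : ℚ)) : QS) * qz (uu n x y) ^ i * (cl (fun N => (a N : ℚ)) * qz x) ^ j = 0 := by
  have e : ∀ i j, (cl (fun N => (F N i j : ℚ)) : QS) * qz (uu n x y) ^ i * (cl (fun N => (a N : ℚ)) * qz x) ^ j =
      clHom ℚ (fun N => (F N i j : ℚ) * (uu n x y N : ℚ) ^ i * ((a N : ℚ) * (x N : ℚ)) ^ j) := by
    intro i j
    have h1 : (fun N => (F N i j : ℚ) * (uu n x y N : ℚ) ^ i * ((a N : ℚ) * (x N : ℚ)) ^ j) =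
        (fun N => (F N i j : ℚ)) * (fun N => (uu n x y N : ℚ)) ^ i *
          ((fun N => (a N : ℚ)) * (fun N => (x N : ℚ))) ^ j := rfl
    rw [h1, map_mul, map_mul, map_pow, map_pow, map_mul]
    rfl
  simp only [e]
  rw [Finset.sum_congr rfl fun i _ => (map_sum (clHom ℚ) _ _).symm, ← map_sum, clHom_apply, cl_zero, cl_eq]
  filter_upwards [hD] with N hN
  have h2 := hev N
  rw [hN] at h2
  unfold Pool.Agent.H72.ES.ev at h2
  have h3 := congrArg (fun z : ℤ => (z : ℚ)) h2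
  simp only [Int.cast_sum, Int.cast_mul, Int.cast_pow, Int.cast_add, Int.cast_zero] at h3
  rw [Finset.sum_apply]
  rw [← h3]
  refine Finset.sum_congr rfl fun i _ => ?_
  rw [Finset.sum_apply]
  refine Finset.sum_congr rfl fun j _ => ?_
  unfold uu
  push_cast
  ring

theorem sq_int {n : ℕ} {K : ℕ → Subfield ℝ} {H₁ H : ℕ → ℕ} {x y : ℕ → ℤ} (hs : Sq n K H₁ x y)
    (hle : ∀ N, H₁ N ≤ H N) : IsInt (Q0 H) (ul n H x y) (⟨qz x, x_mem H x y⟩ : LL H x y) ∧
      IsInt (Q0 H) (ul n H x y) (⟨qz y, y_mem H x y⟩ : LL H x y) := by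
  have h1 : ∀ N, ∃ (d : ℕ) (F : ℕ → ℕ → ℤ) (a : ℤ), d ≤ n * (n + 1) ∧ F 0 d = 1 ∧
      (∀ i j, |F i j| ≤ (((H₁ N) ^ Pool.Agent.H34.AC.cR n : ℕ) : ℤ)) ∧ a ≠ 0 ∧ |a| ≤ (H₁ N : ℤ) ∧
      Pool.Agent.H72.ES.ev d F (y N + x N ^ (n + 1)) (a * x N) = 0 := by
    intro N
    obtain ⟨hNF, d, b, F, a, Q, i, T, hK, hb, ha0, haH, hev, -⟩ := hs.ty N
    exact ⟨d, F, a, Q.dn, Q.lead, fun i j => (Q.le i j).trans (by exact_mod_cast hb), ha0, haH, hev⟩
  choose d F a hd hlead hF ha0 haH hev using h1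
  obtain ⟨D, -, hD⟩ : ∃ D ∈ Finset.range (n * (n + 1) + 1), ∀ᶠ N in UU, d N = D := by
    refine (Ultrafilter.eventually_exists_mem_iff (f := hyperfilter ℕ) (is := (Finset.range (n * (n + 1) + 1) : Set ℕ))
      (P := fun D N => d N = D) (Finset.finite_toSet _)).1 ?_
    exact Filter.Eventually.of_forall fun N => ⟨d N, by
      rw [Finset.mem_coe, Finset.mem_range]
      exact Nat.lt_succ_of_le (hd N), rfl⟩
  have hSF : ∀ i j, Small H (fun N => (F N i j : ℚ)) := by
    intro i j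
    refine ⟨Pool.Agent.H34.AC.cR n, fun N => ?_⟩
    rw [Rat.num_intCast, Rat.den_intCast]
    constructor
    · have h2 := hF N i j
      rw [Int.abs_eq_natAbs] at h2
      have h3 : (F N i j).natAbs ≤ (H₁ N) ^ Pool.Agent.H34.AC.cR n := by exact_mod_cast h2
      exact h3.trans (Nat.pow_le_pow_left ((hle N).trans (by omega)) _)
    · exact Nat.one_le_pow _ _ (by omega)
  have hSa : Small H (fun N => (a N : ℚ)) := by
    refine ⟨1, fun N => ?_⟩
    rw [Rat.num_intCast, Rat.den_intCast, pow_one]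
    constructor
    · have h2 := haH N
      rw [Int.abs_eq_natAbs] at h2
      have h3 : (a N).natAbs ≤ H₁ N := by exact_mod_cast h2
      exact h3.trans ((hle N).trans (by omega))
    · omega
  obtain ⟨c, hc⟩ : ∃ c : ℕ → ℕ → Q0 H, ∀ i j, ((c i j : Q0 H) : QS) = cl (fun N => (F N i j : ℚ)) :=
    ⟨fun i j => ⟨cl (fun N => (F N i j : ℚ)), _, hSF i j, rfl⟩, fun i j => rfl⟩
  obtain ⟨al, hal⟩ : ∃ al : Q0 H, (al : QS) = cl (fun N => (a N : ℚ)) := ⟨⟨cl (fun N => (a N : ℚ)), _, hSa, rfl⟩, rfl⟩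
  have hal0 : al ≠ 0 := by
    intro h2
    have h3 : (cl (fun N => (a N : ℚ)) : QS) = 0 := by
      rw [← hal, h2]
      rfl
    rw [cl_zero, cl_eq] at h3
    obtain ⟨N, hN⟩ := h3.exists
    exact ha0 N (by exact_mod_cast hN)
  have hl : c 0 D = 1 := by
    apply Subtype.ext
    rw [hc]
    change _ = (1 : QS)
    rw [cl_one, cl_eq]
    filter_upwards [hD] with N hN
    have h2 := hlead N
    rw [hN] at h2
    rw [h2, Int.cast_one]
  have key := sq_gen (L := LL H x y) (u := ul n H x y)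
    (v := algebraMap (Q0 H) (LL H x y) al * (⟨qz x, x_mem H x y⟩ : LL H x y)) (c := c) hl (by
      apply (LL H x y).val.injective
      rw [map_zero, ← sq_pol (n := n) (x := x) (y := y) hD hev, map_sum]
      refine Finset.sum_congr rfl fun i _ => ?_
      rw [map_sum]
      refine Finset.sum_congr rfl fun j _ => ?_
      rw [map_mul, map_mul, map_pow, map_pow, map_mul]
      have e1 : algebraMap (Q0 H) QS (c i j) = cl (fun N => (F N i j : ℚ)) := hc i j
      have e2 : algebraMap (Q0 H) QS al = cl (fun N => (a N : ℚ)) := hal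
      rw [← e1, ← e2]
      rfl)
  have hx : IsInt (Q0 H) (ul n H x y) (⟨qz x, x_mem H x y⟩ : LL H x y) := by
    have e1 : (⟨qz x, x_mem H x y⟩ : LL H x y) = algebraMap (Q0 H) (LL H x y) al⁻¹ *
        (algebraMap (Q0 H) (LL H x y) al * (⟨qz x, x_mem H x y⟩ : LL H x y)) := by
      rw [← mul_assoc, ← map_mul, inv_mul_cancel₀ hal0, map_one, one_mul]
    have e2 : IsInt (Q0 H) (ul n H x y) (algebraMap (Q0 H) (LL H x y) al⁻¹) :=
      isIntegral_algebraMap (R := Algebra.adjoin (Q0 H) {ul n H x y})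
        (x := algebraMap (Q0 H) (Algebra.adjoin (Q0 H) {ul n H x y}) al⁻¹)
    rw [e1]
    exact IsIntegral.mul e2 key
  refine ⟨hx, ?_⟩
  have e3 : (⟨qz y, y_mem H x y⟩ : LL H x y) = ul n H x y - (⟨qz x, x_mem H x y⟩ : LL H x y) ^ (n + 1) := by
    apply (LL H x y).val.injective
    rw [map_sub, map_pow]
    change qz y = qz (uu n x y) - qz x ^ (n + 1)
    rw [qz_uu]
    ring
  have e4 : IsInt (Q0 H) (ul n H x y) (ul n H x y) :=
    isIntegral_algebraMap (R := Algebra.adjoin (Q0 H) {ul n H x y})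
      (x := ⟨ul n H x y, Algebra.self_mem_adjoin_singleton _ _⟩)
  rw [e3]
  exact IsIntegral.sub e4 (IsIntegral.pow hx (n + 1))

private theorem sq_alg {k L : Type} [Field k] [Field L] [Algebra k L] {u v : L} (h : IsInt k u v) :
    IsIntegral k⟮u⟯ v := by
  obtain ⟨p, hp, hpv⟩ := h
  have hle : ∀ z : Algebra.adjoin k {u}, (z : L) ∈ k⟮u⟯ := fun z =>
    IntermediateField.algebra_adjoin_le_adjoin k {u} z.2
  refine ⟨p.map ((Algebra.adjoin k {u}).toSubring.subtype.codRestrict k⟮u⟯.toSubring hle), hp.map _, ?_⟩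
  rw [Polynomial.eval₂_map]
  exact hpv

theorem sq_ff {n : ℕ} {K : ℕ → Subfield ℝ} {H₁ H : ℕ → ℕ} {x y : ℕ → ℤ} (hs : Sq n K H₁ x y)
    (hle : ∀ N, H₁ N ≤ H N) (hb : Bg H (uu n x y)) : FF (Q0 H) (ul n H x y) := by
  obtain ⟨hx, hy⟩ := sq_int hs hle
  refine ⟨?_, ?_⟩
  · intro h
    exact bg_tr hb (h.algHom (LL H x y).val)
  · have htop : IntermediateField.adjoin (Q0 H)⟮ul n H x y⟯
        {(⟨qz x, x_mem H x y⟩ : LL H x y), (⟨qz y, y_mem H x y⟩ : LL H x y)} = ⊤ := by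
      rw [eq_top_iff]
      intro z _
      have h1 : (IntermediateField.adjoin (Q0 H)
          {(⟨qz x, x_mem H x y⟩ : LL H x y), (⟨qz y, y_mem H x y⟩ : LL H x y)}).map (LL H x y).val = LL H x y := by
        rw [IntermediateField.adjoin_map, Set.image_pair]
        rfl
      have h2 : (z : QS) ∈ (IntermediateField.adjoin (Q0 H)
          {(⟨qz x, x_mem H x y⟩ : LL H x y), (⟨qz y, y_mem H x y⟩ : LL H x y)}).map (LL H x y).val := by
        rw [h1]
        exact z.2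
      obtain ⟨w, hw, hwz⟩ := h2
      have h3 : w = z := Subtype.ext hwz
      rw [h3] at hw
      have h4 : IntermediateField.adjoin (Q0 H)
          {(⟨qz x, x_mem H x y⟩ : LL H x y), (⟨qz y, y_mem H x y⟩ : LL H x y)} ≤
          (IntermediateField.adjoin (Q0 H)⟮ul n H x y⟯
            {(⟨qz x, x_mem H x y⟩ : LL H x y), (⟨qz y, y_mem H x y⟩ : LL H x y)}).restrictScalars (Q0 H) := by
        rw [IntermediateField.adjoin_le_iff]
        intro t ht
        exact IntermediateField.subset_adjoin _ _ ht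
      exact h4 hw
    have hfin := IntermediateField.finiteDimensional_adjoin_pair (sq_alg hx) (sq_alg hy)
    rw [htop] at hfin
    exact (IntermediateField.topEquiv (F := (Q0 H)⟮ul n H x y⟯) (E := LL H x y)).toLinearEquiv.finiteDimensional

theorem sq_uni {n : ℕ} {K : ℕ → Subfield ℝ} {H₁ H : ℕ → ℕ} {x y : ℕ → ℤ} (hs : Sq n K H₁ x y)
    (hle : ∀ N, H₁ N ≤ H N) (hb : Bg H (uu n x y)) : Ov (Q0 H) (OO H x y) ∧ ul n H x y ∉ OO H x y ∧
      ∀ W : ValuationSubring (LL H x y), Ov (Q0 H) W → ul n H x y ∉ W → W = OO H x y := by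
  have h1 : (ul n H x y : QS) ∉ V0 H := bg_v0 hb
  refine ⟨fun e => ?_, fun h => ?_, fun W hW hu => ?_⟩
  · unfold OO
    rw [ValuationSubring.mem_comap]
    exact sq_q0v e.2
  · unfold OO at h
    rw [ValuationSubring.mem_comap] at h
    exact h1 h
  · exact uni H (LL H x y) (ul n H x y) (mem_zs.2 ⟨uu n x y, rfl⟩) h1 (sq_ff hs hle hb) W hW hu

theorem sq_cl (H : ℕ → ℕ) (x y : ℕ → ℤ) : RelCl (Q0 H) (LL H x y) := by
  intro z hz
  have h1 : (z : QS) ∈ Q0 H := q0_alg H _ (hz.algHom (LL H x y).val)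
  exact ⟨⟨(z : QS), h1⟩, Subtype.ext rfl⟩

end Pool.Agent.H8.OA
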