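import Pool.Agent.H12.OG.Gqu

/-! # [H8 OA GUN] Absolutely invariant functions

`AInv k ξ g u`: `u` is integral over `k[ξ]`, and `m u = l u` for all linked embeddings `l, m` into all algebraically closed fields which are algebraic over `k(l ξ)`.
`ainv_of`: it is enough to know it for one embedding `l₀ : L₁ → Ω₀`. Let `l, m : L₁ →ₐ[k] Ω` be linked. `Ω` is an algebraic closure of `L₁` through `l` and `Ω₀` is one through `l₀` (`FF k ξ`: algebraic over `k(l ξ)`, so over `l(L₁)`), so there is a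
`k`-isomorphism `φ : Ω ≃ₐ[k] Ω₀` with `φ ∘ l = l₀` (`IsAlgClosure.equiv` with the algebra structures `l.toAlgebra`, `l₀.toAlgebra`; compare the proof of `exists_aut'` in H12/OG/Gau.lean). `m₀ = φ ∘ m` is linked with `l₀` (as in `GLink.map` in H12/OG/Gln.lean: `V.comap φ`),
so `φ (m u) = l₀ u = φ (l u)`.
`gquo_un`: `gquo` for `Ω₀ = AlgebraicClosure L₁`, `l₀` the inclusion, and `ainv_of` for `u` and `w`. -/

namespace Pool.Agent.H8.OA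

open Pool.Agent.H12.ON Pool.Agent.H12.OG Pool.Agent.H82.NS IntermediateField

/-- absolutely invariant functions -/
def AInv (k : Type) {L₁ : Type} [Field k] [Field L₁] [Algebra k L₁] (ξ g u : L₁) : Prop :=
  IsInt k ξ u ∧ ∀ (Ω : Type) [Field Ω] [IsAlgClosed Ω] [Algebra k Ω] (l m : L₁ →ₐ[k] Ω),
    Algebra.IsAlgebraic k⟮l ξ⟯ Ω → GLink ξ g l m → m u = l u

private theorem gun_alg {k Ω : Type} [Field k] [Field Ω] [Algebra k Ω] {x : Ω}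
    (hΩ : Algebra.IsAlgebraic k⟮x⟯ Ω) {A : Subalgebra k Ω}
    (hx : x ∈ A) : Algebra.IsAlgebraic A Ω := by
  have h1 : Algebra.IsAlgebraic (Algebra.adjoin k {x}) Ω := isAlgebraic_adjoin_iff_top.1 hΩ
  have hle : Algebra.adjoin k {x} ≤ A := Algebra.adjoin_le (Set.singleton_subset_iff.2 hx)
  let _ : Algebra (Algebra.adjoin k {x}) A := (Subalgebra.inclusion hle).toRingHom.toAlgebra
  have : IsScalarTower (Algebra.adjoin k {x}) A Ω := IsScalarTower.of_algebraMap_eq fun _ => rfl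
  exact h1.extendScalars (Subalgebra.inclusion_injective hle)

private theorem gun_iso {k L₁ Ω Ω₀ : Type} [Field k] [Field L₁] [Field Ω] [Field Ω₀]
    [IsAlgClosed Ω] [IsAlgClosed Ω₀] [Algebra k L₁] [Algebra k Ω] [Algebra k Ω₀] {ξ : L₁}
    (l : L₁ →ₐ[k] Ω) (l₀ : L₁ →ₐ[k] Ω₀) (hΩ : Algebra.IsAlgebraic k⟮l ξ⟯ Ω)
    (hΩ₀ : Algebra.IsAlgebraic k⟮l₀ ξ⟯ Ω₀) :
    ∃ φ : Ω ≃ₐ[k] Ω₀, ∀ p, φ (l p) = l₀ p := by
  obtain ⟨e, he⟩ : ∃ e : l.range ≃+* l₀.range,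
      ∀ p, ((e ⟨l p, ⟨p, rfl⟩⟩ : l₀.range) : Ω₀) = l₀ p := by
    let e1 : L₁ ≃ₐ[k] l.range := AlgEquiv.ofInjective l l.injective
    let e2 : L₁ ≃ₐ[k] l₀.range := AlgEquiv.ofInjective l₀ l₀.injective
    refine ⟨(e1.symm.trans e2).toRingEquiv, fun p => ?_⟩
    have h3 : e1.symm ⟨l p, ⟨p, rfl⟩⟩ = p := by
      rw [AlgEquiv.symm_apply_eq]
      rfl
    change ((e2 (e1.symm ⟨l p, ⟨p, rfl⟩⟩) : l₀.range) : Ω₀) = l₀ p
    rw [h3]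
    rfl
  have hA1 : Algebra.IsAlgebraic l.range Ω := gun_alg hΩ ⟨ξ, rfl⟩
  have hA2 : Algebra.IsAlgebraic l₀.range Ω₀ := gun_alg hΩ₀ ⟨ξ, rfl⟩
  have hc1 : IsAlgClosure l.range Ω := ⟨inferInstance, hA1⟩
  have hc2 : IsAlgClosure l₀.range Ω₀ := ⟨inferInstance, hA2⟩
  obtain ⟨σ, hσ⟩ : ∃ σ : Ω ≃+* Ω₀, ∀ p, σ (l p) = l₀ p := by
    refine ⟨IsAlgClosure.equivOfEquiv Ω Ω₀ e, fun p => ?_⟩
    have h3 := IsAlgClosure.equivOfEquiv_algebraMap Ω Ω₀ e ⟨l p, ⟨p, rfl⟩⟩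
    have h4 : algebraMap l₀.range Ω₀ (e ⟨l p, ⟨p, rfl⟩⟩) = l₀ p := he p
    rw [h4] at h3
    exact h3
  refine ⟨AlgEquiv.ofRingEquiv (f := σ) fun c => ?_, ?_⟩
  · have h3 := hσ (algebraMap k _ c)
    rw [AlgHom.commutes, AlgHom.commutes] at h3
    exact h3
  · intro p
    exact hσ p

private theorem gun_map {k L₁ Ω Ω₀ : Type} [Field k] [Field L₁] [Field Ω] [Field Ω₀]
    [Algebra k L₁] [Algebra k Ω] [Algebra k Ω₀] {ξ g : L₁}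
    {l m : L₁ →ₐ[k] Ω} (h : GLink ξ g l m) (σ : Ω ≃ₐ[k] Ω₀) :
    GLink ξ g ((σ : Ω →ₐ[k] Ω₀).comp l) ((σ : Ω →ₐ[k] Ω₀).comp m) := by
  intro V hV
  have hV' : Ov k (V.comap (σ : Ω →+* Ω₀)) := by
    intro e
    rw [ValuationSubring.mem_comap]
    have h1 : (σ : Ω →+* Ω₀) (algebraMap k Ω e) = algebraMap k Ω₀ e := σ.commutes e
    rw [h1]
    exact hV e
  have hm : ∀ x : Ω, x ∈ V.comap (σ : Ω →+* Ω₀) ↔ σ x ∈ V := fun x => Iff.rfl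
  have hn : ∀ x : Ω, x ∈ (V.comap (σ : Ω →+* Ω₀)).nonunits → σ x ∈ V.nonunits := by
    intro x hx
    rw [ValuationSubring.mem_nonunits_iff_or] at hx ⊢
    rcases hx with hx | hx
    · left
      rw [hx, map_zero]
    · right
      rw [hm, map_inv₀] at hx
      exact hx
  obtain ⟨h1, h2⟩ := h _ hV'
  refine ⟨h1, fun hP => ?_⟩
  obtain ⟨h3, h4, h5⟩ := h2 hP
  have h6 := hn _ h5
  rw [hm, map_div₀] at h3 h4
  rw [map_sub] at h6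
  exact ⟨h3, h4, h6⟩

theorem ainv_of {k L₁ Ω₀ : Type} [Field k] [CharZero k] [Field L₁] [Field Ω₀] [IsAlgClosed Ω₀] [Algebra k L₁]
    [Algebra k Ω₀] {ξ g u : L₁} (hK : FF k ξ) (l₀ : L₁ →ₐ[k] Ω₀) (hΩ : Algebra.IsAlgebraic k⟮l₀ ξ⟯ Ω₀)
    (hu : Inv ξ g l₀ u) : AInv k ξ g u := by
  have _ := hK
  refine ⟨hu.1, ?_⟩
  intro Ω _ _ _ l m hΩl h
  obtain ⟨φ, hφ⟩ := gun_iso (ξ := ξ) l l₀ hΩl hΩ
  have h1 := gun_map h φ
  have h2 : (φ : Ω →ₐ[k] Ω₀).comp l = l₀ := by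
    ext p
    exact hφ p
  rw [h2] at h1
  have h3 : φ (m u) = l₀ u := hu.2 _ h1
  have h4 : φ (m u) = φ (l u) := by rw [h3, hφ u]
  exact φ.injective h4

theorem gquo_un {k L₁ : Type} [Field k] [CharZero k] [Field L₁] [Algebra k L₁] {ξ g : L₁} (hK : FF k ξ)
    {O : ValuationSubring L₁} (hk : Ov k O) (hξ : ξ ∉ O)
    (hO : ∀ W : ValuationSubring L₁, Ov k W → ξ ∉ W → W = O) (hg : g ∈ O)
    (hfin : ∀ (Ω : Type) [Field Ω] [IsAlgClosed Ω] [Algebra k Ω] (l : L₁ →ₐ[k] Ω),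
      Algebra.IsAlgebraic k⟮l ξ⟯ Ω → (GCls ξ g l).Finite) :
    ∃ (u w : L₁) (κ : ℕ), AInv k ξ g u ∧ AInv k ξ g w ∧ Transcendental k u ∧ w / u ^ κ - g ∈ O.nonunits := by
  obtain ⟨l₀, hl₀⟩ : ∃ l₀ : L₁ →ₐ[k] AlgebraicClosure L₁,
      ∀ x, l₀ x = algebraMap L₁ (AlgebraicClosure L₁) x :=
    ⟨IsScalarTower.toAlgHom k L₁ (AlgebraicClosure L₁), fun x => rfl⟩
  have hfd : FiniteDimensional k⟮ξ⟯ L₁ := hK.fin
  have hΩ : Algebra.IsAlgebraic k⟮l₀ ξ⟯ (AlgebraicClosure L₁) := by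
    have h1 : Algebra.IsAlgebraic k⟮ξ⟯ L₁ := Algebra.IsAlgebraic.of_finite _ _
    have h2 : Algebra.IsAlgebraic k⟮ξ⟯ (AlgebraicClosure L₁) :=
      Algebra.IsAlgebraic.trans k⟮ξ⟯ L₁ (AlgebraicClosure L₁)
    have hmem : ∀ x : k⟮ξ⟯, algebraMap L₁ (AlgebraicClosure L₁) (x : L₁) ∈ k⟮l₀ ξ⟯ := by
      intro x
      have h3 : k⟮ξ⟯.map l₀ = k⟮l₀ ξ⟯ := by
        rw [IntermediateField.adjoin_map, Set.image_singleton]
      rw [← h3, ← hl₀]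
      exact ⟨x, x.2, rfl⟩
    let f : k⟮ξ⟯ →+* k⟮l₀ ξ⟯ :=
      { toFun := fun x => ⟨algebraMap L₁ (AlgebraicClosure L₁) (x : L₁), hmem x⟩
        map_one' := by ext; simp
        map_mul' := fun x y => by ext; simp
        map_zero' := by ext; simp
        map_add' := fun x y => by ext; simp }
    refine ⟨fun z => ?_⟩
    have h4 := h2.isAlgebraic z
    exact h4.ringHom_of_comp_eq f (RingHom.id (AlgebraicClosure L₁)) f.injective (by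
      ext x
      rfl)
  obtain ⟨u, w, κ, hu, hw, ht, hκ⟩ := gquo hK hk hξ hO hg l₀ hΩ (hfin _ l₀ hΩ)
  exact ⟨u, w, κ, ainv_of hK l₀ hΩ hu, ainv_of hK l₀ hΩ hw, ht, hκ⟩

end Pool.Agent.H8.OA
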