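import Pool.Agent.H12.OG.Def
import Pool.Agent.H8.OA.LDa

/-! # [H8 OA SZD] The relation of linked pairs (definition; proved by helper85, G1-G8)

`SZero k ξ g`: there is a nonzero element `∑ c_i ⊗ d_i` of `L₁ ⊗_k L₁` which vanishes at all pairs `(l, m)` of embeddings which are linked over a larger constant field `E`. -/

namespace Pool.Agent.H8.OA

open Pool.Agent.H12.ON

/-- the relation of linked pairs -/
def SZero (k : Type) {L₁ : Type} [Field k] [Field L₁] [Algebra k L₁] (ξ g : L₁) : Prop :=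
  ∃ (ι : Type) (_ : Fintype ι) (c d : ι → L₁), LinearIndependent k c ∧ (∃ i, d i ≠ 0) ∧
    ∀ (E Ω : Type) [Field E] [Field Ω] [IsAlgClosed Ω] [Algebra k E] [Algebra E Ω] [Algebra k Ω]
      [IsScalarTower k E Ω] (l m : L₁ →ₐ[k] Ω), Transcendental E (l ξ) →
      (∀ V : ValuationSubring Ω, Ov E V → (l ξ ∈ V ↔ m ξ ∈ V) ∧
        (l ξ ∉ V → l ξ / m ξ ∈ V ∧ m ξ / l ξ ∈ V ∧ l g - m g ∈ V.nonunits)) →
      ∑ i, l (c i) * m (d i) = 0

end Pool.Agent.H8.OA
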