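import Pool.Agent.H8.OA.Ty

/-! # [H8 OA TY2] A small generator, its minimal polynomial, and the approximating rational function, for a point with a type

`Sg K B r`: the real number `r` lies in `K`, generates `K`, is integral over `ℤ`, and all its conjugates are at most `B`.
`ty_gen`: `gen` (H8/OA/Gen.lean) for `n(n+1)`, `b ≤ H^(cR n)`. `sg_poly`: `P = minpoly ℤ r` (Gauss lemma: `minpoly.isIntegrallyClosed_eq_field_fractions'`), the coefficients are elementary symmetric functions of the conjugates `φ r` (`P = ∏_φ (X - φ r)` over `ℂ`), at most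
`(B+1)^[K:ℚ]`; `[K:ℚ] ≤ [EQ Q i : ℚ] ≤ d ≤ n(n+1)` by `gen_mem`, `gen_deg` (H8/OA/Gen1.lean). `ty_g`: `res` (H8/OA/Res.lean) for `n(n+1)`, `B`, `la`: `A, D` in the coordinates `(u,v) = (y + x^(n+1), a x)`; `kap i la = la` real; substitute: `A' = A(y + x^(n+1), a x)` (`MvPolynomial.aeval`), degree `≤ C (n+1)`, coefficients: `A = ∑ A_m u^(m 0) v^(m 1)`, at most
`(C+1)²` monomials, each contributing at most `2^C |a|^C |A_m|`; all is `≤ (H B)^(C')` (`H ≥ 2`: from `b ≤ H^(cR n)` and `2 ≤ b`). -/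

namespace Pool.Agent.H8.OA

open Finset Polynomial Pool.Agent.H34.AC Pool.Agent.H52.AC

/-- `r` is an integral generator of `K` all of whose conjugates are at most `B` -/
def Sg (K : Subfield ℝ) (B : ℕ) (r : ℝ) : Prop :=
  ∃ h : r ∈ K, IsIntegral ℤ (⟨r, h⟩ : K) ∧ IntermediateField.adjoin ℚ {(⟨r, h⟩ : K)} = ⊤ ∧
    ∀ φ : K →+* ℂ, ‖φ ⟨r, h⟩‖ ≤ B

private theorem h2_of {b H c : ℕ} (hb : 2 ≤ b) (h : b ≤ H ^ c) : 2 ≤ H := by
  by_contra hcon
  have h1 : H ^ c ≤ 1 := pow_le_one₀ (Nat.zero_le _) (by omega)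
  omega

theorem ty_gen (n : ℕ) : ∃ C : ℕ, ∀ (K : Subfield ℝ) (H : ℕ) (x y : ℤ), Ty n K H x y → ∃ r : ℝ, Sg K (H ^ C) r := by
  obtain ⟨C, hC⟩ := gen (n * (n + 1))
  refine ⟨cR n * C, ?_⟩
  rintro K H x y ⟨hNF, d, b, F, a, Q, i, T, -, hb, -, -, -, -, -, hi, -, -⟩
  obtain ⟨la, h1, h2, h3⟩ := hC K d b F Q i K.subtype hi
  refine ⟨(la : ℝ), la.2, h1, ?_, ?_⟩
  · convert h2
  · intro φ
    refine (h3 φ).trans ?_
    have h4 : b ^ C ≤ H ^ (cR n * C) := by
      rw [pow_mul]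
      exact Nat.pow_le_pow_left hb C
    exact_mod_cast h4

theorem sg_poly (n : ℕ) {K : Subfield ℝ} {H : ℕ} {x y : ℤ} (hT : Ty n K H x y) {B : ℕ} {r : ℝ} (h : Sg K B r) :
    ∃ P : ℤ[X], P.Monic ∧ Irreducible (P.map (Int.castRingHom ℚ)) ∧ 3 ≤ P.natDegree ∧
      P.natDegree = Module.finrank ℚ K ∧ P.natDegree ≤ n * (n + 1) ∧ aeval r P = 0 ∧
      ∀ i, |P.coeff i| ≤ ((B + 1 : ℕ) : ℤ) ^ (n * (n + 1)) := by
  obtain ⟨hNF, d, b, F, a, Q, i, T, h3, hb, -, -, -, -, -, hi, -, -⟩ := hT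
  obtain ⟨hr, hint, hgen, hbd⟩ := h
  obtain ⟨la, hla⟩ : ∃ la : K, la = ⟨r, hr⟩ := ⟨_, rfl⟩
  rw [← hla] at hint hgen hbd
  have hq : minpoly ℚ la = (minpoly ℤ la).map (algebraMap ℤ ℚ) :=
    minpoly.isIntegrallyClosed_eq_field_fractions' ℚ hint
  have hqi : IsIntegral ℚ la := hint.tower_top
  have hmon := minpoly.monic hint
  have hdeg : (minpoly ℤ la).natDegree = Module.finrank ℚ K := by
    have h4 : (minpoly ℚ la).natDegree = Module.finrank ℚ K := by
      have h5 := IntermediateField.adjoin.finrank hqi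
      rw [← h5, hgen]
      exact IntermediateField.finrank_top'
    rw [← h4, hq, hmon.natDegree_map]
  have hdn : (minpoly ℤ la).natDegree ≤ n * (n + 1) := by
    obtain ⟨hNF2, hdeg2, -⟩ := gen_deg Q i
    obtain ⟨f, -⟩ : ∃ f : K →+* EQ Q i, ∀ x, ((f x : EQ Q i) : ℂ) = Q.kp.kap i x :=
      ⟨(Q.kp.kap i).codRestrict (EQ Q i) (gen_mem Q hi), fun x => rfl⟩
    rw [hdeg]
    refine le_trans ?_ (hdeg2.trans Q.dn)
    exact LinearMap.finrank_le_finrank_of_injective (f := f.toRatAlgHom.toLinearMap) f.injective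
  refine ⟨minpoly ℤ la, hmon, ?_, ?_, hdeg, hdn, ?_, ?_⟩
  · have h4 := minpoly.irreducible hqi
    rw [hq] at h4
    exact h4
  · rw [hdeg]
    exact h3
  · have h4 := congrArg K.subtype (minpoly.aeval ℤ la)
    rw [map_zero] at h4
    have h5 : K.subtype (aeval la (minpoly ℤ la)) = aeval (K.subtype la) (minpoly ℤ la) := by
      rw [aeval_def, aeval_def, hom_eval₂]
      congr 1
    rw [h5] at h4
    rw [hla] at h4 ⊢
    exact h4
  · intro j
    have h4 : ‖((minpoly ℤ la).map (Int.castRingHom ℂ)).coeff j‖ ≤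
        (B : ℝ) ^ ((minpoly ℤ la).natDegree - j) * (minpoly ℤ la).natDegree.choose j := by
      refine coeff_le_of_roots_le j hmon (IsAlgClosed.splits _) fun z hz => ?_
      have h5 : (minpoly ℤ la).map (Int.castRingHom ℂ) = (minpoly ℚ la).map (algebraMap ℚ ℂ) := by
        rw [hq, Polynomial.map_map]
        congr 1
      rw [h5] at hz
      have h6 : z ∈ (minpoly ℚ la).rootSet ℂ := by
        rw [mem_rootSet_of_ne (minpoly.ne_zero hqi)]
        have h7 := (mem_roots'.1 hz).2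
        rw [IsRoot.def, eval_map_algebraMap] at h7
        exact h7
      rw [← NumberField.Embeddings.range_eval_eq_rootSet_minpoly K ℂ la] at h6
      obtain ⟨φ, rfl⟩ := h6
      exact hbd φ
    rw [coeff_map, eq_intCast, Complex.norm_intCast] at h4
    have h5 : B ^ ((minpoly ℤ la).natDegree - j) * (minpoly ℤ la).natDegree.choose j ≤ (B + 1) ^ (n * (n + 1)) := by
      by_cases hj : j ≤ (minpoly ℤ la).natDegree
      · calc B ^ ((minpoly ℤ la).natDegree - j) * (minpoly ℤ la).natDegree.choose j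
            ≤ (B + 1) ^ (minpoly ℤ la).natDegree := by
              rw [add_pow]
              have h6 := Finset.single_le_sum (s := Finset.range ((minpoly ℤ la).natDegree + 1))
                (f := fun m => B ^ m * 1 ^ ((minpoly ℤ la).natDegree - m) * (minpoly ℤ la).natDegree.choose m)
                (fun _ _ => Nat.zero_le _) (Finset.mem_range.2 (by omega : (minpoly ℤ la).natDegree - j < _))
              refine le_trans ?_ h6
              show _ ≤ B ^ ((minpoly ℤ la).natDegree - j) * 1 ^ _ * (minpoly ℤ la).natDegree.choose ((minpoly ℤ la).natDegree - j)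
              rw [one_pow, mul_one, Nat.choose_symm hj]
          _ ≤ (B + 1) ^ (n * (n + 1)) := Nat.pow_le_pow_right (by omega) hdn
      · rw [Nat.choose_eq_zero_of_lt (by omega), mul_zero]
        exact Nat.zero_le _
    have h6 : (|(minpoly ℤ la).coeff j| : ℝ) ≤ ((B + 1) ^ (n * (n + 1)) : ℕ) := h4.trans (by exact_mod_cast h5)
    have h7 : |(minpoly ℤ la).coeff j| ≤ (((B + 1) ^ (n * (n + 1)) : ℕ) : ℤ) := by exact_mod_cast h6
    push_cast at h7 ⊢
    exact h7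

/-- majorants -/
private def Nb (c : ℤ) (p : MvPolynomial (Fin 2) ℤ) : Prop :=
  ∃ P : MvPolynomial (Fin 2) ℤ, (∀ m, |p.coeff m| ≤ P.coeff m) ∧ MvPolynomial.eval (fun _ => 1) P = c

private theorem nb_coeff {c : ℤ} {p : MvPolynomial (Fin 2) ℤ} (h : Nb c p) (m : Fin 2 →₀ ℕ) : |p.coeff m| ≤ c := by
  obtain ⟨P, h1, rfl⟩ := h
  have h0 : ∀ m, 0 ≤ P.coeff m := fun m => (abs_nonneg _).trans (h1 m)
  refine (h1 m).trans ?_
  rw [MvPolynomial.eval_eq]
  by_cases hm : m ∈ P.support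
  · have h2 := Finset.single_le_sum (s := P.support) (f := fun d => P.coeff d * ∏ i ∈ d.support, (1 : ℤ) ^ d i)
      (fun d _ => by simpa using h0 d) hm
    simpa using h2
  · rw [MvPolynomial.notMem_support_iff.1 hm]
    exact Finset.sum_nonneg fun d _ => by simpa using h0 d

private theorem nb_add {c d : ℤ} {p q : MvPolynomial (Fin 2) ℤ} (hp : Nb c p) (hq : Nb d q) : Nb (c + d) (p + q) := by
  obtain ⟨P, h1, rfl⟩ := hp
  obtain ⟨Q, h2, rfl⟩ := hq
  refine ⟨P + Q, fun m => ?_, map_add _ _ _⟩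
  rw [MvPolynomial.coeff_add, MvPolynomial.coeff_add]
  exact (abs_add_le _ _).trans (add_le_add (h1 m) (h2 m))

private theorem nb_mul {c d : ℤ} {p q : MvPolynomial (Fin 2) ℤ} (hp : Nb c p) (hq : Nb d q) : Nb (c * d) (p * q) := by
  classical
  obtain ⟨P, h1, rfl⟩ := hp
  obtain ⟨Q, h2, rfl⟩ := hq
  refine ⟨P * Q, fun m => ?_, map_mul _ _ _⟩
  rw [MvPolynomial.coeff_mul, MvPolynomial.coeff_mul]
  refine (Finset.abs_sum_le_sum_abs _ _).trans (Finset.sum_le_sum fun u _ => ?_)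
  rw [abs_mul]
  exact mul_le_mul (h1 _) (h2 _) (abs_nonneg _) ((abs_nonneg _).trans (h1 _))

private theorem nb_C (a : ℤ) : Nb |a| (MvPolynomial.C a) := by
  classical
  refine ⟨MvPolynomial.C |a|, fun m => ?_, MvPolynomial.eval_C _⟩
  rw [MvPolynomial.coeff_C, MvPolynomial.coeff_C]
  split_ifs <;> simp

private theorem nb_X (i : Fin 2) : Nb 1 (MvPolynomial.X i) := by
  classical
  refine ⟨MvPolynomial.X i, fun m => ?_, MvPolynomial.eval_X _⟩
  rw [MvPolynomial.coeff_X]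
  split_ifs <;> simp

private theorem nb_pow {c : ℤ} {p : MvPolynomial (Fin 2) ℤ} (hp : Nb c p) (k : ℕ) : Nb (c ^ k) (p ^ k) := by
  induction k with
  | zero =>
    rw [pow_zero, pow_zero]
    have h := nb_C 1
    rw [abs_one, map_one] at h
    exact h
  | succ k ih =>
    rw [pow_succ, pow_succ]
    exact nb_mul ih hp

private theorem nb_sum {ι : Type} (s : Finset ι) (c : ι → ℤ) (p : ι → MvPolynomial (Fin 2) ℤ)
    (h : ∀ i ∈ s, Nb (c i) (p i)) : Nb (∑ i ∈ s, c i) (∑ i ∈ s, p i) := by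
  classical
  induction s using Finset.induction_on with
  | empty =>
    rw [Finset.sum_empty, Finset.sum_empty]
    have h := nb_C 0
    rw [abs_zero, map_zero] at h
    exact h
  | insert a s ha ih =>
    rw [Finset.sum_insert ha, Finset.sum_insert ha]
    exact nb_add (h a (Finset.mem_insert_self a s)) (ih fun i hi => h i (Finset.mem_insert_of_mem hi))

/-- the substitution -/
private noncomputable def sb (n : ℕ) (a : ℤ) (p : MvPolynomial (Fin 2) ℤ) : MvPolynomial (Fin 2) ℤ :=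
  MvPolynomial.aeval (![MvPolynomial.X 1 + MvPolynomial.X 0 ^ (n + 1), MvPolynomial.C a * MvPolynomial.X 0] :
    Fin 2 → MvPolynomial (Fin 2) ℤ) p

private theorem sb_eq (n : ℕ) (a : ℤ) (p : MvPolynomial (Fin 2) ℤ) : sb n a p =
    ∑ m ∈ p.support, MvPolynomial.C (p.coeff m) * ((MvPolynomial.X 1 + MvPolynomial.X 0 ^ (n + 1)) ^ (m 0) *
      (MvPolynomial.C a * MvPolynomial.X 0) ^ (m 1)) := by
  unfold sb
  conv_lhs => rw [MvPolynomial.as_sum p]
  rw [map_sum]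
  refine Finset.sum_congr rfl fun m _ => ?_
  rw [MvPolynomial.aeval_monomial, Finsupp.prod_fintype _ _ (fun _ => pow_zero _), Fin.prod_univ_two]
  rfl

private theorem sb_eval (n : ℕ) (a x y : ℤ) (p : MvPolynomial (Fin 2) ℤ) :
    MvPolynomial.eval ![x, y] (sb n a p) = MvPolynomial.eval ![y + x ^ (n + 1), a * x] p := by
  have h1 : (MvPolynomial.eval ![x, y]).comp (MvPolynomial.aeval
      (![MvPolynomial.X 1 + MvPolynomial.X 0 ^ (n + 1), MvPolynomial.C a * MvPolynomial.X 0] :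
        Fin 2 → MvPolynomial (Fin 2) ℤ)).toRingHom = MvPolynomial.eval ![y + x ^ (n + 1), a * x] := by
    apply MvPolynomial.ringHom_ext
    · intro r
      simp
    · intro j
      fin_cases j <;> simp
  exact RingHom.congr_fun h1 p

private theorem mdeg {p : MvPolynomial (Fin 2) ℤ} {C : ℕ} (hp : p.totalDegree ≤ C) {m : Fin 2 →₀ ℕ}
    (hm : m ∈ p.support) : m 0 + m 1 ≤ C := by
  have h := MvPolynomial.le_totalDegree hm
  rw [Finsupp.sum_fintype _ _ (fun _ => rfl), Fin.sum_univ_two] at h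
  exact h.trans hp

private theorem sb_deg (n : ℕ) (a : ℤ) {p : MvPolynomial (Fin 2) ℤ} {C : ℕ} (hp : p.totalDegree ≤ C) :
    (sb n a p).totalDegree ≤ C * (n + 1) := by
  rw [sb_eq]
  refine MvPolynomial.totalDegree_finsetSum_le fun m hm => ?_
  have h0 := mdeg hp hm
  have h1 : (MvPolynomial.X 1 + MvPolynomial.X 0 ^ (n + 1) : MvPolynomial (Fin 2) ℤ).totalDegree ≤ n + 1 := by
    refine (MvPolynomial.totalDegree_add _ _).trans (max_le ?_ ?_)
    · rw [MvPolynomial.totalDegree_X]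
      omega
    · refine (MvPolynomial.totalDegree_pow _ _).trans ?_
      rw [MvPolynomial.totalDegree_X, mul_one]
  have h2 : (MvPolynomial.C a * MvPolynomial.X 0 : MvPolynomial (Fin 2) ℤ).totalDegree ≤ n + 1 := by
    refine (MvPolynomial.totalDegree_mul _ _).trans ?_
    rw [MvPolynomial.totalDegree_C, MvPolynomial.totalDegree_X]
    omega
  refine (MvPolynomial.totalDegree_mul _ _).trans ?_
  rw [MvPolynomial.totalDegree_C, zero_add]
  refine (MvPolynomial.totalDegree_mul _ _).trans ?_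
  have h3 := (MvPolynomial.totalDegree_pow (MvPolynomial.X 1 + MvPolynomial.X 0 ^ (n + 1) : MvPolynomial (Fin 2) ℤ)
    (m 0)).trans (Nat.mul_le_mul_left (m 0) h1)
  have h4 := (MvPolynomial.totalDegree_pow (MvPolynomial.C a * MvPolynomial.X 0 : MvPolynomial (Fin 2) ℤ)
    (m 1)).trans (Nat.mul_le_mul_left (m 1) h2)
  calc _ ≤ m 0 * (n + 1) + m 1 * (n + 1) := Nat.add_le_add h3 h4
    _ = (m 0 + m 1) * (n + 1) := by ring
    _ ≤ C * (n + 1) := Nat.mul_le_mul_right _ h0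

private theorem supp_card {p : MvPolynomial (Fin 2) ℤ} {C : ℕ} (hp : p.totalDegree ≤ C) :
    p.support.card ≤ (C + 1) * (C + 1) := by
  classical
  have h1 : p.support ⊆ (Finset.range (C + 1) ×ˢ Finset.range (C + 1)).image
      (fun u : ℕ × ℕ => (Finsupp.single 0 u.1 + Finsupp.single 1 u.2 : Fin 2 →₀ ℕ)) := by
    intro m hm
    have h0 := mdeg hp hm
    refine Finset.mem_image.2 ⟨(m 0, m 1), ?_, ?_⟩
    · exact Finset.mem_product.2 ⟨Finset.mem_range.2 (by show m 0 < C + 1; omega),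
        Finset.mem_range.2 (by show m 1 < C + 1; omega)⟩
    · ext i
      fin_cases i <;> simp
  refine (Finset.card_le_card h1).trans (Finset.card_image_le.trans ?_)
  rw [Finset.card_product, Finset.card_range]

private theorem sb_nb (n : ℕ) {a : ℤ} {p : MvPolynomial (Fin 2) ℤ} {C : ℕ} (hp : p.totalDegree ≤ C) {G M : ℕ}
    (hG : 2 ≤ G) (ha0 : a ≠ 0) (ha : |a| ≤ (G : ℤ)) (hc : ∀ m, |p.coeff m| ≤ ((G ^ M : ℕ) : ℤ)) (m : Fin 2 →₀ ℕ) :
    |(sb n a p).coeff m| ≤ ((G : ℕ) : ℤ) ^ (M + 4 * C + 2) := by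
  classical
  have ha1 : 1 ≤ |a| := Int.one_le_abs ha0
  have hG1 : (1 : ℤ) ≤ G := by exact_mod_cast (by omega : 1 ≤ G)
  have hG2 : (2 : ℤ) ≤ G := by exact_mod_cast hG
  have h1 := nb_sum p.support (fun m => |p.coeff m| * ((1 + 1 ^ (n + 1)) ^ (m 0) * (|a| * 1) ^ (m 1)))
    (fun m => MvPolynomial.C (p.coeff m) * ((MvPolynomial.X 1 + MvPolynomial.X 0 ^ (n + 1)) ^ (m 0) *
      (MvPolynomial.C a * MvPolynomial.X 0) ^ (m 1)))
    (fun m _ => nb_mul (nb_C _) (nb_mul (nb_pow (nb_add (nb_X 1) (nb_pow (nb_X 0) _)) _)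
      (nb_pow (nb_mul (nb_C a) (nb_X 0)) _)))
  rw [← sb_eq] at h1
  refine (nb_coeff h1 m).trans ?_
  have h2 : ∀ m ∈ p.support, |p.coeff m| * ((1 + 1 ^ (n + 1)) ^ (m 0) * (|a| * 1) ^ (m 1)) ≤ (G : ℤ) ^ (M + 2 * C) := by
    intro m hm
    have h0 := mdeg hp hm
    have e1 : ((1 : ℤ) + 1 ^ (n + 1)) ^ (m 0) ≤ (G : ℤ) ^ C := by
      rw [one_pow]
      calc ((1 : ℤ) + 1) ^ (m 0) ≤ (G : ℤ) ^ (m 0) := pow_le_pow_left₀ (by norm_num) (by linarith) _
        _ ≤ (G : ℤ) ^ C := pow_le_pow_right₀ hG1 (by omega)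
    have e2 : (|a| * 1) ^ (m 1) ≤ (G : ℤ) ^ C := by
      rw [mul_one]
      calc |a| ^ (m 1) ≤ (G : ℤ) ^ (m 1) := pow_le_pow_left₀ (abs_nonneg _) ha _
        _ ≤ (G : ℤ) ^ C := pow_le_pow_right₀ hG1 (by omega)
    have e3 : |p.coeff m| ≤ (G : ℤ) ^ M := by
      have := hc m
      push_cast at this
      exact this
    calc |p.coeff m| * ((1 + 1 ^ (n + 1)) ^ (m 0) * (|a| * 1) ^ (m 1)) ≤ (G : ℤ) ^ M * ((G : ℤ) ^ C * (G : ℤ) ^ C) := by
          refine mul_le_mul e3 (mul_le_mul e1 e2 (by positivity) (by positivity)) (by positivity) (by positivity)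
      _ = (G : ℤ) ^ (M + 2 * C) := by rw [pow_add, two_mul, pow_add]
  refine (Finset.sum_le_card_nsmul _ _ _ h2).trans ?_
  rw [nsmul_eq_mul]
  have h3 : (p.support.card : ℤ) ≤ (G : ℤ) ^ (2 * C + 2) := by
    have h4 : p.support.card ≤ G ^ (2 * C + 2) := by
      refine (supp_card hp).trans ?_
      have h5 : C + 1 ≤ G ^ (C + 1) := by
        calc C + 1 ≤ 2 ^ (C + 1) := Nat.lt_two_pow_self.le
          _ ≤ G ^ (C + 1) := Nat.pow_le_pow_left hG _
      calc (C + 1) * (C + 1) ≤ G ^ (C + 1) * G ^ (C + 1) := Nat.mul_le_mul h5 h5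
        _ = G ^ (2 * C + 2) := by rw [← pow_add]; congr 1; ring
    exact_mod_cast h4
  calc (p.support.card : ℤ) * (G : ℤ) ^ (M + 2 * C) ≤ (G : ℤ) ^ (2 * C + 2) * (G : ℤ) ^ (M + 2 * C) :=
        mul_le_mul_of_nonneg_right h3 (by positivity)
    _ = (G : ℤ) ^ (M + 4 * C + 2) := by rw [← pow_add]; congr 1; ring

theorem ty_g (n : ℕ) : ∃ C : ℕ, ∀ (K : Subfield ℝ) (H : ℕ) (x y : ℤ), Ty n K H x y → ∀ (B : ℕ) (r : ℝ), 1 ≤ B →
    Sg K B r → ∃ A D : MvPolynomial (Fin 2) ℤ, A.totalDegree ≤ C ∧ D.totalDegree ≤ C ∧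
      (∀ m, |A.coeff m| ≤ ((H * B : ℕ) : ℤ) ^ C) ∧ (∀ m, |D.coeff m| ≤ ((H * B : ℕ) : ℤ) ^ C) ∧
      (((H * B : ℕ) : ℤ) ^ C ≤ |y + x ^ (n + 1)| → MvPolynomial.eval ![x, y] D ≠ 0 ∧
        |(MvPolynomial.eval ![x, y] A : ℝ) - r * (MvPolynomial.eval ![x, y] D : ℝ)| * |((y + x ^ (n + 1) : ℤ) : ℝ)| ≤
          ((H * B : ℕ) : ℝ) ^ C * |((MvPolynomial.eval ![x, y] D : ℤ) : ℝ)|) := by
  classical
  obtain ⟨C, hC⟩ := res (n * (n + 1))
  refine ⟨(cR n + 1) * C + 4 * C + 2 + C * (n + 1), ?_⟩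
  rintro K H x y ⟨hNF, d, b, F, a, Q, i, T, -, hb, ha0, ha, -, hT, hsum, hi, hkap, -⟩ B r hB ⟨hr, hint, -, hbd⟩
  have hH : 2 ≤ H := h2_of Q.b2 hb
  have hG : 2 ≤ H * B := by
    calc 2 = 2 * 1 := rfl
      _ ≤ H * B := Nat.mul_le_mul hH hB
  have hHG : H ≤ H * B := Nat.le_mul_of_pos_right _ hB
  have hBG : B ≤ H * B := Nat.le_mul_of_pos_left _ (by omega)
  have hbB : (b * B) ^ C ≤ (H * B) ^ ((cR n + 1) * C) := by
    rw [pow_mul]
    refine Nat.pow_le_pow_left ?_ C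
    rw [pow_succ]
    exact Nat.mul_le_mul (hb.trans (Nat.pow_le_pow_left hHG _)) hBG
  have hmono : ∀ {j : ℕ}, j ≤ (cR n + 1) * C + 4 * C + 2 + C * (n + 1) →
      (H * B) ^ j ≤ (H * B) ^ ((cR n + 1) * C + 4 * C + 2 + C * (n + 1)) := fun hj =>
    Nat.pow_le_pow_right (by omega) hj
  obtain ⟨A, D, hA, hD, hAc, hDc, hmain⟩ := hC K d b F Q ⟨r, hr⟩ B hint hB hbd
  have hcon : ∀ p : MvPolynomial (Fin 2) ℤ, (∀ m, |p.coeff m| ≤ ((b * B : ℕ) : ℤ) ^ C) →
      ∀ m, |p.coeff m| ≤ (((H * B) ^ ((cR n + 1) * C) : ℕ) : ℤ) := by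
    intro p hp m
    refine (hp m).trans ?_
    exact_mod_cast hbB
  have haG : |a| ≤ ((H * B : ℕ) : ℤ) := ha.trans (by exact_mod_cast hHG)
  refine ⟨sb n a A, sb n a D, ?_, ?_, ?_, ?_, ?_⟩
  · exact (sb_deg n a hA).trans (by omega)
  · exact (sb_deg n a hD).trans (by omega)
  · intro m
    refine (sb_nb n hA hG ha0 haG (hcon A hAc) m).trans ?_
    exact_mod_cast hmono (by omega)
  · intro m
    refine (sb_nb n hD hG ha0 haG (hcon D hDc) m).trans ?_
    exact_mod_cast hmono (by omega)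
  · intro hbig
    have h1 : ((b * B : ℕ) : ℤ) ^ C ≤ |y + x ^ (n + 1)| := by
      refine le_trans ?_ hbig
      exact_mod_cast hbB.trans (hmono (by omega))
    obtain ⟨h2, h3⟩ := hmain (y + x ^ (n + 1)) (a * x) T i hi hT hsum h1
    rw [sb_eval, sb_eval]
    refine ⟨h2, ?_⟩
    have h4 : Q.kp.kap i ⟨r, hr⟩ = (r : ℂ) := by
      rw [hkap]
      rfl
    rw [h4] at h3
    have h5 : ‖((MvPolynomial.eval ![y + x ^ (n + 1), a * x] A : ℤ) : ℂ) -
        (r : ℂ) * ((MvPolynomial.eval ![y + x ^ (n + 1), a * x] D : ℤ) : ℂ)‖ =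
        |((MvPolynomial.eval ![y + x ^ (n + 1), a * x] A : ℤ) : ℝ) -
          r * ((MvPolynomial.eval ![y + x ^ (n + 1), a * x] D : ℤ) : ℝ)| := by
      rw [← Real.norm_eq_abs, ← Complex.norm_real]
      push_cast
      rfl
    rw [h5] at h3
    refine h3.trans ?_
    refine mul_le_mul_of_nonneg_right ?_ (abs_nonneg _)
    exact_mod_cast hbB.trans (hmono (by omega))

end Pool.Agent.H8.OA
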