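import Pool.Agent.H8.OA.Ty1
import Pool.Agent.H8.OA.Ty2
import Pool.Agent.H8.OA.Gun
import Pool.Agent.H8.OA.Szd
import Pool.Agent.H12.ON.Uni
import Pool.Agent.H82.NS.Q0alg

/-! # [H8 OA SQD] Sequences of exceptional points in the nonstandard frame: definitions

`qz a` the class of an integer sequence, `uu n x y = y + x^(n+1)`, `Bg H u`: `|u|` is larger than every power of `H`. `Sq n K H x y`: a sequence of points of type `K N`. `LL H x y = Q0 H (x, y) ⊆ QS`; `OO H x y` its valuation ring `V0 H ∩ LL`. -/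

namespace Pool.Agent.H8.OA

open Filter IntermediateField Pool.Agent.H82.NS Pool.Agent.H12.ON Pool.Agent.H12.OG

/-- the class of an integer sequence -/
noncomputable def qz (a : ℕ → ℤ) : QS := cl (fun N => (a N : ℚ))

/-- the coordinate `u = y + x^(n+1)` -/
def uu (n : ℕ) (x y : ℕ → ℤ) : ℕ → ℤ := fun N => y N + x N ^ (n + 1)

/-- larger than all powers of `H` -/
def Bg (H : ℕ → ℕ) (u : ℕ → ℤ) : Prop := ∀ C : ℕ, ∀ᶠ N in UU, ((H N + 2 : ℕ) : ℤ) ^ C ≤ |u N|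

/-- a sequence of points of type `K N` -/
structure Sq (n : ℕ) (K : ℕ → Subfield ℝ) (H : ℕ → ℕ) (x y : ℕ → ℤ) : Prop where
  n3 : 3 ≤ n
  H2 : ∀ N, 2 ≤ H N
  ty : ∀ N, Ty n (K N) (H N) (x N) (y N)

/-- the function field of the point -/
noncomputable def LL (H : ℕ → ℕ) (x y : ℕ → ℤ) : IntermediateField (Q0 H) QS :=
  IntermediateField.adjoin (Q0 H) {qz x, qz y}

/-- its place at infinity -/
noncomputable def OO (H : ℕ → ℕ) (x y : ℕ → ℤ) : ValuationSubring (LL H x y) :=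
  (V0 H).comap (algebraMap (LL H x y) QS)

theorem x_mem (H : ℕ → ℕ) (x y : ℕ → ℤ) : qz x ∈ LL H x y :=
  IntermediateField.subset_adjoin _ _ (Set.mem_insert _ _)

theorem y_mem (H : ℕ → ℕ) (x y : ℕ → ℤ) : qz y ∈ LL H x y :=
  IntermediateField.subset_adjoin _ _ (Set.mem_insert_of_mem _ (Set.mem_singleton _))

theorem qz_uu (n : ℕ) (x y : ℕ → ℤ) : qz (uu n x y) = qz y + qz x ^ (n + 1) := by
  unfold qz
  have h1 : (cl (fun N => (x N : ℚ)) : QS) ^ (n + 1) = cl (fun N => (x N : ℚ) ^ (n + 1)) := by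
    rw [← clHom_apply, ← map_pow]
    rfl
  rw [h1, cl_add]
  congr 1
  funext N
  unfold uu
  push_cast
  rfl

theorem u_mem (n : ℕ) (H : ℕ → ℕ) (x y : ℕ → ℤ) : qz (uu n x y) ∈ LL H x y := by
  rw [qz_uu]
  exact (LL H x y).add_mem (y_mem H x y) (pow_mem (x_mem H x y) _)

/-- the function `u` -/
noncomputable def ul (n : ℕ) (H : ℕ → ℕ) (x y : ℕ → ℤ) : LL H x y := ⟨qz (uu n x y), u_mem n H x y⟩

/-- the approximation of `la` by the rational sequence `γ` -/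
def Nr (H : ℕ → ℕ) (u : ℕ → ℤ) (la : ℕ → ℝ) (γ : ℕ → ℚ) : Prop :=
  ∃ C : ℕ, ∀ᶠ N in UU, |(γ N : ℝ) - la N| * |(u N : ℝ)| ≤ ((H N + 2 : ℕ) : ℝ) ^ C

/-- a bounded sequence of generators -/
def Sgs (K : ℕ → Subfield ℝ) (H : ℕ → ℕ) (la : ℕ → ℝ) : Prop :=
  ∃ C : ℕ, ∀ N, Sg (K N) ((H N) ^ C) (la N)

end Pool.Agent.H8.OA
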