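import Pool.Agent.H8.OA.Sbd
import Pool.Agent.H8.OA.Sqd
import Pool.Agent.H12.ON.Tht
import Pool.Agent.H12.ON.Tir

/-! # [H8 OA ISU] The class of a sequence of small polynomials is a polynomial over `Q0 H`

`IsU H n F Fh` (H12/ON/Nd.lean): `Fh` has degree `≤ n`, its coefficients are the classes of the coefficients.
`isu_of`: the polynomial with the coefficients `cl (coeff m (F N))` for the finitely many `m` with `m 0 + m 1 ≤ n = C` (change the sequence to `0` outside the good `N`, so that it is `Small`); the others vanish for almost all `N`.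
`isu_eval`: finite sum of classes (`zer_pt` in H12/ON/Zer.lean has the same proof: `th_of`, `th_eval`).
`isu_irr`: `tir` (H12/ON/Tir.lean) for `map (algebraMap (Q0 H) QS) Fh` (change `F N` for the exceptional `N` to some irreducible polynomial, `X 0`); `Th ℚ (map _ Fh) = cl (fun N => map _ (F N))` by `th_of` (H12/ON/Tht.lean); then `Fh` itself is irreducible (a factorisation over `Q0 H` is one over `QS`; the injective map `Q0 H → QS` of fields reflects units of polynomial rings).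
`isu_dvd`: `Gh = Fh * Q`; `Q' = map _ Q` over `QS`; `Th ℚ Q' = cl q` (`th_rep` or `cl_surj`); `Th` is multiplicative: `cl (map (G N)) = cl (map (F N)) * cl q`, so `map (G N) = map (F N) * q N` for almost all `N`. -/

namespace Pool.Agent.H8.OA

open Filter MvPolynomial Pool.Agent.H82.NS Pool.Agent.H12.ON

private theorem td_le (G : MvPolynomial (Fin 2) ℤ) :
    (map (Int.castRingHom ℚ) G).totalDegree ≤ G.totalDegree := by
  unfold totalDegree
  exact Finset.sup_mono (support_map_subset _ _)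

/-- the monomials of degree at most `n` -/
private noncomputable def mons (n : ℕ) : Finset (Fin 2 →₀ ℕ) :=
  ((Finset.range (n + 1) ×ˢ Finset.range (n + 1)).image
    (fun u : ℕ × ℕ => Finsupp.single 0 u.1 + Finsupp.single 1 u.2)).filter (fun m => m 0 + m 1 ≤ n)

private theorem mem_mons (n : ℕ) (m : Fin 2 →₀ ℕ) : m ∈ mons n ↔ m 0 + m 1 ≤ n := by
  unfold mons
  rw [Finset.mem_filter]
  constructor
  · exact fun h => h.2
  · intro h
    refine ⟨Finset.mem_image.2 ⟨(m 0, m 1), ?_, ?_⟩, h⟩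
    · exact Finset.mem_product.2 ⟨Finset.mem_range.2 (by show m 0 < n + 1; omega), Finset.mem_range.2 (by show m 1 < n + 1; omega)⟩
    · ext i
      fin_cases i <;> simp

private theorem co_zero {R : Type} [CommRing R] {n : ℕ} {P : MvPolynomial (Fin 2) R} (h : P.totalDegree ≤ n) {m : Fin 2 →₀ ℕ}
    (hm : ¬ m 0 + m 1 ≤ n) : P.coeff m = 0 := by
  by_contra hne
  have h1 := (le_totalDegree (mem_support_iff.2 hne)).trans h
  rw [Finsupp.sum_fintype _ _ (fun _ => rfl), Fin.sum_univ_two] at h1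
  exact hm h1

theorem isu_of {H : ℕ → ℕ} {F : ℕ → MvPolynomial (Fin 2) ℤ} (h : Sb H F) :
    ∃ (n : ℕ) (Fh : MvPolynomial (Fin 2) (Q0 H)), IsU H n F Fh ∧ ∀ᶠ N in UU, (F N).totalDegree ≤ n := by
  classical
  obtain ⟨n, hn⟩ := h
  have hsm : ∀ m : Fin 2 →₀ ℕ, ∃ c : Q0 H, (c : QS) = cl (fun N => (((F N).coeff m : ℤ) : ℚ)) := by
    intro m
    obtain ⟨a, ha⟩ : ∃ a : ℕ → ℤ, ∀ N, a N = if |(F N).coeff m| ≤ ((H N + 2 : ℕ) : ℤ) ^ n then (F N).coeff m else 0 :=
      ⟨_, fun N => rfl⟩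
    have h1 : ∀ N, |a N| ≤ ((H N + 2 : ℕ) : ℤ) ^ n := by
      intro N
      rw [ha N]
      split_ifs with h2
      · exact h2
      · rw [abs_zero]
        exact pow_nonneg (Int.natCast_nonneg _) _
    have h2 : Small H (fun N => (a N : ℚ)) := by
      refine ⟨n, fun N => ⟨?_, ?_⟩⟩
      · show ((a N : ℤ) : ℚ).num.natAbs ≤ _
        rw [Rat.num_intCast]
        have h3 := h1 N
        rw [Int.abs_eq_natAbs] at h3
        exact_mod_cast h3
      · show ((a N : ℤ) : ℚ).den ≤ _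
        rw [Rat.den_intCast]
        exact Nat.one_le_pow _ _ (by omega)
    refine ⟨⟨_, _, h2, rfl⟩, ?_⟩
    show cl (fun N => (a N : ℚ)) = _
    rw [cl_eq]
    filter_upwards [hn] with N hN
    rw [ha N, if_pos (hN.2 m)]
  choose c hc using hsm
  have hco : ∀ m, coeff m (∑ m' ∈ mons n, monomial m' (c m')) = if m ∈ mons n then c m else 0 := by
    intro m
    rw [coeff_sum]
    simp only [coeff_monomial, Finset.sum_ite_eq']
  refine ⟨n, ∑ m ∈ mons n, monomial m (c m), ⟨?_, ?_⟩, hn.mono fun N hN => hN.1⟩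
  · refine (totalDegree_finsetSum _ _).trans (Finset.sup_le fun m hm => ?_)
    refine (totalDegree_monomial_le _ _).trans ?_
    rw [Finsupp.sum_fintype _ _ (fun _ => rfl), Fin.sum_univ_two]
    exact (mem_mons n m).1 hm
  · intro m
    rw [hco m]
    split_ifs with hm
    · exact hc m
    · show (0 : QS) = _
      rw [cl_zero, cl_eq]
      filter_upwards [hn] with N hN
      rw [co_zero hN.1 fun h => hm ((mem_mons n m).2 h), Int.cast_zero]

private theorem th_isu {H : ℕ → ℕ} {n : ℕ} {F : ℕ → MvPolynomial (Fin 2) ℤ} {Fh : MvPolynomial (Fin 2) (Q0 H)}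
    (hF : ∀ᶠ N in UU, (F N).totalDegree ≤ n) (hU : IsU H n F Fh) :
    Th ℚ (map (algebraMap (Q0 H) QS) Fh) = cl (fun N => map (Int.castRingHom ℚ) (F N)) := by
  classical
  obtain ⟨-, hc⟩ := hU
  obtain ⟨F', hF'⟩ : ∃ F' : ℕ → MvPolynomial (Fin 2) ℤ, ∀ N, F' N = if (F N).totalDegree ≤ n then F N else 0 :=
    ⟨_, fun N => rfl⟩
  have he : ∀ᶠ N in UU, F' N = F N := by
    filter_upwards [hF] with N hN
    rw [hF' N, if_pos hN]
  have h1 : Th ℚ (map (algebraMap (Q0 H) QS) Fh) = cl (fun N => map (Int.castRingHom ℚ) (F' N)) := by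
    refine th_of (n := n) (fun N => ?_) fun m => ?_
    · refine (td_le (F' N)).trans ?_
      rw [hF' N]
      split_ifs with h
      · exact h
      · rw [totalDegree_zero]
        exact Nat.zero_le _
    · rw [coeff_map]
      have h2 : algebraMap (Q0 H) QS (Fh.coeff m) = ((Fh.coeff m : Q0 H) : QS) := rfl
      rw [h2, hc m, cl_eq]
      filter_upwards [he] with N hN
      rw [coeff_map, hN]
      rfl
  rw [h1, cl_eq]
  exact he.mono fun N hN => by rw [hN]

theorem isu_eval {H : ℕ → ℕ} {n : ℕ} {F : ℕ → MvPolynomial (Fin 2) ℤ} {Fh : MvPolynomial (Fin 2) (Q0 H)}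
    (hF : ∀ᶠ N in UU, (F N).totalDegree ≤ n) (hU : IsU H n F Fh) (x y : ℕ → ℤ) :
    aeval ![qz x, qz y] Fh = qz (fun N => eval ![x N, y N] (F N)) := by
  have h2 := th_eval (th_isu hF hU) (fun N => (x N : ℚ)) (fun N => (y N : ℚ))
  rw [aeval_map_algebraMap] at h2
  refine h2.trans ?_
  unfold qz
  congr 1
  funext N
  rw [aeval_def, eval₂_map]
  have h3 := eval₂_comp_left (Int.castRingHom ℚ) (RingHom.id ℤ) ![x N, y N] (F N)
  have h4 : (![(x N : ℚ), (y N : ℚ)] : Fin 2 → ℚ) = (Int.castRingHom ℚ) ∘ ![x N, y N] := by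
    funext i
    fin_cases i
    · rfl
    · rfl
  have h5 : (algebraMap ℚ ℚ).comp (Int.castRingHom ℚ) = (Int.castRingHom ℚ).comp (RingHom.id ℤ) := RingHom.ext_int _ _
  rw [h4, h5, ← h3]
  rfl

private theorem unit_map {K L : Type} [Field K] [Field L] (φ : K →+* L) {P : MvPolynomial (Fin 2) K}
    (h : IsUnit (map φ P)) : IsUnit P := by
  obtain ⟨r, hr, hP⟩ := isUnit_iff_eq_C_of_isReduced.1 h
  have h1 : P = C (P.coeff 0) := by
    apply map_injective φ φ.injective
    rw [map_C, ← coeff_map, hP, coeff_zero_C]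
  have h2 : P.coeff 0 ≠ 0 := by
    intro h3
    rw [h1, h3, map_zero, map_zero] at h
    exact not_isUnit_zero h
  rw [isUnit_iff_eq_C_of_isReduced]
  exact ⟨_, isUnit_iff_ne_zero.2 h2, h1⟩

theorem isu_irr {H : ℕ → ℕ} {n : ℕ} {F : ℕ → MvPolynomial (Fin 2) ℤ} {Fh : MvPolynomial (Fin 2) (Q0 H)}
    (hF : ∀ᶠ N in UU, (F N).totalDegree ≤ n) (hU : IsU H n F Fh)
    (h : ∀ᶠ N in UU, Irreducible (map (Int.castRingHom ℚ) (F N))) : Irreducible Fh := by
  classical
  have h1 := th_isu hF hU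
  obtain ⟨q, hq⟩ : ∃ q : ℕ → MvPolynomial (Fin 2) ℚ, ∀ N, q N =
      if Irreducible (map (Int.castRingHom ℚ) (F N)) then map (Int.castRingHom ℚ) (F N) else X 0 := ⟨_, fun N => rfl⟩
  have h2 : Th ℚ (map (algebraMap (Q0 H) QS) Fh) = cl q := by
    rw [h1, cl_eq]
    filter_upwards [h] with N hN
    rw [hq N, if_pos hN]
  have h3 : Irreducible (map (algebraMap (Q0 H) QS) Fh) := by
    refine tir h2 fun N => ?_
    rw [hq N]
    split_ifs with h4
    · exact h4
    · exact X_prime.irreducible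
  refine ⟨fun h4 => h3.not_isUnit (h4.map _), fun a b hab => ?_⟩
  have h4 : map (algebraMap (Q0 H) QS) Fh = map (algebraMap (Q0 H) QS) a * map (algebraMap (Q0 H) QS) b := by
    rw [hab, map_mul]
  rcases h3.isUnit_or_isUnit h4 with h5 | h5
  · exact Or.inl (unit_map _ h5)
  · exact Or.inr (unit_map _ h5)

theorem isu_dvd {H : ℕ → ℕ} {n m : ℕ} {F G : ℕ → MvPolynomial (Fin 2) ℤ} {Fh Gh : MvPolynomial (Fin 2) (Q0 H)}
    (hF : ∀ᶠ N in UU, (F N).totalDegree ≤ n) (hG : ∀ᶠ N in UU, (G N).totalDegree ≤ m) (hU : IsU H n F Fh)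
    (hV : IsU H m G Gh) (h : Fh ∣ Gh) :
    ∀ᶠ N in UU, map (Int.castRingHom ℚ) (F N) ∣ map (Int.castRingHom ℚ) (G N) := by
  have h1 := th_isu hF hU
  have h2 := th_isu hG hV
  obtain ⟨Q, hQ⟩ := h
  obtain ⟨q, hq⟩ := cl_surj (Th ℚ (map (algebraMap (Q0 H) QS) Q))
  rw [hQ, map_mul, map_mul, h1, hq, cl_mul, cl_eq] at h2
  filter_upwards [h2] with N hN
  exact ⟨q N, hN.symm⟩

end Pool.Agent.H8.OA
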