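import Pool.Agent.H12.ON.Cop

/-! # [H8 OA ALC] Common zeros of coprime polynomials are algebraic

`k[X,Y]`, `F` irreducible, `F ∤ G`, `F(x,y) = G(x,y) = 0` in a field `K ⊇ k`. By symmetry (`rename` by the swap) it is enough to show that `x` is algebraic. View `F, G` in `k[X][Y]` (`finSuccEquiv` after a swap, or an own ring isomorphism; compare H12/ON/Cop.lean `fin_common` and H12/OG).
If `F` has positive degree in `Y`: `F` is irreducible over `k(X)` (Gauss: `Polynomial.IsPrimitive.irreducible_iff_irreducible_map_fraction_map`), and `F ∤ G` over `k(X)` (primitive: `Polynomial.IsPrimitive.dvd_iff_fraction_map_dvd_fraction_map`), so `A F + B G = 1` over `k(X)`, clear denominators: `A F + B G = c ∈ k[X]`, `c ≠ 0`, `c(x) = 0`.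
If `F` has degree `0` in `Y`: `F = f(X)`, `f ≠ 0`, `f(x) = 0`: `x` is algebraic. -/

namespace Pool.Agent.H8.OA

open MvPolynomial

private theorem alc_x {k K : Type} [Field k] [Field K] [Algebra k K] {F G : MvPolynomial (Fin 2) k} (hF : Irreducible F)
    (h : ¬ F ∣ G) {x y : K} (h1 : aeval ![x, y] F = 0) (h2 : aeval ![x, y] G = 0) : IsAlgebraic k x := by
  obtain ⟨A, B, R, hR, h0⟩ := Pool.Agent.H12.ON.elim hF h
  have h3 := congrArg (aeval ![x, y]) h0
  rw [map_add, map_mul, map_mul, h1, h2, mul_zero, mul_zero, add_zero,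
    ← Polynomial.aeval_algHom_apply, aeval_X] at h3
  exact ⟨R, hR, h3.symm⟩

theorem alg_common {k K : Type} [Field k] [Field K] [Algebra k K] {F G : MvPolynomial (Fin 2) k} (hF : Irreducible F)
    (h : ¬ F ∣ G) {x y : K} (h1 : aeval ![x, y] F = 0) (h2 : aeval ![x, y] G = 0) :
    IsAlgebraic k x ∧ IsAlgebraic k y := by
  refine ⟨alc_x hF h h1 h2, ?_⟩
  obtain ⟨e, he⟩ : ∃ e : MvPolynomial (Fin 2) k ≃ₐ[k] MvPolynomial (Fin 2) k,
    e = renameEquiv k (Equiv.swap (0 : Fin 2) 1) := ⟨_, rfl⟩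
  have h3 : ∀ H : MvPolynomial (Fin 2) k, aeval ![y, x] (e H) = aeval ![x, y] H := by
    intro H
    rw [he, renameEquiv_apply, aeval_rename]
    congr 2
    funext i
    fin_cases i <;> rfl
  refine alc_x (F := e F) (G := e G) ((MulEquiv.irreducible_iff e).2 hF) (fun h' => h ((map_dvd_iff e).1 h'))
    (x := y) (y := x) ?_ ?_
  · rw [h3]
    exact h1
  · rw [h3]
    exact h2

end Pool.Agent.H8.OA
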