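import Pool.Agent.H8.OA.Ty2

/-! # [H8 OA AIK2] A small value at the generator is zero

`β = aeval (ε la) p ∈ K`. `β' = ε.den^(natDegree p) β` is an algebraic integer (`la` is integral, `ε = num/den`), all its conjugates `φ β'` have absolute value `≤ ε.den^D ∑ |p_i| |ε|^i |φ la|^i ≤ (D+1) H^(D' D) H^D H^(D' D) H^(D' D) ≤ H^C₁`. If `β ≠ 0` then `1 ≤ |N(β')| = ∏_φ |φ β'| ≤ |β'| H^(C₁ D')` (the embedding `K ⊆ ℝ ⊆ ℂ` is one of the
`[K:ℚ] ≤ D'` embeddings; `Algebra.norm_eq_prod_embeddings`, norm of an integer is an integer; compare H8/OA/Ty2.lean and H87/SA2), so `1 ≤ |β| H^(D' D + C₁ D')`. `C = D' D + C₁ D'`. -/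

namespace Pool.Agent.H8.OA

open Polynomial

private theorem prod_ge {K : Subfield ℝ} [NumberField K] {b : K} (hb : IsIntegral ℤ b) (h0 : b ≠ 0) {M : ℝ}
    (hM1 : 1 ≤ M) (hM : ∀ φ : K →+* ℂ, ‖φ b‖ ≤ M) : 1 ≤ |(b : ℝ)| * M ^ Module.finrank ℚ K := by
  classical
  have h1 : IsIntegral ℤ (Algebra.norm ℚ b) := Algebra.isIntegral_norm ℚ hb
  obtain ⟨z, hz⟩ := IsIntegrallyClosed.isIntegral_iff.mp h1
  have h2 : Algebra.norm ℚ b ≠ 0 := Algebra.norm_ne_zero_iff.2 h0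
  have hz0 : z ≠ 0 := by
    rintro rfl
    rw [map_zero] at hz
    exact h2 hz.symm
  have h3 : (1 : ℝ) ≤ ‖algebraMap ℚ ℂ (Algebra.norm ℚ b)‖ := by
    rw [← hz]
    have e1 : algebraMap ℚ ℂ (algebraMap ℤ ℚ z) = (z : ℂ) := by simp
    rw [e1, Complex.norm_intCast]
    exact_mod_cast Int.one_le_abs hz0
  rw [Algebra.norm_eq_prod_embeddings ℚ ℂ b, norm_prod] at h3
  obtain ⟨ι, hι⟩ : ∃ ι : K →ₐ[ℚ] ℂ, ∀ w, ι w = ((w : ℝ) : ℂ) :=
    ⟨(Complex.ofRealHom.comp K.subtype).toRatAlgHom, fun w => rfl⟩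
  rw [← Finset.mul_prod_erase Finset.univ _ (Finset.mem_univ ι), hι b, Complex.norm_real, Real.norm_eq_abs] at h3
  have h4 : ∏ σ ∈ Finset.univ.erase ι, ‖σ b‖ ≤ M ^ Module.finrank ℚ K := by
    calc ∏ σ ∈ Finset.univ.erase ι, ‖σ b‖ ≤ ∏ σ ∈ Finset.univ.erase ι, M :=
          Finset.prod_le_prod (fun _ _ => norm_nonneg _) fun σ _ => hM (σ : K →+* ℂ)
      _ = M ^ (Finset.univ.erase ι).card := Finset.prod_const _
      _ ≤ M ^ Module.finrank ℚ K := by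
          refine pow_le_pow_right₀ hM1 ?_
          refine (Finset.card_erase_le).trans ?_
          rw [Finset.card_univ, AlgHom.card]
  exact h3.trans (mul_le_mul_of_nonneg_left h4 (abs_nonneg _))

theorem aik_nm (D D' : ℕ) : ∃ C : ℕ, ∀ (K : Subfield ℝ) (_ : NumberField K) (H : ℕ) (p : ℤ[X]) (la : ℝ) (ε : ℚ), 2 ≤ H →
    Module.finrank ℚ K ≤ D' → Sg K (H ^ D') la → p.natDegree ≤ D → (∀ i, |p.coeff i| ≤ (H : ℤ) ^ D) →
    ε.num.natAbs ≤ H ^ D' → ε.den ≤ H ^ D' → |aeval ((ε : ℝ) * la) p| * (H : ℝ) ^ C < 1 →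
    aeval ((ε : ℝ) * la) p = 0 := by
  obtain ⟨C₁, hC₁⟩ : ∃ C₁ : ℕ, C₁ = (D + 1) + (D + (D' * D + (D' * D + D' * D))) := ⟨_, rfl⟩
  refine ⟨D' * D + C₁ * D', ?_⟩
  intro K hNF H p la ε hH hfr hsg hpd hpc hn hd hlt
  obtain ⟨hla, hint, -, hbd⟩ := hsg
  obtain ⟨l, hl⟩ : ∃ l : K, l = ⟨la, hla⟩ := ⟨_, rfl⟩
  rw [← hl] at hint hbd
  obtain ⟨t, ht⟩ : ∃ t : ℝ, t = (H : ℝ) := ⟨_, rfl⟩
  have ht2 : 2 ≤ t := by rw [ht]; exact_mod_cast hH
  have ht1 : 1 ≤ t := by linarith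
  obtain ⟨z, hz⟩ : ∃ z : ℕ → ℤ, ∀ i, z i = p.coeff i * ε.num ^ i * (ε.den : ℤ) ^ (D - i) := ⟨_, fun i => rfl⟩
  obtain ⟨b, hb⟩ : ∃ b : K, b = ∑ i ∈ Finset.range (D + 1), ((z i : ℤ) : K) * l ^ i := ⟨_, rfl⟩
  have hbi : IsIntegral ℤ b := by
    rw [hb]
    refine IsIntegral.sum _ fun i _ => IsIntegral.mul ?_ (hint.pow i)
    rw [← eq_intCast (algebraMap ℤ K)]
    exact isIntegral_algebraMap
  have hφ : ∀ {F : Type} [Field F] (φ : K →+* F), φ b = ∑ i ∈ Finset.range (D + 1), ((z i : ℤ) : F) * (φ l) ^ i := by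
    intro F _ φ
    rw [hb, map_sum]
    refine Finset.sum_congr rfl fun i _ => ?_
    rw [map_mul, map_pow, map_intCast]
  have hbv : (b : ℝ) = (ε.den : ℝ) ^ D * aeval ((ε : ℝ) * la) p := by
    have e1 := hφ K.subtype
    have e2 : K.subtype l = la := by rw [hl]; rfl
    rw [e2] at e1
    rw [aeval_eq_sum_range' (Nat.lt_succ_of_le hpd), Finset.mul_sum]
    refine e1.trans (Finset.sum_congr rfl fun i hi => ?_)
    have hi' : i ≤ D := Nat.lt_succ_iff.1 (Finset.mem_range.1 hi)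
    have e3 : (ε.num : ℝ) = (ε : ℝ) * (ε.den : ℝ) := by
      have e4 : ε * (ε.den : ℚ) = (ε.num : ℚ) := Rat.mul_den_eq_num ε
      exact_mod_cast e4.symm
    have e5 : (ε.den : ℝ) ^ D = (ε.den : ℝ) ^ i * (ε.den : ℝ) ^ (D - i) := by
      rw [← pow_add, Nat.add_sub_cancel' hi']
    rw [hz i, zsmul_eq_mul, e5]
    push_cast
    rw [e3]
    ring
  have hzb : ∀ i ∈ Finset.range (D + 1), |(z i : ℝ)| ≤ t ^ D * (t ^ (D' * D) * t ^ (D' * D)) := by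
    intro i hi
    have hi' : i ≤ D := Nat.lt_succ_iff.1 (Finset.mem_range.1 hi)
    have e1 : |(p.coeff i : ℝ)| ≤ t ^ D := by
      rw [ht]
      exact_mod_cast hpc i
    have e2 : |(ε.num : ℝ)| ≤ t ^ D' := by
      have e3 : ((ε.num.natAbs : ℕ) : ℝ) ≤ ((H ^ D' : ℕ) : ℝ) := by exact_mod_cast hn
      rw [Nat.cast_natAbs] at e3
      push_cast at e3
      rw [ht]
      exact e3
    have e3 : |(ε.den : ℝ)| ≤ t ^ D' := by
      rw [abs_of_nonneg (Nat.cast_nonneg _), ht]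
      exact_mod_cast hd
    have e4 : ∀ j ≤ D, ∀ w : ℝ, |w| ≤ t ^ D' → |w| ^ j ≤ t ^ (D' * D) := by
      intro j hj w hw
      calc |w| ^ j ≤ (t ^ D') ^ j := pow_le_pow_left₀ (abs_nonneg _) hw _
        _ ≤ (t ^ D') ^ D := pow_le_pow_right₀ (one_le_pow₀ ht1) hj
        _ = t ^ (D' * D) := (pow_mul _ _ _).symm
    rw [hz i]
    push_cast
    rw [abs_mul, abs_mul, abs_pow, abs_pow, mul_assoc]
    refine mul_le_mul e1 ?_ (by positivity) (by positivity)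
    exact mul_le_mul (e4 i hi' _ e2) (e4 (D - i) (Nat.sub_le _ _) _ e3) (by positivity) (by positivity)
  have hφb : ∀ φ : K →+* ℂ, ‖φ b‖ ≤ t ^ C₁ := by
    intro φ
    rw [hφ φ]
    refine (norm_sum_le _ _).trans ?_
    have e1 : ∀ i ∈ Finset.range (D + 1), ‖((z i : ℤ) : ℂ) * (φ l) ^ i‖ ≤ t ^ D * (t ^ (D' * D) * (t ^ (D' * D) * t ^ (D' * D))) := by
      intro i hi
      have hi' : i ≤ D := Nat.lt_succ_iff.1 (Finset.mem_range.1 hi)
      rw [norm_mul, norm_pow, Complex.norm_intCast]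
      have e2 : ‖φ l‖ ≤ t ^ D' := by
        have e3 := hbd φ
        push_cast at e3
        rw [ht]
        exact e3
      have e3 : ‖φ l‖ ^ i ≤ t ^ (D' * D) := by
        calc ‖φ l‖ ^ i ≤ (t ^ D') ^ i := pow_le_pow_left₀ (norm_nonneg _) e2 _
          _ ≤ (t ^ D') ^ D := pow_le_pow_right₀ (one_le_pow₀ ht1) hi'
          _ = t ^ (D' * D) := (pow_mul _ _ _).symm
      calc |(z i : ℝ)| * ‖φ l‖ ^ i ≤ (t ^ D * (t ^ (D' * D) * t ^ (D' * D))) * t ^ (D' * D) :=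
            mul_le_mul (hzb i hi) e3 (by positivity) (by positivity)
        _ = _ := by ring
    refine (Finset.sum_le_sum e1).trans ?_
    rw [Finset.sum_const, Finset.card_range, nsmul_eq_mul, hC₁, pow_add t (D + 1), pow_add t D (D' * D + (D' * D + D' * D)),
      pow_add t (D' * D), pow_add t (D' * D)]
    refine mul_le_mul_of_nonneg_right ?_ (by positivity)
    have e2 : ((D + 1 : ℕ) : ℝ) ≤ ((2 ^ (D + 1) : ℕ) : ℝ) := by exact_mod_cast Nat.lt_two_pow_self.le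
    refine e2.trans ?_
    push_cast
    exact pow_le_pow_left₀ (by norm_num) ht2 _
  by_contra hne
  have hb0 : b ≠ 0 := by
    intro h0
    rw [h0] at hbv
    have e1 : (0 : ℝ) = (ε.den : ℝ) ^ D * aeval ((ε : ℝ) * la) p := hbv
    have e2 : (ε.den : ℝ) ^ D ≠ 0 := pow_ne_zero _ (by exact_mod_cast ε.den_pos.ne')
    exact (mul_ne_zero e2 hne) e1.symm
  have h1 := prod_ge hbi hb0 (one_le_pow₀ ht1) hφb
  rw [hbv, abs_mul, abs_of_nonneg (by positivity : (0 : ℝ) ≤ (ε.den : ℝ) ^ D)] at h1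
  have h2 : (ε.den : ℝ) ^ D ≤ t ^ (D' * D) := by
    rw [pow_mul]
    refine pow_le_pow_left₀ (Nat.cast_nonneg _) ?_ _
    rw [ht]
    exact_mod_cast hd
  have h3 : (t ^ C₁) ^ Module.finrank ℚ K ≤ t ^ (C₁ * D') := by
    rw [pow_mul]
    exact pow_le_pow_right₀ (one_le_pow₀ ht1) hfr
  have h4 : (ε.den : ℝ) ^ D * |aeval ((ε : ℝ) * la) p| * (t ^ C₁) ^ Module.finrank ℚ K ≤
      |aeval ((ε : ℝ) * la) p| * t ^ (D' * D + C₁ * D') := by
    calc (ε.den : ℝ) ^ D * |aeval ((ε : ℝ) * la) p| * (t ^ C₁) ^ Module.finrank ℚ K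
        ≤ t ^ (D' * D) * |aeval ((ε : ℝ) * la) p| * t ^ (C₁ * D') := by gcongr
      _ = _ := by rw [pow_add]; ring
  rw [← ht] at hlt
  linarith

end Pool.Agent.H8.OA
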