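import Pool.Agent.H8.OA.Aik1
import Pool.Agent.H8.OA.Aik2
import Pool.Agent.H4.SF.FIN

/-! # [H8 OA AIK] The quotient curve carries the field at infinity

`t = w/x^κ`, `|t| ≤ 1 + |ε la| ≤ 1 + H^(2 D')` (`ε.den ≥ 1`, `|la| ≤ H^D'`: `Sg`, the embedding `K ⊆ ℝ ⊆ ℂ`). `aik_sz`: `|p(t)|^D |x| ≤ (B H)^C₁`; `|p(ε la) - p(t)| ≤ |t - ε la| H^C₂` (derivative/difference quotient, both arguments `≤ B`). With `C` large: `|p(t)|^D ≤ H^(C₃ - C)`, so `|p(ε la)| H^C₄ < 1` for the constant `C₄` of `aik_nm`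
(`D ≥ 3` as `3 ≤ natDegree p ≤ D`): `p(ε la) = 0`. The element `θ = ε la ∈ K` generates `K` over `ℚ` (`ε ≠ 0`, `la` generates `K`: `Sg`), `p` is irreducible over `ℚ`: `KP p = AdjoinRoot (p.map _) ≃+* K` (`AdjoinRoot` / `adjoinRootEquivAdjoin`, minpoly). So a ring homomorphism `KP p → L` gives `K → L`:
`AtInf K (toM g)`: `toM_irr hG.irr`, `star_toM hG` (H4/SF/FIN.lean; `Star` in H4/SF/MKF.lean has the same shape as the second clause of `AtInf`). -/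

namespace Pool.Agent.H8.OA

open Polynomial Pool.Agent.H4.SF

/-- difference of the values of a polynomial at two points -/
private theorem aik_diff {D : ℕ} {H : ℕ} (hH : 2 ≤ H) {p : ℤ[X]} (hp : p.natDegree ≤ D)
    (hc : ∀ i, |p.coeff i| ≤ (H : ℤ) ^ D) {B : ℝ} (hB : 1 ≤ B) {s t : ℝ} (hs : |s| ≤ B) (ht : |t| ≤ B) :
    |aeval s p - aeval t p| ≤ |s - t| * ((H : ℝ) ^ (3 * D) * B ^ D) := by
  have hH1 : (2 : ℝ) ≤ H := by exact_mod_cast hH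
  have hpow : ∀ i : ℕ, |s ^ i - t ^ i| ≤ |s - t| * ((i : ℝ) * B ^ i) := by
    intro i
    induction i with
    | zero => simp
    | succ i ih =>
      have h1 : s ^ (i + 1) - t ^ (i + 1) = s ^ i * (s - t) + (s ^ i - t ^ i) * t := by ring
      rw [h1]
      have h2 : |s ^ i| ≤ B ^ i := by
        rw [abs_pow]
        exact pow_le_pow_left₀ (abs_nonneg _) hs _
      have hB0 : 0 ≤ B := by linarith
      have h3 : B ^ i ≤ B ^ (i + 1) := pow_le_pow_right₀ hB (by omega)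
      calc |s ^ i * (s - t) + (s ^ i - t ^ i) * t| ≤ |s ^ i * (s - t)| + |(s ^ i - t ^ i) * t| := abs_add_le _ _
        _ = |s ^ i| * |s - t| + |s ^ i - t ^ i| * |t| := by rw [abs_mul, abs_mul]
        _ ≤ B ^ (i + 1) * |s - t| + (|s - t| * ((i : ℝ) * B ^ i)) * B := by
            refine add_le_add ?_ ?_
            · exact mul_le_mul_of_nonneg_right (h2.trans h3) (abs_nonneg _)
            · exact mul_le_mul ih ht (abs_nonneg _) (by positivity)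
        _ = |s - t| * (((i + 1 : ℕ) : ℝ) * B ^ (i + 1)) := by
            push_cast
            ring
  have h1 : ∀ r : ℝ, aeval r p = ∑ i ∈ Finset.range (D + 1), (p.coeff i : ℝ) * r ^ i := by
    intro r
    rw [aeval_eq_sum_range' (Nat.lt_succ_of_le hp)]
    refine Finset.sum_congr rfl fun i _ => ?_
    rw [zsmul_eq_mul]
  have hD2 : ((D : ℝ) + 1) * D ≤ (H : ℝ) ^ (2 * D) := by
    have e1 : D + 1 ≤ 2 ^ D := Nat.lt_two_pow_self
    have e2 : (D + 1) * D ≤ H ^ (2 * D) := by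
      calc (D + 1) * D ≤ 2 ^ D * 2 ^ D := Nat.mul_le_mul e1 (by omega)
        _ = 2 ^ (2 * D) := by rw [two_mul, pow_add]
        _ ≤ H ^ (2 * D) := Nat.pow_le_pow_left hH _
    exact_mod_cast e2
  rw [h1, h1, ← Finset.sum_sub_distrib]
  have h2 : ∀ i ∈ Finset.range (D + 1), |(p.coeff i : ℝ) * s ^ i - (p.coeff i : ℝ) * t ^ i| ≤
      |s - t| * ((H : ℝ) ^ D * ((D : ℝ) * B ^ D)) := by
    intro i hi
    have hiD : i ≤ D := Nat.lt_succ_iff.1 (Finset.mem_range.1 hi)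
    rw [← mul_sub, abs_mul]
    have e1 : |(p.coeff i : ℝ)| ≤ (H : ℝ) ^ D := by
      have := hc i
      exact_mod_cast this
    have e2 : (i : ℝ) * B ^ i ≤ (D : ℝ) * B ^ D := by
      have : (i : ℝ) ≤ D := by exact_mod_cast hiD
      exact mul_le_mul this (pow_le_pow_right₀ hB hiD) (by positivity) (by positivity)
    calc |(p.coeff i : ℝ)| * |s ^ i - t ^ i| ≤ (H : ℝ) ^ D * (|s - t| * ((i : ℝ) * B ^ i)) :=
          mul_le_mul e1 (hpow i) (abs_nonneg _) (by positivity)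
      _ ≤ (H : ℝ) ^ D * (|s - t| * ((D : ℝ) * B ^ D)) := by gcongr
      _ = _ := by ring
  refine (Finset.abs_sum_le_sum_abs _ _).trans ((Finset.sum_le_card_nsmul _ _ _ h2).trans ?_)
  rw [Finset.card_range, nsmul_eq_mul]
  push_cast
  have hBD : 0 ≤ B ^ D := by positivity
  calc ((D : ℝ) + 1) * (|s - t| * ((H : ℝ) ^ D * ((D : ℝ) * B ^ D))) =
        |s - t| * ((((D : ℝ) + 1) * D) * (H : ℝ) ^ D * B ^ D) := by ring
    _ ≤ |s - t| * ((H : ℝ) ^ (2 * D) * (H : ℝ) ^ D * B ^ D) := by gcongr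
    _ = |s - t| * ((H : ℝ) ^ (3 * D) * B ^ D) := by
        rw [← pow_add]
        congr 3
        ring

/-- the analytic part: the generator is a zero of `p` -/
private theorem aik_zero (D D' : ℕ) : ∃ C : ℕ, ∀ (K : Subfield ℝ) (_ : NumberField K) (H κ : ℕ) (g : ℤ[X][X]) (p : ℤ[X])
    (x w : ℤ) (ε : ℚ) (la : ℝ), 2 ≤ H → Good D H κ g p → ev x w g = 0 → Module.finrank ℚ K ≤ D' → Sg K (H ^ D') la →
    ε.num.natAbs ≤ H ^ D' → ε.den ≤ H ^ D' → (H : ℝ) ^ C ≤ |(x : ℝ)| →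
    |(w : ℝ) / (x : ℝ) ^ κ - (ε : ℝ) * la| * (H : ℝ) ^ C ≤ 1 → aeval ((ε : ℝ) * la) p = 0 := by
  obtain ⟨C₁, hC₁⟩ := aik_sz D
  obtain ⟨C₄, hC₄⟩ := aik_nm D D'
  obtain ⟨C₂, hC₂⟩ : ∃ C₂, C₂ = 3 * D + (2 * D' + 1) * D := ⟨_, rfl⟩
  obtain ⟨C, hC⟩ : ∃ C, C = (2 * D' + 2) * C₁ + (C₄ + 2) * D + C₂ + C₄ + 2 := ⟨_, rfl⟩
  refine ⟨C, ?_⟩
  intro K hNF H κ g p x w ε la hH hG hev hfin hSg hnum hden hx hnear
  have hH2 : (2 : ℝ) ≤ H := by exact_mod_cast hH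
  have hH1 : (1 : ℝ) ≤ H := by linarith
  have hH0 : (0 : ℝ) < H := by linarith
  have hD3 : 3 ≤ D := hG.P3.trans hG.Pdeg
  obtain ⟨hla, -, -, hbd⟩ := id hSg
  have h1 : |la| ≤ (H : ℝ) ^ D' := by
    have h2 := hbd (Complex.ofRealHom.comp K.subtype)
    have h3 : (Complex.ofRealHom.comp K.subtype) ⟨la, hla⟩ = (la : ℂ) := rfl
    rw [h3, Complex.norm_real, Real.norm_eq_abs] at h2
    exact_mod_cast h2
  have h2 : |(ε : ℝ)| ≤ (H : ℝ) ^ D' := by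
    have e1 : |ε| ≤ (ε.num.natAbs : ℚ) := by
      have e2 : ε = ε.num / ε.den := (Rat.num_div_den ε).symm
      have e3 : (1 : ℚ) ≤ ε.den := by exact_mod_cast ε.den_pos
      have e4 : (ε.num.natAbs : ℚ) = |(ε.num : ℚ)| := by rw [Nat.cast_natAbs, Int.cast_abs]
      rw [e4]
      conv_lhs => rw [e2]
      rw [abs_div, abs_of_pos (by linarith : (0 : ℚ) < (ε.den : ℚ))]
      exact div_le_self (abs_nonneg _) e3
    have e2 : ((|ε| : ℚ) : ℝ) ≤ ((ε.num.natAbs : ℚ) : ℝ) := by exact_mod_cast e1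
    rw [Rat.cast_abs] at e2
    refine e2.trans ?_
    push_cast
    exact_mod_cast hnum
  obtain ⟨θ, hθ⟩ : ∃ θ : ℝ, θ = (ε : ℝ) * la := ⟨_, rfl⟩
  obtain ⟨t, ht⟩ : ∃ t : ℝ, t = (w : ℝ) / (x : ℝ) ^ κ := ⟨_, rfl⟩
  rw [← hθ, ← ht] at hnear
  rw [← hθ]
  obtain ⟨B, hB⟩ : ∃ B : ℝ, B = (H : ℝ) ^ (2 * D' + 1) := ⟨_, rfl⟩
  have hB1 : 1 ≤ B := by rw [hB]; exact one_le_pow₀ hH1
  have hθ1 : |θ| ≤ (H : ℝ) ^ (2 * D') := by
    rw [hθ, abs_mul, two_mul, pow_add]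
    exact mul_le_mul h2 h1 (abs_nonneg _) (by positivity)
  have hHC : (1 : ℝ) ≤ (H : ℝ) ^ C := one_le_pow₀ hH1
  have hdist : |t - θ| ≤ 1 := by
    have := abs_nonneg (t - θ)
    nlinarith
  have hH2D : (1 : ℝ) ≤ (H : ℝ) ^ (2 * D') := one_le_pow₀ hH1
  have hBB : 2 * (H : ℝ) ^ (2 * D') ≤ B := by
    rw [hB, pow_succ]
    nlinarith
  have hθB : |θ| ≤ B := by linarith
  have htB : |t| ≤ B := by
    have e1 : t = (t - θ) + θ := by ring
    calc |t| = |(t - θ) + θ| := by rw [← e1]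
      _ ≤ |t - θ| + |θ| := abs_add_le _ _
      _ ≤ B := by linarith
  have hx0 : x ≠ 0 := by
    rintro rfl
    rw [Int.cast_zero, abs_zero] at hx
    linarith
  have h3 := hC₁ H κ g p x w B hH hG hev hB1 (by rw [← ht]; exact htB) hx0
  rw [← ht] at h3
  have h4 : (B * H) ^ C₁ = (H : ℝ) ^ ((2 * D' + 2) * C₁) := by
    rw [hB, ← pow_succ, ← pow_mul]
  rw [h4] at h3
  have h5 := aik_diff hH hG.Pdeg hG.Pcf hB1 hθB htB
  have h6 : (H : ℝ) ^ (3 * D) * B ^ D = (H : ℝ) ^ C₂ := by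
    rw [hB, ← pow_mul, ← pow_add, hC₂]
  rw [h6] at h5
  -- the value at `t`
  have h7 : |aeval t p| * (H : ℝ) ^ (C₄ + 2) ≤ 1 := by
    have e1 : (|aeval t p| * (H : ℝ) ^ (C₄ + 2)) ^ D ≤ 1 := by
      have e2 : |aeval t p| ^ D * (H : ℝ) ^ C ≤ (H : ℝ) ^ ((2 * D' + 2) * C₁) :=
        (mul_le_mul_of_nonneg_left hx (by positivity)).trans h3
      have e3 : (H : ℝ) ^ ((2 * D' + 2) * C₁) * (H : ℝ) ^ ((C₄ + 2) * D) ≤ (H : ℝ) ^ C := by
        rw [← pow_add]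
        exact pow_le_pow_right₀ hH1 (by rw [hC]; omega)
      have e4 : 0 < (H : ℝ) ^ ((2 * D' + 2) * C₁) := by positivity
      have e5 : |aeval t p| ^ D * ((H : ℝ) ^ ((2 * D' + 2) * C₁) * (H : ℝ) ^ ((C₄ + 2) * D)) ≤
          (H : ℝ) ^ ((2 * D' + 2) * C₁) :=
        (mul_le_mul_of_nonneg_left e3 (by positivity)).trans e2
      rw [mul_pow, ← pow_mul]
      by_contra hcon
      push Not at hcon
      have e6 : (H : ℝ) ^ ((2 * D' + 2) * C₁) * 1 < (H : ℝ) ^ ((2 * D' + 2) * C₁) *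
          (|aeval t p| ^ D * (H : ℝ) ^ ((C₄ + 2) * D)) := mul_lt_mul_of_pos_left hcon e4
      have e7 : (H : ℝ) ^ ((2 * D' + 2) * C₁) * (|aeval t p| ^ D * (H : ℝ) ^ ((C₄ + 2) * D)) =
          |aeval t p| ^ D * ((H : ℝ) ^ ((2 * D' + 2) * C₁) * (H : ℝ) ^ ((C₄ + 2) * D)) := by ring
      linarith
    by_contra hcon
    push Not at hcon
    exact absurd e1 (not_le.2 (one_lt_pow₀ hcon (by omega)))
  have h8 : |aeval θ p| * (H : ℝ) ^ C₄ < 1 := by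
    have e1 : |aeval θ p| ≤ |aeval t p| + |aeval θ p - aeval t p| := by
      have e2 : aeval θ p = aeval t p + (aeval θ p - aeval t p) := by ring
      calc |aeval θ p| = |aeval t p + (aeval θ p - aeval t p)| := by rw [← e2]
        _ ≤ _ := abs_add_le _ _
    have e2 : |θ - t| * (H : ℝ) ^ C₂ * (H : ℝ) ^ (C₄ + 2) ≤ 1 := by
      have e3 : |θ - t| = |t - θ| := abs_sub_comm _ _
      have e4 : (H : ℝ) ^ C₂ * (H : ℝ) ^ (C₄ + 2) ≤ (H : ℝ) ^ C := by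
        rw [← pow_add]
        exact pow_le_pow_right₀ hH1 (by rw [hC]; omega)
      rw [e3, mul_assoc]
      exact (mul_le_mul_of_nonneg_left e4 (abs_nonneg _)).trans hnear
    have e5 : |aeval θ p| * (H : ℝ) ^ (C₄ + 2) ≤ 2 := by
      calc |aeval θ p| * (H : ℝ) ^ (C₄ + 2) ≤ (|aeval t p| + |θ - t| * (H : ℝ) ^ C₂) * (H : ℝ) ^ (C₄ + 2) :=
            mul_le_mul_of_nonneg_right (e1.trans (by linarith)) (by positivity)
        _ = |aeval t p| * (H : ℝ) ^ (C₄ + 2) + |θ - t| * (H : ℝ) ^ C₂ * (H : ℝ) ^ (C₄ + 2) := by ring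
        _ ≤ 2 := by linarith
    have e6 : (H : ℝ) ^ (C₄ + 2) = (H : ℝ) ^ C₄ * (H : ℝ) ^ 2 := pow_add _ _ _
    have e7 : (4 : ℝ) ≤ (H : ℝ) ^ 2 := by nlinarith
    have e8 : 0 ≤ |aeval θ p| * (H : ℝ) ^ C₄ := by positivity
    rw [e6] at e5
    nlinarith
  rw [hθ] at h8 ⊢
  exact hC₄ K hNF H p la ε hH hfin hSg hG.Pdeg hG.Pcf hnum hden h8

/-- the algebraic part: `K` embeds in the field of `p` -/
private theorem aik_emb {K : Subfield ℝ} {p : ℤ[X]} {B : ℕ} {la : ℝ}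
    (hSg : Sg K B la) {ε : ℚ} (hε : ε ≠ 0) (h0 : aeval ((ε : ℝ) * la) p = 0)
    [Fact (Irreducible (p.map (Int.castRingHom ℚ)))] : Nonempty (K →+* KP p) := by
  obtain ⟨hla, -, hgen, -⟩ := hSg
  obtain ⟨l, hl⟩ : ∃ l : K, l = ⟨la, hla⟩ := ⟨_, rfl⟩
  rw [← hl] at hgen
  obtain ⟨θ, hθ⟩ : ∃ θ : K, θ = algebraMap ℚ K ε * l := ⟨_, rfl⟩
  have hθR : K.subtype θ = (ε : ℝ) * la := by
    rw [hθ, map_mul, hl]
    have h1 : K.subtype (algebraMap ℚ K ε) = (ε : ℝ) := by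
      rw [← RingHom.comp_apply, eq_ratCast]
    rw [h1]
    rfl
  have h1 : aeval θ (p.map (Int.castRingHom ℚ)) = 0 := by
    apply K.subtype.injective
    rw [map_zero, aeval_def, eval₂_map, hom_eval₂, hθR]
    rw [aeval_def] at h0
    rw [← h0]
    congr 1
  obtain ⟨f, hf⟩ : ∃ f : KP p →ₐ[ℚ] K, f (AdjoinRoot.root (p.map (Int.castRingHom ℚ))) = θ := by
    refine ⟨AdjoinRoot.liftAlgHom (p.map (Int.castRingHom ℚ)) (Algebra.ofId ℚ K) θ ?_, ?_⟩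
    · exact h1
    · exact AdjoinRoot.liftAlgHom_root _ _ _ _
  have hsurj : f.fieldRange = ⊤ := by
    rw [eq_top_iff, ← hgen, IntermediateField.adjoin_simple_le_iff]
    have h2 : θ ∈ f.fieldRange := ⟨_, hf⟩
    have h3 : l = algebraMap ℚ K ε⁻¹ * θ := by
      rw [hθ, ← mul_assoc, ← map_mul, inv_mul_cancel₀ hε, map_one, one_mul]
    rw [h3]
    exact mul_mem (f.fieldRange.algebraMap_mem _) h2
  have hbij : Function.Bijective f := by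
    refine ⟨f.toRingHom.injective, fun z => ?_⟩
    have h2 : z ∈ f.fieldRange := by rw [hsurj]; trivial
    exact h2
  exact ⟨((RingEquiv.ofBijective f hbij).symm : K →+* KP p)⟩

theorem aik (D D' : ℕ) : ∃ C : ℕ, ∀ (K : Subfield ℝ) (_ : NumberField K) (H κ : ℕ) (g : ℤ[X][X]) (p : ℤ[X]) (x w : ℤ)
    (ε : ℚ) (la : ℝ), 2 ≤ H → Good D H κ g p → ev x w g = 0 → Module.finrank ℚ K ≤ D' → Sg K (H ^ D') la → ε ≠ 0 →
    ε.num.natAbs ≤ H ^ D' → ε.den ≤ H ^ D' → (H : ℝ) ^ C ≤ |(x : ℝ)| →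
    |(w : ℝ) / (x : ℝ) ^ κ - (ε : ℝ) * la| * (H : ℝ) ^ C ≤ 1 → H98.SI.AtInf K (toM g) := by
  obtain ⟨C, hC⟩ := aik_zero D D'
  refine ⟨C, ?_⟩
  intro K hNF H κ g p x w ε la hH hG hev hfin hSg hε hnum hden hx hnear
  have h0 := hC K hNF H κ g p x w ε la hH hG hev hfin hSg hnum hden hx hnear
  haveI : Fact (Irreducible (p.map (Int.castRingHom ℚ))) := ⟨hG.Pirr⟩
  obtain ⟨e⟩ := aik_emb hSg hε h0
  refine ⟨toM_irr hG.irr, ?_⟩
  intro L _ _ hL X Y hXY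
  rcases star_toM hG L hL X Y hXY with h5 | h5
  · exact Or.inl h5
  · obtain ⟨f5⟩ := h5
    exact Or.inr ⟨f5.comp e⟩

end Pool.Agent.H8.OA
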