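import Pool.Agent.H4.SF.Defs

/-! # [H8 OA AIK1] The leading form at a large zero is small

`g` monic, `D₀ = g.natDegree ≤ D`, `t = w/x^κ`. Divide `ev x w g = 0` by `x^(κ D₀)`: `∑_j (∑_(i ≤ κ (D₀ - j)) g_ij x^(i - κ (D₀ - j))) t^j = 0`; the terms with `i = κ (D₀ - j)` give `(lf κ g)(t) = p(t)^j₀`, all others have absolute value `≤ H^D B^D / |x|` (`|x| ≥ 1`), there are at most `(D+1)(D²+1)`
of them. So `|p(t)|^j₀ |x| ≤ (D+1)(D²+1) H^D B^D`. `j₀ ≥ 1`: otherwise `lf κ g = 1`, but `lf κ g` is monic of degree `D₀` (coefficient of `X^D₀`: `(g.coeff D₀).coeff 0 = 1`), so `D₀ = 0`, `g = 1` (monic), not irreducible; `j₀ ≤ D₀ ≤ D` (degrees, `3 ≤ natDegree p`).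
`|p(t)| ≤ (D+1) H^D B^D` (degree `≤ D`), so `|p(t)|^D |x| = |p(t)|^(D - j₀) |p(t)|^j₀ |x| ≤ (B H)^C` (`2 ≤ H`, `1 ≤ B`: constants are powers of `H`). -/

namespace Pool.Agent.H8.OA

open Polynomial Pool.Agent.H4.SF

private theorem aik1_exp {κ : ℕ} {g : ℤ[X][X]} (hw : Wt κ g) (x w : ℤ) :
    ev x w g = ∑ j ∈ Finset.range (g.natDegree + 1),
      (∑ i ∈ Finset.range (κ * (g.natDegree - j) + 1), (g.coeff j).coeff i * x ^ i) * w ^ j := by
  unfold ev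
  rw [eval₂_eq_sum_range]
  refine Finset.sum_congr rfl fun j _ => ?_
  congr 1
  rw [coe_eval₂RingHom, eval₂_eq_sum_range' _ (Nat.lt_succ_of_le (hw j))]
  refine Finset.sum_congr rfl fun i _ => ?_
  rw [eq_intCast, Int.cast_id]

private theorem aik1_lf (κ : ℕ) (g : ℤ[X][X]) (t : ℝ) :
    aeval t (lf κ g) = ∑ j ∈ Finset.range (g.natDegree + 1),
      (((g.coeff j).coeff (κ * (g.natDegree - j)) : ℤ) : ℝ) * t ^ j := by
  unfold lf
  rw [map_sum]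
  refine Finset.sum_congr rfl fun j _ => ?_
  rw [map_mul, map_pow, aeval_X, aeval_C]
  rfl

private theorem aik1_id {κ : ℕ} {g : ℤ[X][X]} (hw : Wt κ g) {x w : ℤ} (h : ev x w g = 0) {t : ℝ}
    (ht : (w : ℝ) = t * (x : ℝ) ^ κ) :
    (x : ℝ) ^ (κ * g.natDegree) * aeval t (lf κ g) = -∑ j ∈ Finset.range (g.natDegree + 1),
      ∑ i ∈ Finset.range (κ * (g.natDegree - j)),
        (((g.coeff j).coeff i : ℤ) : ℝ) * (x : ℝ) ^ (i + κ * j) * t ^ j := by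
  rw [aik1_exp hw] at h
  have h1 := congrArg (fun z : ℤ => (z : ℝ)) h
  push_cast at h1
  rw [aik1_lf, Finset.mul_sum, eq_neg_iff_add_eq_zero, ← Finset.sum_add_distrib]
  refine Eq.trans ?_ h1
  refine Finset.sum_congr rfl fun j hj => ?_
  have hj' : j ≤ g.natDegree := Nat.lt_succ_iff.1 (Finset.mem_range.1 hj)
  have h2 : κ * g.natDegree = κ * (g.natDegree - j) + κ * j := by
    rw [← mul_add]
    congr 1
    omega
  rw [Finset.sum_range_succ, add_mul, add_comm, ht, h2, pow_add, mul_pow, ← pow_mul, Finset.sum_mul]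
  congr 1
  · refine Finset.sum_congr rfl fun i _ => ?_
    rw [pow_add]
    ring
  · ring

private theorem aik1_cnt {D H κ : ℕ} {g : ℤ[X][X]} {p : ℤ[X]} {x w : ℤ} {B : ℝ}
    (hG : Good D H κ g p) (h : ev x w g = 0) (hB : 1 ≤ B) {t : ℝ} (ht : (w : ℝ) = t * (x : ℝ) ^ κ)
    (htB : |t| ≤ B) (hx : 1 ≤ |(x : ℝ)|) :
    |aeval t (lf κ g)| * |(x : ℝ)| ≤ ((D + 1) * (D * D) : ℕ) * ((H : ℝ) ^ D * B ^ D) := by
  have hX : 0 < |(x : ℝ)| ^ (κ * g.natDegree) := by positivity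
  refine le_of_mul_le_mul_left ?_ hX
  have h1 := congrArg (fun z : ℝ => |z|) (aik1_id hG.wt h ht)
  rw [abs_mul, abs_pow, abs_neg] at h1
  rw [← mul_assoc, h1]
  have h2 : |∑ j ∈ Finset.range (g.natDegree + 1), ∑ i ∈ Finset.range (κ * (g.natDegree - j)),
        (((g.coeff j).coeff i : ℤ) : ℝ) * (x : ℝ) ^ (i + κ * j) * t ^ j| ≤
      ∑ j ∈ Finset.range (g.natDegree + 1), ∑ i ∈ Finset.range (κ * (g.natDegree - j)),
        |(((g.coeff j).coeff i : ℤ) : ℝ) * (x : ℝ) ^ (i + κ * j) * t ^ j| :=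
    (Finset.abs_sum_le_sum_abs _ _).trans
      (Finset.sum_le_sum fun j _ => Finset.abs_sum_le_sum_abs _ _)
  refine (mul_le_mul_of_nonneg_right h2 (abs_nonneg _)).trans ?_
  rw [Finset.sum_mul]
  have h3 : ∀ j ∈ Finset.range (g.natDegree + 1),
      (∑ i ∈ Finset.range (κ * (g.natDegree - j)),
        |(((g.coeff j).coeff i : ℤ) : ℝ) * (x : ℝ) ^ (i + κ * j) * t ^ j|) * |(x : ℝ)| ≤
      ((D * D : ℕ) : ℝ) * (|(x : ℝ)| ^ (κ * g.natDegree) * ((H : ℝ) ^ D * B ^ D)) := by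
    intro j hj
    have hj' : j ≤ g.natDegree := Nat.lt_succ_iff.1 (Finset.mem_range.1 hj)
    have hjD : j ≤ D := hj'.trans hG.deg
    rw [Finset.sum_mul]
    have h4 : ∀ i ∈ Finset.range (κ * (g.natDegree - j)),
        |(((g.coeff j).coeff i : ℤ) : ℝ) * (x : ℝ) ^ (i + κ * j) * t ^ j| * |(x : ℝ)| ≤
        |(x : ℝ)| ^ (κ * g.natDegree) * ((H : ℝ) ^ D * B ^ D) := by
      intro i hi
      have hi' := Finset.mem_range.1 hi
      have h5 : i + κ * j + 1 ≤ κ * g.natDegree := by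
        have h2 : κ * g.natDegree = κ * (g.natDegree - j) + κ * j := by
          rw [← mul_add]
          congr 1
          omega
        omega
      have h6 : |(((g.coeff j).coeff i : ℤ) : ℝ)| ≤ (H : ℝ) ^ D := by
        rw [← Int.cast_abs]
        exact_mod_cast hG.cf i j
      have h7 : |t| ^ j ≤ B ^ D :=
        (pow_le_pow_left₀ (abs_nonneg _) htB j).trans (pow_le_pow_right₀ hB hjD)
      have h8 : |(x : ℝ)| ^ (i + κ * j + 1) ≤ |(x : ℝ)| ^ (κ * g.natDegree) :=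
        pow_le_pow_right₀ hx h5
      rw [abs_mul, abs_mul, abs_pow, abs_pow]
      calc |(((g.coeff j).coeff i : ℤ) : ℝ)| * |(x : ℝ)| ^ (i + κ * j) * |t| ^ j * |(x : ℝ)|
          = |(x : ℝ)| ^ (i + κ * j + 1) * (|(((g.coeff j).coeff i : ℤ) : ℝ)| * |t| ^ j) := by ring
        _ ≤ |(x : ℝ)| ^ (κ * g.natDegree) * ((H : ℝ) ^ D * B ^ D) := by gcongr
    refine (Finset.sum_le_sum h4).trans ?_
    rw [Finset.sum_const, Finset.card_range, nsmul_eq_mul]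
    refine mul_le_mul_of_nonneg_right ?_ (by positivity)
    have h9 : κ * (g.natDegree - j) ≤ D * D :=
      Nat.mul_le_mul hG.κD ((Nat.sub_le _ _).trans hG.deg)
    exact_mod_cast h9
  refine (Finset.sum_le_sum h3).trans ?_
  rw [Finset.sum_const, Finset.card_range, nsmul_eq_mul]
  have h10 : ((g.natDegree + 1 : ℕ) : ℝ) ≤ ((D + 1 : ℕ) : ℝ) := by
    exact_mod_cast Nat.succ_le_succ hG.deg
  calc ((g.natDegree + 1 : ℕ) : ℝ) * (((D * D : ℕ) : ℝ) *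
        (|(x : ℝ)| ^ (κ * g.natDegree) * ((H : ℝ) ^ D * B ^ D))) ≤
      ((D + 1 : ℕ) : ℝ) * (((D * D : ℕ) : ℝ) *
        (|(x : ℝ)| ^ (κ * g.natDegree) * ((H : ℝ) ^ D * B ^ D))) :=
        mul_le_mul_of_nonneg_right h10 (by positivity)
    _ = |(x : ℝ)| ^ (κ * g.natDegree) * (((D + 1) * (D * D) : ℕ) * ((H : ℝ) ^ D * B ^ D)) := by
        push_cast
        ring

private theorem aik1_lf_coeff {κ : ℕ} {g : ℤ[X][X]} (hm : g.Monic) :
    (lf κ g).coeff g.natDegree = 1 := by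
  unfold lf
  rw [finsetSum_coeff, Finset.sum_eq_single g.natDegree]
  · rw [coeff_C_mul, coeff_X_pow, if_pos rfl, mul_one, Nat.sub_self, mul_zero]
    have h1 : g.coeff g.natDegree = 1 := hm
    rw [h1, coeff_one_zero]
  · intro j _ hj
    rw [coeff_C_mul, coeff_X_pow, if_neg (Ne.symm hj), mul_zero]
  · intro h
    exact absurd (Finset.mem_range.2 (Nat.lt_succ_self _)) h

private theorem aik1_lf_deg (κ : ℕ) (g : ℤ[X][X]) : (lf κ g).natDegree ≤ g.natDegree := by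
  unfold lf
  refine natDegree_sum_le_of_forall_le _ _ fun j hj => ?_
  exact (natDegree_C_mul_X_pow_le _ _).trans (Nat.lt_succ_iff.1 (Finset.mem_range.1 hj))

private theorem aik1_j {D H κ : ℕ} {g : ℤ[X][X]} {p : ℤ[X]} (hG : Good D H κ g p) {j : ℕ}
    (hj : lf κ g = p ^ j) : 1 ≤ j ∧ j ≤ D := by
  constructor
  · by_contra hcon
    have h0 : j = 0 := by omega
    rw [h0, pow_zero] at hj
    have h1 := aik1_lf_coeff (κ := κ) hG.monic
    rw [hj] at h1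
    by_cases hd : g.natDegree = 0
    · have h2 : g = 1 := eq_one_of_monic_natDegree_zero hG.monic hd
      have h3 := hG.irr
      rw [h2, Polynomial.map_one] at h3
      exact h3.not_isUnit isUnit_one
    · rw [coeff_one, if_neg hd] at h1
      exact zero_ne_one h1
  · have h1 : (p ^ j).natDegree = j * p.natDegree := hG.Pmonic.natDegree_pow j
    have h2 := aik1_lf_deg κ g
    rw [hj, h1] at h2
    have h3 := hG.P3
    have h4 := hG.deg
    nlinarith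

private theorem aik1_p {D H κ : ℕ} {g : ℤ[X][X]} {p : ℤ[X]} (hG : Good D H κ g p) {B : ℝ}
    (hB : 1 ≤ B) {t : ℝ} (htB : |t| ≤ B) :
    |aeval t p| ≤ ((D + 1 : ℕ) : ℝ) * ((H : ℝ) ^ D * B ^ D) := by
  rw [aeval_eq_sum_range' (Nat.lt_succ_of_le hG.Pdeg)]
  refine (Finset.abs_sum_le_sum_abs _ _).trans ?_
  have h1 : ∀ i ∈ Finset.range (D + 1), |p.coeff i • t ^ i| ≤ (H : ℝ) ^ D * B ^ D := by
    intro i hi
    have hi' : i ≤ D := Nat.lt_succ_iff.1 (Finset.mem_range.1 hi)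
    rw [zsmul_eq_mul, abs_mul, abs_pow]
    have h6 : |((p.coeff i : ℤ) : ℝ)| ≤ (H : ℝ) ^ D := by
      rw [← Int.cast_abs]
      exact_mod_cast hG.Pcf i
    have h7 : |t| ^ i ≤ B ^ D :=
      (pow_le_pow_left₀ (abs_nonneg _) htB i).trans (pow_le_pow_right₀ hB hi')
    exact mul_le_mul h6 h7 (by positivity) (by positivity)
  refine (Finset.sum_le_sum h1).trans ?_
  rw [Finset.sum_const, Finset.card_range, nsmul_eq_mul]

theorem aik_sz (D : ℕ) : ∃ C : ℕ, ∀ (H κ : ℕ) (g : ℤ[X][X]) (p : ℤ[X]) (x w : ℤ) (B : ℝ), 2 ≤ H → Good D H κ g p →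
    ev x w g = 0 → 1 ≤ B → |(w : ℝ) / (x : ℝ) ^ κ| ≤ B → x ≠ 0 →
    |aeval ((w : ℝ) / (x : ℝ) ^ κ) p| ^ D * |(x : ℝ)| ≤ (B * H) ^ C := by
  refine ⟨2 * D * D + 4 * D, ?_⟩
  intro H κ g p x w B hH hG h hB htB hx
  have hxR : (x : ℝ) ≠ 0 := by exact_mod_cast hx
  have hx1 : 1 ≤ |(x : ℝ)| := by
    rw [← Int.cast_abs]
    exact_mod_cast Int.one_le_abs hx
  have hHr : (2 : ℝ) ≤ H := by exact_mod_cast hH
  set t : ℝ := (w : ℝ) / (x : ℝ) ^ κ with htdef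
  have ht : (w : ℝ) = t * (x : ℝ) ^ κ := by
    rw [htdef, div_mul_cancel₀ _ (pow_ne_zero _ hxR)]
  obtain ⟨j, hj⟩ := hG.lf
  obtain ⟨hj1, hjD⟩ := aik1_j hG hj
  have h1 := aik1_cnt hG h hB ht htB hx1
  rw [hj, map_pow, abs_pow] at h1
  have h2 := aik1_p hG hB htB
  have hD2 : ((D + 1 : ℕ) : ℝ) ≤ (H : ℝ) ^ D := by
    calc ((D + 1 : ℕ) : ℝ) ≤ ((2 ^ D : ℕ) : ℝ) := by exact_mod_cast Nat.lt_two_pow_self
      _ = (2 : ℝ) ^ D := by push_cast; ring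
      _ ≤ (H : ℝ) ^ D := pow_le_pow_left₀ (by norm_num) hHr D
  have hBH : 1 ≤ B * H := by nlinarith
  have hB1 : ∀ n : ℕ, 1 ≤ B ^ n := fun n => one_le_pow₀ hB
  have hH1 : ∀ n : ℕ, (1 : ℝ) ≤ (H : ℝ) ^ n := fun n => one_le_pow₀ (by linarith)
  have h3 : |aeval t p| ≤ (B * H) ^ (2 * D) := by
    calc |aeval t p| ≤ ((D + 1 : ℕ) : ℝ) * ((H : ℝ) ^ D * B ^ D) := h2
      _ ≤ (H : ℝ) ^ D * ((H : ℝ) ^ D * B ^ D) := mul_le_mul_of_nonneg_right hD2 (by positivity)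
      _ = (H : ℝ) ^ (2 * D) * (B ^ D * 1) := by ring
      _ ≤ (H : ℝ) ^ (2 * D) * (B ^ D * B ^ D) := by
          have := hB1 D
          gcongr
      _ = (B * H) ^ (2 * D) := by ring
  have h4 : |aeval t p| ^ j * |(x : ℝ)| ≤ (B * H) ^ (4 * D) := by
    have h5 : (((D + 1) * (D * D) : ℕ) : ℝ) ≤ (H : ℝ) ^ D * ((H : ℝ) ^ D * (H : ℝ) ^ D) := by
      push_cast at hD2 ⊢
      have h6 : (D : ℝ) ≤ (H : ℝ) ^ D := by linarith
      have h7 : (0 : ℝ) ≤ D := Nat.cast_nonneg D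
      gcongr
    calc |aeval t p| ^ j * |(x : ℝ)| ≤ ((D + 1) * (D * D) : ℕ) * ((H : ℝ) ^ D * B ^ D) := h1
      _ ≤ (H : ℝ) ^ D * ((H : ℝ) ^ D * (H : ℝ) ^ D) * ((H : ℝ) ^ D * B ^ D) :=
          mul_le_mul_of_nonneg_right h5 (by positivity)
      _ = (H : ℝ) ^ (4 * D) * (B ^ D * 1) := by ring
      _ ≤ (H : ℝ) ^ (4 * D) * (B ^ D * B ^ (3 * D)) := by
          have := hB1 (3 * D)
          gcongr
      _ = (B * H) ^ (4 * D) := by ring
  calc |aeval t p| ^ D * |(x : ℝ)| = |aeval t p| ^ (D - j) * (|aeval t p| ^ j * |(x : ℝ)|) := by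
        rw [← mul_assoc, ← pow_add, Nat.sub_add_cancel hjD]
    _ ≤ ((B * H) ^ (2 * D)) ^ (D - j) * (B * H) ^ (4 * D) := by gcongr
    _ ≤ ((B * H) ^ (2 * D)) ^ D * (B * H) ^ (4 * D) := by
        refine mul_le_mul_of_nonneg_right ?_ (by positivity)
        exact pow_le_pow_right₀ (one_le_pow₀ hBH) (Nat.sub_le _ _)
    _ = (B * H) ^ (2 * D * D + 4 * D) := by rw [pow_add, pow_mul (B * H) (2 * D) D]

end Pool.Agent.H8.OA
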