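import Pool.Agent.H8.OA.Isu
import Pool.Agent.H8.OA.Alc

/-! # [H8 OA DVF] A small polynomial which vanishes at the large point is divisible by the equation of the curve

`isu_of` for `G` and `B`: `Gh`, `Bh` over `Q0 H`; `isu_irr`: `Gh` is irreducible; `isu_eval`: both vanish at `(qz x, qz y)` (`qz` of a sequence which is `0` for almost all `N` is `0`). If `Gh ∤ Bh`: `alg_common`: `qz x`, `qz y` are algebraic over `Q0 H`, a contradiction. So `Gh ∣ Bh`, `isu_dvd`. -/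

namespace Pool.Agent.H8.OA

open Filter MvPolynomial Pool.Agent.H82.NS Pool.Agent.H12.ON

private theorem dvf_zero {a : ℕ → ℤ} (h : ∀ᶠ N in UU, a N = 0) : qz a = 0 := by
  unfold qz
  rw [cl_zero, cl_eq]
  filter_upwards [h] with N hN
  rw [hN, Int.cast_zero]

theorem dvf {H : ℕ → ℕ} {G B : ℕ → MvPolynomial (Fin 2) ℤ} (hG : Sb H G) (hB : Sb H B)
    (hi : ∀ᶠ N in UU, Irreducible (map (Int.castRingHom ℚ) (G N))) {x y : ℕ → ℤ}
    (h1 : ∀ᶠ N in UU, eval ![x N, y N] (G N) = 0) (h2 : ∀ᶠ N in UU, eval ![x N, y N] (B N) = 0)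
    (hx : Transcendental (Q0 H) (qz x) ∨ Transcendental (Q0 H) (qz y)) :
    ∀ᶠ N in UU, map (Int.castRingHom ℚ) (G N) ∣ map (Int.castRingHom ℚ) (B N) := by
  obtain ⟨n, Gh, hU, hn⟩ := isu_of hG
  obtain ⟨m, Bh, hV, hm⟩ := isu_of hB
  have hirr := isu_irr hn hU hi
  have e1 : aeval ![qz x, qz y] Gh = 0 := by
    rw [isu_eval hn hU]
    exact dvf_zero h1
  have e2 : aeval ![qz x, qz y] Bh = 0 := by
    rw [isu_eval hm hV]
    exact dvf_zero h2
  by_cases hd : Gh ∣ Bh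
  · exact isu_dvd hn hm hU hV hd
  · exfalso
    obtain ⟨h3, h4⟩ := alg_common hirr hd e1 e2
    rcases hx with hx | hx
    · exact hx h3
    · exact hx h4

end Pool.Agent.H8.OA
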