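import Pool.Agent.H8.OA.Ld

/-! # [H8 OA EXT] Valuation rings extend to the larger constant field

Setting of `ld`. `W` a valuation ring of `F` over `k`: there is a valuation ring `V` of `M` over `E` with `V ∩ F = W`.
Proof. Let `A` be the subring of `M` generated by the images of `W` and `E` (its elements are the finite sums `∑ w_j c_j`, `w_j ∈ W`, `c_j ∈ E`), `I` the ideal of `A` generated by the image of the maximal ideal of `W`
(elements `∑ m_j c_j`, `m_j ∈ m_W`). `1 ∉ I`: let `1 = ∑ m_j c_j`; choose a `k`-basis `b_i` of the span of `1` and the `c_j`, `1 = ∑ u_i b_i`, `c_j = ∑ a_ji b_i`: `∑_i b_i (u_i - ∑_j a_ji m_j) = 0`, by `ld`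
`u_i = ∑_j a_ji m_j ∈ m_W` for all `i`, so all `u_i = 0`: contradiction. `Ideal.image_subset_nonunits_valuationSubring`: `V ⊇ A` with `I ⊆ V.nonunits`. `V ∩ F ⊇ W`; if `z ∈ F`, `z ∉ W`, then `z⁻¹ ∈ m_W`, so
`z⁻¹ ∈ V.nonunits`, `z ∉ V`. -/

namespace Pool.Agent.H8.OA

open IntermediateField Pool.Agent.H12.ON

private theorem nonunits_mul {F : Type} [Field F] (W : ValuationSubring F) {w m : F} (hw : w ∈ W)
    (hm : m ∈ W.nonunits) : w * m ∈ W.nonunits := by
  rw [ValuationSubring.mem_nonunits_iff] at hm ⊢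
  rw [map_mul]
  have h1 := (W.valuation_le_one_iff w).2 hw
  calc W.valuation w * W.valuation m ≤ 1 * W.valuation m := mul_le_mul_left h1 _
    _ < 1 := by rw [one_mul]; exact hm

private theorem span_mul {E F M : Type} [Field E] [Field F] [Field M] [Algebra E M] [Algebra F M]
    (W : ValuationSubring F) {a y : M} (ha : a ∈ Algebra.adjoin E (algebraMap F M '' (W : Set F)))
    (hy : y ∈ Submodule.span E (algebraMap F M '' (W.nonunits : Set F))) :
    a * y ∈ Submodule.span E (algebraMap F M '' (W.nonunits : Set F)) := by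
  induction ha using Algebra.adjoin_induction generalizing y with
  | mem x hx =>
    obtain ⟨w, hw, rfl⟩ := hx
    induction hy using Submodule.span_induction with
    | mem z hz =>
      obtain ⟨m, hm, rfl⟩ := hz
      rw [← map_mul]
      exact Submodule.subset_span ⟨w * m, nonunits_mul W hw hm, rfl⟩
    | zero =>
      rw [mul_zero]
      exact Submodule.zero_mem _
    | add u v _ _ hu hv =>
      rw [mul_add]
      exact Submodule.add_mem _ hu hv
    | smul c u _ hu =>
      rw [mul_smul_comm]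
      exact Submodule.smul_mem _ _ hu
  | algebraMap r =>
    rw [← Algebra.smul_def]
    exact Submodule.smul_mem _ _ hy
  | add u v _ _ hu hv =>
    rw [add_mul]
    exact Submodule.add_mem _ (hu hy) (hv hy)
  | mul u v _ _ hu hv =>
    rw [mul_assoc]
    exact hu (hv hy)

private theorem one_not_mem {k E F M : Type} [Field k] [CharZero k] [Field E] [Field F] [Field M] [Algebra k E]
    [Algebra k F] [Algebra E M] [Algebra F M] [Algebra k M] [IsScalarTower k E M] [IsScalarTower k F M]
    (hcl : RelCl k E) {x : F} (hx : Transcendental E (algebraMap F M x)) (hF : Algebra.IsAlgebraic k⟮x⟯ F)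
    (W : ValuationSubring F) (hW : Ov k W) :
    (1 : M) ∉ Submodule.span E (algebraMap F M '' (W.nonunits : Set F)) := by
  intro h1
  rw [Submodule.mem_span_set'] at h1
  obtain ⟨n, c, g, hg⟩ := h1
  have hm : ∀ j, ∃ m : F, m ∈ W.nonunits ∧ algebraMap F M m = g j := by
    intro j
    obtain ⟨m, hm, hm'⟩ := (g j).2
    exact ⟨m, hm, hm'⟩
  choose m hm1 hm2 using hm
  obtain ⟨U, hU⟩ : ∃ U : Submodule k E, U = Submodule.span k (insert 1 (Set.range c)) := ⟨_, rfl⟩
  have hfin : Module.Finite k U := by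
    rw [hU]
    exact Module.Finite.iff_fg.2 ⟨(Set.Finite.insert 1 (Set.finite_range c)).toFinset, by simp⟩
  have h1U : (1 : E) ∈ U := by
    rw [hU]
    exact Submodule.subset_span (Set.mem_insert _ _)
  have hcU : ∀ j, c j ∈ U := by
    intro j
    rw [hU]
    exact Submodule.subset_span (Set.mem_insert_of_mem _ ⟨j, rfl⟩)
  obtain ⟨B⟩ : Nonempty (Module.Basis (Fin (Module.finrank k U)) k U) := ⟨Module.finBasis k U⟩
  have hb : LinearIndependent k (fun i => ((B i : U) : E)) :=
    B.linearIndependent.map' U.subtype (Submodule.ker_subtype U)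
  have hrep : ∀ (e : E) (he : e ∈ U), ∑ i, (B.repr ⟨e, he⟩ i) • ((B i : U) : E) = e := by
    intro e he
    calc ∑ i, (B.repr ⟨e, he⟩ i) • ((B i : U) : E) = ((∑ i, B.repr ⟨e, he⟩ i • B i : U) : E) := by
          rw [Submodule.coe_sum]
          rfl
      _ = e := by rw [B.sum_repr]
  have key : ∀ i, algebraMap k F (B.repr ⟨1, h1U⟩ i) -
      ∑ j, algebraMap k F (B.repr ⟨c j, hcU j⟩ i) * m j = 0 := by
    refine ld hcl hx hF hb ?_
    have e1 : ∀ (e : E) (he : e ∈ U) (z : M),
        ∑ i, algebraMap E M ((B i : U) : E) * (algebraMap k M (B.repr ⟨e, he⟩ i) * z) = algebraMap E M e * z := by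
      intro e he z
      conv_rhs => rw [← hrep e he]
      rw [map_sum, Finset.sum_mul]
      refine Finset.sum_congr rfl fun i _ => ?_
      rw [Algebra.smul_def, map_mul, ← IsScalarTower.algebraMap_apply]
      ring
    have e2 : ∀ i, algebraMap E M ((B i : U) : E) * algebraMap F M (algebraMap k F (B.repr ⟨1, h1U⟩ i) -
        ∑ j, algebraMap k F (B.repr ⟨c j, hcU j⟩ i) * m j) =
        algebraMap E M ((B i : U) : E) * (algebraMap k M (B.repr ⟨1, h1U⟩ i) * 1) -
          ∑ j, algebraMap E M ((B i : U) : E) * (algebraMap k M (B.repr ⟨c j, hcU j⟩ i) * algebraMap F M (m j)) := by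
      intro i
      rw [map_sub, map_sum, mul_sub, Finset.mul_sum, ← IsScalarTower.algebraMap_apply, mul_one]
      refine congrArg₂ _ rfl (Finset.sum_congr rfl fun j _ => ?_)
      rw [map_mul, ← IsScalarTower.algebraMap_apply]
    rw [Finset.sum_congr rfl fun i _ => e2 i, Finset.sum_sub_distrib, e1, Finset.sum_comm,
      Finset.sum_congr rfl fun j _ => e1 (c j) (hcU j) _, map_one, one_mul, sub_eq_zero, ← hg]
    refine Finset.sum_congr rfl fun j _ => ?_
    rw [hm2, Algebra.smul_def]
  have hz : ∀ i, B.repr ⟨1, h1U⟩ i = 0 := by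
    intro i
    by_contra h0
    have h2 := sub_eq_zero.1 (key i)
    have h3 : algebraMap k F (B.repr ⟨1, h1U⟩ i) ∈ W.nonunits := by
      rw [h2]
      exact sum_mem fun j _ => nonunits_mul W (hW _) (hm1 j)
    rw [ValuationSubring.mem_nonunits_iff_or] at h3
    rcases h3 with h3 | h3
    · exact h0 ((map_eq_zero _).1 h3)
    · exact h3 (by rw [← map_inv₀]; exact hW _)
  have h4 := hrep 1 h1U
  rw [Finset.sum_eq_zero fun i _ => by rw [hz i, zero_smul]] at h4
  exact zero_ne_one h4

theorem ext_val {k E F M : Type} [Field k] [CharZero k] [Field E] [Field F] [Field M] [Algebra k E] [Algebra k F]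
    [Algebra E M] [Algebra F M] [Algebra k M] [IsScalarTower k E M] [IsScalarTower k F M] (hcl : RelCl k E)
    {x : F} (hx : Transcendental E (algebraMap F M x)) (hF : Algebra.IsAlgebraic k⟮x⟯ F)
    (W : ValuationSubring F) (hW : Ov k W) :
    ∃ V : ValuationSubring M, Ov E V ∧ V.comap (algebraMap F M) = W := by
  obtain ⟨A, hA⟩ : ∃ A : Subalgebra E M, A = Algebra.adjoin E (algebraMap F M '' (W : Set F)) := ⟨_, rfl⟩
  obtain ⟨J, hJ⟩ : ∃ J : Submodule E M, J = Submodule.span E (algebraMap F M '' (W.nonunits : Set F)) := ⟨_, rfl⟩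
  have hAJ : ∀ a ∈ A, ∀ y ∈ J, a * y ∈ J := by
    intro a ha y hy
    rw [hA] at ha
    rw [hJ] at hy ⊢
    exact span_mul W ha hy
  let I : Ideal A.toSubring :=
    { carrier := {a | (a : M) ∈ J}
      add_mem' := fun {a b} ha hb => J.add_mem ha hb
      zero_mem' := J.zero_mem
      smul_mem' := fun c y hy => hAJ c.1 c.2 y.1 hy }
  have hI : I ≠ ⊤ := by
    intro h
    have h1 : (1 : A.toSubring) ∈ I := by
      rw [h]
      trivial
    have h2 : (1 : M) ∈ J := h1
    rw [hJ] at h2
    exact one_not_mem hcl hx hF W hW h2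
  obtain ⟨V, hV1, hV2⟩ := Ideal.image_subset_nonunits_valuationSubring I hI
  have hWA : ∀ z ∈ W, algebraMap F M z ∈ A := by
    intro z hz
    rw [hA]
    exact Algebra.subset_adjoin ⟨z, hz, rfl⟩
  refine ⟨V, fun e => hV1 (A.algebraMap_mem e), ?_⟩
  ext z
  rw [ValuationSubring.mem_comap]
  constructor
  · intro h
    by_contra hz
    have h1 : z⁻¹ ∈ W.nonunits := by
      rw [ValuationSubring.mem_nonunits_iff_or, inv_inv]
      exact Or.inr hz
    have h2 : z⁻¹ ∈ W := (W.mem_or_inv_mem z).resolve_left hz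
    have h3 : algebraMap F M z⁻¹ ∈ J := by
      rw [hJ]
      exact Submodule.subset_span ⟨z⁻¹, h1, rfl⟩
    have h4 : algebraMap F M z⁻¹ ∈ V.nonunits :=
      hV2 ⟨⟨algebraMap F M z⁻¹, hWA _ h2⟩, h3, rfl⟩
    rw [ValuationSubring.mem_nonunits_iff_or] at h4
    rcases h4 with h4 | h4
    · have h5 : z⁻¹ = 0 := (map_eq_zero _).1 h4
      rw [inv_eq_zero] at h5
      exact hz (h5 ▸ W.zero_mem)
    · rw [map_inv₀, inv_inv] at h4
      exact h4 h
  · intro hz
    exact hV1 (hWA z hz)

end Pool.Agent.H8.OA
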