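import Pool.Agent.H97.SI.FGD

/-! # [H8 OA FG2] `frame_good` with the sequence of the second coordinate

The proof of `frame_good` (H97/SI/FGD.lean) gives more: `w' = b N * ws N` with `cl ws = δ w`, `δ ∈ Q0 H`, `b N ≠ 0`, `|b N| ≤ (H N + 2)^C` for almost all `N` (theorem `member`). Choose `b` as a sequence (`1` outside), `cl b ∈ Q0 H`, `cl b ≠ 0`:
`ws' N = b N * ws N`, `cl ws' = (cl b * δ) * w`. Copy the proof (the private lemmas of FGD.lean may be copied or un-privated by a copy). The bound of `|w'|` is not needed. -/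

namespace Pool.Agent.H8.OA

open Filter Polynomial Pool.Agent.H82.NS Pool.Agent.H37.SI

private theorem fg2_ev (x w : ℤ) (g : ℤ[X][X]) : Pool.Agent.H4.SF.ev x w g = evalEval x w g := by
  unfold Pool.Agent.H4.SF.ev
  have h : eval₂RingHom (Int.castRingHom ℤ) x = evalRingHom x := by
    apply Polynomial.ringHom_ext
    · intro a
      simp
    · simp
  rw [h, eval₂_evalRingHom]

open Pool.Agent.H97.SI in
theorem frame_good2 {H : ℕ → ℕ} (hH : ∀ N, 2 ≤ H N) {xs : ℕ → ℤ} {w : QS} {κ : ℕ}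
    {G : (Q0 H)[X][X]} (hx : (cl fun N => (xs N : ℚ)) ∉ Q0 H)
    (M : Model (cl fun N => (xs N : ℚ)) w κ G) (h3 : Three (lf κ G)) :
    ∃ (D : ℕ) (δ : QS) (ws : ℕ → ℤ), δ ∈ Q0 H ∧ δ ≠ 0 ∧ (cl fun N => (ws N : ℚ)) = δ * w ∧
      ∀ᶠ N in UU, ∃ (g : ℤ[X][X]) (p : ℤ[X]),
        Pool.Agent.H4.SF.Good D (H N) κ g p ∧ Pool.Agent.H4.SF.ev (xs N) (ws N) g = 0 := by
  classical
  have hxZ : (cl fun N => (xs N : ℚ) : QS) ∈ ZS := mem_zs.2 ⟨xs, rfl⟩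
  obtain ⟨δ, hδ1, hδ2, hδ3, hδ4⟩ := int_small H _ w hxZ (model_int M)
  have hδ' : (⟨δ, hδ1⟩ : Q0 H) ≠ 0 := fun h => hδ3 (congrArg Subtype.val h)
  obtain ⟨G', M', hd', hl'⟩ := model_scale M hδ'
  have h3' : Three (lf κ G') := by rw [hl']; exact three_scale hδ' h3
  obtain ⟨ws, hws⟩ := mem_zs.1 hδ4
  have hw1 : algebraMap (Q0 H) QS ⟨δ, hδ1⟩ * w = cl fun N => (ws N : ℚ) := hws
  have hw2 : δ * w = cl fun N => (ws N : ℚ) := hws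
  rw [hw1] at M'
  have hQB : ∀ c : Q0 H, algebraMap (Q0 H) QS c ∈ V0 H := by
    intro c
    rcases abs_choice (c : QS) with h | h
    · exact ⟨(c : QS), c.2, le_of_eq h⟩
    · exact ⟨-(c : QS), (Q0 H).neg_mem c.2, le_of_eq h⟩
  have hZB : ∀ z ∈ ZS, z ∈ V0 H → ∃ c : Q0 H, algebraMap (Q0 H) QS c = z := by
    rintro z hz ⟨r, hr, hzr⟩
    exact ⟨⟨z, zs_small H z r hz hr hzr⟩, rfl⟩
  obtain ⟨P0, r, hm, hi, h3P, hr, hl⟩ := lf_pow ZS (V0 H) hQB hZB (fun c => q0_den H c) hxZ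
    (mem_zs.2 ⟨ws, rfl⟩) (zs_big H _ hxZ hx) M' h3'
  obtain ⟨C, hC⟩ := member M' hm hi h3P hr hl
  -- the multipliers as a sequence
  obtain ⟨bs, hbs⟩ : ∃ bs : ℕ → ℤ, ∀ N, (bs N ≠ 0 ∧ |bs N| ≤ ((H N + 2 : ℕ) : ℤ) ^ C) ∧
      ((∃ (g : ℤ[X][X]) (p : ℤ[X]) (b : ℤ), g.Monic ∧
      g.natDegree = G'.natDegree ∧ (∀ j, (g.coeff j).natDegree ≤ κ * (g.natDegree - j)) ∧
      Irreducible (g.map (mapRingHom (Int.castRingHom ℚ))) ∧ p.Monic ∧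
      Irreducible (p.map (Int.castRingHom ℚ)) ∧ 3 ≤ p.natDegree ∧
      lead κ g.natDegree g = p ^ r ∧
      (∀ i j, |(g.coeff j).coeff i| ≤ ((H N + 2 : ℕ) : ℤ) ^ C) ∧
      (∀ i, |p.coeff i| ≤ ((H N + 2 : ℕ) : ℤ) ^ C) ∧ b ≠ 0 ∧ |b| ≤ ((H N + 2 : ℕ) : ℤ) ^ C ∧
      evalEval (xs N) (b * ws N) g = 0) → ∃ (g : ℤ[X][X]) (p : ℤ[X]), g.Monic ∧
      g.natDegree = G'.natDegree ∧ (∀ j, (g.coeff j).natDegree ≤ κ * (g.natDegree - j)) ∧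
      Irreducible (g.map (mapRingHom (Int.castRingHom ℚ))) ∧ p.Monic ∧
      Irreducible (p.map (Int.castRingHom ℚ)) ∧ 3 ≤ p.natDegree ∧
      lead κ g.natDegree g = p ^ r ∧
      (∀ i j, |(g.coeff j).coeff i| ≤ ((H N + 2 : ℕ) : ℤ) ^ C) ∧
      (∀ i, |p.coeff i| ≤ ((H N + 2 : ℕ) : ℤ) ^ C) ∧ evalEval (xs N) (bs N * ws N) g = 0) := by
    have h1 : ∀ N, ∃ b0 : ℤ, (b0 ≠ 0 ∧ |b0| ≤ ((H N + 2 : ℕ) : ℤ) ^ C) ∧
      ((∃ (g : ℤ[X][X]) (p : ℤ[X]) (b : ℤ), g.Monic ∧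
      g.natDegree = G'.natDegree ∧ (∀ j, (g.coeff j).natDegree ≤ κ * (g.natDegree - j)) ∧
      Irreducible (g.map (mapRingHom (Int.castRingHom ℚ))) ∧ p.Monic ∧
      Irreducible (p.map (Int.castRingHom ℚ)) ∧ 3 ≤ p.natDegree ∧
      lead κ g.natDegree g = p ^ r ∧
      (∀ i j, |(g.coeff j).coeff i| ≤ ((H N + 2 : ℕ) : ℤ) ^ C) ∧
      (∀ i, |p.coeff i| ≤ ((H N + 2 : ℕ) : ℤ) ^ C) ∧ b ≠ 0 ∧ |b| ≤ ((H N + 2 : ℕ) : ℤ) ^ C ∧
      evalEval (xs N) (b * ws N) g = 0) → ∃ (g : ℤ[X][X]) (p : ℤ[X]), g.Monic ∧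
      g.natDegree = G'.natDegree ∧ (∀ j, (g.coeff j).natDegree ≤ κ * (g.natDegree - j)) ∧
      Irreducible (g.map (mapRingHom (Int.castRingHom ℚ))) ∧ p.Monic ∧
      Irreducible (p.map (Int.castRingHom ℚ)) ∧ 3 ≤ p.natDegree ∧
      lead κ g.natDegree g = p ^ r ∧
      (∀ i j, |(g.coeff j).coeff i| ≤ ((H N + 2 : ℕ) : ℤ) ^ C) ∧
      (∀ i, |p.coeff i| ≤ ((H N + 2 : ℕ) : ℤ) ^ C) ∧ evalEval (xs N) (b0 * ws N) g = 0) := by
      intro N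
      by_cases h : ∃ (g : ℤ[X][X]) (p : ℤ[X]) (b : ℤ), g.Monic ∧
        g.natDegree = G'.natDegree ∧ (∀ j, (g.coeff j).natDegree ≤ κ * (g.natDegree - j)) ∧
        Irreducible (g.map (mapRingHom (Int.castRingHom ℚ))) ∧ p.Monic ∧
        Irreducible (p.map (Int.castRingHom ℚ)) ∧ 3 ≤ p.natDegree ∧
        lead κ g.natDegree g = p ^ r ∧
        (∀ i j, |(g.coeff j).coeff i| ≤ ((H N + 2 : ℕ) : ℤ) ^ C) ∧
        (∀ i, |p.coeff i| ≤ ((H N + 2 : ℕ) : ℤ) ^ C) ∧ b ≠ 0 ∧ |b| ≤ ((H N + 2 : ℕ) : ℤ) ^ C ∧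
        evalEval (xs N) (b * ws N) g = 0
      · obtain ⟨g, p, b, a1, a2, a3, a4, a5, a6, a7, a8, a9, a10, a11, a12, a13⟩ := h
        exact ⟨b, ⟨a11, a12⟩, fun _ => ⟨g, p, a1, a2, a3, a4, a5, a6, a7, a8, a9, a10, a13⟩⟩
      · refine ⟨1, ⟨one_ne_zero, ?_⟩, fun h' => absurd h' h⟩
        rw [abs_one]
        exact one_le_pow₀ (by push_cast; linarith [(Nat.cast_nonneg (H N) : (0 : ℤ) ≤ (H N : ℤ))])
    choose bs hbs using h1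
    exact ⟨bs, hbs⟩
  set d := G'.natDegree with hd
  have hb0 : (cl fun N => (bs N : ℚ)) ≠ 0 := by
    intro h0
    rw [cl_zero, cl_eq] at h0
    obtain ⟨N, hN⟩ := h0.exists
    exact (hbs N).1.1 (by exact_mod_cast hN)
  have hbQ : (cl fun N => (bs N : ℚ)) ∈ Q0 H := by
    refine ⟨_, ⟨C, fun N => ⟨?_, ?_⟩⟩, rfl⟩
    · rw [Rat.num_intCast]
      have h1 := (hbs N).1.2
      have h2 : ((bs N).natAbs : ℤ) ≤ (((H N + 2) ^ C : ℕ) : ℤ) := by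
        rw [Int.natCast_natAbs]
        push_cast at h1 ⊢
        exact h1
      exact_mod_cast h2
    · rw [Rat.den_intCast]
      exact Nat.one_le_pow _ _ (by omega)
  refine ⟨κ + d + 2 * C + (κ * d + 1), (cl fun N => (bs N : ℚ)) * δ, fun N => bs N * ws N,
    (Q0 H).mul_mem hbQ hδ1, mul_ne_zero hb0 hδ3, ?_, ?_⟩
  · rw [mul_assoc, hw2, cl_mul]
    congr 1
    funext N
    push_cast
    rfl
  filter_upwards [hC] with N hN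
  obtain ⟨g, p, hg1, hg2, hg3, hg4, hp1, hp2, hp3, hlead, hgc, hpc, hev⟩ := (hbs N).2 hN
  have hHN : (2 : ℤ) ≤ (H N : ℤ) := by exact_mod_cast hH N
  -- heights
  have hbase : ((H N + 2 : ℕ) : ℤ) ≤ (H N : ℤ) ^ 2 := by
    push_cast
    nlinarith
  have hht : ((H N + 2 : ℕ) : ℤ) ^ C ≤ (H N : ℤ) ^ (κ + d + 2 * C + (κ * d + 1)) := by
    calc ((H N + 2 : ℕ) : ℤ) ^ C ≤ ((H N : ℤ) ^ 2) ^ C := pow_le_pow_left₀ (by positivity) hbase C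
      _ = (H N : ℤ) ^ (2 * C) := by rw [← pow_mul]
      _ ≤ _ := pow_le_pow_right₀ (by linarith) (by omega)
  -- the degree of `p`
  have hpd : p.natDegree ≤ d := by
    have h5 := (lead_monic (κ := κ) hg1 rfl).2
    rw [hlead, hp1.natDegree_pow, hg2] at h5
    calc p.natDegree = 1 * p.natDegree := (one_mul _).symm
      _ ≤ r * p.natDegree := Nat.mul_le_mul_right _ hr
      _ = d := h5
  refine ⟨g, p, ⟨by omega, hg1, by omega, hg4, hg3, fun i j => (hgc i j).trans hht, hp1,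
    hp2, hp3, ⟨r, hlead⟩, by omega, fun i => (hpc i).trans hht⟩, ?_⟩
  rw [fg2_ev]
  exact hev

end Pool.Agent.H8.OA
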