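import Mathlib

/-! # [H8 OA GEN2] The discriminant of a number field generated by small integers

Let `f = [L : ℚ] ≤ D`. The monomials `∏ (c i)^(e i)`, `e i < f`, span `L` over `ℚ` (`adjoin ℚ (range c) = ⊤` as an algebra: `c i` is integral, powers `≥ f` reduce by the minimal polynomial): choose a basis `ω` of `L` consisting of such monomials
(`exists_linearIndependent`/`Module.Basis` from a spanning set). They are integral over `ℤ` and `‖φ (ω j)‖ ≤ B^(M D)`. `Algebra.discr ℚ ω = (det P)² discr(integralBasis)` with an integer matrix `P` (coordinates of the integral elements `ω j` in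
`NumberField.integralBasis L`; `Algebra.discr_of_matrix_vecMul`, `Algebra.discr_of_matrix_mulVec`, `NumberField.coe_discr`), `det P ≠ 0`, so `|discr L| ≤ |Algebra.discr ℚ ω|`; `Algebra.discr_eq_det_embeddingsMatrixReindex_pow_two` (in `ℂ`): the determinant of
`(φ_i (ω_j))` has norm `≤ f! (B^(M D))^f`. `C = 2 D (M D + D)` or so (`f! ≤ B^(f²)`, `B ≥ 2`). -/

namespace Pool.Agent.H8.OA

open Module
open scoped Pointwise

private theorem pow_top {L : Type} [Field L] [NumberField L] (s : Set L) (h1 : (1 : L) ∈ s)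
    (hs : Algebra.adjoin ℚ s = ⊤) (D : ℕ) (hD : finrank ℚ L ≤ D) :
    Submodule.span ℚ s ^ D = ⊤ := by
  obtain ⟨V, hV⟩ : ∃ V : Submodule ℚ L, V = Submodule.span ℚ s := ⟨_, rfl⟩
  rw [← hV]
  have hsV : s ⊆ V := by
    rw [hV]
    exact Submodule.subset_span
  have h1V : (1 : Submodule ℚ L) ≤ V := by
    rw [Submodule.one_le]
    exact hsV h1
  have h1n : ∀ n, (1 : Submodule ℚ L) ≤ V ^ n := by
    intro n
    induction n with
    | zero => rw [pow_zero]
    | succ n ih =>
      rw [pow_succ]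
      calc (1 : Submodule ℚ L) = 1 * 1 := (mul_one _).symm
        _ ≤ V ^ n * V := mul_le_mul' ih h1V
  have hmono : ∀ n, V ^ n ≤ V ^ (n + 1) := by
    intro n
    rw [pow_succ]
    calc V ^ n = V ^ n * 1 := (mul_one _).symm
      _ ≤ V ^ n * V := mul_le_mul' le_rfl h1V
  have hstab : ∀ n, V ^ (n + 1) = V ^ n → V ^ n = ⊤ := by
    intro n hn
    have hk : ∀ k, V ^ (n + k) = V ^ n := by
      intro k
      induction k with
      | zero => rfl
      | succ k ih => rw [← add_assoc, pow_succ, ih, ← pow_succ, hn]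
    have hone : (1 : L) ∈ V ^ n := Submodule.one_le.1 (h1n n)
    have hmul : ∀ x y, x ∈ V ^ n → y ∈ V ^ n → x * y ∈ V ^ n := by
      intro x y hx hy
      have h := Submodule.mul_mem_mul hx hy
      rwa [← pow_add, hk n] at h
    have hle : V ≤ V ^ n := by
      rw [← hn, pow_succ]
      calc V = 1 * V := (one_mul _).symm
        _ ≤ V ^ n * V := mul_le_mul' (h1n n) le_rfl
    have h2 : Algebra.adjoin ℚ s ≤ (V ^ n).toSubalgebra hone hmul :=
      Algebra.adjoin_le fun x hx => hle (hsV hx)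
    rw [hs] at h2
    rw [eq_top_iff]
    intro x _
    exact h2 (Algebra.mem_top)
  have hrk : ∀ n, V ^ n = ⊤ ∨ n + 1 ≤ finrank ℚ (V ^ n : Submodule ℚ L) := by
    intro n
    induction n with
    | zero =>
      right
      rw [pow_zero, Submodule.one_eq_span, finrank_span_singleton one_ne_zero]
    | succ n ih =>
      rcases ih with ih | ih
      · left
        rw [eq_top_iff, ← ih]
        exact hmono n
      · by_cases h : V ^ (n + 1) = V ^ n
        · left
          rw [h]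
          exact hstab n h
        · right
          have h3 : V ^ n < V ^ (n + 1) := lt_of_le_of_ne (hmono n) (Ne.symm h)
          have h4 := Submodule.finrank_lt_finrank_of_lt h3
          omega
  rcases hrk D with h | h
  · exact h
  · have h3 := Submodule.finrank_le (V ^ D)
    omega

/-- a basis of elements of a spanning set, indexed by a given type -/
private theorem exists_basis {L : Type} [Field L] [NumberField L] {S : Set L}
    (hS : Submodule.span ℚ S = ⊤) {ι : Type} [Fintype ι] (b : Basis ι ℚ L) :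
    ∃ w : Basis ι ℚ L, ∀ i, w i ∈ S := by
  obtain ⟨t, h1, h2, h3⟩ := exists_linearIndependent ℚ S
  have h4 : ⊤ ≤ Submodule.span ℚ (Set.range ((↑) : t → L)) := by
    rw [Subtype.range_coe, h2, hS]
  let w₀ : Basis t ℚ L := Basis.mk h3 h4
  let e : t ≃ ι := w₀.indexEquiv b
  refine ⟨w₀.reindex e, fun i => ?_⟩
  rw [Basis.reindex_apply, Basis.mk_apply]
  exact h1 (e.symm i).2

private theorem disc_le {L : Type} [Field L] [NumberField L] {A : ℝ} (hA : 1 ≤ A)
    (w : Basis (Free.ChooseBasisIndex ℤ (NumberField.RingOfIntegers L)) ℚ L)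
    (hw : ∀ i, IsIntegral ℤ (w i)) (hb : ∀ (φ : L →+* ℂ) (i), ‖φ (w i)‖ ≤ A) {D : ℕ}
    (hD : finrank ℚ L ≤ D) : (|NumberField.discr L| : ℝ) ≤ ((D.factorial : ℝ) * A ^ D) ^ 2 := by
  classical
  let b := NumberField.RingOfIntegers.basis L
  let P : Matrix (Free.ChooseBasisIndex ℤ (NumberField.RingOfIntegers L))
    (Free.ChooseBasisIndex ℤ (NumberField.RingOfIntegers L)) ℤ :=
    fun i j => b.repr ⟨w j, hw j⟩ i
  have h1 : Matrix.vecMul (⇑(NumberField.integralBasis L)) ((P.map (Int.cast : ℤ → ℚ)).map (algebraMap ℚ L)) = w := by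
    funext j
    have h2 := congrArg (algebraMap (NumberField.RingOfIntegers L) L) (b.sum_repr ⟨w j, hw j⟩)
    rw [map_sum] at h2
    rw [Matrix.vecMul, dotProduct]
    rw [show (algebraMap (NumberField.RingOfIntegers L) L) ⟨w j, hw j⟩ = w j from rfl] at h2
    rw [← h2]
    refine Finset.sum_congr rfl fun i _ => ?_
    rw [NumberField.integralBasis_apply, zsmul_eq_mul, map_mul, mul_comm, map_intCast]
    change algebraMap ℚ L ((b.repr ⟨w j, hw j⟩ i : ℤ) : ℚ) *
      algebraMap (NumberField.RingOfIntegers L) L (b i) = _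
    rw [map_intCast]
  have h2 : Algebra.discr ℚ w = (P.det : ℚ) ^ 2 * (NumberField.discr L : ℚ) := by
    rw [← h1, Algebra.discr_of_matrix_vecMul, NumberField.coe_discr]
    congr 2
    exact (Int.cast_det P).symm
  have h3 : Algebra.discr ℚ w ≠ 0 := Algebra.discr_not_zero_of_basis ℚ w
  have h4 : P.det ≠ 0 := by
    intro h
    rw [h2, h] at h3
    simp at h3
  have h5 : (1 : ℝ) ≤ (P.det : ℝ) ^ 2 := by
    have h6 : (1 : ℤ) ≤ P.det ^ 2 := by
      have := pow_pos (abs_pos.2 h4) 2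
      rw [sq_abs] at this
      omega
    exact_mod_cast h6
  -- the embeddings
  have hcard : Fintype.card (Free.ChooseBasisIndex ℤ (NumberField.RingOfIntegers L)) = finrank ℚ L :=
    (finrank_eq_card_basis w).symm
  obtain ⟨e⟩ : Nonempty ((Free.ChooseBasisIndex ℤ (NumberField.RingOfIntegers L)) ≃ (L →ₐ[ℚ] ℂ)) := by
    refine ⟨Fintype.equivOfCardEq ?_⟩
    rw [hcard, AlgHom.card]
  have h7 := Algebra.discr_eq_det_embeddingsMatrixReindex_pow_two ℚ ℂ w e
  have h8 : ‖(Algebra.embeddingsMatrixReindex ℚ ℂ w e).det‖ ≤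
      ((finrank ℚ L).factorial : ℝ) * A ^ finrank ℚ L := by
    have h9 := Matrix.det_le (A := Algebra.embeddingsMatrixReindex ℚ ℂ w e)
      (abv := NormedField.toAbsoluteValue ℂ) (x := A) (fun i j => hb (e j : L →+* ℂ) i)
    rw [hcard, nsmul_eq_mul] at h9
    exact h9
  have h10 : ((finrank ℚ L).factorial : ℝ) * A ^ finrank ℚ L ≤ (D.factorial : ℝ) * A ^ D := by
    have h11 : ((finrank ℚ L).factorial : ℝ) ≤ (D.factorial : ℝ) := by
      exact_mod_cast Nat.factorial_le hD
    have h12 : A ^ finrank ℚ L ≤ A ^ D := pow_le_pow_right₀ hA hD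
    exact mul_le_mul h11 h12 (by positivity) (by positivity)
  have h13 : ‖(algebraMap ℚ ℂ (Algebra.discr ℚ w))‖ ≤ ((D.factorial : ℝ) * A ^ D) ^ 2 := by
    rw [h7, norm_pow]
    exact pow_le_pow_left₀ (norm_nonneg _) (h8.trans h10) 2
  have h14 : ‖(algebraMap ℚ ℂ (Algebra.discr ℚ w))‖ = (P.det : ℝ) ^ 2 * |(NumberField.discr L : ℝ)| := by
    rw [h2]
    generalize P.det = d
    simp only [eq_ratCast]
    push_cast
    rw [norm_mul, norm_pow, Complex.norm_intCast, Complex.norm_intCast, sq_abs]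
  rw [h14] at h13
  have h15 : |(NumberField.discr L : ℝ)| ≤ (P.det : ℝ) ^ 2 * |(NumberField.discr L : ℝ)| :=
    le_mul_of_one_le_left (abs_nonneg _) h5
  exact h15.trans h13

theorem disc_adj (D M : ℕ) : ∃ C : ℕ, ∀ (L : Type) [Field L] [NumberField L] (c : Fin M → L) (B : ℕ), 2 ≤ B →
    IntermediateField.adjoin ℚ (Set.range c) = ⊤ → (∀ i, IsIntegral ℤ (c i)) →
    (∀ (φ : L →+* ℂ) (i : Fin M), ‖φ (c i)‖ ≤ B) → Module.finrank ℚ L ≤ D →
    |NumberField.discr L| ≤ (B : ℤ) ^ C := by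
  refine ⟨4 * D * D, ?_⟩
  intro L _ _ c B hB hadj hint hbd hD
  have hB1 : (1 : ℝ) ≤ B := by
    have : 1 ≤ B := by omega
    exact_mod_cast this
  obtain ⟨s, hs⟩ : ∃ s : Set L, s = insert 1 (Set.range c) := ⟨_, rfl⟩
  have hs1 : (1 : L) ∈ s := by
    rw [hs]
    exact Set.mem_insert _ _
  have hsP : ∀ z ∈ s, IsIntegral ℤ z ∧ ∀ φ : L →+* ℂ, ‖φ z‖ ≤ B := by
    intro z hz
    rw [hs, Set.mem_insert_iff] at hz
    rcases hz with rfl | ⟨i, rfl⟩
    · refine ⟨isIntegral_one, fun φ => ?_⟩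
      rw [map_one, norm_one]
      exact hB1
    · exact ⟨hint i, fun φ => hbd φ i⟩
  have hpow : ∀ n, ∀ z ∈ s ^ n, IsIntegral ℤ z ∧ ∀ φ : L →+* ℂ, ‖φ z‖ ≤ (B : ℝ) ^ n := by
    intro n
    induction n with
    | zero =>
      intro z hz
      rw [pow_zero, Set.mem_one] at hz
      rw [hz]
      refine ⟨isIntegral_one, fun φ => ?_⟩
      rw [map_one, norm_one, pow_zero]
    | succ n ih =>
      intro z hz
      rw [pow_succ, Set.mem_mul] at hz
      obtain ⟨x, hx, y, hy, rfl⟩ := hz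
      refine ⟨(ih x hx).1.mul (hsP y hy).1, fun φ => ?_⟩
      rw [map_mul, norm_mul, pow_succ]
      exact mul_le_mul ((ih x hx).2 φ) ((hsP y hy).2 φ) (norm_nonneg _) (by positivity)
  have hadj' : Algebra.adjoin ℚ s = ⊤ := by
    have h1 : Algebra.adjoin ℚ (Set.range c) = ⊤ := by
      have h2 := IntermediateField.adjoin_toSubalgebra_of_isAlgebraic (F := ℚ) (S := Set.range c)
        (fun x _ => Algebra.IsAlgebraic.isAlgebraic x)
      rw [hadj, IntermediateField.top_toSubalgebra] at h2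
      exact h2.symm
    rw [eq_top_iff, ← h1, hs]
    exact Algebra.adjoin_mono (Set.subset_insert _ _)
  have hspan : Submodule.span ℚ (s ^ D) = ⊤ := by
    rw [← Submodule.span_pow]
    exact pow_top s hs1 hadj' D hD
  obtain ⟨w, hw⟩ := exists_basis hspan (NumberField.integralBasis L)
  have hA : (1 : ℝ) ≤ (B : ℝ) ^ D := one_le_pow₀ hB1
  have h1 := disc_le hA w (fun i => (hpow D _ (hw i)).1) (fun φ i => (hpow D _ (hw i)).2 φ) hD
  have h2 : ((D.factorial : ℝ)) ≤ (B : ℝ) ^ (D * D) := by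
    have h3 : D.factorial ≤ B ^ (D * D) := by
      calc D.factorial ≤ D ^ D := Nat.factorial_le_pow D
        _ ≤ (2 ^ D) ^ D := Nat.pow_le_pow_left (Nat.lt_two_pow_self).le D
        _ = 2 ^ (D * D) := (pow_mul 2 D D).symm
        _ ≤ B ^ (D * D) := Nat.pow_le_pow_left hB _
    exact_mod_cast h3
  have h4 : ((D.factorial : ℝ) * ((B : ℝ) ^ D) ^ D) ^ 2 ≤ (B : ℝ) ^ (4 * D * D) := by
    calc ((D.factorial : ℝ) * ((B : ℝ) ^ D) ^ D) ^ 2
        ≤ ((B : ℝ) ^ (D * D) * ((B : ℝ) ^ D) ^ D) ^ 2 := by gcongr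
      _ = (B : ℝ) ^ (4 * D * D) := by
        rw [← pow_mul, ← pow_add, ← pow_mul]
        congr 1
        ring
  have h5 := h1.trans h4
  exact_mod_cast h5

end Pool.Agent.H8.OA
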