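import Mathlib

/-! # [H8 OA GEN3] A small generator of a number field with a real embedding (Minkowski, Hermite)

`τ : k →+* ℝ` gives a real infinite place `w₀` (`NumberField.InfinitePlace.mk (Complex.ofRealHom.comp τ)`, `isReal_mk_iff`). `NumberField.mixedEmbedding.exists_primitive_element_lt_of_isReal` (CanonicalEmbedding/ConvexBody.lean) with a bound `B'` with
`minkowskiBound k 1 < convexBodyLTFactor k * B'`: see its use in `Mathlib/NumberTheory/NumberField/Discriminant/Basic.lean` (Hermite's theorem, lines 380-430, `minkowskiBound_lt_boundOfDiscBdd`): `B' = √|discr| 2^[k:ℚ] + 1` or larger. It gives an algebraic integer `a` with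
`ℚ(a) = k` and `w a < max B' 1` for all infinite places `w`; `‖φ a‖ = w a` for `w = mk φ`. `B' ≤ B 2^n + 1 ≤ B^(n+2)`. -/

namespace Pool.Agent.H8.OA

open NumberField NumberField.mixedEmbedding NumberField.InfinitePlace Module

private theorem mink_lt (k : Type) [Field k] [NumberField k] (B n : ℕ) (hn : Module.finrank ℚ k ≤ n)
    (hK : |NumberField.discr k| ≤ (B : ℤ)) :
    minkowskiBound k ↑1 < ((NNReal.sqrt B * (2 : NNReal) ^ n + 1 : NNReal) : ENNReal) := by
  have : NNReal.sqrt B * (2 : NNReal) ^ n < NNReal.sqrt B * (2 : NNReal) ^ n + 1 :=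
    lt_add_of_pos_right _ zero_lt_one
  refine lt_of_le_of_lt ?_ (ENNReal.coe_lt_coe.mpr this)
  rw [minkowskiBound, volume_fundamentalDomain_fractionalIdealLatticeBasis,
    Units.val_one, FractionalIdeal.absNorm_one, Rat.cast_one,
    ENNReal.ofReal_one, one_mul, mixedEmbedding.finrank, volume_fundamentalDomain_latticeBasis,
    ENNReal.coe_mul, ENNReal.coe_pow, ENNReal.coe_ofNat,
    show ((NNReal.sqrt B : NNReal) : ENNReal) = (1 : ENNReal) * ((NNReal.sqrt B : NNReal) : ENNReal) by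
      rw [one_mul]]
  gcongr
  · exact pow_le_one₀ (by positivity) (by simp)
  · rwa [← NNReal.coe_le_coe, coe_nnnorm, Int.norm_eq_abs, ← Int.cast_abs,
      NNReal.coe_natCast, ← Int.cast_natCast, Int.cast_le]
  · exact one_le_two

theorem small_gen (n : ℕ) : ∃ C : ℕ, ∀ (k : Type) [Field k] [NumberField k] (_ : k →+* ℝ) (B : ℕ), 2 ≤ B →
    Module.finrank ℚ k ≤ n → |NumberField.discr k| ≤ (B : ℤ) →
    ∃ la : k, IsIntegral ℤ la ∧ IntermediateField.adjoin ℚ {la} = ⊤ ∧ ∀ φ : k →+* ℂ, ‖φ la‖ ≤ (B : ℝ) ^ C := by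
  refine ⟨n + 2, fun k _ _ τ B hB hn hd => ?_⟩
  set w₀ : InfinitePlace k := InfinitePlace.mk (Complex.ofRealHom.comp τ) with hw₀def
  have hw₀ : IsReal w₀ := by
    rw [hw₀def, isReal_mk_iff, ComplexEmbedding.isReal_iff]
    ext x
    simp [ComplexEmbedding.conjugate]
  set B' : NNReal := NNReal.sqrt B * (2 : NNReal) ^ n + 1 with hB'
  have hm : minkowskiBound k ↑1 < convexBodyLTFactor k * B' := by
    calc minkowskiBound k ↑1 < (B' : ENNReal) := mink_lt k B n hn hd
      _ = 1 * B' := by rw [one_mul]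
      _ ≤ convexBodyLTFactor k * B' := by gcongr; exact mod_cast one_le_convexBodyLTFactor k
  obtain ⟨a, ha1, ha2⟩ := exists_primitive_element_lt_of_isReal k hw₀ hm
  refine ⟨(a : k), a.isIntegral_coe, ha1, fun φ => ?_⟩
  have h1 := ha2 (InfinitePlace.mk φ)
  rw [InfinitePlace.apply] at h1
  refine h1.le.trans ?_
  have hB1 : (1 : ℝ) ≤ B := by
    have : (2 : ℝ) ≤ B := by exact_mod_cast hB
    linarith
  have hB2 : (2 : ℝ) ≤ B := by exact_mod_cast hB
  have h2 : ((B' : NNReal) : ℝ) = Real.sqrt B * 2 ^ n + 1 := by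
    rw [hB']
    push_cast
    rfl
  have h3 : Real.sqrt B ≤ B := by
    rw [Real.sqrt_le_left (by linarith)]
    nlinarith
  have h4 : (2 : ℝ) ^ n ≤ (B : ℝ) ^ n := by gcongr
  have h5 : Real.sqrt B * 2 ^ n ≤ (B : ℝ) ^ (n + 1) := by
    calc Real.sqrt B * 2 ^ n ≤ B * (B : ℝ) ^ n := by gcongr
      _ = (B : ℝ) ^ (n + 1) := by ring
  have h6 : (1 : ℝ) ≤ (B : ℝ) ^ (n + 1) := one_le_pow₀ hB1
  have h7 : (B : ℝ) ^ (n + 2) = (B : ℝ) ^ (n + 1) * B := by ring
  have h8 : (B : ℝ) ^ (n + 1) * 2 ≤ (B : ℝ) ^ (n + 1) * B := by gcongr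
  rw [NNReal.coe_max, h2, NNReal.coe_one]
  apply max_le
  · rw [h7]; linarith
  · rw [h7]; linarith

end Pool.Agent.H8.OA
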