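import Pool.Agent.H8.OA.Gen1
import Pool.Agent.H8.OA.Gen2
import Pool.Agent.H8.OA.Gen3

/-! # [H8 OA GEN] A small generator of the field of a curve

`L = EQ Q i` (`gen_deg`: number field of degree `≤ d ≤ n`), generators `c_m`, `m ≤ 2 d³ e ≤ 2 n³ n! =: M` (`e ≤ d!`; pad with zeros to `Fin (M+1)` to have a constant number of generators), integral (`PData.integral`), all conjugates `≤ b^(M+1)`.
`disc_adj n (M+1)` with `B = b^(M+1)`: `|discr L| ≤ b^C₁`. `kap i : k →+* ℂ` has its image in `L` (`gen_mem`): a ring homomorphism `k →+* L`, so `Algebra k L`, and `NumberField.discr_dvd_discr k L` (`discr L ≠ 0`): `|discr k| ≤ |discr L| ≤ b^C₁`; `[k:ℚ] ≤ [L:ℚ] ≤ n`.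
`small_gen n` with `B = b^C₁` (if `C₁ = 0` use `b^(C₁+1)`). -/

namespace Pool.Agent.H8.OA

open Finset Polynomial Pool.Agent.H87.SA2 Pool.Agent.H8.AS

private theorem gen_abs_le {a b : ℤ} (h : a ∣ b) (hb : b ≠ 0) : |a| ≤ |b| :=
  Int.le_of_dvd (abs_pos.2 hb) ((abs_dvd_abs a b).2 h)

private theorem gen_adj' {K L : Type} [Field K] [Field L] [Algebra K L] {E : IntermediateField K L} {S : Set L}
    (hE : E = IntermediateField.adjoin K S) {ι : Type} (c : ι → E) (h : ∀ s ∈ S, ∃ i, ((c i : E) : L) = s) :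
    IntermediateField.adjoin K (Set.range c) = ⊤ := by
  apply IntermediateField.lift_injective E
  rw [IntermediateField.lift_adjoin, IntermediateField.lift_top]
  apply le_antisymm
  · rw [IntermediateField.adjoin_le_iff]
    rintro x ⟨y, -, rfl⟩
    exact y.2
  · conv_lhs => rw [hE]
    rw [IntermediateField.adjoin_le_iff]
    intro s hs
    obtain ⟨i, hi⟩ := h s hs
    exact IntermediateField.subset_adjoin K _ ⟨c i, ⟨i, rfl⟩, hi⟩

private theorem gen_inst {L : Type} [Field L] (a₁ a₂ : Algebra ℚ L) (S : Set L)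
    (h : @IntermediateField.adjoin ℚ _ L _ a₁ S = ⊤) : @IntermediateField.adjoin ℚ _ L _ a₂ S = ⊤ := by
  have h1 : a₁ = a₂ := Subsingleton.elim _ _
  subst h1
  exact h

theorem gen (n : ℕ) : ∃ C : ℕ, ∀ (k : Type) [Field k] [NumberField k] (d b : ℕ) (F : ℕ → ℕ → ℤ) (Q : CrvS k n d b F)
    (i : Fin d) (_ : k →+* ℝ), i ∈ Q.kp.S →
    ∃ la : k, IsIntegral ℤ la ∧ IntermediateField.adjoin ℚ {la} = ⊤ ∧ ∀ φ : k →+* ℂ, ‖φ la‖ ≤ (b : ℝ) ^ C := by
  classical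
  obtain ⟨N, hN⟩ : ∃ N : ℕ, N = 2 * n ^ 3 * n.factorial + 1 := ⟨_, rfl⟩
  obtain ⟨C₁, hC₁⟩ := disc_adj n N
  obtain ⟨C₂, hC₂⟩ := small_gen n
  refine ⟨(N * C₁ + 1) * C₂, ?_⟩
  intro k _ _ d b F Q i τ hi
  have hb2 : 2 ≤ b := Q.b2
  have hb1 : 1 ≤ b := by omega
  have hb1R : (1 : ℝ) ≤ b := by exact_mod_cast hb1
  obtain ⟨hNF, hdeg, hnorm⟩ := gen_deg Q i
  -- the number of coefficients
  have hM : 2 * d ^ 3 * Q.pd.e + 1 ≤ N := by
    rw [hN]
    have h1 : d ^ 3 ≤ n ^ 3 := Nat.pow_le_pow_left Q.dn 3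
    have h2 : Q.pd.e ≤ n.factorial := Q.e_le.trans (Nat.factorial_le Q.dn)
    have h3 := Nat.mul_le_mul (Nat.mul_le_mul_left 2 h1) h2
    omega
  -- the generators
  have hmem : ∀ m : Fin (2 * d ^ 3 * Q.pd.e + 1), PowerSeries.coeff (m : ℕ) (Q.pd.x i) ∈ EQ Q i :=
    fun m => IntermediateField.subset_adjoin ℚ (Set.range fun m : Fin (2 * d ^ 3 * Q.pd.e + 1) =>
      PowerSeries.coeff (m : ℕ) (Q.pd.x i)) ⟨m, rfl⟩
  obtain ⟨c, hc⟩ : ∃ c : Fin N → EQ Q i, ∀ m, c m =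
    if h : (m : ℕ) < 2 * d ^ 3 * Q.pd.e + 1 then
      (⟨PowerSeries.coeff (m : ℕ) (Q.pd.x i), hmem ⟨m, h⟩⟩ : EQ Q i) else 0 := ⟨_, fun _ => rfl⟩
  have hc1 : ∀ (m : Fin N) (h : (m : ℕ) < 2 * d ^ 3 * Q.pd.e + 1),
      ((c m : EQ Q i) : ℂ) = PowerSeries.coeff (m : ℕ) (Q.pd.x i) := by
    intro m h
    rw [hc]
    simp only [h, dif_pos]
  have hc0 : ∀ (m : Fin N), ¬ (m : ℕ) < 2 * d ^ 3 * Q.pd.e + 1 → c m = 0 := by
    intro m h
    rw [hc]
    simp only [h, dif_neg, not_false_eq_true]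
  have htop : IntermediateField.adjoin ℚ (Set.range c) = ⊤ := by
    refine gen_inst _ _ _ (gen_adj' (S := Set.range fun m : Fin (2 * d ^ 3 * Q.pd.e + 1) =>
      PowerSeries.coeff (m : ℕ) (Q.pd.x i)) rfl c ?_)
    rintro s ⟨m, rfl⟩
    exact ⟨⟨m, lt_of_lt_of_le m.2 hM⟩, hc1 ⟨m, lt_of_lt_of_le m.2 hM⟩ m.2⟩
  have hint : ∀ m, IsIntegral ℤ (c m) := by
    intro m
    by_cases h : (m : ℕ) < 2 * d ^ 3 * Q.pd.e + 1
    · have h1 : IsIntegral ℤ ((c m : EQ Q i) : ℂ) := by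
        rw [hc1 m h]
        exact Q.pd.integral i m
      exact (isIntegral_algHom_iff (f := ((EQ Q i).val.restrictScalars ℤ)) Subtype.val_injective).1 h1
    · rw [hc0 m h]
      exact isIntegral_zero
  have hbd : ∀ (φ : EQ Q i →+* ℂ) (m : Fin N), ‖φ (c m)‖ ≤ ((b ^ N : ℕ) : ℝ) := by
    intro φ m
    push_cast
    by_cases h : (m : ℕ) < 2 * d ^ 3 * Q.pd.e + 1
    · refine (hnorm φ ⟨m, h⟩ (c m) (hc1 m h)).trans ?_
      exact pow_le_pow_right₀ hb1R m.2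
    · rw [hc0 m h, map_zero, norm_zero]
      positivity
  have hB : 2 ≤ b ^ N := by
    calc 2 ≤ b := hb2
      _ = b ^ 1 := (pow_one b).symm
      _ ≤ b ^ N := Nat.pow_le_pow_right hb1 (by omega)
  have hdL := hC₁ (EQ Q i) c (b ^ N) hB htop hint hbd (hdeg.trans Q.dn)
  -- the embedding of `k`
  obtain ⟨f, -⟩ : ∃ f : k →+* EQ Q i, ∀ x, ((f x : EQ Q i) : ℂ) = Q.kp.kap i x :=
    ⟨(Q.kp.kap i).codRestrict (EQ Q i) (gen_mem Q hi), fun x => rfl⟩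
  have hdk : |NumberField.discr k| ≤ |NumberField.discr (EQ Q i)| := by
    let : Algebra k (EQ Q i) := f.toAlgebra
    exact gen_abs_le (NumberField.discr_dvd_discr k (EQ Q i)) (NumberField.discr_ne_zero _)
  have hfk : Module.finrank ℚ k ≤ n := by
    refine le_trans ?_ (hdeg.trans Q.dn)
    exact LinearMap.finrank_le_finrank_of_injective (f := f.toRatAlgHom.toLinearMap) f.injective
  have hdk2 : |NumberField.discr k| ≤ ((b ^ (N * C₁ + 1) : ℕ) : ℤ) := by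
    refine (hdk.trans hdL).trans ?_
    push_cast
    rw [← pow_mul]
    exact pow_le_pow_right₀ (by exact_mod_cast hb1) (by omega)
  have hB2 : 2 ≤ b ^ (N * C₁ + 1) := by
    calc 2 ≤ b := hb2
      _ = b ^ 1 := (pow_one b).symm
      _ ≤ b ^ (N * C₁ + 1) := Nat.pow_le_pow_right hb1 (by omega)
  obtain ⟨la, h1, h2, h3⟩ := hC₂ k τ (b ^ (N * C₁ + 1)) hB2 hfk hdk2
  refine ⟨la, h1, h2, fun φ => ?_⟩
  have h4 := h3 φ
  push_cast at h4
  rw [← pow_mul] at h4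
  exact h4

end Pool.Agent.H8.OA
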