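import Pool.Agent.H8.OA.Res5
import Pool.Agent.H87.SA2.GALA
import Pool.Agent.H87.SA2.PERM

/-! # [H8 OA GEN1] `k` embeds in the field of the first coefficients of the branch

`E = ℚ(coeff_m (x_i), m ≤ 2 d³ e) ⊆ AA ⊆ ℂ`. Let `c = kap i la ∈ AA`, suppose `c ∉ E`. There is `σ : AA →+* ℂ` which fixes `E` and moves `c` (`AA` is an algebraic closure of `E`, normal and separable: `InfiniteGalois`/`IsGalois.mem_bot_iff_fixed`, or two different
zeros of `minpoly E c` and `IsAlgClosed.lift`). The coefficients of the `x`'s are in `AA` (integral); by `perm_aux` (H87/SA2/PERM; see `Res3`) `σ` maps `x_i` to some `x_j` coefficientwise; they agree up to the index `2 d³ e`, so `j = i` (`res_sep`).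
`Q.kp.gal` for `i = j`: `σ c = kap i la = c`: contradiction.
`gen_deg`: an embedding `φ : E →+* ℂ` extends to `σ : AA →+* ℂ` (`IsAlgClosed.lift`), `σ x_i = x_j`: `φ` is determined by `j`, so `[E : ℚ] =` number of embeddings `≤ d`; and `φ (coeff_m x_i) = coeff_m x_j` has norm `≤ R^(m+1) ≤ b^(m+1)`. -/

namespace Pool.Agent.H8.OA

open Finset Polynomial Pool.Agent.H87.SA2 Pool.Agent.H8.AS

/-- the field of the first coefficients of the branch `i` -/
noncomputable def EQ {k : Type} [Field k] {n d b : ℕ} {F : ℕ → ℕ → ℤ} (Q : CrvS k n d b F) (i : Fin d) :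
    IntermediateField ℚ ℂ :=
  IntermediateField.adjoin ℚ (Set.range fun m : Fin (2 * d ^ 3 * Q.pd.e + 1) => PowerSeries.coeff (m : ℕ) (Q.pd.x i))

variable {k : Type} [Field k] [NumberField k] {n d b : ℕ} {F : ℕ → ℕ → ℤ}

private theorem co_alg {f : ℤ[X][X]} (pd : PData f d) (i : Fin d) (m : ℕ) :
    PowerSeries.coeff m (pd.x i) ∈ AA := by
  rw [mem_algebraicClosure_iff]
  exact ((pd.integral i m).tower_top (A := ℚ)).isAlgebraic

private theorem perm_x {f : ℤ[X][X]} (pd : PData f d) (σ : AA →+* ℂ) :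
    ∃ π : Equiv.Perm (Fin d), ∀ (i : Fin d) (m : ℕ) (a : AA),
      (a : ℂ) = PowerSeries.coeff m (pd.x i) → σ a = PowerSeries.coeff m (pd.x (π i)) := by
  obtain ⟨ι, hι⟩ : ∃ ι : AA →+* ℂ, ι = algebraMap AA ℂ := ⟨_, rfl⟩
  have hιa : ∀ a : AA, ι a = (a : ℂ) := by
    intro a
    rw [hι]
    rfl
  obtain ⟨ξ, hξ⟩ : ∃ ξ : Fin d → PowerSeries AA,
    ξ = fun i => PowerSeries.mk fun m => (⟨PowerSeries.coeff m (pd.x i), co_alg pd i m⟩ : AA) :=
    ⟨_, rfl⟩
  have hξc : ∀ i m, PowerSeries.coeff m (ξ i) =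
      (⟨PowerSeries.coeff m (pd.x i), co_alg pd i m⟩ : AA) := by
    intro i m
    rw [hξ, PowerSeries.coeff_mk]
  have hξi : ∀ i, PowerSeries.map ι (ξ i) = pd.x i := by
    intro i
    ext m
    rw [PowerSeries.coeff_map, hξc, hιa]
  have hξinj : Function.Injective ξ := by
    intro i j hij
    apply pd.x_inj
    rw [← hξi, ← hξi, hij]
  have hιinj : Function.Injective (PowerSeries.map ι) := PowerSeries.map_injective ι ι.injective
  have hσinj : Function.Injective (PowerSeries.map σ) := PowerSeries.map_injective σ σ.injective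
  obtain ⟨φ, hφ⟩ : ∃ φ : ℤ[X] →+* PowerSeries AA, φ = eval₂RingHom
    (Int.castRingHom (PowerSeries AA)) ((PowerSeries.C (pd.q : AA) * PowerSeries.X) ^ pd.e) :=
    ⟨_, rfl⟩
  have hcomp : ∀ τ : AA →+* ℂ, (PowerSeries.map τ).comp φ = tq pd.e pd.q := by
    intro τ
    unfold tq
    apply Polynomial.ringHom_ext
    · intro a
      simp
    · rw [hφ, RingHom.comp_apply, coe_eval₂RingHom, coe_eval₂RingHom, eval₂_X, eval₂_X, map_pow,
        map_mul, PowerSeries.map_X, PowerSeries.map_C, map_natCast]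
  have hsplit : f.map φ = ∏ i, (X - C (ξ i)) := by
    apply Polynomial.map_injective (PowerSeries.map ι) hιinj
    rw [Polynomial.map_map, hcomp, pd.split, Polynomial.map_prod]
    refine Finset.prod_congr rfl fun i _ => ?_
    rw [Polynomial.map_sub, Polynomial.map_X, Polynomial.map_C, hξi]
  obtain ⟨π, hπ⟩ := perm_aux φ (PowerSeries.map σ) (PowerSeries.map ι)
    (by rw [hcomp, hcomp]) hσinj ξ hξinj f hsplit
  refine ⟨π, fun i m a ha => ?_⟩
  have h1 := congrArg (PowerSeries.coeff m) (hπ i)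
  rw [PowerSeries.coeff_map, PowerSeries.coeff_map, hξc, hξc, hιa] at h1
  have h2 : a = (⟨PowerSeries.coeff m (pd.x i), co_alg pd i m⟩ : AA) := Subtype.ext ha
  rw [h2]
  exact h1

theorem gen_mem (Q : CrvS k n d b F) {i : Fin d} (hi : i ∈ Q.kp.S) (la : k) : Q.kp.kap i la ∈ EQ Q i := by
  have halg : Q.kp.kap i la ∈ AA := by
    rw [mem_algebraicClosure_iff]
    have h1 : IsIntegral ℚ la := Algebra.IsIntegral.isIntegral la
    exact (h1.map ((Q.kp.kap i).toRatAlgHom)).isAlgebraic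
  obtain ⟨c, hc⟩ : ∃ c : Fin (2 * d ^ 3 * Q.pd.e + 1) → AA,
      ∀ m, (c m : ℂ) = PowerSeries.coeff (m : ℕ) (Q.pd.x i) :=
    ⟨fun m => ⟨_, co_alg Q.pd i m⟩, fun m => rfl⟩
  have h0 : (⟨_, halg⟩ : AA) ∈ IntermediateField.adjoin ℚ (Set.range c) := by
    refine galA_mem _ _ fun σ hσ => ?_
    obtain ⟨π, hπ⟩ := perm_x Q.pd σ
    have h1 : i = π i := by
      refine res_sep Q fun m hm => ?_
      have h2 := hπ i m (c ⟨m, by omega⟩) (hc _)
      rw [hσ _ ⟨_, rfl⟩, hc] at h2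
      exact h2
    exact (Q.kp.gal σ i hi i (fun m a ha => by
      have h3 := hπ i m a ha
      rwa [← h1] at h3)).2 la ⟨_, halg⟩ rfl
  let g : AA →ₐ[ℚ] ℂ := AA.val
  have h1 : (IntermediateField.adjoin ℚ (Set.range c)).map g = EQ Q i := by
    rw [IntermediateField.adjoin_map]
    unfold EQ
    congr 1
    rw [← Set.range_comp]
    congr 1
    funext m
    exact hc m
  rw [← h1]
  exact ⟨_, h0, rfl⟩

private theorem ext_E (Q : CrvS k n d b F) (i : Fin d) (φ : EQ Q i →+* ℂ) :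
    ∃ σ : AA →+* ℂ, ∀ (c : EQ Q i) (a : AA), (a : ℂ) = (c : ℂ) → σ a = φ c := by
  have hb : ∀ c : EQ Q i, (c : ℂ) ∈ AA := by
    intro c
    have h1 : EQ Q i ≤ AA := by
      unfold EQ
      rw [IntermediateField.adjoin_le_iff]
      rintro _ ⟨m, rfl⟩
      exact co_alg Q.pd i m
    exact h1 c.2
  obtain ⟨j, hj⟩ : ∃ j : EQ Q i →+* AA, ∀ c, ((j c : AA) : ℂ) = (c : ℂ) := by
    refine ⟨(algebraMap (EQ Q i) ℂ).codRestrict AA hb, fun c => rfl⟩
  let a1 : Algebra (EQ Q i) ℂ := φ.toAlgebra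
  let a2 : Algebra (EQ Q i) AA := j.toAlgebra
  have h1 : Algebra.IsAlgebraic (EQ Q i) AA := by
    refine ⟨fun x => ?_⟩
    have h2 : IsIntegral ℚ x := algC_int x
    exact (h2.tower_top).isAlgebraic
  refine ⟨(IsAlgClosed.lift : AA →ₐ[EQ Q i] ℂ), ?_⟩
  intro c a hca
  have h3 : a = j c := Subtype.ext (hca.trans (hj c).symm)
  rw [h3]
  exact (IsAlgClosed.lift : AA →ₐ[EQ Q i] ℂ).commutes c

theorem gen_deg (Q : CrvS k n d b F) (i : Fin d) : ∃ _ : NumberField (EQ Q i), Module.finrank ℚ (EQ Q i) ≤ d ∧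
    ∀ (φ : EQ Q i →+* ℂ) (m : Fin (2 * d ^ 3 * Q.pd.e + 1)) (c : EQ Q i),
      (c : ℂ) = PowerSeries.coeff (m : ℕ) (Q.pd.x i) → ‖φ c‖ ≤ (b : ℝ) ^ ((m : ℕ) + 1) := by
  have hfd : FiniteDimensional ℚ (EQ Q i) := by
    unfold EQ
    refine IntermediateField.finiteDimensional_adjoin ?_
    rintro _ ⟨m, rfl⟩
    exact (Q.pd.integral i m).tower_top (A := ℚ)
  have hnf : NumberField (EQ Q i) := { to_charZero := inferInstance, to_finiteDimensional := hfd }
  have key : ∀ φ : EQ Q i →+* ℂ, ∃ j : Fin d, ∀ (m : Fin (2 * d ^ 3 * Q.pd.e + 1)) (c : EQ Q i),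
      (c : ℂ) = PowerSeries.coeff (m : ℕ) (Q.pd.x i) →
      φ c = PowerSeries.coeff (m : ℕ) (Q.pd.x j) := by
    intro φ
    obtain ⟨σ, hσ⟩ := ext_E Q i φ
    obtain ⟨π, hπ⟩ := perm_x Q.pd σ
    refine ⟨π i, fun m c hc => ?_⟩
    rw [← hσ c ⟨_, co_alg Q.pd i m⟩ hc.symm]
    exact hπ i m _ rfl
  refine ⟨hnf, ?_, ?_⟩
  · choose J hJ using key
    have hinj : Function.Injective J := by
      intro φ ψ h
      have h1 : φ.toRatAlgHom = ψ.toRatAlgHom := by
        refine IntermediateField.algHom_ext_of_eq_adjoin ℚ (S := EQ Q i)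
          (s := Set.range fun m : Fin (2 * d ^ 3 * Q.pd.e + 1) =>
            PowerSeries.coeff (m : ℕ) (Q.pd.x i)) rfl ?_
        rintro _ ⟨m, rfl⟩
        have h2 := hJ φ m ⟨PowerSeries.coeff (m : ℕ) (Q.pd.x i),
          IntermediateField.subset_adjoin _ _ ⟨m, rfl⟩⟩ rfl
        have h3 := hJ ψ m ⟨PowerSeries.coeff (m : ℕ) (Q.pd.x i),
          IntermediateField.subset_adjoin _ _ ⟨m, rfl⟩⟩ rfl
        rw [h] at h2
        exact h2.trans h3.symm
      ext c
      exact DFunLike.congr_fun h1 c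
    have h2 := Fintype.card_le_of_injective J hinj
    rw [NumberField.Embeddings.card, Fintype.card_fin] at h2
    exact h2
  · intro φ m c hc
    obtain ⟨j, hj⟩ := key φ
    rw [hj m c hc]
    refine (Q.pd.growth j m).trans ?_
    have h1 := Q.pd.R_ge
    exact pow_le_pow_left₀ (by linarith) Q.R_le _

end Pool.Agent.H8.OA
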