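import Pool.Agent.H8.OA.Szd
import Pool.Agent.H12.GN.Szr
import Pool.Agent.H12.GN.Gfn
import Pool.Agent.H12.GN.Dpp

/-! # [H8 OA GNW] The chapter H12/GN (G3-G8) in the form used here: wrappers -/

namespace Pool.Agent.H8.OA

open Filter IntermediateField Pool.Agent.H82.NS Pool.Agent.H12.ON Pool.Agent.H12.OG Polynomial

theorem szero_w {k L₁ : Type} [Field k] [CharZero k] [Field L₁] [Algebra k L₁] {ξ g : L₁} (hK : FF k ξ)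
    {O : ValuationSubring L₁} (hk : Ov k O) (hξ : ξ ∉ O)
    (hO : ∀ W : ValuationSubring L₁, Ov k W → ξ ∉ W → W = O) {P : k[X]} (hP : Irreducible P)
    (h3 : 3 ≤ P.natDegree) (hg : aeval g P ∈ O.nonunits) : SZero k ξ g := by
  obtain ⟨n, c, d, h1, h2, -, -, h4⟩ := Pool.Agent.H12.GN.szero hK hk hξ hO hP h3 hg
  refine ⟨Fin n, inferInstance, c, d, h1, h2, ?_⟩
  intro E Ω _ _ _ _ _ _ _ l m ht hl
  exact h4 E Ω l m ht hl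

theorem gfin_w {k L₁ : Type} [Field k] [CharZero k] [Field L₁] [Algebra k L₁] {ξ g : L₁} (hK : FF k ξ)
    (hcl : RelCl k L₁) {O : ValuationSubring L₁} (hk : Ov k O) (hξ : ξ ∉ O)
    (hO : ∀ W : ValuationSubring L₁, Ov k W → ξ ∉ W → W = O) {P : k[X]} (hP : Irreducible P)
    (h3 : 3 ≤ P.natDegree) (hg : aeval g P ∈ O.nonunits) (Ω : Type) [Field Ω] [IsAlgClosed Ω] [Algebra k Ω]
    (l : L₁ →ₐ[k] Ω) (hΩ : Algebra.IsAlgebraic k⟮l ξ⟯ Ω) : (GCls ξ g l).Finite :=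
  Pool.Agent.H12.GN.gfin hcl hK hk hξ hO hP h3 hg l hΩ

theorem dep_w (H : ℕ → ℕ) (L1 L2 : IntermediateField (Q0 H) QS) {U1 U2 : QS} (h1 : U1 ∈ L1) (h2 : U2 ∈ L2)
    (z1 : U1 ∈ ZS) (z2 : U2 ∈ ZS) (v1 : U1 ∉ V0 H) (v2 : U2 ∉ V0 H) (ff1 : FF (Q0 H) (⟨U1, h1⟩ : L1))
    (ff2 : FF (Q0 H) (⟨U2, h2⟩ : L2)) {g1 g2 : QS} (hg1 : g1 ∈ L1) (hg2 : g2 ∈ L2) {P : (Q0 H)[X]}
    (hP : Irreducible P) (h3 : 3 ≤ P.natDegree) (hPg : aeval g1 P ∈ (V0 H).nonunits)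
    (hg : g1 - g2 ∈ (V0 H).nonunits) {C : ℕ} (c1 : |U1| ≤ |U2| ^ C) (c2 : |U2| ≤ |U1| ^ C) :
    IsAlgebraic (Q0 H)⟮U1⟯ U2 :=
  Pool.Agent.H12.GN.dep H L1 L2 h1 h2 z1 z2 v1 v2 ff1 ff2 hg1 hg2 hP h3 hPg hg c1 c2

end Pool.Agent.H8.OA
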