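import Pool.Agent.H8.OA.Sbd
import Pool.Agent.H8.OA.Sqd

/-! # [H8 OA IRL] Integral relations of sequences; the size of complex solutions

`irl`: a monic polynomial of degree `m` over `Algebra.adjoin (Q0 H) {qz p}` with the root `qz q`; its coefficients are `aeval (qz p)` of polynomials over `Q0 H` (`Algebra.adjoin_singleton_eq_range_aeval`) of degree `< J`; multiply by the product of the denominators of the finitely many coefficients in `Q0 H` (small, nonzero integer sequences): `ε`, `c i j`.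
A relation of classes holds for almost all `N`.
`cbd`: `|ε N| ≥ 1`, so `‖z‖^m ≤ ∑_i ∑_j |c i j N| ‖v‖^j ‖z‖^i`; if `‖z‖ ≥ 1`: `‖z‖ ≤ ∑_i ∑_j |c i j N| (1 + ‖v‖)^J ≤ m J (H N + 2)^C (1 + ‖v‖)^J`; `H N + 2 ≤ (H N)^2`, `m J ≤ (H N)^(m J)`. (`m = 0`: `ε N = 0`, excluded.) -/

namespace Pool.Agent.H8.OA

open Filter Finset Pool.Agent.H82.NS

private theorem irl_si_mul {H : ℕ → ℕ} {a b : ℕ → ℤ} (ha : Si H a) (hb : Si H b) :
    Si H (fun N => a N * b N) := by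
  obtain ⟨C, hC⟩ := ha
  obtain ⟨D, hD⟩ := hb
  refine ⟨C + D, ?_⟩
  filter_upwards [hC, hD] with N h1 h2
  rw [abs_mul, pow_add]
  exact mul_le_mul h1 h2 (abs_nonneg _) (by positivity)

private theorem irl_si_prod {H : ℕ → ℕ} {ι : Type} (s : Finset ι) {a : ι → ℕ → ℤ}
    (h : ∀ i, Si H (a i)) : Si H (fun N => ∏ i ∈ s, a i N) := by
  classical
  induction s using Finset.induction_on with
  | empty => exact ⟨0, by simp⟩
  | insert i s hi ih =>
    have h1 := irl_si_mul (h i) ih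
    have h2 : (fun N => ∏ j ∈ insert i s, a j N) = fun N => a i N * ∏ j ∈ s, a j N := by
      funext N
      exact Finset.prod_insert hi
    rw [h2]
    exact h1

private theorem irl_den {H : ℕ → ℕ} {f : ℕ → ℚ} (hf : Small H f) :
    Si H (fun N => ((f N).den : ℤ)) := by
  obtain ⟨C, hC⟩ := hf
  refine ⟨C, Eventually.of_forall fun N => ?_⟩
  rw [Nat.abs_cast]
  exact_mod_cast (hC N).2

private theorem irl_num {H : ℕ → ℕ} {f : ℕ → ℚ} (hf : Small H f) :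
    Si H (fun N => (f N).num) := by
  obtain ⟨C, hC⟩ := hf
  refine ⟨C, Eventually.of_forall fun N => ?_⟩
  rw [Int.abs_eq_natAbs]
  exact_mod_cast (hC N).1

private theorem irl_div {H : ℕ → ℕ} {a : ℕ → ℤ} (ha : Si H a) (b : ℕ → ℤ) :
    Si H (fun N => a N / b N) := by
  obtain ⟨C, hC⟩ := ha
  refine ⟨C, ?_⟩
  filter_upwards [hC] with N h1
  exact (Int.abs_ediv_le_abs _ _).trans h1

theorem irl {H : ℕ → ℕ} {p q : ℕ → ℤ} (h : IsIntegral (Algebra.adjoin (Q0 H) {qz p}) (qz q)) :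
    ∃ (m J : ℕ) (ε : ℕ → ℤ) (c : ℕ → ℕ → ℕ → ℤ), Si H ε ∧ (∀ i j, Si H (c i j)) ∧ ∀ᶠ N in UU, ε N ≠ 0 ∧
      ε N * q N ^ m + ∑ i ∈ range m, ∑ j ∈ range J, c i j N * p N ^ j * q N ^ i = 0 := by
  classical
  obtain ⟨P, hP, hPz⟩ := h
  obtain ⟨m, hm⟩ : ∃ m, m = P.natDegree := ⟨_, rfl⟩
  have hg : ∀ i, ∃ g : Polynomial (Q0 H), Polynomial.aeval (qz p) g =
      ((P.coeff i : Algebra.adjoin (Q0 H) {qz p}) : QS) := by
    intro i
    have h0 : ∀ c : QS, c ∈ Algebra.adjoin (Q0 H) {qz p} →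
        c ∈ (Polynomial.aeval (R := Q0 H) (qz p)).range := by
      intro c hc
      rw [← Algebra.adjoin_singleton_eq_range_aeval]
      exact hc
    obtain ⟨g, hg⟩ := h0 _ (P.coeff i).2
    exact ⟨g, hg⟩
  choose g hg using hg
  obtain ⟨J, hJ⟩ : ∃ J : ℕ, ∀ i ∈ range m, (g i).natDegree < J :=
    ⟨(range m).sup (fun i => (g i).natDegree) + 1, fun i hi =>
      Nat.lt_succ_of_le (Finset.le_sup (f := fun i => (g i).natDegree) hi)⟩
  have hf : ∀ i j, ∃ f : ℕ → ℚ, Small H f ∧ (((g i).coeff j : Q0 H) : QS) = cl f := fun i j =>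
    ((g i).coeff j).2
  choose f hfs hfc using hf
  have hrel : ∀ᶠ N in UU, (q N : ℚ) ^ m +
      ∑ i ∈ range m, (∑ j ∈ range J, f i j N * (p N : ℚ) ^ j) * (q N : ℚ) ^ i = 0 := by
    have h1 : clHom ℚ ((fun N => (q N : ℚ)) ^ m + ∑ i ∈ range m,
        (∑ j ∈ range J, f i j * (fun N => (p N : ℚ)) ^ j) * (fun N => (q N : ℚ)) ^ i) = 0 := by
      rw [map_add, map_pow, map_sum]
      rw [Polynomial.eval₂_eq_sum_range, Finset.sum_range_succ, hP.coeff_natDegree, map_one, one_mul,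
        ← hm, add_comm] at hPz
      refine Eq.trans ?_ hPz
      congr 1
      refine Finset.sum_congr rfl fun i hi => ?_
      rw [map_mul, map_pow, map_sum]
      have h2 : algebraMap (Algebra.adjoin (Q0 H) {qz p}) QS (P.coeff i) =
          Polynomial.aeval (qz p) (g i) := (hg i).symm
      rw [h2, Polynomial.aeval_eq_sum_range' (hJ i hi)]
      congr 1
      refine Finset.sum_congr rfl fun j _ => ?_
      rw [map_mul, map_pow, clHom_apply, clHom_apply, ← hfc i j]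
      rfl
    rw [clHom_apply, cl_zero, cl_eq] at h1
    filter_upwards [h1] with N hN
    simpa [Finset.sum_apply] using hN
  obtain ⟨ε, hε⟩ : ∃ ε : ℕ → ℤ, ε = fun N => ∏ i ∈ range m, ∏ j ∈ range J, ((f i j N).den : ℤ) :=
    ⟨_, rfl⟩
  have hεs : Si H ε := by
    rw [hε]
    exact irl_si_prod _ fun i => irl_si_prod _ fun j => irl_den (hfs i j)
  have hε0 : ∀ N, ε N ≠ 0 := by
    intro N
    rw [hε]
    exact Finset.prod_ne_zero_iff.2 fun i _ => Finset.prod_ne_zero_iff.2 fun j _ => by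
      exact_mod_cast (f i j N).den_pos.ne'
  refine ⟨m, J, ε, fun i j N => ε N / ((f i j N).den : ℤ) * (f i j N).num, hεs, fun i j =>
    irl_si_mul (irl_div hεs _) (irl_num (hfs i j)), ?_⟩
  filter_upwards [hrel] with N hN
  refine ⟨hε0 N, ?_⟩
  have hdv : ∀ i ∈ range m, ∀ j ∈ range J, ((f i j N).den : ℤ) ∣ ε N := by
    intro i hi j hj
    rw [hε]
    exact (Finset.dvd_prod_of_mem (fun j => ((f i j N).den : ℤ)) hj).trans
      (Finset.dvd_prod_of_mem (fun i => ∏ j ∈ range J, ((f i j N).den : ℤ)) hi)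
  have hc : ∀ i ∈ range m, ∀ j ∈ range J,
      (((ε N / ((f i j N).den : ℤ) * (f i j N).num : ℤ)) : ℚ) = (ε N : ℚ) * f i j N := by
    intro i hi j hj
    have hd0 : (((f i j N).den : ℤ) : ℚ) ≠ 0 := by exact_mod_cast (f i j N).den_pos.ne'
    rw [Int.cast_mul, Int.cast_div (hdv i hi j hj) hd0]
    conv_rhs => rw [← Rat.num_div_den (f i j N)]
    push_cast
    ring
  have h3 : ((ε N * q N ^ m + ∑ i ∈ range m, ∑ j ∈ range J,
      (ε N / ((f i j N).den : ℤ) * (f i j N).num) * p N ^ j * q N ^ i : ℤ) : ℚ) = 0 := by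
    rw [Int.cast_add, Int.cast_sum, Int.cast_mul, Int.cast_pow]
    have h4 := congrArg (fun z : ℚ => (ε N : ℚ) * z) hN
    simp only [mul_zero] at h4
    rw [mul_add, Finset.mul_sum] at h4
    refine Eq.trans ?_ h4
    congr 1
    refine Finset.sum_congr rfl fun i hi => ?_
    rw [Int.cast_sum, Finset.sum_mul, Finset.mul_sum]
    refine Finset.sum_congr rfl fun j hj => ?_
    rw [Int.cast_mul, Int.cast_mul, hc i hi j hj]
    push_cast
    ring
  exact_mod_cast h3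

theorem cbd {H : ℕ → ℕ} (hH : ∀ N, 2 ≤ H N) {m J : ℕ} {ε : ℕ → ℤ} {c : ℕ → ℕ → ℕ → ℤ} (hc : ∀ i j, Si H (c i j)) :
    ∃ D : ℕ, ∀ᶠ N in UU, ∀ z v : ℂ, ε N ≠ 0 →
      (ε N : ℂ) * z ^ m + ∑ i ∈ range m, ∑ j ∈ range J, (c i j N : ℂ) * v ^ j * z ^ i = 0 →
      ‖z‖ ≤ (H N : ℝ) ^ D * (1 + ‖v‖) ^ D := by
  choose C hC using hc
  obtain ⟨C0, hC0⟩ : ∃ C0 : ℕ, ∀ i ∈ range m, ∀ j ∈ range J, C i j ≤ C0 := by
    refine ⟨∑ i ∈ range m, ∑ j ∈ range J, C i j, fun i hi j hj => ?_⟩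
    exact (Finset.single_le_sum (f := fun j => C i j) (fun _ _ => Nat.zero_le _) hj).trans
      (Finset.single_le_sum (f := fun i => ∑ j ∈ range J, C i j) (fun _ _ => Nat.zero_le _) hi)
  have hev : ∀ᶠ N in UU, ∀ i ∈ range m, ∀ j ∈ range J,
      |c i j N| ≤ ((H N + 2 : ℕ) : ℤ) ^ C i j := by
    rw [Filter.eventually_all_finset]
    intro i _
    rw [Filter.eventually_all_finset]
    intro j _
    exact hC i j
  refine ⟨m * J + 2 * C0 + J, ?_⟩
  filter_upwards [hev] with N hN z v hε hz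
  have hH1 : (1 : ℝ) ≤ (H N : ℝ) := by exact_mod_cast (by have := hH N; omega : 1 ≤ H N)
  have hH2 : (2 : ℝ) ≤ (H N : ℝ) := by exact_mod_cast hH N
  have hv1 : (1 : ℝ) ≤ 1 + ‖v‖ := by linarith [norm_nonneg v]
  have hR : (1 : ℝ) ≤ (H N : ℝ) ^ (m * J + 2 * C0 + J) * (1 + ‖v‖) ^ (m * J + 2 * C0 + J) :=
    one_le_mul_of_one_le_of_one_le (one_le_pow₀ hH1) (one_le_pow₀ hv1)
  by_cases hz1 : ‖z‖ ≤ 1
  · exact hz1.trans hR
  push Not at hz1
  rcases Nat.eq_zero_or_pos m with hm | hm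
  · exfalso
    subst hm
    rw [Finset.range_zero, Finset.sum_empty, pow_zero, mul_one, add_zero] at hz
    exact hε (by exact_mod_cast hz)
  obtain ⟨k, rfl⟩ : ∃ k, m = k + 1 := ⟨m - 1, by omega⟩
  have hε1 : (1 : ℝ) ≤ ‖(ε N : ℂ)‖ := by
    rw [Complex.norm_intCast]
    exact_mod_cast Int.one_le_abs hε
  have h1 : ‖z‖ ^ (k + 1) ≤ ‖(ε N : ℂ) * z ^ (k + 1)‖ := by
    rw [norm_mul, norm_pow]
    exact le_mul_of_one_le_left (by positivity) hε1
  have h2 : (ε N : ℂ) * z ^ (k + 1) =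
      -∑ i ∈ range (k + 1), ∑ j ∈ range J, (c i j N : ℂ) * v ^ j * z ^ i := by
    rw [← add_eq_zero_iff_eq_neg]
    exact hz
  have h3 : ‖(ε N : ℂ) * z ^ (k + 1)‖ ≤
      (((k + 1) * J : ℕ) : ℝ) * ((H N : ℝ) ^ (2 * C0) * (1 + ‖v‖) ^ J * ‖z‖ ^ k) := by
    rw [h2, norm_neg]
    refine (norm_sum_le _ _).trans ?_
    have h4 : ∀ i ∈ range (k + 1), ‖∑ j ∈ range J, (c i j N : ℂ) * v ^ j * z ^ i‖ ≤
        (J : ℝ) * ((H N : ℝ) ^ (2 * C0) * (1 + ‖v‖) ^ J * ‖z‖ ^ k) := by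
      intro i hi
      refine (norm_sum_le _ _).trans ?_
      have h5 : ∀ j ∈ range J, ‖(c i j N : ℂ) * v ^ j * z ^ i‖ ≤
          (H N : ℝ) ^ (2 * C0) * (1 + ‖v‖) ^ J * ‖z‖ ^ k := by
        intro j hj
        rw [norm_mul, norm_mul, norm_pow, norm_pow]
        have h6 : ‖(c i j N : ℂ)‖ ≤ (H N : ℝ) ^ (2 * C0) := by
          rw [Complex.norm_intCast]
          have h7 : ((|c i j N| : ℤ) : ℝ) ≤ ((((H N + 2 : ℕ) : ℤ) ^ C i j : ℤ) : ℝ) := by
            exact_mod_cast hN i hi j hj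
          rw [Int.cast_abs] at h7
          refine h7.trans ?_
          push_cast
          have h8 : ((H N : ℝ) + 2) ≤ (H N : ℝ) ^ 2 := by nlinarith
          calc ((H N : ℝ) + 2) ^ C i j ≤ ((H N : ℝ) ^ 2) ^ C i j :=
                pow_le_pow_left₀ (by positivity) h8 _
            _ ≤ ((H N : ℝ) ^ 2) ^ C0 :=
                pow_le_pow_right₀ (one_le_pow₀ hH1) (hC0 i hi j hj)
            _ = (H N : ℝ) ^ (2 * C0) := by rw [pow_mul]
        have h9 : ‖v‖ ^ j ≤ (1 + ‖v‖) ^ J :=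
          (pow_le_pow_left₀ (norm_nonneg _) (by linarith) j).trans
            (pow_le_pow_right₀ hv1 (Finset.mem_range.1 hj).le)
        have h10 : ‖z‖ ^ i ≤ ‖z‖ ^ k :=
          pow_le_pow_right₀ hz1.le (Nat.lt_succ_iff.1 (Finset.mem_range.1 hi))
        gcongr
      refine (Finset.sum_le_sum h5).trans ?_
      rw [Finset.sum_const, Finset.card_range, nsmul_eq_mul]
    refine (Finset.sum_le_sum h4).trans ?_
    rw [Finset.sum_const, Finset.card_range, nsmul_eq_mul, ← mul_assoc, Nat.cast_mul]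
  have h4 : (((k + 1) * J : ℕ) : ℝ) ≤ (H N : ℝ) ^ ((k + 1) * J) := by
    refine le_trans ?_ (pow_le_pow_left₀ (by norm_num) hH2 _)
    exact_mod_cast Nat.lt_two_pow_self.le
  have hzk : 0 < ‖z‖ ^ k := pow_pos (by linarith) k
  have h5 : ‖z‖ * ‖z‖ ^ k ≤
      ((H N : ℝ) ^ ((k + 1) * J) * ((H N : ℝ) ^ (2 * C0) * (1 + ‖v‖) ^ J)) * ‖z‖ ^ k := by
    calc ‖z‖ * ‖z‖ ^ k = ‖z‖ ^ (k + 1) := by rw [pow_succ]; ring
      _ ≤ _ := h1.trans h3
      _ ≤ (H N : ℝ) ^ ((k + 1) * J) * ((H N : ℝ) ^ (2 * C0) * (1 + ‖v‖) ^ J * ‖z‖ ^ k) :=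
          mul_le_mul_of_nonneg_right h4 (by positivity)
      _ = _ := by ring
  have h6 := le_of_mul_le_mul_right h5 hzk
  refine h6.trans ?_
  have h7 : (H N : ℝ) ^ ((k + 1) * J) * (H N : ℝ) ^ (2 * C0) ≤
      (H N : ℝ) ^ ((k + 1) * J + 2 * C0 + J) := by
    rw [← pow_add]
    exact pow_le_pow_right₀ hH1 (by omega)
  have h8 : (1 + ‖v‖) ^ J ≤ (1 + ‖v‖) ^ ((k + 1) * J + 2 * C0 + J) :=
    pow_le_pow_right₀ hv1 (by omega)
  rw [← mul_assoc]
  exact mul_le_mul h7 h8 (by positivity) (by positivity)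

end Pool.Agent.H8.OA
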