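import Pool.Agent.H8.OA.Pair
import Pool.Agent.H82.NS.Fin

/-! # [H8 OA LIFTB] The final theorem: lifting all curves in the scope

`choose E Φ a b hA using oneA_ex`. (A) is `hA`. (B): `frame` (H82/NS/Fin.lean) gives `D₀` for `n`: for `F, H, (x,y)` either `max ≤ H^D₀` or `Data D₀ H x y`: `c ≤ D₀`, `κ`, `G`, `P`, `w`, `Good D₀ H κ G P`, `ev (x + c y) w G = 0`, `max |x| |y| ≤ |x + c y|^D₀`, `|w| ≤ |x + c y|^D₀`.
Copy the proof of `siegel3N_of_frame` (H82/NS/Fin3.lean, clause (B)): `N := max 3 (D₀ (D₀ + 1))`, `toM G` of degree `≤ N` (`toM_tot`), coefficients `≤ H' = H^D₀`, `AtInf (KP P) (toM G)` (`toM_irr`, `star_toM`). `hA N` for `k = KP P`, `H'`, zero `(x + c y, w)`: either `max |x + c y| |w| ≤ H'^(E N)`: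
then `max |x| |y| ≤ |x + c y|^D₀ ≤ H^(D₀² E N) ≤ H^D`; or `K ≃ KP P` and `Lies (E N) (H^D₀) K (Φ N K) (a N K) (b N K) (toM G) (x + c y) w`: `lies_pow` (MON) gives `Lies D H ..`. `NumberField K`, `finrank`, `discr` (`disc_KP`), `AtInf K (toM G)` as there. `D` = the sum of `D₀`, `D₀ E N`, `D₀² E N`, `E N`, `2 (D₀ + 2) D₀²`. -/

namespace Pool.Agent.H8.OA

open MvPolynomial Pool.Agent.H4.SF

theorem oneAll : OneAll := by
  choose E Φ a b hA using oneA_ex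
  have hfr0 : Frame := Pool.Agent.H82.NS.frame
  choose D0 hD0 using hfr0
  refine ⟨Φ, a, b, E, hA, ?_⟩
  intro n
  obtain ⟨D₁, hD₁⟩ : ∃ D₁, D₁ = D0 n := ⟨_, rfl⟩
  obtain ⟨N, hN⟩ : ∃ N, N = max 3 (D₁ * (D₁ + 1)) := ⟨_, rfl⟩
  obtain ⟨e, he⟩ : ∃ e, e = E N := ⟨_, rfl⟩
  obtain ⟨D, hDdef⟩ : ∃ D, D = D₁ + D₁ * e + D₁ * e * D₁ + e + 2 * (D₁ + 2) * D₁ ^ 2 := ⟨_, rfl⟩
  refine ⟨N, D, ?_⟩
  intro F H hF hS hH hFH x y hxy
  have hD := hD0 n
  rw [← hD₁] at hD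
  have l1 : D₁ ≤ D := by omega
  have l2 : D₁ * e ≤ D := by omega
  have l3 : D₁ * e * D₁ ≤ D := by omega
  have l4 : e ≤ D := by omega
  have l5 : 2 * (D₁ + 2) * D₁ ^ 2 ≤ D := by omega
  have hHz : (1 : ℤ) ≤ H := by exact_mod_cast (by omega : 1 ≤ H)
  rcases hD F H hF hS hH hFH x y hxy with h1 | h1
  · left
    exact h1.trans (pow_le_pow_right₀ hHz l1)
  obtain ⟨c, κ, G, P, w, hc, hG, hz, hx, hw⟩ := h1
  haveI : Fact (Irreducible (P.map (Int.castRingHom ℚ))) := ⟨hG.Pirr⟩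
  have hD3 : 3 ≤ D₁ := hG.P3.trans hG.Pdeg
  by_cases h0 : x + c * y = 0
  · left
    rw [h0, abs_zero, zero_pow (by omega)] at hx
    exact hx.trans (by positivity)
  have ha1 : 1 ≤ |x + c * y| := Int.one_le_abs h0
  obtain ⟨H', hH'⟩ : ∃ H', H' = H ^ D₁ := ⟨_, rfl⟩
  have hH'2 : 2 ≤ H' := by
    rw [hH']
    exact hH.trans (Nat.le_self_pow (by omega) H)
  have htot : (toM G).totalDegree ≤ N := (toM_tot hG.κD hG.deg hG.wt).trans (by rw [hN]; exact le_max_right _ _)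
  have hk3 : 3 ≤ Module.finrank ℚ (KP P) := by
    rw [finrank_KP hG.Pmonic hG.Pirr]
    exact hG.P3
  have hcf : ∀ m, |MvPolynomial.coeff m (toM G)| ≤ (H' : ℤ) := by
    intro m
    rw [toM_coeff, hH']
    push_cast
    exact hG.cf _ _
  have hz' : MvPolynomial.eval ![x + c * y, w] (toM G) = 0 := by rw [toM_eval]; exact hz
  rcases hA N (KP P) hk3 (toM G) H' htot ⟨toM_irr hG.irr, star_toM hG⟩ hH'2 hcf (x + c * y) w hz' with
    h2 | ⟨K, ⟨φ⟩, h2⟩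
  · left
    rw [hH', ← he] at h2
    have h3 : |x + c * y| ≤ (H : ℤ) ^ (D₁ * e) := by
      have h4 := (le_max_left |x + c * y| |w|).trans h2
      push_cast at h4
      rwa [← pow_mul] at h4
    calc max |x| |y| ≤ |x + c * y| ^ D₁ := hx
      _ ≤ ((H : ℤ) ^ (D₁ * e)) ^ D₁ := pow_le_pow_left₀ (abs_nonneg _) h3 _
      _ = (H : ℤ) ^ (D₁ * e * D₁) := by rw [← pow_mul]
      _ ≤ (H : ℤ) ^ D := pow_le_pow_right₀ hHz l3
  · right
    haveI : NumberField K := NumberField.of_ringEquiv (KP P) K φ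
    have hfr : Module.finrank ℚ K = Module.finrank ℚ (KP P) :=
      ((AlgEquiv.ofRingEquiv (f := φ) fun _ => by simp : KP P ≃ₐ[ℚ] K).toLinearEquiv.finrank_eq).symm
    refine ⟨K, inferInstance, toM G, c, w, ?_, ?_, ?_, htot, ⟨toM_irr hG.irr, ?_⟩, ?_, hc.trans l1,
      hx.trans (pow_le_pow_right₀ ha1 l1), hw.trans (pow_le_pow_right₀ ha1 l1), hz', ?_⟩
    · rw [hfr]
      exact hk3
    · rw [hfr, finrank_KP hG.Pmonic hG.Pirr]
      exact hG.Pdeg.trans l1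
    · rw [← NumberField.discr_eq_discr_of_ringEquiv (KP P) φ]
      exact (disc_KP hG hH).trans (pow_le_pow_right₀ hHz l5)
    · intro L _ _ hL X Y hXY
      rcases star_toM hG L hL X Y hXY with h5 | h5
      · exact Or.inl h5
      · obtain ⟨ψ⟩ := h5
        exact Or.inr ⟨ψ.comp φ.symm.toRingHom⟩
    · intro m
      rw [toM_coeff]
      exact (hG.cf _ _).trans (pow_le_pow_right₀ hHz l1)
    · rw [hH', ← he] at h2
      exact lies_pow l2 l4 (by omega) h2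

end Pool.Agent.H8.OA
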