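import Pool.Agent.H12.OG.Gqu
import Pool.Agent.H37.SI.Mdl

/-! # [H8 OA MDQ] The model of the quotient curve

`exists_model` (H37/SI/Mdl.lean) for `x := u`: `w` is integral over `k[u]` (`int_swap`, H12/OG/Gqu.lean); `w/u^κ` is integral over `k[1/u]`: `int_of_all` (H12/ON/Val.lean): let `V` be over `k` with `u⁻¹ ∈ V`. If `u ∈ V` then `w ∈ V` (integral over `k[u]`) and `w / u^κ = w (u⁻¹)^κ ∈ V`.
If `u ∉ V` then `ξ ∉ V` (`u` is integral over `k[ξ]`), so `V = O`, and `w/u^κ = g + (w/u^κ - g) ∈ O`. From `IsIntegral (Algebra.adjoin k {t}) z` to a monic `p : k[X][X]` with `ev t z p = 0`: the coefficients are `aeval t` of polynomials (`Algebra.adjoin_singleton_eq_range_aeval`),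
lift the monic polynomial (`Polynomial.lifts_and_natDegree_eq_and_monic` or by hand).
`three`: `t = w/u^κ`; divide `ev u w G = 0` by `u^(κ D)`: `∑_(i,j) g_ij u^(i - κ (D - j)) t^j = 0`, `i ≤ κ (D - j)` (`Wt`), and `u⁻¹ ∈ O.nonunits` (`u ∉ O`: `not_mem_of_int`), so `aeval t (lf κ G) ∈ O.nonunits`, and `aeval g (lf κ G) ∈ O.nonunits` (`t - g ∈ nonunits`, `k ⊆ O`, `g ∈ O`).
If `P ∤ lf κ G` then `A P + B lf κ G = 1` (`P` irreducible), evaluate at `g`: `1 ∈ O.nonunits`, a contradiction. So `P ∣ lf κ G`; `P` is separable (char 0), it has `natDegree P ≥ 3` different roots in `Ω = AlgebraicClosure k`: `Three (lf κ G)` (`Ω : Type`).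
`model_map`: `ev (f x) (f w) G = f (ev x w G)`, `f` injective. -/

namespace Pool.Agent.H8.OA

open Pool.Agent.H82.NS Pool.Agent.H12.ON Pool.Agent.H12.OG Pool.Agent.H37.SI Polynomial

theorem model_map {k L K' : Type} [Field k] [Field L] [Field K'] [Algebra k L] [Algebra k K'] (f : L →ₐ[k] K')
    {x w : L} {κ : ℕ} {G : k[X][X]} (h : Model x w κ G) : Model (f x) (f w) κ G := by
  have hev : ∀ H : k[X][X], ev (f x) (f w) H = f (ev x w H) := by
    intro H
    unfold ev
    have h1 := hom_eval₂ H (aeval x : k[X] →ₐ[k] L).toRingHom (f : L →+* K') w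
    have h2 : (f : L →+* K').comp (aeval x : k[X] →ₐ[k] L).toRingHom =
        (aeval (f x) : k[X] →ₐ[k] K').toRingHom := by
      ext q
      · simp
      · simp
    rw [h2] at h1
    exact h1.symm
  refine ⟨h.monic, h.wt, by rw [hev, h.zero, map_zero], fun F hF h0 => h.min F hF ?_⟩
  rw [hev] at h0
  exact (map_eq_zero f).1 h0

private theorem mdq_mem {k L₁ : Type} [Field k] [Field L₁] [Algebra k L₁] {ξ z : L₁}
    {V : ValuationSubring L₁} (hV : Ov k V) (hξ : ξ ∈ V) (hz : IsInt k ξ z) : z ∈ V := by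
  obtain ⟨p, hp, hpz⟩ : IsIntegral (Algebra.adjoin k {ξ}) z := hz
  have hle : (Algebra.adjoin k {ξ}).toSubring ≤ V.toSubring := by
    have h1 : Algebra.adjoin k {ξ} ≤
        ({ V.toSubring with algebraMap_mem' := hV } : Subalgebra k L₁) :=
      Algebra.adjoin_le (Set.singleton_subset_iff.2 hξ)
    exact fun x hx => h1 hx
  have h1 : IsIntegral V z := by
    refine ⟨p.map (Subring.inclusion hle), hp.map _, ?_⟩
    rw [Polynomial.eval₂_map]
    exact hpz
  obtain ⟨y, rfl⟩ := IsIntegrallyClosed.isIntegral_iff.1 h1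
  exact y.2

private theorem mdq_ex {k L : Type} [Field k] [Field L] [Algebra k L] {t z : L}
    (h : IsIntegral (Algebra.adjoin k {t}) z) : ∃ p : k[X][X], p.Monic ∧ ev t z p = 0 := by
  obtain ⟨P, hP, hPz⟩ := h
  obtain ⟨φ, hφ⟩ : ∃ φ : k[X] →ₐ[k] Algebra.adjoin k {t}, ∀ p, (φ p : L) = aeval t p :=
    ⟨(aeval t : k[X] →ₐ[k] L).codRestrict (Algebra.adjoin k {t})
      (fun p => aeval_mem_adjoin_singleton k t), fun p => rfl⟩
  have hs : Function.Surjective (φ : k[X] →+* Algebra.adjoin k {t}) := by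
    rintro ⟨y, hy⟩
    have h1 := hy
    rw [Algebra.adjoin_singleton_eq_range_aeval] at h1
    obtain ⟨p, hp⟩ := h1
    exact ⟨p, Subtype.ext ((hφ p).trans hp)⟩
  obtain ⟨q, hq⟩ := map_surjective _ hs P
  obtain ⟨p, hp1, -, hp3⟩ := lifts_and_natDegree_eq_and_monic (f := (φ : k[X] →+* Algebra.adjoin k {t}))
    (p := P) ((mem_lifts _).2 ⟨q, hq⟩) hP
  refine ⟨p, hp3, ?_⟩
  rw [← hp1, eval₂_map] at hPz
  unfold ev
  have h2 : (aeval t : k[X] →ₐ[k] L).toRingHom =
      (algebraMap (Algebra.adjoin k {t}) L).comp (φ : k[X] →+* Algebra.adjoin k {t}) := by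
    apply RingHom.ext
    intro r
    exact (hφ r).symm
  rw [h2]
  exact hPz

private theorem mdq_non {K : Type} [Field K] {O : ValuationSubring K} {x : K} :
    x ∈ O.nonunits ↔ O.valuation x < 1 := O.mem_nonunits_iff

private theorem mdq_lead {k K : Type} [Field k] [Field K] [Algebra k K] {O : ValuationSubring K}
    (hk : Ov k O) {u : K} (hu : u ∉ O) {p : k[X]} {m : ℕ} (hp : p.natDegree ≤ m) :
    O.valuation (aeval u p / u ^ m - algebraMap k K (p.coeff m)) < 1 := by
  have hu0 : u ≠ 0 := by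
    rintro rfl
    exact hu O.zero_mem
  have hui : O.valuation u⁻¹ < 1 := mdq_non.1 (O.inv_mem_nonunits_iff.2 (Or.inr hu))
  have h1 : aeval u p / u ^ m - algebraMap k K (p.coeff m) =
      ∑ i ∈ Finset.range m, algebraMap k K (p.coeff i) * u⁻¹ ^ (m - i) := by
    rw [aeval_eq_sum_range' (Nat.lt_succ_of_le hp), Finset.sum_range_succ, add_div,
      Algebra.smul_def, mul_div_assoc, div_self (pow_ne_zero _ hu0), mul_one, add_sub_cancel_right,
      Finset.sum_div]
    refine Finset.sum_congr rfl fun i hi => ?_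
    rw [Finset.mem_range] at hi
    rw [Algebra.smul_def, mul_div_assoc]
    congr 1
    rw [inv_pow, div_eq_iff (pow_ne_zero _ hu0), ← div_eq_inv_mul, eq_div_iff (pow_ne_zero _ hu0),
      ← pow_add]
    congr 1
    omega
  rw [h1]
  refine Valuation.map_sum_lt _ one_ne_zero fun i hi => ?_
  rw [Finset.mem_range] at hi
  rw [map_mul, map_pow]
  have h2 : O.valuation (algebraMap k K (p.coeff i)) ≤ 1 := (O.valuation_le_one_iff _).2 (hk _)
  exact mul_lt_one_of_nonneg_of_lt_one_right h2 zero_le (pow_lt_one₀ zero_le hui (by omega))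

private theorem mdq_form {k K : Type} [Field k] [Field K] [Algebra k K] {O : ValuationSubring K}
    (hk : Ov k O) {u w : K} {κ : ℕ} (hu : u ∉ O) (ht : w / u ^ κ ∈ O) {G : k[X][X]} (hw : Wt κ G)
    (h0 : ev u w G = 0) : aeval (w / u ^ κ) (lf κ G) ∈ O.nonunits := by
  have hu0 : u ≠ 0 := by
    rintro rfl
    exact hu O.zero_mem
  have h1 : ∑ j ∈ Finset.range (G.natDegree + 1),
      aeval u (G.coeff j) / u ^ (κ * (G.natDegree - j)) * (w / u ^ κ) ^ j = 0 := by
    have h2 : ∑ j ∈ Finset.range (G.natDegree + 1), aeval u (G.coeff j) * w ^ j = 0 := by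
      rw [← h0]
      unfold ev
      rw [eval₂_eq_sum_range]
      rfl
    have h3 : ∑ j ∈ Finset.range (G.natDegree + 1),
        aeval u (G.coeff j) / u ^ (κ * (G.natDegree - j)) * (w / u ^ κ) ^ j =
        (∑ j ∈ Finset.range (G.natDegree + 1), aeval u (G.coeff j) * w ^ j) / u ^ (κ * G.natDegree) := by
      rw [Finset.sum_div]
      refine Finset.sum_congr rfl fun j hj => ?_
      rw [Finset.mem_range] at hj
      have h4 : κ * G.natDegree = κ * (G.natDegree - j) + κ * j := by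
        rw [← mul_add]
        congr 1
        omega
      rw [div_pow, ← pow_mul, div_mul_div_comm, ← pow_add, h4]
    rw [h3, h2, zero_div]
  have h2 : aeval (w / u ^ κ) (lf κ G) = -∑ j ∈ Finset.range (G.natDegree + 1),
      (aeval u (G.coeff j) / u ^ (κ * (G.natDegree - j)) -
        algebraMap k K ((G.coeff j).coeff (κ * (G.natDegree - j)))) * (w / u ^ κ) ^ j := by
    have h3 : aeval (w / u ^ κ) (lf κ G) = ∑ j ∈ Finset.range (G.natDegree + 1),
        algebraMap k K ((G.coeff j).coeff (κ * (G.natDegree - j))) * (w / u ^ κ) ^ j := by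
      unfold lf
      simp
    rw [h3]
    simp only [sub_mul, Finset.sum_sub_distrib]
    rw [h1]
    ring
  rw [h2, mdq_non, Valuation.map_neg]
  refine Valuation.map_sum_lt _ one_ne_zero fun j hj => ?_
  rw [map_mul, map_pow]
  exact mul_lt_one_of_lt_of_le (mdq_lead hk hu (hw j))
    (pow_le_one₀ zero_le ((O.valuation_le_one_iff _).2 ht))

private theorem mdq_dvd {k K : Type} [Field k] [Field K] [Algebra k K] {O : ValuationSubring K}
    (hk : Ov k O) {t g : K} (ht : t ∈ O) (hg : g ∈ O) (htg : t - g ∈ O.nonunits) {P Q : k[X]}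
    (hP : Irreducible P) (hPg : aeval g P ∈ O.nonunits) (hQ : aeval t Q ∈ O.nonunits) : P ∣ Q := by
  obtain ⟨ι, hι⟩ : ∃ ι : k →+* O, ∀ e, ((ι e : O) : K) = algebraMap k K e :=
    ⟨(algebraMap k K).codRestrict O hk, fun e => rfl⟩
  have hev : ∀ (x : O) (F : k[X]), ((eval₂ ι x F : O) : K) = aeval (x : K) F := by
    intro x F
    have h1 := hom_eval₂ F ι O.subtype x
    have h2 : O.subtype.comp ι = algebraMap k K := RingHom.ext hι
    rw [h2] at h1
    exact h1
  have hres : ∀ (x : O) (F : k[X]), aeval (x : K) F ∈ O.nonunits →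
      eval₂ ((IsLocalRing.residue O).comp ι) (IsLocalRing.residue O x) F = 0 := by
    intro x F h
    rw [← hom_eval₂, IsLocalRing.residue_eq_zero_iff, ← ValuationSubring.coe_mem_nonunits_iff, hev]
    exact h
  have h1 := hres ⟨g, hg⟩ P hPg
  have h2 := hres ⟨t, ht⟩ Q hQ
  have h3 : IsLocalRing.residue O ⟨t, ht⟩ = IsLocalRing.residue O ⟨g, hg⟩ := by
    rw [← sub_eq_zero, ← map_sub, IsLocalRing.residue_eq_zero_iff,
      ← ValuationSubring.coe_mem_nonunits_iff]
    exact htg
  rw [h3] at h2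
  by_contra hd
  obtain ⟨A, B, hAB⟩ := (hP.coprime_iff_not_dvd.2 hd : IsCoprime P Q)
  have h4 := congrArg (eval₂ ((IsLocalRing.residue O).comp ι) (IsLocalRing.residue O ⟨g, hg⟩)) hAB
  rw [eval₂_add, eval₂_mul, eval₂_mul, h1, h2, mul_zero, mul_zero, add_zero, eval₂_one] at h4
  exact zero_ne_one h4

private theorem mdq_three {k : Type} [Field k] [CharZero k] {P Q : k[X]} (hP : Irreducible P)
    (h3 : 3 ≤ P.natDegree) (hd : P ∣ Q) : Three Q := by
  classical
  have hsep := hP.separable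
  have hspl : (P.map (algebraMap k (AlgebraicClosure k))).Splits := IsAlgClosed.splits _
  have hnd : (P.map (algebraMap k (AlgebraicClosure k))).roots.Nodup := nodup_roots hsep.map
  have hc : 2 < (P.map (algebraMap k (AlgebraicClosure k))).roots.toFinset.card := by
    rw [Multiset.toFinset_card_of_nodup hnd, ← hspl.natDegree_eq_card_roots, natDegree_map]
    omega
  obtain ⟨a, b, c, ha, hb, hc', hab, hac, hbc⟩ := Finset.two_lt_card_iff.1 hc
  obtain ⟨q, rfl⟩ := hd
  have hr : ∀ x ∈ (P.map (algebraMap k (AlgebraicClosure k))).roots.toFinset,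
      eval₂ (algebraMap k (AlgebraicClosure k)) x (P * q) = 0 := by
    intro x hx
    rw [Multiset.mem_toFinset, mem_roots (map_ne_zero hP.ne_zero), IsRoot.def, eval_map] at hx
    rw [eval₂_mul, hx, zero_mul]
  exact ⟨AlgebraicClosure k, inferInstance, algebraMap k (AlgebraicClosure k), a, b, c, hab, hac, hbc,
    hr a ha, hr b hb, hr c hc'⟩

theorem mdq {k L : Type} [Field k] [CharZero k] [Field L] [Algebra k L] {ξ u w g : L} {κ : ℕ}
    {O : ValuationSubring L} (hk : Ov k O) (hξ : ξ ∉ O)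
    (hO : ∀ W : ValuationSubring L, Ov k W → ξ ∉ W → W = O) (hu : IsInt k ξ u) (hw : IsInt k ξ w)
    (ht : Transcendental k u) (hg : g ∈ O) (h : w / u ^ κ - g ∈ O.nonunits) {P : k[X]} (hP : Irreducible P)
    (h3 : 3 ≤ P.natDegree) (hPg : aeval g P ∈ O.nonunits) : ∃ G : k[X][X], Model u w κ G ∧ Three (lf κ G) := by
  have huO : u ∉ O := not_mem_of_int hO hu ht
  have hwu : IsInt k u w := int_swap hO hu ht hw
  have htO : w / u ^ κ ∈ O := by
    have h1 : w / u ^ κ = (w / u ^ κ - g) + g := by ring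
    rw [h1]
    exact O.add_mem _ _ (O.nonunits_subset h) hg
  have hint : IsIntegral (Algebra.adjoin k {u⁻¹}) (w / u ^ κ) := by
    refine int_of_all fun V hV huV => ?_
    by_cases h1 : u ∈ V
    · have h2 : w ∈ V := mdq_mem hV h1 hwu
      rw [div_eq_mul_inv, ← inv_pow]
      exact V.mul_mem _ _ h2 (pow_mem huV κ)
    · have h2 : ξ ∉ V := fun h2 => h1 (mdq_mem hV h2 hu)
      rw [hO V hV h2]
      exact htO
  obtain ⟨G, hG⟩ := exists_model ht κ (mdq_ex hwu) (mdq_ex hint)
  exact ⟨G, hG, mdq_three hP h3 (mdq_dvd hk htO hg h hP hPg (mdq_form hk huO htO hG.wt hG.zero))⟩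

end Pool.Agent.H8.OA
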