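import Pool.Agent.H8.OA.Stmt

/-! # [H8 OA MON] Monotonicity of `Lies`

`Over E₀ (H^D₀)` bounds: `((H^D₀ : ℕ) : ℤ)^E₀ = H^(D₀ E₀) ≤ H^E` for `D₀ E₀ ≤ E`, `1 ≤ H`; `(1 + r)^E₀ ≤ (1 + r)^E` for `r ≥ 0`, `E₀ ≤ E`. The same for the coefficients of `Φ`. (`lies_mono` is the case `D₀ = 1`.) -/

namespace Pool.Agent.H8.OA

open MvPolynomial

theorem lies_pow {E₀ D₀ E H : ℕ} (h : D₀ * E₀ ≤ E) (h' : E₀ ≤ E) (hH : 1 ≤ H) {K : Subfield ℝ}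
    {Φ : MvPolynomial (Fin 2) ℤ} {a b : ℤ} {G : MvPolynomial (Fin 2) ℤ} {x y : ℤ}
    (hl : Lies E₀ (H ^ D₀) K Φ a b G x y) : Lies E H K Φ a b G x y := by
  have hZ : ((H ^ D₀ : ℕ) : ℤ) ^ E₀ ≤ (H : ℤ) ^ E := by
    rw [Nat.cast_pow, ← pow_mul]
    exact pow_le_pow_right₀ (by exact_mod_cast hH) h
  have hR : ((H ^ D₀ : ℕ) : ℝ) ^ E₀ ≤ (H : ℝ) ^ E := by
    rw [Nat.cast_pow, ← pow_mul]
    exact pow_le_pow_right₀ (by exact_mod_cast hH) h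
  have hr : ∀ r : ℝ, 0 ≤ r → ((H ^ D₀ : ℕ) : ℝ) ^ E₀ * (1 + r) ^ E₀ ≤ (H : ℝ) ^ E * (1 + r) ^ E :=
    fun r h0 => mul_le_mul hR (pow_le_pow_right₀ (by linarith) h') (by positivity) (by positivity)
  obtain ⟨h1, h2, h3, h4, A, hA, h5, h6, h7, h8⟩ := hl
  refine ⟨h1, h2.trans h', fun m => (h3 m).trans hZ, h4, A,
    fun i => ⟨(hA i).1.trans h', fun m => ((hA i).2 m).trans hZ⟩, h5, h6, h7, fun s t U W a1 a2 a3 a4 => ?_⟩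
  obtain ⟨b1, b2, b3⟩ := h8 s t U W a1 a2 a3 a4
  exact ⟨b1, b2.trans (hr _ (le_max_of_le_left (norm_nonneg _))), b3.trans (hr _ (norm_nonneg _))⟩

theorem lies_mono {E₀ E H : ℕ} (h : E₀ ≤ E) (hH : 1 ≤ H) {K : Subfield ℝ}
    {Φ : MvPolynomial (Fin 2) ℤ} {a b : ℤ} {G : MvPolynomial (Fin 2) ℤ} {x y : ℤ}
    (hl : Lies E₀ H K Φ a b G x y) : Lies E H K Φ a b G x y :=
  lies_pow (D₀ := 1) (by simpa using h) h hH (by simpa using hl)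

/-- `OneA` for a smaller degree -/
theorem oneA_le {n n' E : ℕ} (h : n ≤ n') {Φ : Subfield ℝ → MvPolynomial (Fin 2) ℤ} {a b : Subfield ℝ → ℤ}
    (hA : OneA n' E Φ a b) : OneA n E Φ a b :=
  fun k _ _ hk G H hG hinf hH hc x y h0 => hA k hk G H (hG.trans h) hinf hH hc x y h0

end Pool.Agent.H8.OA
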