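import Pool.Agent.H8.OA.St2a
import Pool.Agent.H82.NS.Grow

/-! # [H8 OA ST2B] Stage 2: the second curve is finite over the quotient curve

`st2a` for `a` and for `b`; push integrality from `LL H₂ x₂ y₂` to `QS` (cf. the private `int_map` in H12/ON/Uni.lean).
Converse: in `L₁ = LL H₁ x₁ y₁`: `ul` is integral over `k₁[ul]`, so over `k₁[qz a]` (`int_swap`, `hQ.tr`, the unique place of `sq_uni`; `Bg H₁ u₁` follows from `Bg H₂ u₁`, `hle`). `qz a ∉ V0 H₁` (`not_mem_of_int`), `grow` (H82/NS/Grow.lean) with `H := H₁`, `x := qz a`, `z := qz u₁`: `|u₁| ≤ |qz a|^C`. As `qz u₁ ∉ V0 H₂` (`bg_v0 hb₁`), `qz a ∉ V0 H₂`,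
so `qz a` is transcendental over `Q0 H₂` (`val_alg`, H12/ON/Val.lean, or `q0_alg`). Then `int_swap` in `LL H₂ x₂ y₂` with `ξ = ul n H₂ x₂ y₂`, `u = ⟨qz a, _⟩`, `z = x₂, y₂` (`sq_int hs₂`, `H₁ := H := H₂`). -/

namespace Pool.Agent.H8.OA

open Filter IntermediateField Pool.Agent.H82.NS Pool.Agent.H12.ON Pool.Agent.H12.OG Polynomial

private theorem st2b_map {E K M : Type} [Field E] [Field K] [Field M] [Algebra E K] [Algebra E M]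
    (φ : K →ₐ[E] M) {x g : K} (h : IsIntegral (Algebra.adjoin E {x}) g) :
    IsIntegral (Algebra.adjoin E {φ x}) (φ g) := by
  obtain ⟨p, hp, hpg⟩ := h
  have h1 : ∀ z : Algebra.adjoin E {x}, φ z ∈ Algebra.adjoin E {φ x} := by
    intro z
    have h2 : φ z ∈ (Algebra.adjoin E {x}).map φ := ⟨z, z.2, rfl⟩
    rw [AlgHom.map_adjoin, Set.image_singleton] at h2
    exact h2
  refine ⟨p.map (((φ : K →+* M).comp (Algebra.adjoin E {x}).subtype).codRestrict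
    (Algebra.adjoin E {φ x}) h1), hp.map _, ?_⟩
  rw [Polynomial.eval₂_map]
  have h3 := congrArg φ hpg
  rw [map_zero] at h3
  rw [← h3]
  have h4 := Polynomial.hom_eval₂ p (algebraMap (Algebra.adjoin E {x}) K) (φ : K →+* M) g
  refine Eq.trans ?_ h4.symm
  rfl

private theorem st2b_val (H : ℕ → ℕ) (L : IntermediateField (Q0 H) QS) {x g : QS} (hx : x ∈ L)
    (hg : g ∈ L) (h : IsInt (Q0 H) (⟨x, hx⟩ : L) (⟨g, hg⟩ : L)) :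
    IsIntegral (Algebra.adjoin (Q0 H) {x}) g := by
  have h1 := st2b_map L.val h
  exact h1

private theorem st2b_q0 (H : ℕ → ℕ) {z : QS} (hz : z ∈ Q0 H) : z ∈ V0 H := by
  rcases abs_choice z with h | h
  · exact ⟨z, hz, le_of_eq h⟩
  · exact ⟨-z, (Q0 H).neg_mem hz, le_of_eq h⟩

private theorem st2b_tr (H : ℕ → ℕ) {z : QS} (hz : z ∉ V0 H) : Transcendental (Q0 H) z :=
  fun h => hz (st2b_q0 H (q0_alg H z h))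

private theorem st2b_trl (H : ℕ → ℕ) (L : IntermediateField (Q0 H) QS) (z : L)
    (hz : Transcendental (Q0 H) (z : QS)) : Transcendental (Q0 H) z := by
  intro h
  exact hz (h.algHom L.val)

theorem st2b {n : ℕ} {K : ℕ → Subfield ℝ} {H₁ H₂ : ℕ → ℕ} {x₁ y₁ x₂ y₂ : ℕ → ℤ} (hs₁ : Sq n K H₁ x₁ y₁)
    (hs₂ : Sq n K H₂ x₂ y₂) (hle : ∀ N, H₁ N ≤ H₂ N) (hb₁ : Bg H₂ (uu n x₁ y₁)) (hb₂ : Bg H₂ (uu n x₂ y₂)) {C : ℕ}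
    (hc1 : ∀ᶠ N in UU, |uu n x₁ y₁ N| ≤ |uu n x₂ y₂ N| ^ C) (hc2 : ∀ᶠ N in UU, |uu n x₂ y₂ N| ≤ |uu n x₁ y₁ N| ^ C)
    {la : ℕ → ℝ} {γ : ℕ → ℚ} {g : LL H₁ x₁ y₁} (hS : Stg n K H₁ x₁ y₁ la γ g) {a b : ℕ → ℤ}
    {Φ : ℕ → MvPolynomial (Fin 2) ℤ} {D : ℕ} (hQ : Qot n K H₁ x₁ y₁ g a b Φ D) :
    qz a ∈ LL H₂ x₂ y₂ ∧ qz b ∈ LL H₂ x₂ y₂ ∧
      IsIntegral (Algebra.adjoin (Q0 H₂) {qz (uu n x₂ y₂)}) (qz a) ∧
      IsIntegral (Algebra.adjoin (Q0 H₂) {qz (uu n x₂ y₂)}) (qz b) ∧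
      IsIntegral (Algebra.adjoin (Q0 H₂) {qz a}) (qz x₂) ∧ IsIntegral (Algebra.adjoin (Q0 H₂) {qz a}) (qz y₂) := by
  obtain ⟨ha, hai⟩ := st2a hs₁ hs₂ hle hb₁ hb₂ hc1 hc2 hS hQ.am hQ.ai
  obtain ⟨hb, hbi⟩ := st2a hs₁ hs₂ hle hb₁ hb₂ hc1 hc2 hS hQ.bm hQ.bi
  -- the first curve
  have hbg : Bg H₁ (uu n x₁ y₁) := by
    intro C
    filter_upwards [hb₁ C] with N hN
    refine le_trans ?_ hN
    have h1 : ((H₁ N + 2 : ℕ) : ℤ) ≤ ((H₂ N + 2 : ℕ) : ℤ) := by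
      exact_mod_cast Nat.add_le_add_right (hle N) 2
    exact pow_le_pow_left₀ (by positivity) h1 C
  obtain ⟨-, -, hO₁⟩ := sq_uni hs₁ (H := H₁) (fun _ => le_rfl) hbg
  have ht₁ : Transcendental (Q0 H₁) (⟨qz a, hQ.am⟩ : LL H₁ x₁ y₁) := st2b_trl H₁ _ _ hQ.tr
  have hnm := not_mem_of_int hO₁ hQ.ai.1 ht₁
  have hself : IsInt (Q0 H₁) (ul n H₁ x₁ y₁) (ul n H₁ x₁ y₁) := by
    have h1 : (ul n H₁ x₁ y₁) = algebraMap (Algebra.adjoin (Q0 H₁) {ul n H₁ x₁ y₁}) (LL H₁ x₁ y₁)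
      ⟨ul n H₁ x₁ y₁, Algebra.subset_adjoin (Set.mem_singleton _)⟩ := rfl
    unfold IsInt
    rw [h1]
    exact isIntegral_algebraMap
  have hsw := int_swap hO₁ hQ.ai.1 ht₁ hself
  have hsw' : IsIntegral (Algebra.adjoin (Q0 H₁) {qz a}) (qz (uu n x₁ y₁)) :=
    st2b_val H₁ (LL H₁ x₁ y₁) hQ.am (u_mem n H₁ x₁ y₁) hsw
  have hnm' : qz a ∉ V0 H₁ := hnm
  obtain ⟨E, hE⟩ := grow H₁ (qz a) (qz (uu n x₁ y₁)) hnm' hsw'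
  have hn₂ : qz a ∉ V0 H₂ := by
    rintro ⟨r, hr, har⟩
    refine bg_v0 hb₁ ⟨r ^ E, (Q0 H₂).pow_mem hr E, hE.trans ?_⟩
    exact pow_le_pow_left₀ (abs_nonneg _) har E
  -- the second curve
  obtain ⟨-, -, hO₂⟩ := sq_uni hs₂ (H := H₂) (fun _ => le_rfl) hb₂
  have ht₂ : Transcendental (Q0 H₂) (⟨qz a, ha⟩ : LL H₂ x₂ y₂) :=
    st2b_trl H₂ _ _ (st2b_tr H₂ hn₂)
  obtain ⟨hx, hy⟩ := sq_int hs₂ (H := H₂) (fun _ => le_rfl)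
  refine ⟨ha, hb, ?_, ?_, ?_, ?_⟩
  · exact st2b_val H₂ (LL H₂ x₂ y₂) (u_mem n H₂ x₂ y₂) ha hai
  · exact st2b_val H₂ (LL H₂ x₂ y₂) (u_mem n H₂ x₂ y₂) hb hbi
  · exact st2b_val H₂ (LL H₂ x₂ y₂) ha (x_mem H₂ x₂ y₂) (int_swap hO₂ hai ht₂ hx)
  · exact st2b_val H₂ (LL H₂ x₂ y₂) ha (y_mem H₂ x₂ y₂) (int_swap hO₂ hai ht₂ hy)

end Pool.Agent.H8.OA
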