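import Pool.Agent.H98.SI.Stmt

/-! # [H8 OA STMT] THEOREM ONE for all curves: the statement

`Over E H G Φ x y a b`: the zero `(x,y)` of `G` lies over the zero `(a,b)` of `Φ` by a finite map `(U, W) = (A₁/A₀, A₂/A₀)` of the curve `G = 0` to the curve `Φ = 0`; the `A_i` have degree `≤ E` and coefficients `≤ H^E`.
`Lies E H K Φ a b G x y`: moreover `Φ` is irreducible of degree `≤ E`, its coefficients are `≤ H^E`, and all its points at infinity with real residue field carry `K`. -/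

namespace Pool.Agent.H8.OA

open MvPolynomial

/-- `(x,y)` on `G = 0` lies over `(a,b)` on `Φ = 0` by a finite map of height `≤ H^E` -/
def Over (E H : ℕ) (G Φ : MvPolynomial (Fin 2) ℤ) (x y a b : ℤ) : Prop :=
  ∃ A : Fin 3 → MvPolynomial (Fin 2) ℤ,
    (∀ i, (A i).totalDegree ≤ E ∧ ∀ m, |coeff m (A i)| ≤ (H : ℤ) ^ E) ∧
    eval ![x, y] (A 0) ≠ 0 ∧ eval ![x, y] (A 1) = a * eval ![x, y] (A 0) ∧
    eval ![x, y] (A 2) = b * eval ![x, y] (A 0) ∧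
    ∀ s t U W : ℂ, aeval ![s, t] G = 0 → aeval ![s, t] (A 0) ≠ 0 →
      aeval ![s, t] (A 1) = U * aeval ![s, t] (A 0) → aeval ![s, t] (A 2) = W * aeval ![s, t] (A 0) →
      aeval ![U, W] Φ = 0 ∧ max ‖U‖ ‖W‖ ≤ (H : ℝ) ^ E * (1 + max ‖s‖ ‖t‖) ^ E ∧
        max ‖s‖ ‖t‖ ≤ (H : ℝ) ^ E * (1 + ‖U‖) ^ E

/-- `(x,y)` lies over the integer point `(a,b)` of the curve `Φ = 0`, which carries `K` at infinity -/
def Lies (E H : ℕ) (K : Subfield ℝ) (Φ : MvPolynomial (Fin 2) ℤ) (a b : ℤ) (G : MvPolynomial (Fin 2) ℤ)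
    (x y : ℤ) : Prop :=
  H98.SI.AtInf K Φ ∧ Φ.totalDegree ≤ E ∧ (∀ m, |coeff m Φ| ≤ (H : ℤ) ^ E) ∧ eval ![a, b] Φ = 0 ∧
    Over E H G Φ x y a b

/-- clause (A) for one `n` -/
def OneA (n E : ℕ) (Φ : Subfield ℝ → MvPolynomial (Fin 2) ℤ) (a b : Subfield ℝ → ℤ) : Prop :=
  ∀ (k : Type) [Field k] [NumberField k], 3 ≤ Module.finrank ℚ k → ∀ (G : MvPolynomial (Fin 2) ℤ) (H : ℕ),
    G.totalDegree ≤ n → H98.SI.AtInf k G → 2 ≤ H → (∀ m, |coeff m G| ≤ (H : ℤ)) →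
    ∀ x y : ℤ, eval ![x, y] G = 0 → max |x| |y| ≤ (H : ℤ) ^ E ∨
      ∃ K : Subfield ℝ, Nonempty (k ≃+* K) ∧ Lies E H K (Φ K) (a K) (b K) G x y

/-- the final statement -/
def OneAll : Prop :=
  ∃ (Φ : ℕ → Subfield ℝ → MvPolynomial (Fin 2) ℤ) (a b : ℕ → Subfield ℝ → ℤ) (E : ℕ → ℕ),
    (∀ n, OneA n (E n) (Φ n) (a n) (b n)) ∧
    ∀ n : ℕ, ∃ N D : ℕ, ∀ (F : MvPolynomial (Fin 2) ℤ) (H : ℕ), F.totalDegree ≤ n →
      H98.SI.Scope F → 2 ≤ H → (∀ m, |coeff m F| ≤ (H : ℤ)) → ∀ x y : ℤ, eval ![x, y] F = 0 →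
        max |x| |y| ≤ (H : ℤ) ^ D ∨
          ∃ (K : Subfield ℝ) (_ : NumberField K) (G : MvPolynomial (Fin 2) ℤ) (c : ℕ) (w : ℤ),
            3 ≤ Module.finrank ℚ K ∧ Module.finrank ℚ K ≤ D ∧ |NumberField.discr K| ≤ (H : ℤ) ^ D ∧
            G.totalDegree ≤ N ∧ H98.SI.AtInf K G ∧ (∀ m, |coeff m G| ≤ (H : ℤ) ^ D) ∧ c ≤ D ∧
            max |x| |y| ≤ |x + c * y| ^ D ∧ |w| ≤ |x + c * y| ^ D ∧
            eval ![x + c * y, w] G = 0 ∧ Lies D H K (Φ N K) (a N K) (b N K) G (x + c * y) w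

end Pool.Agent.H8.OA
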