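import Pool.Agent.H8.OA.Sbd
import Pool.Agent.H8.OA.Sqd
import Pool.Agent.H82.NS.Int

/-! # [H8 OA TRA] Elements of the function field as quotients of sequences of small polynomials

`LL H x y = adjoin (Q0 H) {qz x, qz y}`: `qz a = r₁/s₁`, `qz b = r₂/s₂` with `r_i, s_i` values at `(qz x, qz y)` of polynomials over `Q0 H` in two variables (`IntermediateField.mem_adjoin_iff`, or `IntermediateField.adjoin_induction` for the property: quotient of two values of `aeval ![qz x, qz y]`), `s_i ≠ 0` (if `s = 0` in a representation then `z = 0 = 0/1`).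
Common denominator: `A₀ = s₁ s₂`, `A₁ = r₁ s₂`, `A₂ = r₂ s₁`. The finitely many coefficients in `Q0 H` are `num/den` of small sequences: multiply by the product of the (nonzero, small) denominators: coefficients `cl` of integer sequences `|c N| ≤ (H N + 2)^C`. `A i N` := the sum of the monomials with these coefficients; `aeval ![qz x, qz y]` of the polynomial over `Q0 H`
is `qz (fun N => eval ![x N, y N] (A i N))` (finite sum of classes), so the equations hold for almost all `N`. -/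

namespace Pool.Agent.H8.OA

open Filter MvPolynomial Pool.Agent.H82.NS

private theorem tra_mul (c d : ℕ → ℤ) : qz (fun N => c N * d N) = qz c * qz d := by
  unfold qz
  rw [cl_mul]
  congr 1
  funext N
  push_cast
  rfl

private theorem tra_add (c d : ℕ → ℤ) : qz (fun N => c N + d N) = qz c + qz d := by
  unfold qz
  rw [cl_add]
  congr 1
  funext N
  push_cast
  rfl

private theorem tra_eq {c d : ℕ → ℤ} : qz c = qz d ↔ ∀ᶠ N in UU, c N = d N := by
  unfold qz
  rw [cl_eq]
  exact eventually_congr (Eventually.of_forall fun N => Int.cast_inj)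

private theorem tra_zero : qz (fun _ => 0) = 0 := by
  unfold qz
  rw [cl_zero]
  simp only [Int.cast_zero]

private theorem tra_one : qz (fun _ => 1) = 1 := by
  unfold qz
  rw [cl_one]
  simp only [Int.cast_one]

private theorem tra_ne {c : ℕ → ℤ} : qz c ≠ 0 ↔ ∀ᶠ N in UU, c N ≠ 0 := by
  rw [← tra_zero, Ne, tra_eq]
  exact (Ultrafilter.eventually_not (f := (hyperfilter ℕ : Ultrafilter ℕ))).symm

/-- the value of a sequence of polynomials -/
private noncomputable def traEv (x y : ℕ → ℤ) (P : ℕ → MvPolynomial (Fin 2) ℤ) : QS :=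
  qz (fun N => eval ![x N, y N] (P N))

private theorem tra_ev_mul (x y : ℕ → ℤ) (P Q : ℕ → MvPolynomial (Fin 2) ℤ) :
    traEv x y (fun N => P N * Q N) = traEv x y P * traEv x y Q := by
  unfold traEv
  rw [← tra_mul]
  congr 1
  funext N
  exact map_mul _ _ _

private theorem tra_ev_add (x y : ℕ → ℤ) (P Q : ℕ → MvPolynomial (Fin 2) ℤ) :
    traEv x y (fun N => P N + Q N) = traEv x y P + traEv x y Q := by
  unfold traEv
  rw [← tra_add]
  congr 1
  funext N
  exact map_add _ _ _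

/-- quotients of values of sequences of small polynomials -/
private def TraRep (H : ℕ → ℕ) (x y : ℕ → ℤ) (z : QS) : Prop :=
  ∃ P Q : ℕ → MvPolynomial (Fin 2) ℤ, Sb H P ∧ Sb H Q ∧ traEv x y Q ≠ 0 ∧
    z * traEv x y Q = traEv x y P

private theorem tra_C (x y c : ℕ → ℤ) : traEv x y (fun N => C (c N)) = qz c := by
  unfold traEv
  congr 1
  funext N
  exact eval_C _

private theorem tra_base {H : ℕ → ℕ} {x y : ℕ → ℤ} (r : Q0 H) :
    TraRep H x y (algebraMap (Q0 H) QS r) := by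
  obtain ⟨f, ⟨D, hD⟩, hr⟩ := r.2
  refine ⟨fun N => C (f N).num, fun N => C ((f N).den : ℤ), sb_C ⟨D, ?_⟩, sb_C ⟨D, ?_⟩, ?_, ?_⟩
  · refine Eventually.of_forall fun N => ?_
    have h1 := (hD N).1
    have h2 : (((f N).num.natAbs : ℕ) : ℤ) ≤ (((H N + 2) ^ D : ℕ) : ℤ) := by exact_mod_cast h1
    rw [Int.natCast_natAbs] at h2
    push_cast at h2 ⊢
    exact h2
  · refine Eventually.of_forall fun N => ?_
    have h1 := (hD N).2
    have h2 : (((f N).den : ℕ) : ℤ) ≤ (((H N + 2) ^ D : ℕ) : ℤ) := by exact_mod_cast h1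
    rw [abs_of_nonneg (Int.natCast_nonneg _)]
    push_cast at h2 ⊢
    exact h2
  · rw [tra_C, tra_ne]
    refine Eventually.of_forall fun N => ?_
    have := (f N).den_pos.ne'
    exact_mod_cast this
  · rw [tra_C, tra_C]
    change (r : QS) * _ = _
    rw [hr]
    unfold qz
    rw [cl_mul, cl_eq]
    refine Eventually.of_forall fun N => ?_
    change f N * (((f N).den : ℤ) : ℚ) = (((f N).num : ℤ) : ℚ)
    rw [Int.cast_natCast, Rat.mul_den_eq_num]

private theorem tra_gen {H : ℕ → ℕ} {x y : ℕ → ℤ} (i : Fin 2) :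
    TraRep H x y (qz (fun N => ![x N, y N] i)) := by
  refine ⟨fun _ => X i, fun _ => C 1, sb_X i, sb_C (si_const 1), ?_, ?_⟩
  · rw [tra_C, tra_one]
    exact one_ne_zero
  · rw [tra_C, tra_one, mul_one]
    unfold traEv
    congr 1
    funext N
    exact (eval_X _).symm

private theorem tra_rep {H : ℕ → ℕ} {x y : ℕ → ℤ} {z : QS} (hz : z ∈ LL H x y) :
    TraRep H x y z := by
  unfold LL at hz
  induction hz using IntermediateField.adjoin_induction with
  | mem z h =>
    rcases h with h | h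
    · rw [h]
      exact tra_gen 0
    · rw [Set.mem_singleton_iff] at h
      rw [h]
      exact tra_gen 1
  | algebraMap r => exact tra_base r
  | add z z' _ _ h h' =>
    obtain ⟨P, Q, hP, hQ, hQ0, h1⟩ := h
    obtain ⟨P', Q', hP', hQ', hQ0', h1'⟩ := h'
    refine ⟨fun N => P N * Q' N + P' N * Q N, fun N => Q N * Q' N,
      sb_add (sb_mul hP hQ') (sb_mul hP' hQ), sb_mul hQ hQ', ?_, ?_⟩
    · rw [tra_ev_mul]
      exact mul_ne_zero hQ0 hQ0'
    · rw [tra_ev_mul, tra_ev_add, tra_ev_mul, tra_ev_mul, ← h1, ← h1']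
      ring
  | inv z _ h =>
    obtain ⟨P, Q, hP, hQ, hQ0, h1⟩ := h
    by_cases hz0 : z = 0
    · refine ⟨fun _ => C 0, fun _ => C 1, sb_C (si_const 0), sb_C (si_const 1), ?_, ?_⟩
      · rw [tra_C, tra_one]
        exact one_ne_zero
      · rw [tra_C, tra_C, tra_one, tra_zero, hz0, inv_zero, zero_mul]
    · refine ⟨Q, P, hQ, hP, ?_, ?_⟩
      · rw [← h1]
        exact mul_ne_zero hz0 hQ0
      · rw [← h1, inv_mul_cancel_left₀ hz0]
  | mul z z' _ _ h h' =>
    obtain ⟨P, Q, hP, hQ, hQ0, h1⟩ := h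
    obtain ⟨P', Q', hP', hQ', hQ0', h1'⟩ := h'
    refine ⟨fun N => P N * P' N, fun N => Q N * Q' N, sb_mul hP hP', sb_mul hQ hQ', ?_, ?_⟩
    · rw [tra_ev_mul]
      exact mul_ne_zero hQ0 hQ0'
    · rw [tra_ev_mul, tra_ev_mul, ← h1, ← h1']
      ring

theorem tra {H : ℕ → ℕ} {x y a b : ℕ → ℤ} (ha : qz a ∈ LL H x y) (hb : qz b ∈ LL H x y) :
    ∃ A : Fin 3 → ℕ → MvPolynomial (Fin 2) ℤ, (∀ i, Sb H (A i)) ∧ ∀ᶠ N in UU,
      eval ![x N, y N] (A 0 N) ≠ 0 ∧ eval ![x N, y N] (A 1 N) = a N * eval ![x N, y N] (A 0 N) ∧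
        eval ![x N, y N] (A 2 N) = b N * eval ![x N, y N] (A 0 N) := by
  obtain ⟨P, Q, hP, hQ, hQ0, h1⟩ := tra_rep ha
  obtain ⟨P', Q', hP', hQ', hQ0', h1'⟩ := tra_rep hb
  unfold traEv at hQ0 hQ0' h1 h1'
  rw [tra_ne] at hQ0 hQ0'
  rw [← tra_mul, tra_eq] at h1 h1'
  refine ⟨![fun N => Q N * Q' N, fun N => P N * Q' N, fun N => P' N * Q N], ?_, ?_⟩
  · intro i
    fin_cases i
    · exact sb_mul hQ hQ'
    · exact sb_mul hP hQ'
    · exact sb_mul hP' hQ
  · filter_upwards [hQ0, hQ0', h1, h1'] with N k1 k2 k3 k4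
    change eval ![x N, y N] (Q N * Q' N) ≠ 0 ∧
      eval ![x N, y N] (P N * Q' N) = a N * eval ![x N, y N] (Q N * Q' N) ∧
      eval ![x N, y N] (P' N * Q N) = b N * eval ![x N, y N] (Q N * Q' N)
    rw [map_mul, map_mul, map_mul, ← k3, ← k4]
    exact ⟨mul_ne_zero k1 k2, by ring, by ring⟩

end Pool.Agent.H8.OA
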