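import Pool.Agent.H8.OA.Rtr
import Pool.Agent.H8.OA.Tra
import Pool.Agent.H8.OA.Irl
import Pool.Agent.H8.OA.Sq1
import Pool.Agent.H8.OA.Stmt

/-! # [H8 OA ST3] From the frame to the statement: the finite map of the second curve to the quotient curve

`A` from `tra`. `qz x` or `qz y` is transcendental over `Q0 H` (`bg_tr hb`, `qz_uu`: otherwise `qz (uu n x y)` is algebraic). `Sb H G` from `hG`. `rtr` for the five relations:
`R₁ = rename ![2,3] (Φ N)` (`sb_rename`; `eval`: `eval_rename`), `R₂ = ε X₂^m + ∑∑ c_ij (X₁ + X₀^(n+1))^j X₂^i` (`irl` for `p = uu n x y`, `q = a`), `R₃` = the same with `X₃` (`q = b`), `R₄ = ε X₀^m + ∑∑ c_ij X₂^j X₀^i` (`p = a`, `q = x`), `R₅` = the same with `X₁` (`q = y`). (`sb_sum, sb_add, sb_mul, sb_pow, sb_C, sb_X`.)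
So for almost all `N`, at all complex `(s,t,U,W)` as in `Over`: `Φ N (U,W) = 0`, and the four integral relations hold; `cbd` (IRL): `‖U‖, ‖W‖ ≤ H^D (1 + ‖v‖)^D` with `v = t + s^(n+1)`, `1 + ‖v‖ ≤ (1 + max ‖s‖ ‖t‖)^(n+2)`, and `‖s‖, ‖t‖ ≤ H^D (1 + ‖U‖)^D`. `H N + 2 ≤ (H N)^2`. Take `E` = the maximum (sum) of all exponents. -/

namespace Pool.Agent.H8.OA

open Filter MvPolynomial Pool.Agent.H82.NS Pool.Agent.H12.ON

private theorem st3_rel {H : ℕ → ℕ} (hH : ∀ N, 2 ≤ H N) {x y a b : ℕ → ℤ}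
    {G : ℕ → MvPolynomial (Fin 2) ℤ} {A : Fin 3 → ℕ → MvPolynomial (Fin 2) ℤ}
    (key : ∀ R : ℕ → MvPolynomial (Fin 4) ℤ, Sb H R →
      (∀ᶠ N in UU, eval ![x N, y N, a N, b N] (R N) = 0) →
      ∀ᶠ N in UU, ∀ s t U W : ℂ, aeval ![s, t] (G N) = 0 → aeval ![s, t] (A 0 N) ≠ 0 →
      aeval ![s, t] (A 1 N) = U * aeval ![s, t] (A 0 N) → aeval ![s, t] (A 2 N) = W * aeval ![s, t] (A 0 N) →
      aeval ![s, t, U, W] (R N) = 0)
    {P Q : MvPolynomial (Fin 4) ℤ} (hP : Sb H (fun _ => P)) (hQ : Sb H (fun _ => Q)) {p q : ℕ → ℤ}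
    (hp : ∀ N, eval ![x N, y N, a N, b N] P = p N) (hq : ∀ N, eval ![x N, y N, a N, b N] Q = q N)
    (h : IsIntegral (Algebra.adjoin (Q0 H) {qz p}) (qz q)) :
    ∃ D : ℕ, ∀ᶠ N in UU, ∀ s t U W : ℂ, aeval ![s, t] (G N) = 0 → aeval ![s, t] (A 0 N) ≠ 0 →
      aeval ![s, t] (A 1 N) = U * aeval ![s, t] (A 0 N) → aeval ![s, t] (A 2 N) = W * aeval ![s, t] (A 0 N) →
      ‖(aeval ![s, t, U, W] Q : ℂ)‖ ≤ (H N : ℝ) ^ D * (1 + ‖(aeval ![s, t, U, W] P : ℂ)‖) ^ D := by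
  obtain ⟨m, J, ε, c, hε, hc, hrel⟩ := irl h
  obtain ⟨D, hD⟩ := cbd (m := m) (J := J) (ε := ε) hH hc
  refine ⟨D, ?_⟩
  have hR := key (fun N => C (ε N) * Q ^ m + ∑ i ∈ Finset.range m, ∑ j ∈ Finset.range J,
      C (c i j N) * P ^ j * Q ^ i)
    (sb_add (sb_mul (sb_C hε) (sb_pow hQ m)) (sb_sum _ fun i _ => sb_sum _ fun j _ =>
      sb_mul (sb_mul (sb_C (hc i j)) (sb_pow hP j)) (sb_pow hQ i))) (by
    filter_upwards [hrel] with N h1
    rw [← h1.2]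
    simp only [map_add, map_mul, map_sum, map_pow, eval_C, hp, hq])
  filter_upwards [hR, hD, hrel] with N h1 h2 h3 s t U W g0 g1 g2 g3
  refine h2 _ _ h3.1 ?_
  have h4 := h1 s t U W g0 g1 g2 g3
  rw [← h4]
  simp only [map_add, map_mul, map_sum, map_pow, eq_intCast, map_intCast]

private theorem st3_pow (M : ℝ) (hM : 0 ≤ M) (k : ℕ) : 1 + M ^ (k + 1) ≤ (1 + M) ^ (k + 1) := by
  induction k with
  | zero => rw [zero_add, pow_one, pow_one]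
  | succ k ih =>
    rw [pow_succ (1 + M) (k + 1)]
    have h1 : 0 ≤ M ^ (k + 1) := pow_nonneg hM _
    have h2 := mul_le_mul_of_nonneg_right ih (by linarith : (0 : ℝ) ≤ 1 + M)
    rw [pow_succ M (k + 1)]
    nlinarith

/-- the bound for `v = t + s^(n+1)` -/
private theorem st3_v (n : ℕ) (s t : ℂ) :
    1 + ‖t + s ^ (n + 1)‖ ≤ (1 + max ‖s‖ ‖t‖) ^ (n + 2) := by
  obtain ⟨M, hM⟩ : ∃ M : ℝ, M = max ‖s‖ ‖t‖ := ⟨_, rfl⟩
  have hs : ‖s‖ ≤ M := by rw [hM]; exact le_max_left _ _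
  have ht : ‖t‖ ≤ M := by rw [hM]; exact le_max_right _ _
  have hM0 : 0 ≤ M := le_trans (norm_nonneg s) hs
  rw [← hM]
  have h1 : ‖t + s ^ (n + 1)‖ ≤ M + M ^ (n + 1) := by
    refine (norm_add_le _ _).trans (add_le_add ht ?_)
    rw [norm_pow]
    exact pow_le_pow_left₀ (norm_nonneg _) hs _
  have h2 := st3_pow M hM0 n
  have h3 : (1 + M) ^ (n + 2) = (1 + M) ^ (n + 1) * (1 + M) := pow_succ _ _
  have h4 := mul_le_mul_of_nonneg_right h2 (by linarith : (0 : ℝ) ≤ 1 + M)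
  have h5 : 0 ≤ M ^ (n + 1) := pow_nonneg hM0 _
  rw [h3]
  nlinarith [mul_nonneg h5 hM0]

private theorem st3_mono {h c : ℝ} (hh : 1 ≤ h) (hc : 1 ≤ c) {d d' e : ℕ} (h1 : d ≤ e) (h2 : d' ≤ e) :
    h ^ d * c ^ d' ≤ h ^ e * c ^ e :=
  mul_le_mul (pow_le_pow_right₀ hh h1) (pow_le_pow_right₀ hc h2) (pow_nonneg (by linarith) _)
    (pow_nonneg (by linarith) _)

theorem st3 {n : ℕ} {K : ℕ → Subfield ℝ} {H : ℕ → ℕ} {x y : ℕ → ℤ} (hs : Sq n K H x y) (hb : Bg H (uu n x y))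
    {G Φ : ℕ → MvPolynomial (Fin 2) ℤ} (hG : ∀ᶠ N in UU, (G N).totalDegree ≤ n ∧
      (∀ m, |coeff m (G N)| ≤ (H N : ℤ)) ∧ Irreducible (map (Int.castRingHom ℚ) (G N)) ∧
      eval ![x N, y N] (G N) = 0) (hΦ : Sb H Φ) {a b : ℕ → ℤ} (hΦ0 : ∀ᶠ N in UU, eval ![a N, b N] (Φ N) = 0)
    (ha : qz a ∈ LL H x y) (hb' : qz b ∈ LL H x y)
    (ia : IsIntegral (Algebra.adjoin (Q0 H) {qz (uu n x y)}) (qz a))
    (ib : IsIntegral (Algebra.adjoin (Q0 H) {qz (uu n x y)}) (qz b))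
    (ix : IsIntegral (Algebra.adjoin (Q0 H) {qz a}) (qz x)) (iy : IsIntegral (Algebra.adjoin (Q0 H) {qz a}) (qz y)) :
    ∃ D : ℕ, ∀ᶠ N in UU, Over D (H N) (G N) (Φ N) (x N) (y N) (a N) (b N) := by
  obtain ⟨A, hA, hA'⟩ := tra ha hb'
  have hGS : Sb H G := by
    refine ⟨n + 1, ?_⟩
    filter_upwards [hG] with N h
    refine ⟨h.1.trans (Nat.le_succ n), fun m => (h.2.1 m).trans ?_⟩
    have h1 : (1 : ℤ) ≤ ((H N + 2 : ℕ) : ℤ) := by push_cast; omega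
    calc (H N : ℤ) ≤ ((H N + 2 : ℕ) : ℤ) ^ 1 := by rw [pow_one]; push_cast; omega
      _ ≤ ((H N + 2 : ℕ) : ℤ) ^ (n + 1) := pow_le_pow_right₀ h1 (by omega)
  have htr : Transcendental (Q0 H) (qz x) ∨ Transcendental (Q0 H) (qz y) := by
    by_contra h
    rw [not_or, Transcendental, Transcendental, not_not, not_not] at h
    have h1 := bg_tr hb
    apply h1
    rw [qz_uu]
    exact h.2.add (h.1.pow _)
  have key : ∀ R : ℕ → MvPolynomial (Fin 4) ℤ, Sb H R →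
      (∀ᶠ N in UU, eval ![x N, y N, a N, b N] (R N) = 0) →
      ∀ᶠ N in UU, ∀ s t U W : ℂ, aeval ![s, t] (G N) = 0 → aeval ![s, t] (A 0 N) ≠ 0 →
      aeval ![s, t] (A 1 N) = U * aeval ![s, t] (A 0 N) → aeval ![s, t] (A 2 N) = W * aeval ![s, t] (A 0 N) →
      aeval ![s, t, U, W] (R N) = 0 := fun R hR hR0 =>
    rtr hGS (hG.mono fun N h => h.2.2.1) (hG.mono fun N h => h.2.2.2) htr hA hA' hR hR0
  -- the relation of the image curve
  have hinj : Function.Injective (![2, 3] : Fin 2 → Fin 4) := by decide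
  have r1 := key (fun N => rename ![2, 3] (Φ N)) (sb_rename hinj hΦ) (by
    filter_upwards [hΦ0] with N h
    rw [eval_rename, ← h]
    congr 1
    congr 1
    funext i
    fin_cases i <;> rfl)
  have sP : Sb H (fun _ => (X 1 + X 0 ^ (n + 1) : MvPolynomial (Fin 4) ℤ)) :=
    sb_add (sb_X 1) (sb_pow (sb_X 0) _)
  obtain ⟨D1, r2⟩ := st3_rel hs.H2 key sP (sb_X 2) (p := uu n x y) (q := a)
    (fun N => by simp [uu]) (fun N => by simp) ia
  obtain ⟨D2, r3⟩ := st3_rel hs.H2 key sP (sb_X 3) (p := uu n x y) (q := b)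
    (fun N => by simp [uu]) (fun N => by simp) ib
  obtain ⟨D3, r4⟩ := st3_rel hs.H2 key (sb_X 2) (sb_X 0) (p := a) (q := x)
    (fun N => by simp) (fun N => by simp) ix
  obtain ⟨D4, r5⟩ := st3_rel hs.H2 key (sb_X 2) (sb_X 1) (p := a) (q := y)
    (fun N => by simp) (fun N => by simp) iy
  choose c hc using hA
  have hc' := Filter.eventually_all.2 hc
  refine ⟨2 * (c 0 + c 1 + c 2) + (n + 2) * (D1 + D2) + D3 + D4, ?_⟩
  filter_upwards [hA', hc', r1, r2, r3, r4, r5] with N hAN hcN k1 k2 k3 k4 k5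
  obtain ⟨E, hE⟩ : ∃ E, E = 2 * (c 0 + c 1 + c 2) + (n + 2) * (D1 + D2) + D3 + D4 := ⟨_, rfl⟩
  rw [← hE]
  have hcE : ∀ i, 2 * c i ≤ E := by
    intro i
    fin_cases i
    · change 2 * c 0 ≤ E
      omega
    · change 2 * c 1 ≤ E
      omega
    · change 2 * c 2 ≤ E
      omega
  have hE1 : D1 ≤ E ∧ (n + 2) * D1 ≤ E := by
    rw [hE]
    constructor <;> nlinarith
  have hE2 : D2 ≤ E ∧ (n + 2) * D2 ≤ E := by
    rw [hE]
    constructor <;> nlinarith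
  have hE3 : D3 ≤ E := by omega
  have hE4 : D4 ≤ E := by omega
  have hH2 := hs.H2 N
  have hH1 : (1 : ℝ) ≤ (H N : ℝ) := by
    have : (2 : ℝ) ≤ (H N : ℝ) := by exact_mod_cast hH2
    linarith
  refine ⟨fun i => A i N, fun i => ⟨?_, fun m => ?_⟩, hAN.1, hAN.2.1, hAN.2.2, ?_⟩
  · exact (hcN i).1.trans (by have := hcE i; omega)
  · refine ((hcN i).2 m).trans ?_
    have h1 : ((H N + 2 : ℕ) : ℤ) ≤ (H N : ℤ) ^ 2 := by
      push_cast
      have : (2 : ℤ) ≤ (H N : ℤ) := by exact_mod_cast hH2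
      nlinarith
    calc ((H N + 2 : ℕ) : ℤ) ^ c i ≤ ((H N : ℤ) ^ 2) ^ c i := pow_le_pow_left₀ (by positivity) h1 _
      _ = (H N : ℤ) ^ (2 * c i) := by rw [← pow_mul]
      _ ≤ (H N : ℤ) ^ E := pow_le_pow_right₀ (by exact_mod_cast (by omega : 1 ≤ H N)) (hcE i)
  · intro s t U W g0 g1 g2 g3
    have m1 := k1 s t U W g0 g1 g2 g3
    have m2 := k2 s t U W g0 g1 g2 g3
    have m3 := k3 s t U W g0 g1 g2 g3
    have m4 := k4 s t U W g0 g1 g2 g3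
    have m5 := k5 s t U W g0 g1 g2 g3
    have e0 : (aeval ![s, t, U, W] (X 0 : MvPolynomial (Fin 4) ℤ) : ℂ) = s := by simp
    have e1 : (aeval ![s, t, U, W] (X 1 : MvPolynomial (Fin 4) ℤ) : ℂ) = t := by simp
    have e2 : (aeval ![s, t, U, W] (X 2 : MvPolynomial (Fin 4) ℤ) : ℂ) = U := by simp
    have e3 : (aeval ![s, t, U, W] (X 3 : MvPolynomial (Fin 4) ℤ) : ℂ) = W := by simp
    have eP : (aeval ![s, t, U, W] (X 1 + X 0 ^ (n + 1) : MvPolynomial (Fin 4) ℤ) : ℂ) =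
        t + s ^ (n + 1) := by rw [map_add, map_pow, e0, e1]
    rw [e2, eP] at m2
    rw [e3, eP] at m3
    rw [e0, e2] at m4
    rw [e1, e2] at m5
    have hM0 : (0 : ℝ) ≤ max ‖s‖ ‖t‖ := le_trans (norm_nonneg s) (le_max_left _ _)
    have hU0 : (0 : ℝ) ≤ ‖U‖ := norm_nonneg U
    have hv := st3_v n s t
    have hv0 : (0 : ℝ) ≤ 1 + ‖t + s ^ (n + 1)‖ := by positivity
    have q1 : ∀ d : ℕ, (1 + ‖t + s ^ (n + 1)‖) ^ d ≤ (1 + max ‖s‖ ‖t‖) ^ ((n + 2) * d) := by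
      intro d
      rw [pow_mul]
      exact pow_le_pow_left₀ hv0 hv d
    refine ⟨?_, max_le ?_ ?_, max_le ?_ ?_⟩
    · rw [aeval_rename] at m1
      rw [← m1]
      congr 1
      congr 1
      funext i
      fin_cases i <;> rfl
    · refine m2.trans ((mul_le_mul_of_nonneg_left (q1 D1) (by positivity)).trans ?_)
      exact st3_mono hH1 (by linarith) hE1.1 hE1.2
    · refine m3.trans ((mul_le_mul_of_nonneg_left (q1 D2) (by positivity)).trans ?_)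
      exact st3_mono hH1 (by linarith) hE2.1 hE2.2
    · exact m4.trans (st3_mono hH1 (by linarith) hE3 hE3)
    · exact m5.trans (st3_mono hH1 (by linarith) hE4 hE4)

end Pool.Agent.H8.OA
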