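import Pool.Agent.H8.OA.Mon
import Pool.Agent.H8.OA.St2b
import Pool.Agent.H8.OA.St3

/-! # [H8 OA PAIR] Two pairs: all pairs of one type lie over one integer point of one curve

`pr_bg`: `ty_size` (TY1): `(H N)^N < max |x| |y| ≤ |u N|^(2n+3)`; for given `C` and `N ≥ 2 C (2n+3)`: `(H N + 2)^C ≤ (H N)^(2C) < |u N|` (otherwise `|u|^(2n+3) ≤ (H N)^(2 C (2n+3)) ≤ (H N)^N`). Almost all `N` are `≥` a given number (`hyperfilter_le_atTop`).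
`bg_le`: `|u₂ N| ≤ |u₁ N|^C₀`: for `C`: `(H N + 2)^(C₀ C + 1) ≤ |u₂ N| ≤ |u₁ N|^C₀`, so `(H N + 2)^C < |u₁ N|` or equal (otherwise `|u₁|^C₀ ≤ (H+2)^(C C₀) < (H+2)^(C C₀ + 1)`).
`gd`: suppose not: for every `N` (as `E`) there is `K N` such that for all `Φ a b` some `Pr n (K N) G H x y` has `(H:ℤ)^N < max |x| |y|` and not `Lies N H (K N) Φ a b G x y`. For `Φ = 0, a = b = 0` the set `S N = {H | ∃ G x y, Pr n (K N) G H x y ∧ (H:ℤ)^N < max |x| |y|}` is not empty; `H₁ N = sInf (S N)` (`Nat.find`), with `G₁ N, x₁ N, y₁ N`.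
`Sq n K H₁ x₁ y₁`, `Bg H₁ u₁` (`pr_bg`). `st1a`, `st1b` (STAGE 1): `la, γ, g, hS`, `Φ, a, b, D`, `hQ : Qot ..`. For every `N` the choice `Φ N, a N, b N` gives `G₂ N, H₂ N, x₂ N, y₂ N` with `Pr`, `(H₂ N)^N < max`, not `Lies N (H₂ N) ..`. `H₁ N ≤ H₂ N` (minimality). `Sq n K H₂ x₂ y₂`, `Bg H₂ u₂` (`pr_bg`), `ty_cmp` both ways: `C = wA (n (n+1))`; `Bg H₂ u₁` (`bg_le`).
`st2b`, then `st3` for `G₂`, `Φ` (`Sb H₂ Φ`: `hQ.ev`, `H₁ ≤ H₂`): `D'` with `Over D' (H₂ N) (G₂ N) (Φ N) (x₂ N) (y₂ N) (a N) (b N)` for almost all `N`. With `hQ.ev`: `Lies (D + D') (H₂ N) (K N) (Φ N) (a N) (b N) (G₂ N) (x₂ N) (y₂ N)` for almost all `N` (`lies_mono` / monotone in `E`), take such an `N ≥ D + D'`: contradiction by `lies_mono`.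
`oneA_ex`: `gd` and `ty_exists` (TY1): `E' = max E (cF n)`; for `n < 3` use `n' = 3` and `oneA_le`. -/

namespace Pool.Agent.H8.OA

open Filter MvPolynomial Pool.Agent.H82.NS

/-- a pair of type `K` -/
structure Pr (n : ℕ) (K : Subfield ℝ) (G : MvPolynomial (Fin 2) ℤ) (H : ℕ) (x y : ℤ) : Prop where
  deg : G.totalDegree ≤ n
  irr : Irreducible (map (Int.castRingHom ℚ) G)
  h2 : 2 ≤ H
  cf : ∀ m, |coeff m G| ≤ (H : ℤ)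
  z : eval ![x, y] G = 0
  ty : Ty n K H x y

/-- all large pairs of type `K` lie over `(a, b)` -/
def Gd (n E : ℕ) (K : Subfield ℝ) (Φ : MvPolynomial (Fin 2) ℤ) (a b : ℤ) : Prop :=
  ∀ (G : MvPolynomial (Fin 2) ℤ) (H : ℕ) (x y : ℤ), Pr n K G H x y →
    max |x| |y| ≤ (H : ℤ) ^ E ∨ Lies E H K Φ a b G x y

theorem pr_bg {n : ℕ} (hn : 3 ≤ n) {K : ℕ → Subfield ℝ} {G : ℕ → MvPolynomial (Fin 2) ℤ} {H : ℕ → ℕ} {x y : ℕ → ℤ}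
    (h : ∀ N, Pr n (K N) (G N) (H N) (x N) (y N)) (hb : ∀ N, (H N : ℤ) ^ N < max |x N| |y N|) :
    Bg H (uu n x y) := by
  intro C
  filter_upwards [(eventually_ge_atTop (2 * C * (2 * n + 3))).filter_mono Nat.hyperfilter_le_atTop] with N hN
  have hH : (2 : ℤ) ≤ (H N : ℤ) := by exact_mod_cast (h N).h2
  have h1 : ((H N + 2 : ℕ) : ℤ) ^ C ≤ (H N : ℤ) ^ (2 * C) := by
    rw [pow_mul]
    refine pow_le_pow_left₀ (by positivity) ?_ C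
    push_cast
    nlinarith
  refine h1.trans ?_
  by_contra hcon
  push Not at hcon
  have h2 := (ty_size n hn (h N).ty).1
  have h3 : |y N + x N ^ (n + 1)| ^ (2 * n + 3) ≤ ((H N : ℤ) ^ (2 * C)) ^ (2 * n + 3) :=
    pow_le_pow_left₀ (abs_nonneg _) hcon.le _
  rw [← pow_mul] at h3
  have h4 : (H N : ℤ) ^ (2 * C * (2 * n + 3)) ≤ (H N : ℤ) ^ N := pow_le_pow_right₀ (by linarith) hN
  have h5 := hb N
  linarith

theorem bg_le {H : ℕ → ℕ} {u₁ u₂ : ℕ → ℤ} {C : ℕ} (h : ∀ N, |u₂ N| ≤ |u₁ N| ^ C) (hb : Bg H u₂) : Bg H u₁ := by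
  intro D
  filter_upwards [hb (D * C + 1)] with N h1
  by_contra hcon
  push Not at hcon
  have h2 : |u₁ N| ^ C ≤ (((H N + 2 : ℕ) : ℤ) ^ D) ^ C := pow_le_pow_left₀ (abs_nonneg _) hcon.le _
  rw [← pow_mul] at h2
  have h3 : ((H N + 2 : ℕ) : ℤ) ^ (D * C) < ((H N + 2 : ℕ) : ℤ) ^ (D * C + 1) := by
    refine pow_lt_pow_right₀ ?_ (Nat.lt_succ_self _)
    push_cast
    omega
  have h4 := h N
  linarith

private theorem over_mono {E₀ E H : ℕ} (h : E₀ ≤ E) (hH : 1 ≤ H) {G Φ : MvPolynomial (Fin 2) ℤ} {x y a b : ℤ}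
    (ho : Over E₀ H G Φ x y a b) : Over E H G Φ x y a b := by
  obtain ⟨A, hA, h0, h1, h2, h3⟩ := ho
  have hz : (H : ℤ) ^ E₀ ≤ (H : ℤ) ^ E := pow_le_pow_right₀ (by exact_mod_cast hH) h
  have hr : (H : ℝ) ^ E₀ ≤ (H : ℝ) ^ E := pow_le_pow_right₀ (by exact_mod_cast hH) h
  have key : ∀ r : ℝ, 0 ≤ r → (H : ℝ) ^ E₀ * (1 + r) ^ E₀ ≤ (H : ℝ) ^ E * (1 + r) ^ E := by
    intro r hr0
    exact mul_le_mul hr (pow_le_pow_right₀ (by linarith) h) (by positivity) (by positivity)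
  refine ⟨A, fun i => ⟨(hA i).1.trans h, fun m => ((hA i).2 m).trans hz⟩, h0, h1, h2, fun s t U W g0 g1 g2 g3 => ?_⟩
  obtain ⟨k1, k2, k3⟩ := h3 s t U W g0 g1 g2 g3
  exact ⟨k1, k2.trans (key _ (le_max_of_le_left (norm_nonneg _))), k3.trans (key _ (norm_nonneg _))⟩

theorem gd (n : ℕ) (hn : 3 ≤ n) : ∃ E : ℕ, ∀ K : Subfield ℝ, ∃ (Φ : MvPolynomial (Fin 2) ℤ) (a b : ℤ),
    Gd n E K Φ a b := by
  by_contra hcon
  push Not at hcon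
  choose K hK using hcon
  have hex : ∀ (N : ℕ) (Φ : MvPolynomial (Fin 2) ℤ) (a b : ℤ), ∃ (G : MvPolynomial (Fin 2) ℤ) (H : ℕ) (x y : ℤ),
      Pr n (K N) G H x y ∧ (H : ℤ) ^ N < max |x| |y| ∧ ¬ Lies N H (K N) Φ a b G x y := by
    intro N Φ a b
    have h1 := hK N Φ a b
    unfold Gd at h1
    push Not at h1
    exact h1
  -- the minimal pairs
  obtain ⟨S, hS⟩ : ∃ S : ℕ → Set ℕ, S = fun N => {H | ∃ (G : MvPolynomial (Fin 2) ℤ) (x y : ℤ),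
      Pr n (K N) G H x y ∧ (H : ℤ) ^ N < max |x| |y|} := ⟨_, rfl⟩
  have hSm : ∀ N H, H ∈ S N ↔ ∃ (G : MvPolynomial (Fin 2) ℤ) (x y : ℤ), Pr n (K N) G H x y ∧
      (H : ℤ) ^ N < max |x| |y| := by
    intro N H
    rw [hS]
    rfl
  have hSne : ∀ N, (S N).Nonempty := by
    intro N
    obtain ⟨G, H, x, y, h1, h2, -⟩ := hex N 0 0 0
    exact ⟨H, (hSm N H).2 ⟨G, x, y, h1, h2⟩⟩
  obtain ⟨H₁, hH₁⟩ : ∃ H₁ : ℕ → ℕ, H₁ = fun N => sInf (S N) := ⟨_, rfl⟩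
  have hmem : ∀ N, ∃ (G : MvPolynomial (Fin 2) ℤ) (x y : ℤ), Pr n (K N) G (H₁ N) x y ∧
      (H₁ N : ℤ) ^ N < max |x| |y| := by
    intro N
    have h1 := Nat.sInf_mem (hSne N)
    rw [hSm] at h1
    rw [hH₁]
    exact h1
  have hmin : ∀ N H, H ∈ S N → H₁ N ≤ H := by
    intro N H h1
    rw [hH₁]
    exact Nat.sInf_le h1
  choose G₁ x₁ y₁ hP₁ hb₁ using hmem
  have hs₁ : Sq n K H₁ x₁ y₁ := ⟨hn, fun N => (hP₁ N).h2, fun N => (hP₁ N).ty⟩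
  have hB₁ : Bg H₁ (uu n x₁ y₁) := pr_bg hn hP₁ hb₁
  obtain ⟨la, γ, g, hSt, u, w, κ, hu, hw, htr, hgw⟩ := st1a hs₁ hB₁
  obtain ⟨a, b, Φ, D, hQ⟩ := st1b hs₁ hB₁ hSt hu hw htr hgw
  have hex2 := fun N => hex N (Φ N) (a N) (b N)
  choose G₂ H₂ x₂ y₂ hP₂ hb₂ hnot using hex2
  have hle : ∀ N, H₁ N ≤ H₂ N := fun N => hmin N _ ((hSm N _).2 ⟨G₂ N, x₂ N, y₂ N, hP₂ N, hb₂ N⟩)
  have hs₂ : Sq n K H₂ x₂ y₂ := ⟨hn, fun N => (hP₂ N).h2, fun N => (hP₂ N).ty⟩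
  have hB₂ : Bg H₂ (uu n x₂ y₂) := pr_bg hn hP₂ hb₂
  obtain ⟨C, hC⟩ : ∃ C, C = Pool.Agent.H52.AC.wA (n * (n + 1)) := ⟨_, rfl⟩
  have hc2 : ∀ N, |uu n x₂ y₂ N| ≤ |uu n x₁ y₁ N| ^ C := by
    intro N
    rw [hC]
    exact ty_cmp n hn (hP₁ N).ty (hP₂ N).ty
  have hc1 : ∀ N, |uu n x₁ y₁ N| ≤ |uu n x₂ y₂ N| ^ C := by
    intro N
    rw [hC]
    exact ty_cmp n hn (hP₂ N).ty (hP₁ N).ty
  have hB₁' : Bg H₂ (uu n x₁ y₁) := bg_le hc2 hB₂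
  obtain ⟨ha, hb, ia, ib, ix, iy⟩ := st2b hs₁ hs₂ hle hB₁' hB₂ (C := C) (Eventually.of_forall hc1)
    (Eventually.of_forall hc2) hSt hQ
  have hΦS : Sb H₂ Φ := by
    refine ⟨D, ?_⟩
    filter_upwards [hQ.ev] with N h1
    refine ⟨h1.2.1, fun m => (h1.2.2.1 m).trans ?_⟩
    have h2 := hle N
    refine pow_le_pow_left₀ (by positivity) ?_ D
    push_cast
    omega
  have hG : ∀ᶠ N in UU, (G₂ N).totalDegree ≤ n ∧ (∀ m, |coeff m (G₂ N)| ≤ (H₂ N : ℤ)) ∧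
      Irreducible (map (Int.castRingHom ℚ) (G₂ N)) ∧ eval ![x₂ N, y₂ N] (G₂ N) = 0 :=
    Eventually.of_forall fun N => ⟨(hP₂ N).deg, (hP₂ N).cf, (hP₂ N).irr, (hP₂ N).z⟩
  have hΦ0 : ∀ᶠ N in UU, eval ![a N, b N] (Φ N) = 0 := hQ.ev.mono fun N h1 => h1.2.2.2
  obtain ⟨D', hD'⟩ := st3 hs₂ hB₂ hG hΦS hΦ0 ha hb ia ib ix iy
  have hlarge : ∀ᶠ N in UU, D + D' ≤ N := (eventually_ge_atTop (D + D')).filter_mono Nat.hyperfilter_le_atTop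
  obtain ⟨N, h1, h2, h3⟩ := ((hQ.ev.and hD').and hlarge).exists.imp fun N h => (⟨h.1.1, h.1.2, h.2⟩ :
    _ ∧ _ ∧ _)
  have hH₂ : 1 ≤ H₂ N := by
    have := (hP₂ N).h2
    omega
  have hpow : (H₁ N : ℤ) ^ D ≤ (H₂ N : ℤ) ^ (D + D') := by
    have h4 : (H₁ N : ℤ) ≤ (H₂ N : ℤ) := by exact_mod_cast hle N
    calc (H₁ N : ℤ) ^ D ≤ (H₂ N : ℤ) ^ D := pow_le_pow_left₀ (by positivity) h4 D
      _ ≤ (H₂ N : ℤ) ^ (D + D') := pow_le_pow_right₀ (by exact_mod_cast hH₂) (by omega)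
  refine hnot N (lies_mono h3 hH₂ ⟨h1.1, h1.2.1.trans (by omega), fun m => (h1.2.2.1 m).trans hpow, h1.2.2.2,
    over_mono (by omega) hH₂ h2⟩)

theorem oneA_ex (n : ℕ) : ∃ (E : ℕ) (Φ : Subfield ℝ → MvPolynomial (Fin 2) ℤ) (a b : Subfield ℝ → ℤ),
    OneA n E Φ a b := by
  obtain ⟨n', hn'⟩ : ∃ n', n' = max n 3 := ⟨_, rfl⟩
  have hn3 : 3 ≤ n' := by rw [hn']; exact le_max_right _ _
  have hnn : n ≤ n' := by rw [hn']; exact le_max_left _ _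
  obtain ⟨E, hE⟩ := gd n' hn3
  choose Φ a b hG using hE
  refine ⟨max E (Pool.Agent.H8.AF.cF n'), Φ, a, b, oneA_le hnn ?_⟩
  intro k _ _ hk G H hGd hinf hH hc x y h0
  have hH1 : (1 : ℤ) ≤ (H : ℤ) := by exact_mod_cast (by omega : 1 ≤ H)
  by_cases hbig : (H : ℤ) ^ Pool.Agent.H8.AF.cF n' < max |x| |y|
  · obtain ⟨K, hKe, hTy⟩ := ty_exists n' hn3 k hk G H hGd hinf hH hc x y h0 hbig
    rcases hG K G H x y ⟨hGd, hinf.1, hH, hc, h0, hTy⟩ with h1 | h1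
    · exact Or.inl (h1.trans (pow_le_pow_right₀ hH1 (le_max_left _ _)))
    · exact Or.inr ⟨K, hKe, lies_mono (le_max_left _ _) (by omega) h1⟩
  · push Not at hbig
    exact Or.inl (hbig.trans (pow_le_pow_right₀ hH1 (le_max_right _ _)))

end Pool.Agent.H8.OA
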