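import Pool.Agent.H8.OA.Res1
import Pool.Agent.H8.AW.Pt

/-! # [H8 OA RES3] The coefficients are rational integers

`AA` (H87/SA2) = the algebraic numbers in `ℂ` (as in `KapS.gal`). The coefficients of the `x i` are integral over `ℤ` (`PData.integral`), `el Q la i` is integral (`la` integral or `0`), so all of them are in `AA`: let `x' i : PowerSeries AA`, `a' i : AA` be
the lifts (`PowerSeries.mk`). Let `σ : AA →+* ℂ`, `ι` the inclusion. `perm_aux` (H87/SA2/PERM.lean) with `φ = ` the analogue of `tq` in `PowerSeries AA` (coefficients are rational integers, so `τ = PowerSeries.map σ` and `ι = PowerSeries.map ι` agree on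
it) gives a permutation `π` with `PowerSeries.map σ (x' i) = x (π i)`. `Q.kp.gal`: for `i ∈ S`: `π i ∈ S` and `σ (a' i) = a (π i)`; `π(S) = S` (finite, injective), so also for `i ∉ S` (both are `0`). With `gp_map` and `gp_perm`:
every coefficient `c` of `Gp x a` is `ι c'`, `c'` = the coefficient of `Gp x' a'`, and `σ c' = c`. So `σ c' = ι c'` for all `σ : AA →+* ℂ`: `c'` is rational (all conjugates of `c'` are equal: the roots of `minpoly ℚ c'` in `ℂ` are the `σ c'`,
Mathlib `NumberField.Embeddings.range_eval_eq_rootSet_minpoly` is for number fields; for algebraic extensions use `IntermediateField.exists_algHom_of_splits`/`IsAlgClosed.lift`, separable), and `c` is integral over `ℤ` (sums and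
products), so in `ℤ` (`IsIntegrallyClosed ℤ`). The same for `Dl`. -/

namespace Pool.Agent.H8.OA

open Finset Polynomial Pool.Agent.H87.SA2 Pool.Agent.H8.AS

variable {k : Type} [Field k] [NumberField k] {n d b : ℕ} {F : ℕ → ℕ → ℤ}

/-- an algebraic number all of whose conjugates are equal is rational -/
private theorem rat_of (c : AA) (h : ∀ σ : AA →+* ℂ, σ c = (c : ℂ)) : ∃ r : ℚ, (c : ℂ) = r := by
  have hgal : IsGalois ℚ AA := by
    have h0 : IsAlgClosure ℚ AA := algebraicClosure.isAlgClosure ℚ ℂ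
    exact IsAlgClosure.isGalois ℚ AA
  have h1 : c ∈ (⊥ : IntermediateField ℚ AA) := by
    rw [InfiniteGalois.mem_bot_iff_fixed]
    intro f
    apply Subtype.ext
    exact h ((algebraMap AA ℂ).comp (f : AA →+* AA))
  obtain ⟨r, hr⟩ := IntermediateField.mem_bot.1 h1
  refine ⟨r, ?_⟩
  rw [← hr]
  simp

private theorem int_of {c : ℂ} (h : ∃ r : ℚ, c = r) (hi : IsIntegral ℤ c) : ∃ z : ℤ, c = z := by
  obtain ⟨r, hr⟩ := h
  have h1 : IsIntegral ℤ (algebraMap ℚ ℂ r) := by
    rw [hr] at hi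
    simpa using hi
  have h2 : IsIntegral ℤ r := (isIntegral_algebraMap_iff (algebraMap ℚ ℂ).injective).1 h1
  obtain ⟨z, hz⟩ := IsIntegrallyClosed.isIntegral_iff.1 h2
  refine ⟨z, ?_⟩
  rw [hr, ← hz]
  simp

private theorem gq_lift (Q : CrvS k n d b F) (la : k) {A : Type} [CommRing A] (ι : A →+* ℂ)
    (x' : Fin d → PowerSeries A) (a' : Fin d → A) (π : Equiv.Perm (Fin d))
    (hx : ∀ i, PowerSeries.map ι (x' i) = Q.pd.x (π i)) (ha : ∀ i, ι (a' i) = el Q la (π i)) (l m : ℕ) :
    ι (PowerSeries.coeff m ((Gp x' (fun i => PowerSeries.C (a' i))).coeff l)) =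
      PowerSeries.coeff m ((GQ Q la).coeff l) := by
  have h1 : (Gp x' (fun i => PowerSeries.C (a' i))).map (PowerSeries.map ι) = GQ Q la := by
    rw [gp_map, GQ, ← gp_perm Q.pd.x (fun i => PowerSeries.C (el Q la i)) π]
    congr 1
    · funext i
      exact hx i
    · funext i
      rw [PowerSeries.map_C, ha]
  rw [← h1, Polynomial.coeff_map, PowerSeries.coeff_map]

private theorem dl_lift (Q : CrvS k n d b F) {A : Type} [CommRing A] (ι : A →+* ℂ)
    (x' : Fin d → PowerSeries A) (π : Equiv.Perm (Fin d))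
    (hx : ∀ i, PowerSeries.map ι (x' i) = Q.pd.x (π i)) (m : ℕ) :
    ι (PowerSeries.coeff m (Dl x')) = PowerSeries.coeff m (Dl Q.pd.x) := by
  have h1 : PowerSeries.map ι (Dl x') = Dl Q.pd.x := by
    rw [dl_map, ← dl_perm Q.pd.x π]
    congr 1
    funext i
    exact hx i
  rw [← h1, PowerSeries.coeff_map]

private theorem el_int (Q : CrvS k n d b F) {la : k} (hla : IsIntegral ℤ la) (i : Fin d) :
    IsIntegral ℤ (el Q la i) := by
  unfold el
  split_ifs
  · exact map_isIntegral_int (Q.kp.kap i) hla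
  · exact isIntegral_zero

/-- a conjugation of the coefficients permutes the branches and the values -/
private theorem conj_perm (Q : CrvS k n d b F) {la : k} (x' : Fin d → PowerSeries AA) (a' : Fin d → AA)
    (hx : ∀ i, PowerSeries.map (algebraMap AA ℂ) (x' i) = Q.pd.x i)
    (ha : ∀ i, (a' i : ℂ) = el Q la i) (σ : AA →+* ℂ) : ∃ π : Equiv.Perm (Fin d),
      (∀ i, PowerSeries.map σ (x' i) = Q.pd.x (π i)) ∧ ∀ i, σ (a' i) = el Q la (π i) := by
  classical
  have hιinj : Function.Injective (PowerSeries.map (algebraMap AA ℂ)) :=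
    PowerSeries.map_injective _ (algebraMap AA ℂ).injective
  have hσinj : Function.Injective (PowerSeries.map σ) := PowerSeries.map_injective σ σ.injective
  obtain ⟨φ, hφ⟩ : ∃ φ : ℤ[X] →+* PowerSeries AA, φ = eval₂RingHom
    (Int.castRingHom (PowerSeries AA)) ((PowerSeries.C (Q.pd.q : AA) * PowerSeries.X) ^ Q.pd.e) :=
    ⟨_, rfl⟩
  have hcomp : ∀ τ : AA →+* ℂ, (PowerSeries.map τ).comp φ = tq Q.pd.e Q.pd.q := by
    intro τ
    apply Polynomial.ringHom_ext
    · intro a
      simp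
    · rw [hφ, tq, RingHom.comp_apply, coe_eval₂RingHom, coe_eval₂RingHom, eval₂_X, eval₂_X, map_pow,
        map_mul, PowerSeries.map_X, PowerSeries.map_C, map_natCast]
  have hsplit : (Pool.Agent.H8.AW.fI d F).map φ = ∏ i, (X - C (x' i)) := by
    apply Polynomial.map_injective (PowerSeries.map (algebraMap AA ℂ)) hιinj
    rw [Polynomial.map_map, hcomp, Q.pd.split, Polynomial.map_prod]
    refine Finset.prod_congr rfl fun i _ => ?_
    rw [Polynomial.map_sub, Polynomial.map_X, Polynomial.map_C, hx]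
  have hinj : Function.Injective x' := by
    intro i j hij
    apply Q.pd.x_inj
    rw [← hx, ← hx, hij]
  obtain ⟨π, hπ⟩ := perm_aux φ (PowerSeries.map σ) (PowerSeries.map (algebraMap AA ℂ))
    (by rw [hcomp, hcomp]) hσinj x' hinj (Pool.Agent.H8.AW.fI d F) hsplit
  have hπ' : ∀ i, PowerSeries.map σ (x' i) = Q.pd.x (π i) := fun i => (hπ i).trans (hx (π i))
  have hg : ∀ i ∈ Q.kp.S, π i ∈ Q.kp.S ∧ ∀ (z : k) (a : AA), (a : ℂ) = Q.kp.kap i z →
      σ a = Q.kp.kap (π i) z := by
    intro i hi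
    refine Q.kp.gal σ i hi (π i) ?_
    intro m a ham
    rw [← hπ' i, PowerSeries.coeff_map]
    congr 1
    apply Subtype.ext
    rw [ham, ← hx i, PowerSeries.coeff_map]
    rfl
  have himg : Q.kp.S.image π = Q.kp.S := by
    apply Finset.eq_of_subset_of_card_le
    · intro j hj
      obtain ⟨i, hi, rfl⟩ := Finset.mem_image.1 hj
      exact (hg i hi).1
    · rw [Finset.card_image_of_injective _ π.injective]
  refine ⟨π, hπ', fun i => ?_⟩
  by_cases hi : i ∈ Q.kp.S
  · have h1 := hg i hi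
    have h2 : (a' i : ℂ) = Q.kp.kap i la := by
      rw [ha, el, if_pos hi]
    rw [h1.2 la (a' i) h2, el, if_pos h1.1]
  · have h1 : π i ∉ Q.kp.S := by
      intro h2
      rw [← himg] at h2
      obtain ⟨j, hj, hji⟩ := Finset.mem_image.1 h2
      rw [π.injective hji] at hj
      exact hi hj
    have h2 : a' i = 0 := by
      apply Subtype.ext
      rw [ha, el, if_neg hi]
      rfl
    rw [h2, map_zero, el, if_neg h1]

private theorem lifts_AA (Q : CrvS k n d b F) {la : k} (hla : IsIntegral ℤ la) :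
    ∃ (x' : Fin d → PowerSeries AA) (a' : Fin d → AA),
      (∀ i, PowerSeries.map (algebraMap AA ℂ) (x' i) = Q.pd.x i) ∧ ∀ i, (a' i : ℂ) = el Q la i := by
  have h1 : ∀ i m, PowerSeries.coeff m (Q.pd.x i) ∈ AA := by
    intro i m
    rw [mem_algebraicClosure_iff]
    exact ((Q.pd.integral i m).tower_top (A := ℚ)).isAlgebraic
  have h2 : ∀ i, el Q la i ∈ AA := by
    intro i
    rw [mem_algebraicClosure_iff]
    exact ((el_int Q hla i).tower_top (A := ℚ)).isAlgebraic
  refine ⟨fun i => PowerSeries.mk fun m => ⟨_, h1 i m⟩, fun i => ⟨_, h2 i⟩, ?_, fun i => rfl⟩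
  intro i
  ext m
  rw [PowerSeries.coeff_map, PowerSeries.coeff_mk]
  rfl

private theorem lifts_O (Q : CrvS k n d b F) {la : k} (hla : IsIntegral ℤ la) :
    ∃ (x' : Fin d → PowerSeries (integralClosure ℤ ℂ)) (a' : Fin d → integralClosure ℤ ℂ),
      (∀ i, PowerSeries.map (algebraMap (integralClosure ℤ ℂ) ℂ) (x' i) = Q.pd.x i) ∧
        ∀ i, algebraMap (integralClosure ℤ ℂ) ℂ (a' i) = el Q la i := by
  refine ⟨fun i => PowerSeries.mk fun m => ⟨_, Q.pd.integral i m⟩, fun i => ⟨_, el_int Q hla i⟩, ?_,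
    fun i => rfl⟩
  intro i
  ext m
  rw [PowerSeries.coeff_map, PowerSeries.coeff_mk]
  rfl

theorem res_int (Q : CrvS k n d b F) {la : k} (hla : IsIntegral ℤ la) (l m : ℕ) :
    ∃ z : ℤ, PowerSeries.coeff m ((GQ Q la).coeff l) = z := by
  obtain ⟨x', a', hx, ha⟩ := lifts_AA Q hla
  obtain ⟨x2, a2, hx2, ha2⟩ := lifts_O Q hla
  apply int_of
  · obtain ⟨c, hc⟩ : ∃ c : AA, c =
      PowerSeries.coeff m ((Gp x' (fun i => PowerSeries.C (a' i))).coeff l) := ⟨_, rfl⟩
    have h1 : (c : ℂ) = PowerSeries.coeff m ((GQ Q la).coeff l) := by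
      rw [hc]
      exact gq_lift Q la (algebraMap AA ℂ) x' a' (Equiv.refl _) hx ha l m
    rw [← h1]
    apply rat_of
    intro σ
    obtain ⟨π, hπ1, hπ2⟩ := conj_perm Q x' a' hx ha σ
    rw [h1, hc]
    exact gq_lift Q la σ x' a' π hπ1 hπ2 l m
  · rw [← gq_lift Q la (algebraMap (integralClosure ℤ ℂ) ℂ) x2 a2 (Equiv.refl _) hx2 ha2 l m]
    exact (PowerSeries.coeff m ((Gp x2 (fun i => PowerSeries.C (a2 i))).coeff l)).2

theorem res_intD (Q : CrvS k n d b F) (m : ℕ) : ∃ z : ℤ, PowerSeries.coeff m (Dl Q.pd.x) = z := by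
  have hla : IsIntegral ℤ (0 : k) := isIntegral_zero
  obtain ⟨x', a', hx, ha⟩ := lifts_AA Q hla
  obtain ⟨x2, a2, hx2, ha2⟩ := lifts_O Q hla
  apply int_of
  · obtain ⟨c, hc⟩ : ∃ c : AA, c = PowerSeries.coeff m (Dl x') := ⟨_, rfl⟩
    have h1 : (c : ℂ) = PowerSeries.coeff m (Dl Q.pd.x) := by
      rw [hc]
      exact dl_lift Q (algebraMap AA ℂ) x' (Equiv.refl _) hx m
    rw [← h1]
    apply rat_of
    intro σ
    obtain ⟨π, hπ1, hπ2⟩ := conj_perm Q x' a' hx ha σ
    rw [h1, hc]
    exact dl_lift Q σ x' π hπ1 m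
  · rw [← dl_lift Q (algebraMap (integralClosure ℤ ℂ) ℂ) x2 (Equiv.refl _) hx2 m]
    exact (PowerSeries.coeff m (Dl x2)).2

end Pool.Agent.H8.OA
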