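import Pool.Agent.H8.OA.Res1

/-! # [H8 OA RES4] Majorants

`Maj.mul`: `‖∑_(i+j=m) f_i g_j‖ ≤ (m+1) c c' r^m ≤ c c' (2r)^m`. `Maj.add`, `Maj.sub`, monotone in `c` and `r` (`r, r' ≥ 0`), `Maj c 1 (C z)` for `‖z‖ ≤ c`. `Maj.prod`: a product of `N` series with `Maj c r` (`c, r ≥ 1`) has `Maj (c^N) (2^N r)`.
`x i - x l` has `Maj (2 R) R` (`‖coeff‖ ≤ R^(m+1)`, `R ≤ b`): `Dl` is a product of `d (d-1)` such factors, `Wc` of `(d-1)²`; the coefficients of `∏_(l ≠ j) (Z - x_l)` are sums of `≤ 2^d` products of at most `d - 1` series `x_l` (induction on the number of factors: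
multiplication by `Z - x` of a polynomial all of whose coefficients have `Maj c r`, `c, r ≥ 1`, gives `Maj (c (1 + 2 R)) (2 (r + R))`, or as you like). `‖el‖ ≤ B`. All with `d ≤ n`, `2 ≤ b`, `1 ≤ B`: choose `C` (only depends on `n`) so large that everything is
below `((b B)^C) (b^C)^m`. -/

namespace Pool.Agent.H8.OA

open Finset Polynomial Pool.Agent.H87.SA2 Pool.Agent.H8.AS

/-- weighted `l1` bound -/
private def Nm (ρ c : ℝ) (f : PowerSeries ℂ) : Prop :=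
  ∀ M : ℕ, ∑ m ∈ range M, ‖PowerSeries.coeff m f‖ * ρ ^ m ≤ c

private theorem Nm.nn {ρ c : ℝ} {f : PowerSeries ℂ} (h : Nm ρ c f) : 0 ≤ c := by
  have := h 0
  simpa using this

private theorem Nm.mono {ρ c c' : ℝ} {f : PowerSeries ℂ} (h : Nm ρ c f) (hc : c ≤ c') : Nm ρ c' f :=
  fun M => (h M).trans hc

private theorem Nm.add {ρ c c' : ℝ} {f g : PowerSeries ℂ} (hρ : 0 ≤ ρ) (hf : Nm ρ c f) (hg : Nm ρ c' g) :
    Nm ρ (c + c') (f + g) := by
  intro M
  refine le_trans ?_ (add_le_add (hf M) (hg M))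
  rw [← sum_add_distrib]
  refine sum_le_sum fun m _ => ?_
  rw [map_add, ← add_mul]
  exact mul_le_mul_of_nonneg_right (norm_add_le _ _) (pow_nonneg hρ m)

private theorem Nm.neg {ρ c : ℝ} {f : PowerSeries ℂ} (hf : Nm ρ c f) : Nm ρ c (-f) := by
  intro M
  refine le_trans (le_of_eq ?_) (hf M)
  refine sum_congr rfl fun m _ => ?_
  rw [map_neg, norm_neg]

private theorem Nm.sub {ρ c c' : ℝ} {f g : PowerSeries ℂ} (hρ : 0 ≤ ρ) (hf : Nm ρ c f) (hg : Nm ρ c' g) :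
    Nm ρ (c + c') (f - g) := by
  rw [sub_eq_add_neg]
  exact hf.add hρ hg.neg

private theorem Nm.mul {ρ c c' : ℝ} {f g : PowerSeries ℂ} (hρ : 0 ≤ ρ) (hf : Nm ρ c f) (hg : Nm ρ c' g) :
    Nm ρ (c * c') (f * g) := by
  intro M
  obtain ⟨h, hh⟩ : ∃ h : ℕ × ℕ → ℝ, ∀ p, h p = (‖PowerSeries.coeff p.1 f‖ * ρ ^ p.1) *
      (‖PowerSeries.coeff p.2 g‖ * ρ ^ p.2) := ⟨_, fun _ => rfl⟩
  have hnn : ∀ p, 0 ≤ h p := fun p => by
    rw [hh]
    positivity
  have h1 : ∑ m ∈ range M, ‖PowerSeries.coeff m (f * g)‖ * ρ ^ m ≤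
      ∑ m ∈ range M, ∑ p ∈ antidiagonal m, h p := by
    refine sum_le_sum fun m _ => ?_
    rw [PowerSeries.coeff_mul]
    refine (mul_le_mul_of_nonneg_right (norm_sum_le _ _) (pow_nonneg hρ m)).trans (le_of_eq ?_)
    rw [sum_mul]
    refine sum_congr rfl fun p hp => ?_
    rw [hh, norm_mul, ← mem_antidiagonal.1 hp, pow_add]
    ring
  have h2 : ∑ m ∈ range M, ∑ p ∈ antidiagonal m, h p = ∑ p ∈ (range M).biUnion antidiagonal, h p := by
    rw [sum_biUnion]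
    intro a _ b _ hab
    refine disjoint_left.2 fun p hp hp' => hab ?_
    rw [← mem_antidiagonal.1 hp, ← mem_antidiagonal.1 hp']
  have h3 : ∑ p ∈ (range M).biUnion antidiagonal, h p ≤ ∑ p ∈ range M ×ˢ range M, h p := by
    refine sum_le_sum_of_subset_of_nonneg ?_ fun p _ _ => hnn p
    intro p hp
    obtain ⟨m, hm, hp⟩ := mem_biUnion.1 hp
    have h4 := mem_antidiagonal.1 hp
    have h5 := mem_range.1 hm
    exact mem_product.2 ⟨mem_range.2 (by omega), mem_range.2 (by omega)⟩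
  have h4 : ∑ p ∈ range M ×ˢ range M, h p = (∑ m ∈ range M, ‖PowerSeries.coeff m f‖ * ρ ^ m) *
      ∑ m ∈ range M, ‖PowerSeries.coeff m g‖ * ρ ^ m := by
    rw [sum_product, sum_mul_sum]
    exact sum_congr rfl fun i _ => sum_congr rfl fun j _ => hh (i, j)
  refine h1.trans ?_
  rw [h2]
  refine h3.trans ?_
  rw [h4]
  exact mul_le_mul (hf M) (hg M) (sum_nonneg fun m _ => by positivity) hf.nn

private theorem nm_C {ρ : ℝ} (z : ℂ) : Nm ρ ‖z‖ (PowerSeries.C z) := by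
  intro M
  rcases Nat.eq_zero_or_pos M with rfl | hM
  · simp
  · rw [sum_eq_single_of_mem 0 (mem_range.2 hM)]
    · simp
    · intro m _ hm
      rw [PowerSeries.coeff_C, if_neg hm, norm_zero, zero_mul]

private theorem nm_zero {ρ : ℝ} : Nm ρ 0 (0 : PowerSeries ℂ) := by
  have := nm_C (ρ := ρ) (0 : ℂ)
  simpa using this

private theorem nm_one {ρ : ℝ} : Nm ρ 1 (1 : PowerSeries ℂ) := by
  have := nm_C (ρ := ρ) (1 : ℂ)
  simpa using this

private theorem nm_prod {ι : Type*} {ρ c : ℝ} (hρ : 0 ≤ ρ) (s : Finset ι) (f : ι → PowerSeries ℂ)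
    (hf : ∀ i ∈ s, Nm ρ c (f i)) : Nm ρ (c ^ s.card) (∏ i ∈ s, f i) := by
  classical
  induction s using Finset.induction_on with
  | empty => simpa using nm_one
  | insert a s ha ih =>
    rw [prod_insert ha, card_insert_of_notMem ha, pow_succ']
    exact (hf a (mem_insert_self _ _)).mul hρ (ih fun i hi => hf i (mem_insert_of_mem hi))

private theorem nm_sum {ι : Type*} {ρ c : ℝ} (hρ : 0 ≤ ρ) (s : Finset ι) (f : ι → PowerSeries ℂ)
    (hf : ∀ i ∈ s, Nm ρ c (f i)) : Nm ρ (s.card * c) (∑ i ∈ s, f i) := by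
  classical
  induction s using Finset.induction_on with
  | empty => simpa using nm_zero
  | insert a s ha ih =>
    rw [sum_insert ha, card_insert_of_notMem ha]
    have h1 := (hf a (mem_insert_self _ _)).add hρ (ih fun i hi => hf i (mem_insert_of_mem hi))
    refine h1.mono (le_of_eq ?_)
    push_cast
    ring

private theorem nm_lin {ι : Type*} {ρ c : ℝ} (hρ : 0 ≤ ρ) (s : Finset ι) (f : ι → PowerSeries ℂ)
    (hf : ∀ i ∈ s, Nm ρ c (f i)) : ∀ l, Nm ρ ((1 + c) ^ s.card) ((∏ i ∈ s, (X - C (f i))).coeff l) := by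
  classical
  induction s using Finset.induction_on with
  | empty =>
    intro l
    rw [prod_empty, card_empty, pow_zero, coeff_one]
    split_ifs
    · exact nm_one
    · exact nm_zero.mono zero_le_one
  | insert a s ha ih =>
    intro l
    have hs := ih fun i hi => hf i (mem_insert_of_mem hi)
    have ha' := hf a (mem_insert_self _ _)
    rw [prod_insert ha, card_insert_of_notMem ha, sub_mul, coeff_sub, coeff_C_mul, pow_succ', add_mul, one_mul]
    refine Nm.sub hρ ?_ (ha'.mul hρ (hs l))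
    cases l with
    | zero =>
      rw [mul_coeff_zero, coeff_X_zero, zero_mul]
      exact nm_zero.mono (hs 0).nn
    | succ l =>
      rw [coeff_X_mul]
      exact hs l

private theorem Nm.maj {ρ c r : ℝ} {f : PowerSeries ℂ} (hρ : 0 ≤ ρ) (hr : ρ * r = 1) (hf : Nm ρ c f) :
    Maj c r f := by
  intro m
  have h1 : ‖PowerSeries.coeff m f‖ * ρ ^ m ≤ c :=
    le_trans (single_le_sum (f := fun m => ‖PowerSeries.coeff m f‖ * ρ ^ m) (fun i _ => by positivity)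
      (mem_range.2 (Nat.lt_succ_self m))) (hf (m + 1))
  have h2 : ‖PowerSeries.coeff m f‖ = ‖PowerSeries.coeff m f‖ * ρ ^ m * r ^ m := by
    rw [mul_assoc, ← mul_pow, hr, one_pow, mul_one]
  have hr0 : 0 ≤ r := by
    by_contra h
    push Not at h
    have := mul_nonpos_of_nonneg_of_nonpos hρ h.le
    linarith
  rw [h2]
  exact mul_le_mul_of_nonneg_right h1 (pow_nonneg hr0 m)

private theorem maj_mono {c r c' r' : ℝ} {f : PowerSeries ℂ} (h : Maj c r f) (h0 : 0 ≤ c) (hr : 0 ≤ r)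
    (hc : c ≤ c') (hr' : r ≤ r') : Maj c' r' f := fun m =>
  (h m).trans (mul_le_mul hc (pow_le_pow_left₀ hr hr' m) (pow_nonneg hr m) (h0.trans hc))

/-- the series of the branches -/
private theorem nm_x {f : ℤ[X][X]} {d : ℕ} (pd : PData f d) (i : Fin d) :
    Nm (1 / (2 * pd.R)) (2 * pd.R) (pd.x i) := by
  intro M
  have hR : 0 < pd.R := by linarith [pd.R_ge]
  have h1 : ∀ m ∈ range M, ‖PowerSeries.coeff m (pd.x i)‖ * (1 / (2 * pd.R)) ^ m ≤ pd.R * (1 / 2) ^ m := by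
    intro m _
    refine (mul_le_mul_of_nonneg_right (pd.growth i m) (by positivity)).trans (le_of_eq ?_)
    rw [div_pow, div_pow, one_pow, mul_pow, pow_succ]
    field_simp
  refine (sum_le_sum h1).trans ?_
  rw [← mul_sum]
  have h2 : ∑ m ∈ range M, (1 / 2 : ℝ) ^ m ≤ 2 := by
    have h3 := sum_geometric_two_le (n := M)
    exact h3
  nlinarith

theorem res_maj (n : ℕ) : ∃ C : ℕ, ∀ (k : Type) [Field k] (d b : ℕ) (F : ℕ → ℕ → ℤ) (Q : CrvS k n d b F)
    (la : k) (B : ℕ), 1 ≤ B → (∀ φ : k →+* ℂ, ‖φ la‖ ≤ B) →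
    (∀ l, Maj (((b * B : ℕ) : ℝ) ^ C) ((b : ℝ) ^ C) ((GQ Q la).coeff l)) ∧
      Maj ((b : ℝ) ^ C) ((b : ℝ) ^ C) (Dl Q.pd.x) := by
  refine ⟨n + 3 * (n * n) + 3 * n + 2, fun k _ d b F Q la B hB hφ => ?_⟩
  have hR2 := Q.pd.R_ge
  have hRb := Q.R_le
  have hb2 : (2 : ℝ) ≤ b := by exact_mod_cast Q.b2
  have hb1 : (1 : ℝ) ≤ b := by linarith
  have hB1 : (1 : ℝ) ≤ B := by exact_mod_cast hB
  have hR0 : 0 < Q.pd.R := by linarith
  have hdn := Q.dn
  have hρ : 0 ≤ 1 / (2 * Q.pd.R) := by positivity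
  have hr : 1 / (2 * Q.pd.R) * (2 * Q.pd.R) = 1 := by
    field_simp
  have h4R : 2 * Q.pd.R + 2 * Q.pd.R ≤ (b : ℝ) ^ 3 := by nlinarith [mul_self_nonneg ((b : ℝ) - 2)]
  have h1R : 1 + 2 * Q.pd.R ≤ (b : ℝ) ^ 3 := by nlinarith [mul_self_nonneg ((b : ℝ) - 2)]
  have hrb : 2 * Q.pd.R ≤ (b : ℝ) ^ (n + 3 * (n * n) + 3 * n + 2) := by
    have h1 : 2 * Q.pd.R ≤ (b : ℝ) ^ 2 := by nlinarith
    exact h1.trans (pow_le_pow_right₀ hb1 (by omega))
  have hx := nm_x Q.pd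
  have hdiff : ∀ m l, Nm (1 / (2 * Q.pd.R)) ((b : ℝ) ^ 3) (Q.pd.x m - Q.pd.x l) := fun m l =>
    ((hx m).sub hρ (hx l)).mono h4R
  have hin : ∀ m : Fin d, Nm (1 / (2 * Q.pd.R)) (((b : ℝ) ^ 3) ^ n)
      (∏ l ∈ univ.erase m, (Q.pd.x m - Q.pd.x l)) := by
    intro m
    refine (nm_prod hρ _ _ fun l _ => hdiff m l).mono ?_
    refine pow_le_pow_right₀ (one_le_pow₀ hb1) ?_
    rw [card_erase_of_mem (mem_univ _), card_univ, Fintype.card_fin]
    omega
  have hD : Nm (1 / (2 * Q.pd.R)) ((((b : ℝ) ^ 3) ^ n) ^ n) (Dl Q.pd.x) := by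
    refine (nm_prod hρ _ _ fun m _ => hin m).mono ?_
    refine pow_le_pow_right₀ (one_le_pow₀ (one_le_pow₀ hb1)) ?_
    rw [card_univ, Fintype.card_fin]
    exact hdn
  have hW : ∀ j, Nm (1 / (2 * Q.pd.R)) ((((b : ℝ) ^ 3) ^ n) ^ n) (Wc Q.pd.x j) := by
    intro j
    refine (nm_prod hρ _ _ fun m _ => hin m).mono ?_
    refine pow_le_pow_right₀ (one_le_pow₀ (one_le_pow₀ hb1)) ?_
    rw [card_erase_of_mem (mem_univ _), card_univ, Fintype.card_fin]
    omega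
  have hL : ∀ (j : Fin d) (l : ℕ), Nm (1 / (2 * Q.pd.R)) (((b : ℝ) ^ 3) ^ n)
      ((∏ i ∈ univ.erase j, (X - C (Q.pd.x i))).coeff l) := by
    intro j l
    refine (nm_lin hρ _ _ (fun i _ => hx i) l).mono ?_
    refine (pow_le_pow_left₀ (by positivity) h1R _).trans ?_
    refine pow_le_pow_right₀ (one_le_pow₀ hb1) ?_
    rw [card_erase_of_mem (mem_univ _), card_univ, Fintype.card_fin]
    omega
  have hel : ∀ j, Nm (1 / (2 * Q.pd.R)) (B : ℝ) (PowerSeries.C (el Q la j)) := by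
    intro j
    refine (nm_C (el Q la j)).mono ?_
    unfold el
    split_ifs
    · exact hφ _
    · rw [norm_zero]
      linarith
  constructor
  · intro l
    have h1 : (GQ Q la).coeff l = ∑ j, (PowerSeries.C (el Q la j) * Wc Q.pd.x j) *
        (∏ i ∈ univ.erase j, (X - C (Q.pd.x i))).coeff l := by
      unfold GQ Gp
      rw [finsetSum_coeff]
      exact sum_congr rfl fun j _ => by rw [coeff_C_mul]
    have h2 : Nm (1 / (2 * Q.pd.R)) ((univ : Finset (Fin d)).card * (((B : ℝ) * (((b : ℝ) ^ 3) ^ n) ^ n) *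
        ((b : ℝ) ^ 3) ^ n)) ((GQ Q la).coeff l) := by
      rw [h1]
      exact nm_sum hρ _ _ fun j _ => ((hel j).mul hρ (hW j)).mul hρ (hL j l)
    refine maj_mono (h2.maj hρ hr) h2.nn (by positivity) ?_ hrb
    rw [card_univ, Fintype.card_fin]
    have h3 : (d : ℝ) ≤ (b : ℝ) ^ n := by
      have h4 : d < 2 ^ d := Nat.lt_two_pow_self
      have h5 : (d : ℝ) ≤ 2 ^ d := by exact_mod_cast h4.le
      exact h5.trans ((pow_le_pow_left₀ (by norm_num) hb2 d).trans (pow_le_pow_right₀ hb1 hdn))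
    have h6 : (d : ℝ) * (((B : ℝ) * (((b : ℝ) ^ 3) ^ n) ^ n) * ((b : ℝ) ^ 3) ^ n) ≤
        (b : ℝ) ^ n * (((B : ℝ) * (((b : ℝ) ^ 3) ^ n) ^ n) * ((b : ℝ) ^ 3) ^ n) :=
      mul_le_mul_of_nonneg_right h3 (by positivity)
    refine h6.trans ?_
    have h7 : (b : ℝ) ^ n * (((B : ℝ) * (((b : ℝ) ^ 3) ^ n) ^ n) * ((b : ℝ) ^ 3) ^ n) =
        (b : ℝ) ^ (n + 3 * (n * n) + 3 * n) * (B : ℝ) ^ 1 := by
      rw [pow_add, pow_add, pow_mul (b : ℝ) 3 (n * n), pow_mul _ n n, pow_mul (b : ℝ) 3 n]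
      ring
    rw [h7]
    push_cast
    rw [mul_pow]
    refine mul_le_mul (pow_le_pow_right₀ hb1 (by omega)) (pow_le_pow_right₀ hB1 (by omega)) (by positivity)
      (by positivity)
  · refine maj_mono (hD.maj hρ hr) hD.nn (by positivity) ?_ hrb
    rw [← pow_mul, ← pow_mul]
    exact pow_le_pow_right₀ hb1 (by omega)

end Pool.Agent.H8.OA
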