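import Pool.Agent.H8.OA.Res1
import Pool.Agent.H8.AW.Pt

/-! # [H8 OA RES5] The order of the discriminant

`Q.bez`: `u f + v f' = C c`, `c ≠ 0`, `natDegree c ≤ 2 d²`, `f = fI d F`. Map by `tq e q` and evaluate at `x_i`: `f(x_i) = 0` (split), `f'(x_i) = ∏_(l ≠ i) (x_i - x_l)` (derivative of `∏ (X - C x_l)`), so `v_i ∏_(l ≠ i) (x_i - x_l) = tq c`, for every `i`; product over `i`:
`V * Dl = (tq c)^d`. `tq c = ∑ c_m (q T)^(e m) ≠ 0` has order `≤ e natDegree c ≤ 2 d² e` (the smallest `m` with `c_m ≠ 0`), so `(tq c)^d` has order `≤ 2 d³ e`, and `Dl`, a divisor, has order at most that (orders are additive in `ℂ⟦T⟧`): some coefficient of `Dl`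
with index `≤ 2 d³ e` is not zero. `res_sep`: if `x_i`, `x_j` agree in all coefficients `≤ 2 d³ e` then `i = j`: otherwise `x_i - x_j` has order `> 2 d³ e` and divides `Dl`. -/

namespace Pool.Agent.H8.OA

open Finset Polynomial Pool.Agent.H87.SA2 Pool.Agent.H8.AS Pool.Agent.H8.AW

variable {k : Type} [Field k] {n d b : ℕ} {F : ℕ → ℕ → ℤ}

private theorem tq_eq (e q : ℕ) (c : ℤ[X]) : tq e q c =
    ∑ m ∈ range (c.natDegree + 1), PowerSeries.C ((c.coeff m : ℂ) * (q : ℂ) ^ (e * m)) * PowerSeries.X ^ (e * m) := by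
  unfold tq
  rw [coe_eval₂RingHom, eval₂_eq_sum_range]
  refine Finset.sum_congr rfl fun m _ => ?_
  rw [← pow_mul, mul_pow, ← map_pow, map_mul, mul_assoc]
  congr 1
  simp

private theorem tq_top {e q : ℕ} (he : 1 ≤ e) (c : ℤ[X]) :
    PowerSeries.coeff (e * c.natDegree) (tq e q c) = (c.leadingCoeff : ℂ) * (q : ℂ) ^ (e * c.natDegree) := by
  rw [tq_eq, map_sum, Finset.sum_eq_single c.natDegree]
  · rw [PowerSeries.coeff_C_mul, PowerSeries.coeff_X_pow_self, mul_one]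
    rfl
  · intro m _ hm
    rw [PowerSeries.coeff_C_mul, PowerSeries.coeff_X_pow, if_neg, mul_zero]
    intro h
    exact hm (Nat.eq_of_mul_eq_mul_left he h).symm
  · intro h
    exact absurd (mem_range.2 (Nat.lt_succ_self _)) h

private theorem bez_i (Q : CrvS k n d b F) {u v : ℤ[X][X]} {c : ℤ[X]}
    (h : u * fI d F + v * derivative (fI d F) = C c) (i : Fin d) :
    (v.map (tq Q.pd.e Q.pd.q)).eval (Q.pd.x i) * ∏ l ∈ univ.erase i, (Q.pd.x i - Q.pd.x l) =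
      tq Q.pd.e Q.pd.q c := by
  have h1 := congrArg (fun p => (p.map (tq Q.pd.e Q.pd.q)).eval (Q.pd.x i)) h
  simp only [Polynomial.map_add, Polynomial.map_mul, map_C, eval_add, eval_mul, eval_C, ← derivative_map] at h1
  rw [Q.pd.split, ← Finset.mul_prod_erase univ _ (mem_univ i), derivative_mul] at h1
  simp only [eval_mul, eval_add, eval_sub, eval_X, eval_C, sub_self, zero_mul, mul_zero, zero_add, add_zero,
    derivative_sub, derivative_X, derivative_C, sub_zero, eval_one, one_mul, eval_prod] at h1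
  exact h1

private theorem dl_dvd (Q : CrvS k n d b F) {u v : ℤ[X][X]} {c : ℤ[X]}
    (h : u * fI d F + v * derivative (fI d F) = C c) : Dl Q.pd.x ∣ (tq Q.pd.e Q.pd.q c) ^ d := by
  refine ⟨∏ i, (v.map (tq Q.pd.e Q.pd.q)).eval (Q.pd.x i), ?_⟩
  unfold Dl
  rw [← Finset.prod_mul_distrib]
  have h1 : ∀ i : Fin d, (∏ l ∈ univ.erase i, (Q.pd.x i - Q.pd.x l)) *
      (v.map (tq Q.pd.e Q.pd.q)).eval (Q.pd.x i) = tq Q.pd.e Q.pd.q c := by
    intro i
    rw [mul_comm]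
    exact bez_i Q h i
  rw [Finset.prod_congr rfl fun i _ => h1 i, Finset.prod_const, card_univ, Fintype.card_fin]

private theorem pow_ord {f : PowerSeries ℂ} {N M : ℕ} (h : f.order ≤ (N : ℕ∞)) (hM : d * N ≤ M) :
    (f ^ d).order ≤ (M : ℕ∞) := by
  have h2 : ∀ j : ℕ, (f ^ j).order ≤ ((j * N : ℕ) : ℕ∞) := by
    intro j
    induction j with
    | zero => simp
    | succ j ih =>
      rw [pow_succ, PowerSeries.order_mul]
      refine (add_le_add ih h).trans (le_of_eq ?_)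
      rw [← Nat.cast_add]
      congr 1
      ring
  exact (h2 d).trans (Nat.cast_le.2 hM)

private theorem ord_le (Q : CrvS k n d b F) : (Dl Q.pd.x).order ≤ ((2 * d ^ 3 * Q.pd.e : ℕ) : ℕ∞) := by
  obtain ⟨u, v, c, hc0, hb, hdeg, -⟩ := Q.bez
  obtain ⟨w, hw⟩ := dl_dvd Q hb
  have h1 : (tq Q.pd.e Q.pd.q c).order ≤ ((Q.pd.e * c.natDegree : ℕ) : ℕ∞) := by
    refine PowerSeries.order_le _ ?_
    rw [tq_top Q.pd.e_pos]
    refine mul_ne_zero ?_ (pow_ne_zero _ ?_)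
    · exact_mod_cast leadingCoeff_ne_zero.2 hc0
    · have := Q.pd.q_pos
      have h2 : Q.pd.q ≠ 0 := by omega
      exact_mod_cast h2
  have h3 : (Dl Q.pd.x).order ≤ ((tq Q.pd.e Q.pd.q c) ^ d).order := by
    rw [hw, PowerSeries.order_mul]
    exact le_self_add
  refine h3.trans ?_
  have h5 : d * (Q.pd.e * c.natDegree) ≤ 2 * d ^ 3 * Q.pd.e := by
    calc d * (Q.pd.e * c.natDegree) ≤ d * (Q.pd.e * (2 * d * d)) :=
          Nat.mul_le_mul_left _ (Nat.mul_le_mul_left _ hdeg)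
      _ = 2 * d ^ 3 * Q.pd.e := by ring
  exact pow_ord h1 h5

theorem res_ord (Q : CrvS k n d b F) : ∃ m, m ≤ 2 * d ^ 3 * Q.pd.e ∧ PowerSeries.coeff m (Dl Q.pd.x) ≠ 0 := by
  by_contra hcon
  push Not at hcon
  have h1 : ((2 * d ^ 3 * Q.pd.e + 1 : ℕ) : ℕ∞) ≤ (Dl Q.pd.x).order := by
    refine PowerSeries.nat_le_order _ _ fun i hi => hcon i (by omega)
  have h2 := h1.trans (ord_le Q)
  have h3 : 2 * d ^ 3 * Q.pd.e + 1 ≤ 2 * d ^ 3 * Q.pd.e := Nat.cast_le.1 h2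
  omega

theorem res_sep (Q : CrvS k n d b F) {i j : Fin d}
    (h : ∀ m, m ≤ 2 * d ^ 3 * Q.pd.e → PowerSeries.coeff m (Q.pd.x i) = PowerSeries.coeff m (Q.pd.x j)) : i = j := by
  by_contra hne
  have h1 : ((2 * d ^ 3 * Q.pd.e + 1 : ℕ) : ℕ∞) ≤ (Q.pd.x i - Q.pd.x j).order := by
    refine PowerSeries.nat_le_order _ _ fun m hm => ?_
    rw [map_sub, h m (by omega), sub_self]
  have h2 : (Q.pd.x i - Q.pd.x j) ∣ Dl Q.pd.x := by
    unfold Dl
    refine dvd_trans ?_ (Finset.dvd_prod_of_mem _ (mem_univ i))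
    exact Finset.dvd_prod_of_mem (fun l => Q.pd.x i - Q.pd.x l) (mem_erase.2 ⟨fun h => hne h.symm, mem_univ j⟩)
  obtain ⟨w, hw⟩ := h2
  have h3 : (Q.pd.x i - Q.pd.x j).order ≤ (Dl Q.pd.x).order := by
    rw [hw, PowerSeries.order_mul]
    exact le_self_add
  have h4 := (h1.trans h3).trans (ord_le Q)
  have h5 : 2 * d ^ 3 * Q.pd.e + 1 ≤ 2 * d ^ 3 * Q.pd.e := Nat.cast_le.1 h4
  omega

end Pool.Agent.H8.OA
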