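import Pool.Agent.H8.OA.Res2
import Pool.Agent.H8.OA.Res3
import Pool.Agent.H8.OA.Res4
import Pool.Agent.H8.OA.Res5
import Pool.Agent.H8.AW.Ev

/-! # [H8 OA RES] A small rational function whose value at the place of the point is `la`

`e, q, x` of `Q.pd`, `M = 2 d³ + 2`, `s = q^e`. `α_(l,m) ∈ ℤ` the coefficient of `T^(e m)` in `(GQ Q la).coeff l`, `δ_m ∈ ℤ` that of `Dl` (`res_int`, `res_intD`; the other coefficients vanish, `res_rot`, `res_rotD`). Put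
`D = x^d ∑_(m<M) δ_m (s x)^(M-1-m)`, `A = ∑_(l<d) ∑_(m<M) α_(l,m) (s x)^(M-1-m) y^l x^(d-l)` in `ℤ[x,y]`; degrees and coefficients are bounded by `res_maj` (`q ≤ b`, `e ≤ d!`, `d ≤ n`).
At a point: `t = 1/x = (q T)^e`, `T^(e m) = (s x)^(-m)`, `z = y/x = ∑ coeff_m (x_i) T^m`. If `(b B)^C ≤ |x|`, `C` large, then `b^(C') |T|` is tiny (`|T|^e ≤ 1/|x|`, so `|T| ≤ (b B)^(-C/e)`) and all series converge absolutely:
`evT T` (H8/AW/Ev.lean) is a ring homomorphism on them. `gp_eval`: `∑_l (GQ).coeff l (T) z^l = a_i Dl(T)`, `a_i = kap i la` (`i ∈ S`). Tails: `|(GQ).coeff l (T) - ∑_(m<M) α_(l,m) T^(em)| ≤ (b B)^(C'') |T|^(e M)` and the same for `Dl`; `|z| ≤ 2 b`.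
So `|A - a_i D| ≤ |x|^d |s x|^(M-1) (b B)^(C''') |T|^(eM) ≤ (b B)^(C''') |x|^d |s x|^(-1)`. Lower bound: the first nonzero `δ_m` has `m ≤ 2 d³` (`res_ord`, `res_rotD`), is an integer, `|δ_m| ≥ 1`, and the others are `≤ (b^C')^(..)`:
`|∑ δ_m (s x)^(-m)| ≥ |s x|^(-2 d³)/2`, so `|D| ≥ |x|^d |s x|^(M-1-2d³)/2 = |x|^d |s x|/2`. Quotient `≤ (b B)^C/|x|` (even `|x|²`). -/

namespace Pool.Agent.H8.OA

open Finset Polynomial Pool.Agent.H87.SA2 Pool.Agent.H8.AS Pool.Agent.H8.AW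

private theorem cvt_maj {T : ℂ} {c r : ℝ} {f : PowerSeries ℂ} (hr : 0 ≤ r) (h : Maj c r f)
    (hT : r * ‖T‖ < 1) : CvT T f := by
  refine Summable.of_nonneg_of_le (fun m => norm_nonneg _) (fun m => ?_)
    ((summable_geometric_of_lt_one (mul_nonneg hr (norm_nonneg T)) hT).mul_left c)
  rw [norm_mul, norm_pow, mul_pow, ← mul_assoc]
  exact mul_le_mul_of_nonneg_right (h m) (pow_nonneg (norm_nonneg _) _)

private theorem tail {T : ℂ} {c r : ℝ} {f : PowerSeries ℂ} (hr : 0 ≤ r) (hc : 0 ≤ c) (h : Maj c r f)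
    (hT : r * ‖T‖ ≤ 1 / 2) (L : ℕ) :
    ‖evT T f - ∑ m ∈ range L, PowerSeries.coeff m f * T ^ m‖ ≤ c * (r * ‖T‖) ^ L * 2 := by
  have hs : Summable fun m => PowerSeries.coeff m f * T ^ m :=
    (cvt_maj hr h (by linarith)).hasSum.summable
  have h1 := hs.sum_add_tsum_nat_add L
  have h2 : evT T f - ∑ m ∈ range L, PowerSeries.coeff m f * T ^ m =
      ∑' m, PowerSeries.coeff (m + L) f * T ^ (m + L) := by
    unfold evT
    rw [← h1]
    ring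
  rw [h2]
  refine tsum_of_norm_bounded (g := fun m : ℕ => c * (r * ‖T‖) ^ L * (1 / 2 : ℝ) ^ m) ?_ fun m => ?_
  · exact hasSum_geometric_two.mul_left (c * (r * ‖T‖) ^ L)
  · have h3 : 0 ≤ r * ‖T‖ := mul_nonneg hr (norm_nonneg _)
    calc ‖PowerSeries.coeff (m + L) f * T ^ (m + L)‖
        = ‖PowerSeries.coeff (m + L) f‖ * ‖T‖ ^ (m + L) := by rw [norm_mul, norm_pow]
      _ ≤ c * r ^ (m + L) * ‖T‖ ^ (m + L) :=
          mul_le_mul_of_nonneg_right (h _) (pow_nonneg (norm_nonneg _) _)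
      _ = c * (r * ‖T‖) ^ L * (r * ‖T‖) ^ m := by rw [mul_pow, mul_pow]; ring
      _ ≤ c * (r * ‖T‖) ^ L * (1 / 2 : ℝ) ^ m :=
          mul_le_mul_of_nonneg_left (pow_le_pow_left₀ h3 hT m) (mul_nonneg hc (pow_nonneg h3 _))

private theorem reix {T : ℂ} {f : PowerSeries ℂ} {e : ℕ} (he : 1 ≤ e)
    (h : ∀ m, ¬ e ∣ m → PowerSeries.coeff m f = 0) (M : ℕ) :
    ∑ m ∈ range (e * M), PowerSeries.coeff m f * T ^ m =
      ∑ m ∈ range M, PowerSeries.coeff (e * m) f * (T ^ e) ^ m := by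
  induction M with
  | zero => simp
  | succ M ih =>
    rw [Nat.mul_succ, Finset.sum_range_add, ih, Finset.sum_range_succ]
    congr 1
    rw [Finset.sum_eq_single 0]
    · rw [add_zero, ← pow_mul]
    · intro j hj hj0
      rw [mem_range] at hj
      rw [h (e * M + j), zero_mul]
      intro h1
      have h2 : e ∣ j := (Nat.dvd_add_right (Dvd.intro M rfl)).1 h1
      have h3 := Nat.le_of_dvd (Nat.pos_of_ne_zero hj0) h2
      omega
    · intro h1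
      exact absurd (mem_range.2 (by omega)) h1

/-- a sum of monomials -/
private noncomputable def mk {ι : Type} (I : Finset ι) (a b : ι → ℕ) (c : ι → ℤ) :
    MvPolynomial (Fin 2) ℤ :=
  ∑ i ∈ I, MvPolynomial.monomial (Finsupp.single 0 (a i) + Finsupp.single 1 (b i)) (c i)

private theorem mk_deg {ι : Type} {I : Finset ι} {a b : ι → ℕ} {c : ι → ℤ} {D : ℕ}
    (h : ∀ i ∈ I, a i + b i ≤ D) : (mk I a b c).totalDegree ≤ D := by
  unfold mk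
  refine MvPolynomial.totalDegree_finsetSum_le fun i hi => ?_
  refine (MvPolynomial.totalDegree_monomial_le _ _).trans ?_
  rw [Finsupp.sum_fintype _ _ (fun _ => rfl), Fin.sum_univ_two]
  simpa using h i hi

private theorem mk_coeff {ι : Type} {I : Finset ι} {a b : ι → ℕ} {c : ι → ℤ} {K : ℤ}
    (h : ∀ i ∈ I, |c i| ≤ K) (m : Fin 2 →₀ ℕ) : |(mk I a b c).coeff m| ≤ (I.card : ℤ) * K := by
  unfold mk
  rw [MvPolynomial.coeff_sum]
  refine (Finset.abs_sum_le_sum_abs _ _).trans ?_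
  rw [← nsmul_eq_mul]
  refine Finset.sum_le_card_nsmul _ _ _ fun i hi => ?_
  rw [MvPolynomial.coeff_monomial]
  split_ifs
  · exact h i hi
  · rw [abs_zero]
    exact (abs_nonneg _).trans (h i hi)

private theorem mk_eval {ι : Type} (I : Finset ι) (a b : ι → ℕ) (c : ι → ℤ) (x y : ℤ) :
    MvPolynomial.eval ![x, y] (mk I a b c) = ∑ i ∈ I, c i * x ^ a i * y ^ b i := by
  unfold mk
  rw [map_sum]
  refine Finset.sum_congr rfl fun i _ => ?_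
  rw [MvPolynomial.eval_monomial, Finsupp.prod_fintype _ _ (fun _ => pow_zero _), Fin.prod_univ_two]
  simp [mul_assoc]

private theorem pow_sub' {t w : ℂ} (hw : t * w = 1) {M m : ℕ} (hm : m < M) :
    t ^ (M - 1 - m) = t ^ (M - 1) * w ^ m := by
  have h1 : M - 1 = (M - 1 - m) + m := by omega
  conv_rhs => rw [h1, pow_add, mul_assoc, ← mul_pow, hw, one_pow, mul_one]

private theorem dform {d M : ℕ} {x s w : ℂ} {δ : ℕ → ℂ} (hw : s * x * w = 1) :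
    ∑ m ∈ range M, δ m * s ^ (M - 1 - m) * x ^ (d + (M - 1 - m)) =
      x ^ d * (s * x) ^ (M - 1) * ∑ m ∈ range M, δ m * w ^ m := by
  rw [Finset.mul_sum]
  refine Finset.sum_congr rfl fun m hm => ?_
  have h1 := pow_sub' hw (mem_range.1 hm)
  rw [pow_add, mul_assoc (x ^ d), mul_left_comm ((s * x) ^ (M - 1)), ← h1, mul_pow]
  ring

private theorem aform {d M : ℕ} {x s w z y : ℂ} {α : ℕ → ℕ → ℂ} (hw : s * x * w = 1)
    (hy : y = z * x) :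
    ∑ l ∈ range d, ∑ m ∈ range M, α l m * s ^ (M - 1 - m) * x ^ ((M - 1 - m) + (d - l)) * y ^ l =
      x ^ d * (s * x) ^ (M - 1) * ∑ l ∈ range d, (∑ m ∈ range M, α l m * w ^ m) * z ^ l := by
  rw [Finset.mul_sum]
  refine Finset.sum_congr rfl fun l hl => ?_
  rw [Finset.sum_mul, Finset.mul_sum]
  refine Finset.sum_congr rfl fun m hm => ?_
  have h1 := pow_sub' hw (mem_range.1 hm)
  have h2 : x ^ d = x ^ (d - l) * x ^ l := by
    rw [← pow_add]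
    congr 1
    have := mem_range.1 hl
    omega
  have h3 : x ^ d * (s * x) ^ (M - 1) * (α l m * w ^ m * z ^ l) =
      x ^ d * α l m * z ^ l * ((s * x) ^ (M - 1) * w ^ m) := by ring
  rw [h3, ← h1, h2, hy, mul_pow, mul_pow, pow_add]
  ring

private theorem upper {d M : ℕ} (hM : 1 ≤ M) {x s w z a y Δ : ℂ} {G : ℕ → ℂ} {α : ℕ → ℕ → ℂ}
    {δ : ℕ → ℂ} {τ Z B : ℝ} (hw : s * x * w = 1) (hy : y = z * x)
    (h0 : ∑ l ∈ range d, G l * z ^ l = a * Δ)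
    (h1 : ∀ l, ‖G l - ∑ m ∈ range M, α l m * w ^ m‖ ≤ τ * ‖w‖ ^ M)
    (h2 : ‖Δ - ∑ m ∈ range M, δ m * w ^ m‖ ≤ τ * ‖w‖ ^ M)
    (hZ : 1 ≤ Z) (hz : ‖z‖ ≤ Z) (ha : ‖a‖ ≤ B) (hτ : 0 ≤ τ) (hs : 1 ≤ ‖s‖) :
    ‖∑ l ∈ range d, ∑ m ∈ range M, α l m * s ^ (M - 1 - m) * x ^ ((M - 1 - m) + (d - l)) * y ^ l -
      a * ∑ m ∈ range M, δ m * s ^ (M - 1 - m) * x ^ (d + (M - 1 - m))‖ * ‖x‖ ≤
        ‖x‖ ^ d * (τ * (d * Z ^ d + B)) := by
  rw [aform hw hy, dform hw]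
  set P : ℂ := x ^ d * (s * x) ^ (M - 1) with hP
  have h3 : P * (∑ l ∈ range d, (∑ m ∈ range M, α l m * w ^ m) * z ^ l) -
      a * (P * ∑ m ∈ range M, δ m * w ^ m) =
      P * (a * (Δ - ∑ m ∈ range M, δ m * w ^ m) -
        ∑ l ∈ range d, (G l - ∑ m ∈ range M, α l m * w ^ m) * z ^ l) := by
    have h4 : ∑ l ∈ range d, (G l - ∑ m ∈ range M, α l m * w ^ m) * z ^ l =
        a * Δ - ∑ l ∈ range d, (∑ m ∈ range M, α l m * w ^ m) * z ^ l := by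
      rw [← h0, ← Finset.sum_sub_distrib]
      refine Finset.sum_congr rfl fun l _ => ?_
      ring
    rw [h4]
    ring
  rw [h3, norm_mul]
  have hPw : ‖P‖ * ‖w‖ ^ M = ‖x‖ ^ d * ‖w‖ := by
    have h4 : P * w ^ M = x ^ d * w := by
      have h5 : w ^ M = w ^ (M - 1) * w := by
        rw [← pow_succ]
        congr 1
        omega
      rw [hP, h5, show x ^ d * (s * x) ^ (M - 1) * (w ^ (M - 1) * w) =
        x ^ d * ((s * x) ^ (M - 1) * w ^ (M - 1)) * w by ring, ← mul_pow, hw, one_pow, mul_one]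
    rw [← norm_pow, ← norm_mul, h4, norm_mul, norm_pow]
  have hwx : ‖w‖ * ‖x‖ ≤ 1 := by
    have h4 : ‖s‖ * (‖w‖ * ‖x‖) = 1 := by
      rw [← norm_mul, ← norm_mul, show s * (w * x) = s * x * w by ring, hw, norm_one]
    have h5 : 0 ≤ ‖w‖ * ‖x‖ := mul_nonneg (norm_nonneg _) (norm_nonneg _)
    nlinarith
  have hB : 0 ≤ B := (norm_nonneg _).trans ha
  have hw0 : 0 ≤ τ * ‖w‖ ^ M := mul_nonneg hτ (pow_nonneg (norm_nonneg _) _)
  have h5 : ‖a * (Δ - ∑ m ∈ range M, δ m * w ^ m) -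
      ∑ l ∈ range d, (G l - ∑ m ∈ range M, α l m * w ^ m) * z ^ l‖ ≤
      B * (τ * ‖w‖ ^ M) + d * (τ * ‖w‖ ^ M * Z ^ d) := by
    refine (norm_sub_le _ _).trans (add_le_add ?_ ?_)
    · rw [norm_mul]
      exact mul_le_mul ha h2 (norm_nonneg _) hB
    · refine (norm_sum_le _ _).trans ?_
      have h6 : ∀ l ∈ range d, ‖(G l - ∑ m ∈ range M, α l m * w ^ m) * z ^ l‖ ≤
          τ * ‖w‖ ^ M * Z ^ d := by
        intro l hl
        rw [norm_mul, norm_pow]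
        refine mul_le_mul (h1 l) ?_ (pow_nonneg (norm_nonneg _) _) hw0
        exact (pow_le_pow_left₀ (norm_nonneg _) hz l).trans
          (pow_le_pow_right₀ hZ (mem_range.1 hl).le)
      refine (Finset.sum_le_card_nsmul _ _ _ h6).trans ?_
      rw [card_range, nsmul_eq_mul]
  have h7 : 0 ≤ τ * (d * Z ^ d + B) := by positivity
  calc ‖P‖ * ‖a * (Δ - ∑ m ∈ range M, δ m * w ^ m) -
        ∑ l ∈ range d, (G l - ∑ m ∈ range M, α l m * w ^ m) * z ^ l‖ * ‖x‖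
      ≤ ‖P‖ * (B * (τ * ‖w‖ ^ M) + d * (τ * ‖w‖ ^ M * Z ^ d)) * ‖x‖ :=
        mul_le_mul_of_nonneg_right (mul_le_mul_of_nonneg_left h5 (norm_nonneg _)) (norm_nonneg _)
    _ = (‖P‖ * ‖w‖ ^ M) * ‖x‖ * (τ * (d * Z ^ d + B)) := by ring
    _ = ‖x‖ ^ d * ((‖w‖ * ‖x‖) * (τ * (d * Z ^ d + B))) := by rw [hPw]; ring
    _ ≤ ‖x‖ ^ d * (1 * (τ * (d * Z ^ d + B))) :=
        mul_le_mul_of_nonneg_left (mul_le_mul_of_nonneg_right hwx h7)
          (pow_nonneg (norm_nonneg _) _)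
    _ = ‖x‖ ^ d * (τ * (d * Z ^ d + B)) := by rw [one_mul]

private theorem lower {d M m0 : ℕ} {x s w : ℂ} {δ : ℕ → ℤ} {K : ℝ} (hw : s * x * w = 1)
    (hm0 : m0 < M) (h0 : δ m0 ≠ 0) (hlt : ∀ m, m < m0 → δ m = 0)
    (hK : ∀ m, m < M → |(δ m : ℝ)| ≤ K) (hsm : M * K * ‖w‖ ≤ 1 / 2) (hw1 : ‖w‖ ≤ 1) :
    ‖x‖ ^ d / 2 ≤ ‖∑ m ∈ range M, (δ m : ℂ) * s ^ (M - 1 - m) * x ^ (d + (M - 1 - m))‖ := by
  rw [dform hw, norm_mul, norm_mul]
  have hK0 : 0 ≤ K := (abs_nonneg _).trans (hK m0 hm0)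
  have h1 : ‖w‖ ^ m0 / 2 ≤ ‖∑ m ∈ range M, (δ m : ℂ) * w ^ m‖ := by
    rw [← Finset.add_sum_erase _ _ (mem_range.2 hm0)]
    have h2 : ‖∑ m ∈ (range M).erase m0, (δ m : ℂ) * w ^ m‖ ≤ ‖w‖ ^ m0 / 2 := by
      refine (norm_sum_le _ _).trans ?_
      have h3 : ∀ m ∈ (range M).erase m0, ‖(δ m : ℂ) * w ^ m‖ ≤ K * ‖w‖ ^ (m0 + 1) := by
        intro m hm
        rw [mem_erase, mem_range] at hm
        rcases lt_or_gt_of_ne hm.1 with h | h
        · rw [hlt m h, Int.cast_zero, zero_mul, norm_zero]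
          positivity
        · rw [norm_mul, norm_pow, Complex.norm_intCast]
          exact mul_le_mul (hK m hm.2) (pow_le_pow_of_le_one (norm_nonneg _) hw1 h)
            (pow_nonneg (norm_nonneg _) _) hK0
      refine (Finset.sum_le_card_nsmul _ _ _ h3).trans ?_
      rw [nsmul_eq_mul]
      have h4 : (((range M).erase m0).card : ℝ) ≤ M := by
        have h5 : ((range M).erase m0).card ≤ M := by
          refine (card_erase_le).trans ?_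
          rw [card_range]
        exact_mod_cast h5
      calc (((range M).erase m0).card : ℝ) * (K * ‖w‖ ^ (m0 + 1))
          ≤ M * (K * ‖w‖ ^ (m0 + 1)) := mul_le_mul_of_nonneg_right h4 (by positivity)
        _ = (M * K * ‖w‖) * ‖w‖ ^ m0 := by rw [pow_succ]; ring
        _ ≤ 1 / 2 * ‖w‖ ^ m0 := mul_le_mul_of_nonneg_right hsm (pow_nonneg (norm_nonneg _) _)
        _ = ‖w‖ ^ m0 / 2 := by ring
    have h6 : ‖w‖ ^ m0 ≤ ‖(δ m0 : ℂ) * w ^ m0‖ := by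
      rw [norm_mul, norm_pow, Complex.norm_intCast]
      have h7 : (1 : ℝ) ≤ |(δ m0 : ℝ)| := by
        have := Int.one_le_abs h0
        exact_mod_cast this
      nlinarith [pow_nonneg (norm_nonneg w) m0]
    have h8 := norm_sub_norm_le ((δ m0 : ℂ) * w ^ m0)
      (-(∑ m ∈ (range M).erase m0, (δ m : ℂ) * w ^ m))
    rw [norm_neg, sub_neg_eq_add] at h8
    linarith
  have hsx : 1 ≤ ‖s * x‖ := by
    have h2 : ‖s * x‖ * ‖w‖ = 1 := by rw [← norm_mul, hw, norm_one]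
    have h3 : 0 ≤ ‖s * x‖ := norm_nonneg _
    nlinarith
  have h9 : 1 ≤ ‖(s * x) ^ (M - 1)‖ * ‖w‖ ^ m0 := by
    rw [← norm_pow, ← norm_mul, ← pow_sub' hw hm0, norm_pow]
    exact one_le_pow₀ hsx
  calc ‖x‖ ^ d / 2 = ‖x‖ ^ d * (1 / 2) := by ring
    _ ≤ ‖x‖ ^ d * (‖(s * x) ^ (M - 1)‖ * ‖w‖ ^ m0 / 2) :=
        mul_le_mul_of_nonneg_left (by linarith) (pow_nonneg (norm_nonneg _) _)
    _ = ‖x ^ d‖ * ‖(s * x) ^ (M - 1)‖ * (‖w‖ ^ m0 / 2) := by rw [norm_pow x d]; ring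
    _ ≤ _ := mul_le_mul_of_nonneg_left h1 (by positivity)

/-- the value of the interpolation identity -/
private theorem exact' {k : Type} [Field k] {n d b : ℕ} {F : ℕ → ℕ → ℤ} (Q : CrvS k n d b F) (la : k)
    {T z : ℂ} {i : Fin d} (hi : i ∈ Q.kp.S) (hf : ∀ l, CvT T ((GQ Q la).coeff l))
    (hD : CvT T (Dl Q.pd.x)) (hx : CvT T (Q.pd.x i)) (hz : evT T (Q.pd.x i) = z) :
    ∑ l ∈ range d, evT T ((GQ Q la).coeff l) * z ^ l = Q.kp.kap i la * evT T (Dl Q.pd.x) := by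
  have hd : 0 < d := lt_of_le_of_lt (Nat.zero_le _) i.2
  have h1 : (GQ Q la).eval (Q.pd.x i) = PowerSeries.C (Q.kp.kap i la) * Dl Q.pd.x := by
    unfold GQ
    rw [gp_eval]
    unfold el
    rw [if_pos hi]
  have h2 : (GQ Q la).natDegree < d := by
    have h3 : (GQ Q la).natDegree ≤ d - 1 := by
      rw [Polynomial.natDegree_le_iff_coeff_eq_zero]
      intro N hN
      exact gp_coeff _ _ (by omega)
    omega
  rw [Polynomial.eval_eq_sum_range' h2] at h1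
  have h4 : (∑ l ∈ range d, (⟨(GQ Q la).coeff l, hf l⟩ : cvT T) * (⟨Q.pd.x i, hx⟩ : cvT T) ^ l) =
      (⟨PowerSeries.C (Q.kp.kap i la), CvT.C T _⟩ : cvT T) * ⟨Dl Q.pd.x, hD⟩ := by
    apply Subtype.ext
    rw [AddSubmonoidClass.coe_finsetSum]
    exact h1
  have h5 := congrArg (evH T) h4
  rw [map_sum, map_mul] at h5
  have h6 : evH T ⟨PowerSeries.C (Q.kp.kap i la), CvT.C T _⟩ = Q.kp.kap i la := evT_C T _
  have h7 : evH T ⟨Q.pd.x i, hx⟩ = z := hz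
  rw [h6] at h5
  refine Eq.trans ?_ h5
  refine Finset.sum_congr rfl fun l _ => ?_
  rw [map_mul, map_pow, h7]
  rfl


theorem res (n : ℕ) : ∃ C : ℕ, ∀ (k : Type) [Field k] [NumberField k] (d b : ℕ) (F : ℕ → ℕ → ℤ)
    (Q : CrvS k n d b F) (la : k) (B : ℕ), IsIntegral ℤ la → 1 ≤ B → (∀ φ : k →+* ℂ, ‖φ la‖ ≤ B) →
    ∃ A D : MvPolynomial (Fin 2) ℤ, A.totalDegree ≤ C ∧ D.totalDegree ≤ C ∧
      (∀ m, |A.coeff m| ≤ ((b * B : ℕ) : ℤ) ^ C) ∧ (∀ m, |D.coeff m| ≤ ((b * B : ℕ) : ℤ) ^ C) ∧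
      ∀ (x y : ℤ) (T : ℂ) (i : Fin d), i ∈ Q.kp.S → ((Q.pd.q : ℂ) * T) ^ Q.pd.e * (x : ℂ) = 1 →
        HasSum (fun m => PowerSeries.coeff m (Q.pd.x i) * T ^ m) ((y : ℂ) / (x : ℂ)) →
        ((b * B : ℕ) : ℤ) ^ C ≤ |x| → MvPolynomial.eval ![x, y] D ≠ 0 ∧
          ‖(MvPolynomial.eval ![x, y] A : ℂ) - Q.kp.kap i la * (MvPolynomial.eval ![x, y] D : ℂ)‖ * |(x : ℝ)| ≤
            ((b * B : ℕ) : ℝ) ^ C * |((MvPolynomial.eval ![x, y] D : ℤ) : ℝ)| := by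
  obtain ⟨Cm, hCm⟩ := res_maj n
  obtain ⟨K3, hK3⟩ : ∃ K3 : ℕ, K3 = 2 * n ^ 3 + 2 := ⟨_, rfl⟩
  obtain ⟨E0, hE0⟩ : ∃ E0 : ℕ, E0 = n.factorial * K3 := ⟨_, rfl⟩
  obtain ⟨C, hC⟩ : ∃ C : ℕ, C = (Cm + 2) * (E0 + 1) + n * K3 + K3 + 3 * n + 10 := ⟨_, rfl⟩
  have hC0 : (Cm + 2) * (E0 + 1) = Cm * E0 + Cm + 2 * E0 + 2 := by ring
  refine ⟨C, ?_⟩
  intro k _ _ d b F Q la B hla hB hBn
  obtain ⟨hmA, hmD⟩ := hCm k d b F Q la B hB hBn
  choose α hα using fun l m : ℕ => res_int Q hla l (Q.pd.e * m)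
  choose δ hδ using fun m : ℕ => res_intD Q (Q.pd.e * m)
  obtain ⟨M, hM⟩ : ∃ M : ℕ, M = 2 * d ^ 3 + 2 := ⟨_, rfl⟩
  have hdn := Q.dn
  have hd4 := Q.d4
  have hb2 := Q.b2
  have hMK : M ≤ K3 := by
    rw [hM, hK3]
    have := Nat.pow_le_pow_left hdn 3
    omega
  have he1 := Q.pd.e_pos
  have he0 : Q.pd.e ≠ 0 := by omega
  have heN : Q.pd.e ≤ n.factorial := Q.e_le.trans (Nat.factorial_le hdn)
  have heM : Q.pd.e * M ≤ E0 := by
    rw [hE0]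
    exact Nat.mul_le_mul heN hMK
  have hK31 : 1 ≤ K3 := by omega
  have heE : Q.pd.e ≤ E0 := by
    rw [hE0]
    exact heN.trans (Nat.le_mul_of_pos_right _ hK31)
  have hq1 := Q.pd.q_pos
  -- the base
  obtain ⟨β, hβ⟩ : ∃ β : ℝ, β = ((b * B : ℕ) : ℝ) := ⟨_, rfl⟩
  have hbB : b ≤ b * B := Nat.le_mul_of_pos_right _ hB
  have hBb : B ≤ b * B := Nat.le_mul_of_pos_left _ (by omega)
  have hbβ : (b : ℝ) ≤ β := by rw [hβ]; exact_mod_cast hbB
  have hBβ : (B : ℝ) ≤ β := by rw [hβ]; exact_mod_cast hBb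
  have hβ2 : 2 ≤ β := by
    have : (2 : ℝ) ≤ b := by exact_mod_cast hb2
    linarith
  have hβ1 : 1 ≤ β := by linarith
  have hβ0 : 0 < β := by linarith
  have hself : ∀ m : ℕ, (m : ℝ) ≤ β ^ m := by
    intro m
    have h1 : (m : ℝ) ≤ (2 : ℝ) ^ m := by exact_mod_cast (Nat.lt_two_pow_self (n := m)).le
    exact h1.trans (pow_le_pow_left₀ (by norm_num) hβ2 m)
  have hb0 : (0 : ℝ) ≤ b := Nat.cast_nonneg _
  have hbCm : (b : ℝ) ^ Cm ≤ β ^ Cm := pow_le_pow_left₀ hb0 hbβ _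
  -- the majorants
  have hpw : ∀ m, m ≤ M → β ^ Cm * ((b : ℝ) ^ Cm) ^ (Q.pd.e * m) ≤ β ^ (Cm + Cm * E0) := by
    intro m hm
    rw [pow_add, pow_mul β Cm E0]
    refine mul_le_mul_of_nonneg_left ?_ (by positivity)
    refine (pow_le_pow_left₀ (by positivity) hbCm _).trans ?_
    refine pow_le_pow_right₀ (one_le_pow₀ hβ1) ?_
    exact (Nat.mul_le_mul_left _ hm).trans heM
  have hmD' : Maj (β ^ Cm) ((b : ℝ) ^ Cm) (Dl Q.pd.x) := fun m =>
    (hmD m).trans (mul_le_mul_of_nonneg_right hbCm (by positivity))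
  have hmA' : ∀ l, Maj (β ^ Cm) ((b : ℝ) ^ Cm) ((GQ Q la).coeff l) := by
    rw [hβ]
    exact hmA
  have hαb : ∀ l m, m < M → |(α l m : ℝ)| ≤ β ^ (Cm + Cm * E0) := by
    intro l m hm
    rw [← Complex.norm_intCast, ← hα]
    exact (hmA' l _).trans (hpw m hm.le)
  have hδb : ∀ m, m < M → |(δ m : ℝ)| ≤ β ^ (Cm + Cm * E0) := by
    intro m hm
    rw [← Complex.norm_intCast, ← hδ]
    exact (hmD' _).trans (hpw m hm.le)
  -- the polynomials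
  obtain ⟨s, hs⟩ : ∃ s : ℤ, s = (Q.pd.q : ℤ) ^ Q.pd.e := ⟨_, rfl⟩
  have hsb : ∀ m, m < M → |((s ^ (M - 1 - m) : ℤ) : ℝ)| ≤ β ^ E0 := by
    intro m hm
    rw [hs]
    push_cast
    rw [← pow_mul, abs_of_nonneg (by positivity)]
    have hqb : (Q.pd.q : ℝ) ≤ β := by
      have : (Q.pd.q : ℝ) ≤ b := by exact_mod_cast Q.q_le
      linarith
    refine (pow_le_pow_left₀ (by positivity) hqb _).trans (pow_le_pow_right₀ hβ1 ?_)
    exact (Nat.mul_le_mul_left _ (by omega)).trans heM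
  have hprod : ∀ (c : ℤ) (m : ℕ), m < M → |(c : ℝ)| ≤ β ^ (Cm + Cm * E0) →
      |c * s ^ (M - 1 - m)| ≤ ((b * B : ℕ) : ℤ) ^ (Cm + Cm * E0 + E0) := by
    intro c m hm hc
    have h1 : |((c * s ^ (M - 1 - m) : ℤ) : ℝ)| ≤ ((b * B : ℕ) : ℝ) ^ (Cm + Cm * E0 + E0) := by
      rw [← hβ, Int.cast_mul, abs_mul, pow_add β (Cm + Cm * E0) E0]
      exact mul_le_mul hc (hsb m hm) (abs_nonneg _) (by positivity)
    exact_mod_cast h1
  have hfin : ∀ t : ℕ, t ≤ n * K3 + K3 →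
      (t : ℤ) * ((b * B : ℕ) : ℤ) ^ (Cm + Cm * E0 + E0) ≤ ((b * B : ℕ) : ℤ) ^ C := by
    intro t ht
    have h1 : (t : ℝ) * ((b * B : ℕ) : ℝ) ^ (Cm + Cm * E0 + E0) ≤ ((b * B : ℕ) : ℝ) ^ C := by
      rw [← hβ]
      calc (t : ℝ) * β ^ (Cm + Cm * E0 + E0) ≤ β ^ (n * K3 + K3) * β ^ (Cm + Cm * E0 + E0) :=
            mul_le_mul_of_nonneg_right ((hself t).trans (pow_le_pow_right₀ hβ1 ht)) (by positivity)
        _ = β ^ (n * K3 + K3 + (Cm + Cm * E0 + E0)) := by rw [← pow_add]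
        _ ≤ β ^ C := pow_le_pow_right₀ hβ1 (by omega)
    exact_mod_cast h1
  refine ⟨mk (range d ×ˢ range M) (fun p => (M - 1 - p.2) + (d - p.1)) (fun p => p.1)
      (fun p => α p.1 p.2 * s ^ (M - 1 - p.2)),
    mk (range M) (fun m => d + (M - 1 - m)) (fun _ => 0) (fun m => δ m * s ^ (M - 1 - m)),
    ?_, ?_, ?_, ?_, ?_⟩
  · refine mk_deg fun p hp => ?_
    rw [mem_product, mem_range, mem_range] at hp
    have := hp.1
    have := hp.2
    omega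
  · refine mk_deg fun m hm => ?_
    omega
  · intro m
    refine (mk_coeff (K := ((b * B : ℕ) : ℤ) ^ (Cm + Cm * E0 + E0)) (fun p hp => ?_) m).trans
      (hfin _ ?_)
    · rw [mem_product, mem_range, mem_range] at hp
      exact hprod _ _ hp.2 (hαb _ _ hp.2)
    · rw [card_product, card_range, card_range]
      have := Nat.mul_le_mul hdn hMK
      omega
  · intro m
    refine (mk_coeff (K := ((b * B : ℕ) : ℤ) ^ (Cm + Cm * E0 + E0)) (fun p hp => ?_) m).trans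
      (hfin _ ?_)
    · rw [mem_range] at hp
      exact hprod _ _ hp (hδb _ hp)
    · rw [card_range]
      omega
  intro x y T i hi hT hsum hbig
  have hbig' : β ^ C ≤ |(x : ℝ)| := by
    rw [hβ]
    exact_mod_cast hbig
  have hx1 : (1 : ℝ) ≤ |(x : ℝ)| := (one_le_pow₀ hβ1).trans hbig'
  have hxne : (x : ℂ) ≠ 0 := by
    intro h
    have h1 : (x : ℝ) = 0 := by exact_mod_cast h
    rw [h1, abs_zero] at hx1
    linarith
  have hxn : ‖(x : ℂ)‖ = |(x : ℝ)| := Complex.norm_intCast x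
  obtain ⟨w, hw⟩ : ∃ w : ℂ, w = T ^ Q.pd.e := ⟨_, rfl⟩
  have hsxw : (s : ℂ) * (x : ℂ) * w = 1 := by
    rw [hw, hs, ← hT, mul_pow]
    push_cast
    ring
  have hs1 : 1 ≤ ‖(s : ℂ)‖ := by
    rw [hs]
    push_cast
    rw [norm_pow, Complex.norm_natCast]
    exact one_le_pow₀ (by exact_mod_cast hq1)
  have hwx : ‖w‖ * |(x : ℝ)| ≤ 1 := by
    have h4 : ‖(s : ℂ)‖ * (‖w‖ * |(x : ℝ)|) = 1 := by
      rw [← hxn, ← norm_mul, ← norm_mul, show (s : ℂ) * (w * x) = s * x * w by ring, hsxw, norm_one]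
    have h5 : 0 ≤ ‖w‖ * |(x : ℝ)| := mul_nonneg (norm_nonneg _) (abs_nonneg _)
    nlinarith
  have hwC : ‖w‖ * β ^ C ≤ 1 := (mul_le_mul_of_nonneg_left hbig' (norm_nonneg _)).trans hwx
  have hTs : ‖T‖ * β ^ (Cm + 2) ≤ 1 := by
    have h1 : (‖T‖ * β ^ (Cm + 2)) ^ Q.pd.e ≤ 1 := by
      rw [mul_pow, ← norm_pow, ← hw, ← pow_mul]
      refine le_trans (mul_le_mul_of_nonneg_left (pow_le_pow_right₀ hβ1 ?_) (norm_nonneg _)) hwC
      have h2 : (Cm + 2) * Q.pd.e ≤ (Cm + 2) * (E0 + 1) := Nat.mul_le_mul_left _ (by omega)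
      omega
    exact (pow_le_one_iff_of_nonneg (by positivity) he0).1 h1
  have hT4 : β ^ Cm * ‖T‖ ≤ 1 / 2 := by
    have h1 : ‖T‖ * β ^ (Cm + 2) = (β ^ Cm * ‖T‖) * (β * β) := by ring
    rw [h1] at hTs
    have h2 : 0 ≤ β ^ Cm * ‖T‖ := by positivity
    nlinarith [mul_nonneg h2 (sub_nonneg.2 hβ2), mul_nonneg h2 hβ0.le,
      mul_nonneg (mul_nonneg h2 hβ0.le) (sub_nonneg.2 hβ2)]
  have hrT : (b : ℝ) ^ Cm * ‖T‖ ≤ 1 / 2 :=
    (mul_le_mul_of_nonneg_right hbCm (norm_nonneg _)).trans hT4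
  have hR0 : 0 ≤ Q.pd.R := by linarith [Q.pd.R_ge]
  have hRb : Q.pd.R ≤ β := Q.R_le.trans hbβ
  have hRT : Q.pd.R * ‖T‖ ≤ 1 / 2 := by
    have h1 : ‖T‖ * β ^ (Cm + 2) = (β * ‖T‖) * β * β ^ Cm := by ring
    have h2 : 0 ≤ β * ‖T‖ := by positivity
    have h3 : (β * ‖T‖) * 2 * 1 ≤ (β * ‖T‖) * β * β ^ Cm :=
      mul_le_mul (mul_le_mul_of_nonneg_left hβ2 h2) (one_le_pow₀ hβ1) (by norm_num) (by positivity)
    have h4 : Q.pd.R * ‖T‖ ≤ β * ‖T‖ := mul_le_mul_of_nonneg_right hRb (norm_nonneg _)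
    linarith
  -- the branch
  have hcx : CvT T (Q.pd.x i) := CvT_of hR0 (Q.pd.growth i) (by linarith)
  have hz : evT T (Q.pd.x i) = (y : ℂ) / (x : ℂ) := hcx.hasSum.unique hsum
  have hzn : ‖(y : ℂ) / (x : ℂ)‖ ≤ β ^ 2 := by
    have h1 : Maj Q.pd.R Q.pd.R (Q.pd.x i) := fun m => by
      rw [← pow_succ']
      exact Q.pd.growth i m
    have h2 := tail hR0 hR0 h1 hRT 0
    rw [range_zero, sum_empty, sub_zero, pow_zero, mul_one, hz] at h2
    nlinarith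
  have hyx : (y : ℂ) = (y : ℂ) / (x : ℂ) * (x : ℂ) := (div_mul_cancel₀ _ hxne).symm
  have hcA : ∀ l, CvT T ((GQ Q la).coeff l) := fun l => cvt_maj (by positivity) (hmA' l) (by linarith)
  have hcD : CvT T (Dl Q.pd.x) := cvt_maj (by positivity) hmD' (by linarith)
  have hid := exact' Q la hi hcA hcD hcx hz
  obtain ⟨τ, hτ⟩ : ∃ τ : ℝ, τ = 2 * β ^ (Cm + Cm * E0) := ⟨_, rfl⟩
  have hτ0 : 0 ≤ τ := by
    rw [hτ]
    positivity
  have htl : ∀ (f : PowerSeries ℂ) (g : ℕ → ℤ), Maj (β ^ Cm) ((b : ℝ) ^ Cm) f →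
      (∀ m, ¬ Q.pd.e ∣ m → PowerSeries.coeff m f = 0) →
      (∀ m, PowerSeries.coeff (Q.pd.e * m) f = (g m : ℂ)) →
      ‖evT T f - ∑ m ∈ range M, (g m : ℂ) * w ^ m‖ ≤ τ * ‖w‖ ^ M := by
    intro f g hf h0 hg
    have h1 := tail (T := T) (by positivity) (by positivity) hf hrT (Q.pd.e * M)
    rw [reix he1 h0 M, ← hw, Finset.sum_congr rfl fun m _ => by rw [hg m]] at h1
    refine h1.trans ?_
    have h2 : ‖T‖ ^ (Q.pd.e * M) = ‖w‖ ^ M := by rw [hw, norm_pow, ← pow_mul]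
    rw [mul_pow, h2, hτ]
    have h3 := mul_le_mul_of_nonneg_right (hpw M le_rfl) (pow_nonneg (norm_nonneg w) M)
    calc β ^ Cm * (((b : ℝ) ^ Cm) ^ (Q.pd.e * M) * ‖w‖ ^ M) * 2
        = 2 * (β ^ Cm * ((b : ℝ) ^ Cm) ^ (Q.pd.e * M) * ‖w‖ ^ M) := by ring
      _ ≤ 2 * (β ^ (Cm + Cm * E0) * ‖w‖ ^ M) := mul_le_mul_of_nonneg_left h3 (by norm_num)
      _ = 2 * β ^ (Cm + Cm * E0) * ‖w‖ ^ M := by ring
  have hM1 : 1 ≤ M := by omega
  have hup := upper (d := d) hM1 (α := fun l m => (α l m : ℂ)) (δ := fun m => (δ m : ℂ)) hsxw hyx hid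
    (fun l => htl _ (α l) (hmA' l) (fun m hm => res_rot Q la l hm) (hα l))
    (htl _ δ hmD' (fun m hm => res_rotD Q hm) hδ) (one_le_pow₀ hβ1) hzn (hBn (Q.kp.kap i)) hτ0 hs1
  -- the first coefficient of the discriminant
  have hex : ∃ m, δ m ≠ 0 := by
    obtain ⟨m, -, hm2⟩ := res_ord Q
    have hdv : Q.pd.e ∣ m := by
      by_contra h
      exact hm2 (res_rotD Q h)
    obtain ⟨m', rfl⟩ := hdv
    refine ⟨m', fun h => hm2 ?_⟩
    rw [hδ, h, Int.cast_zero]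
  have hm0M : Nat.find hex < M := by
    obtain ⟨m, hm1, hm2⟩ := res_ord Q
    have hdv : Q.pd.e ∣ m := by
      by_contra h
      exact hm2 (res_rotD Q h)
    obtain ⟨m', rfl⟩ := hdv
    have h1 : δ m' ≠ 0 := fun h => hm2 (by rw [hδ, h, Int.cast_zero])
    have h2 : m' ≤ 2 * d ^ 3 := by
      rw [mul_comm] at hm1
      exact Nat.le_of_mul_le_mul_right hm1 he1
    have h3 := Nat.find_min' hex h1
    omega
  have hw1 : ‖w‖ ≤ 1 := by
    have h1 : (1 : ℝ) ≤ β ^ C := one_le_pow₀ hβ1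
    have h2 : ‖w‖ * 1 ≤ ‖w‖ * β ^ C := mul_le_mul_of_nonneg_left h1 (norm_nonneg _)
    linarith
  have hsm : (M : ℝ) * β ^ (Cm + Cm * E0) * ‖w‖ ≤ 1 / 2 := by
    have h1 : (M : ℝ) * β ^ (Cm + Cm * E0) * 2 ≤ β ^ C := by
      calc (M : ℝ) * β ^ (Cm + Cm * E0) * 2 ≤ β ^ K3 * β ^ (Cm + Cm * E0) * β := by
            refine mul_le_mul (mul_le_mul_of_nonneg_right ?_ (by positivity)) hβ2 (by norm_num)
              (by positivity)
            exact (hself M).trans (pow_le_pow_right₀ hβ1 hMK)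
        _ = β ^ (K3 + (Cm + Cm * E0) + 1) := by rw [pow_succ, pow_add β K3]
        _ ≤ β ^ C := pow_le_pow_right₀ hβ1 (by omega)
    have h2 := mul_le_mul_of_nonneg_right h1 (norm_nonneg w)
    nlinarith
  have hlow := lower (d := d) hsxw hm0M (Nat.find_spec hex)
    (fun m hm => by
      by_contra h
      exact Nat.find_min hex hm h) hδb hsm hw1
  -- the values of the polynomials
  have hDe : ((MvPolynomial.eval ![x, y] (mk (range M) (fun m => d + (M - 1 - m)) (fun _ => 0)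
      (fun m => δ m * s ^ (M - 1 - m))) : ℤ) : ℂ) =
      ∑ m ∈ range M, (δ m : ℂ) * (s : ℂ) ^ (M - 1 - m) * (x : ℂ) ^ (d + (M - 1 - m)) := by
    rw [mk_eval]
    push_cast
    refine Finset.sum_congr rfl fun m _ => ?_
    rw [pow_zero, mul_one]
  have hAe : ((MvPolynomial.eval ![x, y] (mk (range d ×ˢ range M)
      (fun p => (M - 1 - p.2) + (d - p.1)) (fun p => p.1)
      (fun p => α p.1 p.2 * s ^ (M - 1 - p.2))) : ℤ) : ℂ) =
      ∑ l ∈ range d, ∑ m ∈ range M, (α l m : ℂ) * (s : ℂ) ^ (M - 1 - m) *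
        (x : ℂ) ^ ((M - 1 - m) + (d - l)) * (y : ℂ) ^ l := by
    rw [mk_eval, Finset.sum_product]
    push_cast
    rfl
  have hDn : |((MvPolynomial.eval ![x, y] (mk (range M) (fun m => d + (M - 1 - m)) (fun _ => 0)
      (fun m => δ m * s ^ (M - 1 - m))) : ℤ) : ℝ)| =
      ‖∑ m ∈ range M, (δ m : ℂ) * (s : ℂ) ^ (M - 1 - m) * (x : ℂ) ^ (d + (M - 1 - m))‖ := by
    rw [← hDe, Complex.norm_intCast]
  rw [← hDn, hxn] at hlow
  have hxd : 0 < |(x : ℝ)| ^ d := pow_pos (by linarith) _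
  constructor
  · intro h
    rw [h, Int.cast_zero, abs_zero] at hlow
    linarith
  · rw [hAe, hDe]
    rw [hxn] at hup
    refine hup.trans ?_
    rw [← hβ]
    have h1 : τ * (d * (β ^ 2) ^ d + B) * 2 ≤ β ^ C := by
      have h2 : (d : ℝ) * (β ^ 2) ^ d ≤ β ^ (3 * n + 1) := by
        rw [← pow_mul]
        calc (d : ℝ) * β ^ (2 * d) ≤ β ^ d * β ^ (2 * d) :=
              mul_le_mul_of_nonneg_right (hself d) (by positivity)
          _ = β ^ (d + 2 * d) := by rw [← pow_add]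
          _ ≤ β ^ (3 * n + 1) := pow_le_pow_right₀ hβ1 (by omega)
      have h3 : (B : ℝ) ≤ β ^ (3 * n + 1) := by
        refine hBβ.trans ?_
        calc β = β ^ 1 := (pow_one β).symm
          _ ≤ β ^ (3 * n + 1) := pow_le_pow_right₀ hβ1 (by omega)
      have h4 : τ ≤ β ^ (Cm + Cm * E0 + 1) := by
        rw [hτ, pow_succ, mul_comm]
        exact mul_le_mul_of_nonneg_left hβ2 (by positivity)
      calc τ * (d * (β ^ 2) ^ d + B) * 2
          ≤ β ^ (Cm + Cm * E0 + 1) * (β ^ (3 * n + 1) + β ^ (3 * n + 1)) * 2 := by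
            refine mul_le_mul_of_nonneg_right ?_ (by norm_num)
            exact mul_le_mul h4 (add_le_add h2 h3) (by positivity) (by positivity)
        _ = β ^ (Cm + Cm * E0 + 1) * β ^ (3 * n + 1) * (2 * 2) := by ring
        _ ≤ β ^ (Cm + Cm * E0 + 1) * β ^ (3 * n + 1) * (β * β) :=
            mul_le_mul_of_nonneg_left (mul_le_mul hβ2 hβ2 (by norm_num) hβ0.le) (by positivity)
        _ = β ^ (Cm + Cm * E0 + 1 + (3 * n + 1) + 1 + 1) := by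
            rw [← pow_add, ← pow_two, ← pow_add]
        _ ≤ β ^ C := pow_le_pow_right₀ hβ1 (by omega)
    have h5 : 0 ≤ τ * (d * (β ^ 2) ^ d + B) := by positivity
    calc |(x : ℝ)| ^ d * (τ * (d * (β ^ 2) ^ d + B))
        = (|(x : ℝ)| ^ d / 2) * (τ * (d * (β ^ 2) ^ d + B) * 2) := by ring
      _ ≤ |((MvPolynomial.eval ![x, y] (mk (range M) (fun m => d + (M - 1 - m)) (fun _ => 0)
            (fun m => δ m * s ^ (M - 1 - m))) : ℤ) : ℝ)| * β ^ C :=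
          mul_le_mul hlow h1 (by positivity) (abs_nonneg _)
      _ = _ := mul_comm _ _

end Pool.Agent.H8.OA
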