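import Pool.Agent.H8.OA.ResD

/-! # [H8 OA RES1] The interpolation polynomial: algebra

`gp_eval`: for `j ≠ i` the product `∏_(l ≠ j) (x_i - x_l)` contains the factor `x_i - x_i = 0`; for `j = i` the term is `a_i W_i ∏_(l ≠ i) (x_i - x_l) = a_i Dl` (`Finset.mul_prod_erase`).
`gp_map`, `dl_map`: ring homomorphisms. `gp_perm`, `dl_perm`: re-index the sums and products by the permutation (`Finset.prod_equiv`, `Equiv.prod_comp`, `univ.erase (π m)` is the image of `univ.erase m`).
`gp_coeff`: `natDegree < d` (`d ≥ 1`; each product has `d - 1` monic linear factors). -/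

namespace Pool.Agent.H8.OA

open Finset Polynomial

variable {A B : Type*} [CommRing A] [CommRing B] {d : ℕ}

theorem gp_eval (x a : Fin d → A) (i : Fin d) : (Gp x a).eval (x i) = a i * Dl x := by
  unfold Gp
  rw [eval_finset_sum, Finset.sum_eq_single i]
  · rw [eval_mul, eval_C, eval_prod]
    simp only [eval_sub, eval_X, eval_C]
    unfold Dl Wc
    rw [← Finset.mul_prod_erase univ (fun m => ∏ l ∈ univ.erase m, (x m - x l)) (mem_univ i)]
    ring
  · intro j _ hj
    rw [eval_mul, eval_prod, Finset.prod_eq_zero (i := i) (mem_erase.2 ⟨hj.symm, mem_univ i⟩), mul_zero]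
    rw [eval_sub, eval_X, eval_C, sub_self]
  · intro h
    exact absurd (mem_univ i) h

theorem gp_map (φ : A →+* B) (x a : Fin d → A) : (Gp x a).map φ = Gp (fun i => φ (x i)) (fun i => φ (a i)) := by
  unfold Gp Wc
  rw [Polynomial.map_sum]
  refine Finset.sum_congr rfl fun j _ => ?_
  rw [Polynomial.map_mul, Polynomial.map_prod, map_C, map_mul, map_prod]
  congr 1
  · congr 2
    refine Finset.prod_congr rfl fun m _ => ?_
    rw [map_prod]
    exact Finset.prod_congr rfl fun l _ => map_sub φ _ _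
  · refine Finset.prod_congr rfl fun l _ => ?_
    rw [Polynomial.map_sub, map_X, map_C]

theorem dl_map (φ : A →+* B) (x : Fin d → A) : φ (Dl x) = Dl (fun i => φ (x i)) := by
  unfold Dl
  rw [map_prod]
  refine Finset.prod_congr rfl fun m _ => ?_
  rw [map_prod]
  exact Finset.prod_congr rfl fun l _ => map_sub φ _ _

private theorem pe {M : Type*} [CommMonoid M] (π : Equiv.Perm (Fin d)) (j : Fin d) (f : Fin d → M) :
    ∏ l ∈ univ.erase j, f (π l) = ∏ l ∈ univ.erase (π j), f l := by
  refine Finset.prod_bij (fun l _ => π l) (fun l hl => ?_) (fun l _ m _ h => π.injective h) (fun m hm => ?_)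
    (fun l _ => rfl)
  · rw [mem_erase] at hl ⊢
    exact ⟨fun h => hl.1 (π.injective h), mem_univ _⟩
  · rw [mem_erase] at hm
    refine ⟨π.symm m, mem_erase.2 ⟨fun h => hm.1 ?_, mem_univ _⟩, π.apply_symm_apply m⟩
    rw [← h, π.apply_symm_apply]

theorem gp_perm (x a : Fin d → A) (π : Equiv.Perm (Fin d)) : Gp (fun i => x (π i)) (fun i => a (π i)) = Gp x a := by
  unfold Gp Wc
  rw [← Equiv.sum_comp π (fun j => C (a j * ∏ m ∈ univ.erase j, ∏ l ∈ univ.erase m, (x m - x l)) *
    ∏ l ∈ univ.erase j, (X - C (x l)))]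
  refine Finset.sum_congr rfl fun j _ => ?_
  rw [pe π j (fun l => X - C (x l)), ← pe π j (fun m => ∏ l ∈ univ.erase m, (x m - x l))]
  congr 3
  refine Finset.prod_congr rfl fun m _ => ?_
  exact pe π m (fun l => x (π m) - x l)

theorem dl_perm (x : Fin d → A) (π : Equiv.Perm (Fin d)) : Dl (fun i => x (π i)) = Dl x := by
  unfold Dl
  rw [← Equiv.prod_comp π (fun m => ∏ l ∈ univ.erase m, (x m - x l))]
  refine Finset.prod_congr rfl fun m _ => ?_
  exact pe π m (fun l => x (π m) - x l)

theorem gp_coeff [Nontrivial A] (x a : Fin d → A) {l : ℕ} (hl : d ≤ l) : (Gp x a).coeff l = 0 := by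
  unfold Gp
  rw [finset_sum_coeff]
  refine Finset.sum_eq_zero fun j _ => ?_
  have hd : 0 < d := lt_of_le_of_lt (Nat.zero_le _) j.2
  refine coeff_eq_zero_of_natDegree_lt (lt_of_le_of_lt (natDegree_C_mul_le _ _) ?_)
  refine lt_of_le_of_lt (natDegree_prod_le _ _) ?_
  refine lt_of_le_of_lt (Finset.sum_le_sum fun m _ => natDegree_X_sub_C_le (x m)) ?_
  rw [Finset.sum_const, card_erase_of_mem (mem_univ j), card_univ, Fintype.card_fin, smul_eq_mul, mul_one]
  omega

end Pool.Agent.H8.OA
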