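import Pool.Agent.H8.OA.Res1
import Pool.Agent.H8.AW.Pt

/-! # [H8 OA RES2] Only the powers of `T^e` occur

`ζ` a primitive `e`-th root of unity, `φ = PowerSeries.rescale ζ`. `tq_rescale`, `perm_of` (H8/AW/Pt.lean): for every `i` there is `π i` with `φ (x i) = x (π i)`; `φ` is injective (`ζ ≠ 0`), so `π` is injective on `Fin d`, a permutation
(`Finite.injective_iff_bijective`, `Equiv.ofBijective`). `Q.kp.rot`: `i ∈ S → π i ∈ S ∧ kap (π i) = kap i`. `π` maps the finite set `S` into itself injectively, so onto: `i ∉ S → π i ∉ S`. So `el Q la (π i) = el Q la i`, and `φ (C c) = C c`.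
`gp_map`, `gp_perm`: `(GQ Q la).map φ = GQ Q la`: the coefficients `f` satisfy `rescale ζ f = f`: `ζ^m f_m = f_m`; if `e ∤ m` then `ζ^m ≠ 1` and `f_m = 0`. The same for `Dl`. -/

namespace Pool.Agent.H8.OA

open Finset Polynomial Pool.Agent.H87.SA2 Pool.Agent.H8.AS Pool.Agent.H8.AW

variable {k : Type} [Field k] {n d b : ℕ} {F : ℕ → ℕ → ℤ}

private theorem perm_ex (Q : CrvS k n d b F) {ζ : ℂ} (hζe : ζ ^ Q.pd.e = 1) :
    ∃ π : Equiv.Perm (Fin d), (∀ i, PowerSeries.rescale ζ (Q.pd.x i) = Q.pd.x (π i)) ∧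
      ∀ la i, el Q la (π i) = el Q la i := by
  have he : Q.pd.e ≠ 0 := by have := Q.pd.e_pos; omega
  have hζ0 : ζ ≠ 0 := by
    rintro rfl
    rw [zero_pow he] at hζe
    exact zero_ne_one hζe
  have hinv : ∀ f : PowerSeries ℂ, PowerSeries.rescale ζ⁻¹ (PowerSeries.rescale ζ f) = f := by
    intro f
    ext m
    rw [PowerSeries.coeff_rescale, PowerSeries.coeff_rescale, ← mul_assoc, ← mul_pow,
      inv_mul_cancel₀ hζ0, one_pow, one_mul]
  choose g hg using fun i => perm_of Q.pd (PowerSeries.rescale ζ) (tq_rescale hζe) i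
  have hinj : Function.Injective g := by
    intro i j hij
    have h1 : PowerSeries.rescale ζ (Q.pd.x i) = PowerSeries.rescale ζ (Q.pd.x j) := by
      rw [hg i, hg j, hij]
    have h2 := congrArg (PowerSeries.rescale ζ⁻¹) h1
    rw [hinv, hinv] at h2
    exact Q.pd.x_inj h2
  refine ⟨Equiv.ofBijective g (Finite.injective_iff_bijective.1 hinj), hg, fun la i => ?_⟩
  rw [Equiv.ofBijective_apply]
  by_cases hi : i ∈ Q.kp.S
  · obtain ⟨h1, h2⟩ := Q.kp.rot ζ i hi (g i) hζe (hg i)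
    unfold el
    rw [if_pos h1, if_pos hi, h2]
  · have h1 : g i ∉ Q.kp.S := by
      intro h2
      refine hi (Q.kp.rot ζ⁻¹ (g i) h2 i ?_ ?_).1
      · rw [inv_pow, hζe, inv_one]
      · rw [← hg i, hinv]
    unfold el
    rw [if_neg h1, if_neg hi]

private theorem coeff_zero_of {ζ : ℂ} {f : PowerSeries ℂ} (h : PowerSeries.rescale ζ f = f) {m : ℕ}
    (hm : ζ ^ m ≠ 1) : PowerSeries.coeff m f = 0 := by
  have h1 := congrArg (PowerSeries.coeff m) h
  rw [PowerSeries.coeff_rescale] at h1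
  have h2 : (ζ ^ m - 1) * PowerSeries.coeff m f = 0 := by
    rw [sub_mul, one_mul, h1, sub_self]
  exact (mul_eq_zero.1 h2).resolve_left (sub_ne_zero.2 hm)

theorem res_rot (Q : CrvS k n d b F) (la : k) (l : ℕ) {m : ℕ} (h : ¬ Q.pd.e ∣ m) :
    PowerSeries.coeff m ((GQ Q la).coeff l) = 0 := by
  have he : Q.pd.e ≠ 0 := by have := Q.pd.e_pos; omega
  have hp := Complex.isPrimitiveRoot_exp Q.pd.e he
  obtain ⟨π, h1, h2⟩ := perm_ex Q hp.pow_eq_one
  refine coeff_zero_of (ζ := Complex.exp (2 * Real.pi * Complex.I / Q.pd.e)) ?_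
    (fun h3 => h ((hp.pow_eq_one_iff_dvd m).1 h3))
  have h3 : (GQ Q la).map (PowerSeries.rescale (Complex.exp (2 * Real.pi * Complex.I / Q.pd.e))) =
      GQ Q la := by
    unfold GQ
    rw [gp_map]
    have h4 := gp_perm Q.pd.x (fun i => PowerSeries.C (el Q la i)) π
    rw [← h4]
    congr 1
    · funext i
      exact h1 i
    · funext i
      rw [yr_rC, h2]
  conv_rhs => rw [← h3]
  rw [Polynomial.coeff_map]

theorem res_rotD (Q : CrvS k n d b F) {m : ℕ} (h : ¬ Q.pd.e ∣ m) : PowerSeries.coeff m (Dl Q.pd.x) = 0 := by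
  have he : Q.pd.e ≠ 0 := by have := Q.pd.e_pos; omega
  have hp := Complex.isPrimitiveRoot_exp Q.pd.e he
  obtain ⟨π, h1, -⟩ := perm_ex Q hp.pow_eq_one
  refine coeff_zero_of (ζ := Complex.exp (2 * Real.pi * Complex.I / Q.pd.e)) ?_
    (fun h3 => h ((hp.pow_eq_one_iff_dvd m).1 h3))
  rw [dl_map, ← dl_perm Q.pd.x π]
  congr 1
  funext i
  exact h1 i

end Pool.Agent.H8.OA
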