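import Pool.Agent.H8.AS.Defs

/-! # [H8 OA RESD] Interpolation at the branches at infinity: definitions

`x : Fin d → A`, `a : Fin d → A`. `Dl x = ∏_m ∏_(l ≠ m) (x_m - x_l)`, `Wc x j` = the product of the factors with `m ≠ j`, `Gp x a = ∑_j a_j W_j ∏_(l ≠ j) (Z - x_l)`, so `Gp(x_i) = a_i Dl`.
`el Q la i` = the value of `la ∈ k` at the branch `i ∈ S` by the embedding `kap i`, and `0` for `i ∉ S`. `Maj c r f`: the `m`-th coefficient of `f` is at most `c r^m`. -/

namespace Pool.Agent.H8.OA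

open Finset Polynomial Pool.Agent.H87.SA2 Pool.Agent.H8.AS

/-- the discriminant -/
def Dl {A : Type*} [CommRing A] {d : ℕ} (x : Fin d → A) : A := ∏ m, ∏ l ∈ univ.erase m, (x m - x l)

/-- the factors of the discriminant with `m ≠ j` -/
def Wc {A : Type*} [CommRing A] {d : ℕ} (x : Fin d → A) (j : Fin d) : A :=
  ∏ m ∈ univ.erase j, ∏ l ∈ univ.erase m, (x m - x l)

/-- the interpolation polynomial times the discriminant -/
noncomputable def Gp {A : Type*} [CommRing A] {d : ℕ} (x a : Fin d → A) : A[X] :=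
  ∑ j, C (a j * Wc x j) * ∏ l ∈ univ.erase j, (X - C (x l))

open Classical in
/-- the value of `la` at the branch `i`, zero outside of `S` -/
noncomputable def el {k : Type} [Field k] {n d b : ℕ} {F : ℕ → ℕ → ℤ} (Q : CrvS k n d b F) (la : k) (i : Fin d) : ℂ :=
  if i ∈ Q.kp.S then Q.kp.kap i la else 0

/-- a majorant -/
def Maj (c r : ℝ) (f : PowerSeries ℂ) : Prop := ∀ m, ‖PowerSeries.coeff m f‖ ≤ c * r ^ m

/-- the interpolation polynomial of a curve -/
noncomputable def GQ {k : Type} [Field k] {n d b : ℕ} {F : ℕ → ℕ → ℤ} (Q : CrvS k n d b F) (la : k) :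
    (PowerSeries ℂ)[X] := Gp Q.pd.x (fun i => PowerSeries.C (el Q la i))

end Pool.Agent.H8.OA
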