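import Pool.Agent.H8.OA.Ext
import Pool.Agent.H12.OG.Def
import Pool.Agent.H82.NS.Def

/-! # [H8 OA RST] Linked over the larger constant field implies linked over the smaller one

`glink_rst`: for `W` over `k` in `F` take `V` from `ext_val`; the three conditions for `V` at `l ∘ j`, `m ∘ j` are those for `W` at `l₁`, `m₁` (`z ∈ W ↔ algebraMap F M z ∈ V`, the same for nonunits by
`ValuationSubring.mem_nonunits_iff_or`, see H12/ON/Lnk).
`alg_of_rel`: if `m ξ` is transcendental over the image of `l`, apply `ld` with `E := L₁` (algebra structure on `M` by `l`), `F := L₁` (by `m`), `x = ξ` (`letI := l.toRingHom.toAlgebra` on a type synonym or `l.fieldRange`): all `d i = 0`,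
contradiction. So `m ξ` is algebraic over `l(L₁)`, which is algebraic over `k(l ξ)`. -/

namespace Pool.Agent.H8.OA

open IntermediateField Pool.Agent.H12.ON Pool.Agent.H12.OG Pool.Agent.H82.NS

theorem glink_rst {k E F M L₁ L' : Type} [Field k] [CharZero k] [Field E] [Field F] [Field M] [Field L₁] [Field L']
    [Algebra k E] [Algebra k F] [Algebra E M] [Algebra F M] [Algebra k M] [IsScalarTower k E M] [IsScalarTower k F M]
    [Algebra k L₁] [Algebra E L'] (hcl : RelCl k E) {x : F} (hx : Transcendental E (algebraMap F M x))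
    (hF : Algebra.IsAlgebraic k⟮x⟯ F) (j : L₁ →+* L') {ξ g : L₁} {l m : L' →ₐ[E] M} {l₁ m₁ : L₁ →ₐ[k] F}
    (hl : ∀ z, algebraMap F M (l₁ z) = l (j z)) (hm : ∀ z, algebraMap F M (m₁ z) = m (j z))
    (h : GLink (j ξ) (j g) l m) : GLink ξ g l₁ m₁ := by
  intro W hW
  obtain ⟨V, hV, hVW⟩ := ext_val hcl hx hF W hW
  have hmem : ∀ z : F, z ∈ W ↔ algebraMap F M z ∈ V := by
    intro z
    rw [← hVW]
    exact Iff.rfl
  obtain ⟨h1, h2⟩ := h V hV
  rw [← hl, ← hm] at h1 h2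
  refine ⟨by rw [hmem, hmem]; exact h1, fun h3 => ?_⟩
  rw [hmem] at h3
  obtain ⟨h4, h5, h6⟩ := h2 h3
  rw [← map_div₀] at h4 h5
  rw [← hl, ← hm, ← map_sub, ValuationSubring.mem_nonunits_iff_or] at h6
  refine ⟨(hmem _).2 h4, (hmem _).2 h5, ?_⟩
  rw [ValuationSubring.mem_nonunits_iff_or]
  rcases h6 with h6 | h6
  · exact Or.inl ((map_eq_zero _).1 h6)
  · rw [← map_inv₀, ← hmem] at h6
    exact Or.inr h6

/-- `ld` for embeddings -/
private theorem ld_hom {k E F M : Type} [Field k] [CharZero k] [Field E] [Field F] [Field M] [Algebra k E]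
    [Algebra k F] [Algebra k M] (hcl : RelCl k E) (l : E →ₐ[k] M) (m : F →ₐ[k] M) {x : F}
    (hx : ∀ p : Polynomial E, p.eval₂ (l : E →+* M) (m x) = 0 → p = 0) (hF : Algebra.IsAlgebraic k⟮x⟯ F)
    {ι : Type} [Fintype ι] {c : ι → E} (hc : LinearIndependent k c) {w : ι → F}
    (h : ∑ i, l (c i) * m (w i) = 0) : ∀ i, w i = 0 := by
  letI : Algebra E M := (l : E →+* M).toAlgebra
  letI : Algebra F M := (m : F →+* M).toAlgebra
  have t1 : IsScalarTower k E M := IsScalarTower.of_algebraMap_eq fun r => (l.commutes r).symm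
  have t2 : IsScalarTower k F M := IsScalarTower.of_algebraMap_eq fun r => (m.commutes r).symm
  have hx' : Transcendental E (algebraMap F M x) := transcendental_iff.2 fun p hp => hx p hp
  exact ld hcl hx' hF hc h

private theorem mem_map_adjoin {k L M : Type} [Field k] [Field L] [Field M] [Algebra k L] [Algebra k M]
    (l : L →ₐ[k] M) (ξ : L) (a : L) (ha : a ∈ k⟮ξ⟯) : l a ∈ k⟮l ξ⟯ := by
  have h1 : l a ∈ (k⟮ξ⟯).map l := ⟨a, ha, rfl⟩
  rw [IntermediateField.adjoin_map, Set.image_singleton] at h1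
  exact h1

/-- the image of `l` is algebraic over `k(l ξ)` -/
private theorem im_alg {k L M : Type} [Field k] [Field L] [Field M] [Algebra k L] [Algebra k M]
    (l : L →ₐ[k] M) (ξ : L) (z : L) (hz : IsAlgebraic k⟮ξ⟯ z) : IsAlgebraic k⟮l ξ⟯ (l z) := by
  obtain ⟨q, hq0, hq⟩ := hz
  obtain ⟨f, hf⟩ : ∃ f : k⟮ξ⟯ →+* k⟮l ξ⟯, ∀ a, ((f a : k⟮l ξ⟯) : M) = l (a : L) :=
    ⟨((l : L →+* M).comp (algebraMap k⟮ξ⟯ L)).codRestrict k⟮l ξ⟯
      (fun a => mem_map_adjoin l ξ _ a.2), fun _ => rfl⟩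
  refine ⟨q.map f, (Polynomial.map_ne_zero_iff f.injective).2 hq0, ?_⟩
  rw [Polynomial.aeval_def, Polynomial.eval₂_map]
  have hc : (algebraMap k⟮l ξ⟯ M).comp f = (l : L →+* M).comp (algebraMap k⟮ξ⟯ L) := by
    ext a
    exact hf a
  rw [hc]
  have h2 := Polynomial.hom_eval₂ q (algebraMap k⟮ξ⟯ L) (l : L →+* M) z
  rw [← Polynomial.aeval_def, hq, map_zero] at h2
  exact h2.symm

theorem alg_of_rel {k L₁ M : Type} [Field k] [CharZero k] [Field L₁] [Field M] [Algebra k L₁] [Algebra k M] {ξ : L₁}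
    (hK : FF k ξ) (hcl : RelCl k L₁) (l m : L₁ →ₐ[k] M) {ι : Type} [Fintype ι] {c d : ι → L₁}
    (hc : LinearIndependent k c) (hd : ∃ i, d i ≠ 0) (h : ∑ i, l (c i) * m (d i) = 0) :
    IsAlgebraic k⟮l ξ⟯ (m ξ) := by
  have hfin := hK.fin
  have hF : Algebra.IsAlgebraic k⟮ξ⟯ L₁ := inferInstance
  by_contra hn
  obtain ⟨i, hi⟩ := hd
  refine hi (ld_hom hcl l m (x := ξ) (fun p hp => ?_) hF hc h i)
  by_contra hp0
  refine hn ?_
  have hmem : ∀ z, (l : L₁ →+* M) z ∈ algebraicClosure k⟮l ξ⟯ M := fun z =>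
    mem_algebraicClosure_iff.2 (im_alg l ξ z (hF.isAlgebraic z))
  have h1 : IsAlgebraic (algebraicClosure k⟮l ξ⟯ M) (m ξ) := by
    obtain ⟨f, hf⟩ : ∃ f : L₁ →+* algebraicClosure k⟮l ξ⟯ M,
        (algebraMap (algebraicClosure k⟮l ξ⟯ M) M).comp f = (l : L₁ →+* M) :=
      ⟨(l : L₁ →+* M).codRestrict (algebraicClosure k⟮l ξ⟯ M) hmem, RingHom.ext fun _ => rfl⟩
    refine ⟨p.map f, (Polynomial.map_ne_zero_iff f.injective).2 hp0, ?_⟩
    rw [Polynomial.aeval_def, Polynomial.eval₂_map, hf]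
    exact hp
  exact h1.restrictScalars k⟮l ξ⟯

end Pool.Agent.H8.OA
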