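import Pool.Agent.H8.OA.Dvf

/-! # [H8 OA RTR] A relation at the large point holds on the curve

`R N` of degree `≤ C`, coefficients `r_m(N)`. `B N = ∑_m r_m(N) X^(m 0) Y^(m 1) A₁^(m 2) A₂^(m 3) A₀^(2 C - m 2 - m 3)`, the sum over the finite box of the `m : Fin 4 →₀ ℕ` with all entries `≤ C` (the same box for almost all `N`; e.g. the image of `Fin 4 → Fin (C+1)`); `Sb H B`: `sb_sum`, `sb_mul`, `sb_pow`, `sb_C`, `sb_X` (SBD).
At `(x N, y N)`: `A₁ = a A₀`, `A₂ = b A₀`: `B N (x,y) = A₀^(2C) R N (x, y, a, b) = 0`. `dvf`: `map (G N) ∣ map (B N)` over `ℚ` for almost all `N`. So at a complex point `(s,t)` with `G N (s,t) = 0`: `B N (s,t) = 0`, and `B N (s,t) = A₀(s,t)^(2C) R N (s,t,U,W)` by the same computation over `ℂ`; `A₀(s,t) ≠ 0`. -/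

namespace Pool.Agent.H8.OA

open Filter MvPolynomial Pool.Agent.H82.NS Pool.Agent.H12.ON

private theorem rtr_box (D : ℕ) : ∃ T : Finset (Fin 4 →₀ ℕ), ∀ m, m ∈ T ↔ ∀ i, m i ≤ D := by
  classical
  refine ⟨(Finset.univ : Finset (Fin 4 → Fin (D + 1))).image
    (fun g => Finsupp.equivFunOnFinite.symm (fun i => (g i : ℕ))), fun m => ?_⟩
  rw [Finset.mem_image]
  constructor
  · rintro ⟨g, -, rfl⟩ i
    rw [Finsupp.equivFunOnFinite_symm_apply_apply]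
    exact Nat.lt_succ_iff.1 (g i).2
  · intro h
    refine ⟨fun i => ⟨m i, Nat.lt_succ_of_le (h i)⟩, Finset.mem_univ _, ?_⟩
    ext i
    rw [Finsupp.equivFunOnFinite_symm_apply_apply]

private theorem rtr_deg {D : ℕ} {R : MvPolynomial (Fin 4) ℤ} (h : R.totalDegree ≤ D)
    {m : Fin 4 →₀ ℕ} (hm : m ∈ R.support) (i : Fin 4) : m i ≤ D := by
  have h1 := MvPolynomial.le_totalDegree hm
  rw [Finsupp.sum_fintype _ _ (fun _ => rfl)] at h1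
  exact ((Finset.single_le_sum (fun j _ => Nat.zero_le (m j)) (Finset.mem_univ i)).trans h1).trans h

/-- the polynomial `B` -/
private noncomputable def rtrB (D : ℕ) (T : Finset (Fin 4 →₀ ℕ)) (R : MvPolynomial (Fin 4) ℤ)
    (A0 A1 A2 : MvPolynomial (Fin 2) ℤ) : MvPolynomial (Fin 2) ℤ :=
  ∑ m ∈ T, C (coeff m R) * X 0 ^ m 0 * X 1 ^ m 1 * A1 ^ m 2 * A2 ^ m 3 *
    A0 ^ (2 * D - m 2 - m 3)

private theorem rtr_ev {S : Type} [CommRing S] (f : ℤ →+* S) {D : ℕ} {T : Finset (Fin 4 →₀ ℕ)}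
    (hT : ∀ m, m ∈ T ↔ ∀ i, m i ≤ D) {R : MvPolynomial (Fin 4) ℤ} (hR : R.totalDegree ≤ D)
    (A0 A1 A2 : MvPolynomial (Fin 2) ℤ) (s t U W : S)
    (h1 : eval₂ f ![s, t] A1 = U * eval₂ f ![s, t] A0)
    (h2 : eval₂ f ![s, t] A2 = W * eval₂ f ![s, t] A0) :
    eval₂ f ![s, t] (rtrB D T R A0 A1 A2) =
      eval₂ f ![s, t] A0 ^ (2 * D) * eval₂ f ![s, t, U, W] R := by
  have hterm : ∀ m ∈ T, eval₂ f ![s, t] (C (coeff m R) * X 0 ^ m 0 * X 1 ^ m 1 * A1 ^ m 2 * A2 ^ m 3 *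
      A0 ^ (2 * D - m 2 - m 3)) = eval₂ f ![s, t] A0 ^ (2 * D) *
        (f (coeff m R) * ∏ i, ![s, t, U, W] i ^ m i) := by
    intro m hm
    have h3 := (hT m).1 hm 2
    have h4 := (hT m).1 hm 3
    obtain ⟨k, hk⟩ : ∃ k, 2 * D = m 2 + m 3 + k := ⟨2 * D - (m 2 + m 3), by omega⟩
    have hk2 : 2 * D - m 2 - m 3 = k := by omega
    rw [hk2, hk, Fin.prod_univ_four]
    simp only [eval₂_mul, eval₂_pow, eval₂_C, eval₂_X, h1, h2]
    simp only [Matrix.cons_val_zero, Matrix.cons_val_one, Matrix.cons_val]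
    ring
  unfold rtrB
  rw [eval₂_sum, Finset.sum_congr rfl hterm, ← Finset.mul_sum, eval₂_eq' f ![s, t, U, W] R]
  congr 1
  symm
  refine Finset.sum_subset (fun m hm => (hT m).2 fun i => rtr_deg hR hm i) fun m _ hm => ?_
  rw [MvPolynomial.notMem_support_iff.1 hm, map_zero, zero_mul]

private theorem rtr_sb {H : ℕ → ℕ} {D : ℕ} (T : Finset (Fin 4 →₀ ℕ)) {R : ℕ → MvPolynomial (Fin 4) ℤ}
    (hR : Sb H R) {A : Fin 3 → ℕ → MvPolynomial (Fin 2) ℤ} (hA : ∀ i, Sb H (A i)) :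
    Sb H (fun N => rtrB D T (R N) (A 0 N) (A 1 N) (A 2 N)) := by
  obtain ⟨E, hE⟩ := hR
  unfold rtrB
  refine sb_sum T fun m _ => ?_
  have hc : Si H (fun N => coeff m (R N)) := ⟨E, hE.mono fun N h => h.2 m⟩
  exact sb_mul (sb_mul (sb_mul (sb_mul (sb_mul (sb_C hc) (sb_pow (sb_X 0) _)) (sb_pow (sb_X 1) _))
    (sb_pow (hA 1) _)) (sb_pow (hA 2) _)) (sb_pow (hA 0) _)

private theorem rtr_dvd {F G : MvPolynomial (Fin 2) ℤ}
    (h : map (Int.castRingHom ℚ) F ∣ map (Int.castRingHom ℚ) G) (v : Fin 2 → ℂ)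
    (h0 : eval₂ (algebraMap ℤ ℂ) v F = 0) : eval₂ (algebraMap ℤ ℂ) v G = 0 := by
  obtain ⟨Q, hQ⟩ := h
  have hf : algebraMap ℤ ℂ = (algebraMap ℚ ℂ).comp (Int.castRingHom ℚ) := RingHom.ext_int _ _
  have h1 := congrArg (eval₂ (algebraMap ℚ ℂ) v) hQ
  rw [eval₂_mul, eval₂_map, eval₂_map, ← hf, h0, zero_mul] at h1
  exact h1

theorem rtr {H : ℕ → ℕ} {G : ℕ → MvPolynomial (Fin 2) ℤ} (hG : Sb H G)
    (hi : ∀ᶠ N in UU, Irreducible (map (Int.castRingHom ℚ) (G N))) {x y a b : ℕ → ℤ}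
    (h1 : ∀ᶠ N in UU, eval ![x N, y N] (G N) = 0)
    (hx : Transcendental (Q0 H) (qz x) ∨ Transcendental (Q0 H) (qz y)) {A : Fin 3 → ℕ → MvPolynomial (Fin 2) ℤ}
    (hA : ∀ i, Sb H (A i)) (hA' : ∀ᶠ N in UU,
      eval ![x N, y N] (A 0 N) ≠ 0 ∧ eval ![x N, y N] (A 1 N) = a N * eval ![x N, y N] (A 0 N) ∧
        eval ![x N, y N] (A 2 N) = b N * eval ![x N, y N] (A 0 N))
    {R : ℕ → MvPolynomial (Fin 4) ℤ} (hR : Sb H R)
    (hR0 : ∀ᶠ N in UU, eval ![x N, y N, a N, b N] (R N) = 0) :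
    ∀ᶠ N in UU, ∀ s t U W : ℂ, aeval ![s, t] (G N) = 0 → aeval ![s, t] (A 0 N) ≠ 0 →
      aeval ![s, t] (A 1 N) = U * aeval ![s, t] (A 0 N) → aeval ![s, t] (A 2 N) = W * aeval ![s, t] (A 0 N) →
      aeval ![s, t, U, W] (R N) = 0 := by
  have hR' := hR
  obtain ⟨D, hD⟩ := hR'
  obtain ⟨T, hT⟩ := rtr_box D
  have hB := rtr_sb (D := D) T hR hA
  have h2 : ∀ᶠ N in UU, eval ![x N, y N] (rtrB D T (R N) (A 0 N) (A 1 N) (A 2 N)) = 0 := by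
    filter_upwards [hD, hA', hR0] with N h3 h4 h5
    have h6 := rtr_ev (RingHom.id ℤ) hT h3.1 (A 0 N) (A 1 N) (A 2 N) (x N) (y N) (a N) (b N)
      h4.2.1 h4.2.2
    have h7 : eval₂ (RingHom.id ℤ) ![x N, y N, a N, b N] (R N) = 0 := h5
    rw [h7, mul_zero] at h6
    exact h6
  filter_upwards [hD, dvf hG hB hi h1 h2 hx] with N h3 h4
  intro s t U W hs h0 hU hW
  have h5 := rtr_ev (algebraMap ℤ ℂ) hT h3.1 (A 0 N) (A 1 N) (A 2 N) s t U W hU hW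
  rw [rtr_dvd h4 ![s, t] hs] at h5
  rcases mul_eq_zero.1 h5.symm with h6 | h6
  · exact absurd h6 (pow_ne_zero _ h0)
  · exact h6

end Pool.Agent.H8.OA
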