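import Pool.Agent.H8.OA.Gun
import Pool.Agent.H8.OA.Szd
import Pool.Agent.H8.OA.Rst
import Pool.Agent.H12.OG.Gcj

/-! # [H8 OA S2A] An absolutely invariant function of the first curve is fixed by the automorphisms over the second curve

`k₁ → k₂` constants (`k₁` algebraically closed in `k₂`), `L₁` over `k₁`, `L₂, L, Ω` over `k₂`, `j : L₁ → L`, `a₂ : L₂ → L`, `i : L → Ω`, `σ : Ω ≃ₐ[k₂] Ω` fixes `i a₂ L₂` pointwise. CLAIM `σ (i (j u)) = i (j u)`.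
Proof. (1) `L' = IntermediateField.adjoin k₂ (Set.range j) ⊆ L`, `a' : L' →ₐ[k₂] L` the inclusion, `ξ' = ⟨j ξ₁, _⟩`, `g' = ⟨j g₁, _⟩`: `gcj` (H12/OG/Gcj.lean) with `k := k₂`, `L₁ := L'` gives `GLink ξ' g' (i.comp a') (σ.comp (i.comp a'))` over `k₂`.
(2) `l = i ∘ j`, `m = σ ∘ i ∘ j : L₁ →ₐ[k₁] Ω`. `hz` (`SZero`) with `E := k₂`: `∑ l (c i) m (d i) = 0` (`l ξ₁ = i (j ξ₁)` is transcendental over `k₂`); `alg_of_rel` (H8/OA/Rst.lean): `m ξ₁` is algebraic over `k₁(l ξ₁)`.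
(3) `F` = the algebraic closure of `k₁⟮l ξ₁⟯` in `Ω` (`algebraicClosure k₁⟮l ξ₁⟯ Ω`, restricted to scalars `k₁`), algebraically closed. `l` and `m` have their images in `F` (`L₁` is algebraic over `k₁(ξ₁)`): `l₁, m₁ : L₁ →ₐ[k₁] F`. `F` is algebraic over `k₁⟮l₁ ξ₁⟯`.
(4) `glink_rst` (H8/OA/Rst.lean) with `E := k₂`, `M := Ω`, `x = l₁ ξ₁`, `j : L₁ →+* L'`: `GLink ξ₁ g₁ l₁ m₁` over `k₁`. `hu : AInv`: `m₁ u = l₁ u`, that is `σ (i (j u)) = i (j u)`. -/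

namespace Pool.Agent.H8.OA

open Pool.Agent.H12.ON Pool.Agent.H12.OG Pool.Agent.H82.NS IntermediateField

private theorem mem_map_adjoin' {k L M : Type} [Field k] [Field L] [Field M] [Algebra k L] [Algebra k M]
    (l : L →ₐ[k] M) (ξ : L) (a : L) (ha : a ∈ k⟮ξ⟯) : l a ∈ k⟮l ξ⟯ := by
  have h1 : l a ∈ (k⟮ξ⟯).map l := ⟨a, ha, rfl⟩
  rw [IntermediateField.adjoin_map, Set.image_singleton] at h1
  exact h1

/-- the image of `l` is algebraic over `k(l ξ)` -/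
private theorem im_alg' {k L M : Type} [Field k] [Field L] [Field M] [Algebra k L] [Algebra k M]
    (l : L →ₐ[k] M) (ξ : L) (z : L) (hz : IsAlgebraic k⟮ξ⟯ z) : IsAlgebraic k⟮l ξ⟯ (l z) := by
  obtain ⟨q, hq0, hq⟩ := hz
  obtain ⟨f, hf⟩ : ∃ f : k⟮ξ⟯ →+* k⟮l ξ⟯, ∀ a, ((f a : k⟮l ξ⟯) : M) = l (a : L) :=
    ⟨((l : L →+* M).comp (algebraMap k⟮ξ⟯ L)).codRestrict k⟮l ξ⟯
      (fun a => mem_map_adjoin' l ξ _ a.2), fun _ => rfl⟩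
  refine ⟨q.map f, (Polynomial.map_ne_zero_iff f.injective).2 hq0, ?_⟩
  rw [Polynomial.aeval_def, Polynomial.eval₂_map]
  have hc : (algebraMap k⟮l ξ⟯ M).comp f = (l : L →+* M).comp (algebraMap k⟮ξ⟯ L) := by
    ext a
    exact hf a
  rw [hc]
  have h2 := Polynomial.hom_eval₂ q (algebraMap k⟮ξ⟯ L) (l : L →+* M) z
  rw [← Polynomial.aeval_def, hq, map_zero] at h2
  exact h2.symm

/-- algebraic over a smaller subfield of `M` -/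
private theorem alg_mono {M : Type} [Field M] (A B : Subfield M) (hAB : A ≤ B) {z : M} (h : IsAlgebraic A z) :
    IsAlgebraic B z := by
  obtain ⟨q, hq0, hq⟩ := h
  refine ⟨q.map (Subfield.inclusion hAB), (Polynomial.map_ne_zero_iff (Subfield.inclusion hAB).injective).2 hq0, ?_⟩
  rw [Polynomial.aeval_def, Polynomial.eval₂_map]
  exact hq

/-- from the large field to an intermediate field -/
private theorem alg_down {k M : Type} [Field k] [Field M] [Algebra k M] (F : IntermediateField k M) (x z : F)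
    (h : IsAlgebraic k⟮(x : M)⟯ (z : M)) : IsAlgebraic k⟮x⟯ z := by
  obtain ⟨q, hq0, hq⟩ := h
  have hmap : (k⟮x⟯).map F.val = k⟮(x : M)⟯ := by
    rw [IntermediateField.adjoin_map, Set.image_singleton]
    rfl
  have hle : ∀ a : k⟮(x : M)⟯, (a : M) ∈ F := by
    intro a
    have h1 : (a : M) ∈ (k⟮x⟯).map F.val := by rw [hmap]; exact a.2
    obtain ⟨b, -, hb⟩ := h1
    rw [← hb]
    exact b.2
  obtain ⟨f, hf⟩ : ∃ f : k⟮(x : M)⟯ →+* k⟮x⟯, ∀ a, (((f a : k⟮x⟯) : F) : M) = (a : M) := by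
    refine ⟨((algebraMap k⟮(x : M)⟯ M).codRestrict F hle).codRestrict k⟮x⟯ ?_, fun _ => rfl⟩
    intro a
    have h1 : (a : M) ∈ (k⟮x⟯).map F.val := by rw [hmap]; exact a.2
    obtain ⟨b, hb1, hb⟩ := h1
    have h2 : (algebraMap k⟮(x : M)⟯ M).codRestrict F hle a = b := Subtype.ext hb.symm
    rw [h2]
    exact hb1
  refine ⟨q.map f, (Polynomial.map_ne_zero_iff f.injective).2 hq0, ?_⟩
  rw [Polynomial.aeval_def, Polynomial.eval₂_map]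
  have hc : (algebraMap F M).comp ((algebraMap k⟮x⟯ F).comp f) = algebraMap k⟮(x : M)⟯ M := by
    ext a
    exact hf a
  have h2 := Polynomial.hom_eval₂ q ((algebraMap k⟮x⟯ F).comp f) (algebraMap F M) z
  rw [hc] at h2
  have h3 : Polynomial.eval₂ (algebraMap k⟮(x : M)⟯ M) (algebraMap F M z) q = 0 := hq
  rw [h3] at h2
  exact (map_eq_zero _).1 h2

theorem s2a {k₁ k₂ L₁ L₂ L Ω : Type} [Field k₁] [CharZero k₁] [Field k₂] [Field L₁] [Field L₂] [Field L] [Field Ω]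
    [IsAlgClosed Ω] [Algebra k₁ k₂] [Algebra k₁ L₁] [Algebra k₂ L₂] [Algebra k₂ L] [Algebra k₁ L]
    [IsScalarTower k₁ k₂ L] [Algebra k₂ Ω] [Algebra k₁ Ω] [IsScalarTower k₁ k₂ Ω] (hcl : RelCl k₁ k₂)
    (hcl₁ : RelCl k₁ L₁) (j : L₁ →ₐ[k₁] L) (a₂ : L₂ →ₐ[k₂] L) (i : L →ₐ[k₂] Ω) {ξ₁ g₁ u : L₁} {ξ₂ g₂ : L₂}
    (hK₁ : FF k₁ ξ₁) (ht : Transcendental k₂ (j ξ₁)) (hz : SZero k₁ ξ₁ g₁) (hu : AInv k₁ ξ₁ g₁ u)
    {O : ValuationSubring L} (h1 : j ξ₁ ∉ O) (h2 : a₂ ξ₂ ∉ O)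
    (hO1 : ∀ W : ValuationSubring L, Ov k₂ W → j ξ₁ ∉ W → W = O)
    (hO2 : ∀ W : ValuationSubring L, Ov k₂ W → a₂ ξ₂ ∉ W → W = O) {a b : ℕ} (hb : 1 ≤ b)
    (hab : j ξ₁ ^ b / a₂ ξ₂ ^ a ∈ O) (hba : a₂ ξ₂ ^ a / j ξ₁ ^ b ∈ O)
    (hg : j g₁ - a₂ g₂ ∈ O.nonunits) (σ : Ω ≃ₐ[k₂] Ω)
    (hσ : (σ : Ω →ₐ[k₂] Ω).comp (i.comp a₂) = i.comp a₂) : σ (i (j u)) = i (j u) := by
  -- the link over the larger constant field
  have hG : GLink (j ξ₁) (j g₁) i ((σ : Ω →ₐ[k₂] Ω).comp i) :=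
    gcj (AlgHom.id k₂ L) a₂ i (ξ₁ := j ξ₁) (g₁ := j g₁) h1 h2 hO1 hO2 hb hab hba hg σ hσ
  obtain ⟨l, hl⟩ : ∃ l : L₁ →ₐ[k₁] Ω, ∀ z, l z = i (j z) := ⟨(i.restrictScalars k₁).comp j, fun _ => rfl⟩
  obtain ⟨m, hm⟩ : ∃ m : L₁ →ₐ[k₁] Ω, ∀ z, m z = σ (i (j z)) :=
    ⟨(((σ : Ω →ₐ[k₂] Ω).comp i).restrictScalars k₁).comp j, fun _ => rfl⟩
  have htr : Transcendental k₂ (l ξ₁) := by
    rw [hl]
    exact fun h => ht ((isAlgebraic_algHom_iff i i.injective).1 h)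
  -- algebraic
  have halg : IsAlgebraic k₁⟮l ξ₁⟯ (m ξ₁) := by
    obtain ⟨ι, hι, c, d, hc, hd, hrel⟩ := hz
    refine alg_of_rel hK₁ hcl₁ l m hc hd (hrel k₂ Ω l m htr ?_)
    intro V hV
    rw [hl, hm, hl, hm]
    exact hG V hV
  have hfin := hK₁.fin
  have hLalg : Algebra.IsAlgebraic k₁⟮ξ₁⟯ L₁ := inferInstance
  obtain ⟨F, hFd⟩ : ∃ F : IntermediateField k₁ Ω, F = (algebraicClosure k₁⟮l ξ₁⟯ Ω).restrictScalars k₁ := ⟨_, rfl⟩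
  have hmemF : ∀ z : Ω, z ∈ F ↔ IsAlgebraic k₁⟮l ξ₁⟯ z := by
    intro z
    rw [hFd, IntermediateField.mem_restrictScalars, mem_algebraicClosure_iff]
  have hlF : ∀ z, l z ∈ F := fun z => (hmemF _).2 (im_alg' l ξ₁ z (hLalg.isAlgebraic z))
  have hmF : ∀ z, m z ∈ F := by
    intro z
    have e1 := im_alg' m ξ₁ z (hLalg.isAlgebraic z)
    have e2 : k₁⟮m ξ₁⟯ ≤ F := by
      rw [IntermediateField.adjoin_simple_le_iff]
      exact (hmemF _).2 halg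
    have e3 : IsAlgebraic (algebraicClosure k₁⟮l ξ₁⟯ Ω) (m z) :=
      alg_mono k₁⟮m ξ₁⟯.toSubfield (algebraicClosure k₁⟮l ξ₁⟯ Ω).toSubfield (by
        intro a ha
        have e4 : a ∈ F := e2 ha
        rw [hFd] at e4
        exact e4) e1
    exact (hmemF _).2 (e3.restrictScalars k₁⟮l ξ₁⟯)
  have hFc : IsAlgClosed F := by
    have e1 : IsAlgClosure k₁⟮l ξ₁⟯ (algebraicClosure k₁⟮l ξ₁⟯ Ω) := inferInstance
    have e2 : IsAlgClosed (algebraicClosure k₁⟮l ξ₁⟯ Ω) := e1.isAlgClosed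
    subst hFd
    exact e2
  obtain ⟨l₁, hl₁⟩ : ∃ l₁ : L₁ →ₐ[k₁] F, ∀ z, algebraMap F Ω (l₁ z) = l z :=
    ⟨l.codRestrict F.toSubalgebra hlF, fun _ => rfl⟩
  obtain ⟨m₁, hm₁⟩ : ∃ m₁ : L₁ →ₐ[k₁] F, ∀ z, algebraMap F Ω (m₁ z) = m z :=
    ⟨m.codRestrict F.toSubalgebra hmF, fun _ => rfl⟩
  have hFalg : Algebra.IsAlgebraic k₁⟮l₁ ξ₁⟯ F := by
    refine ⟨fun z => alg_down F (l₁ ξ₁) z ?_⟩
    have e1 : ((l₁ ξ₁ : F) : Ω) = l ξ₁ := hl₁ ξ₁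
    rw [e1]
    exact (hmemF _).1 z.2
  have hlink : GLink ξ₁ g₁ l₁ m₁ := by
    refine glink_rst (E := k₂) (M := Ω) hcl (x := l₁ ξ₁) (by rw [hl₁]; exact htr) hFalg (j : L₁ →+* L)
      (l := i) (m := (σ : Ω →ₐ[k₂] Ω).comp i) (fun z => by rw [hl₁, hl]; rfl) (fun z => by rw [hm₁, hm]; rfl) hG
  have hfinal := hu.2 F l₁ m₁ hFalg hlink
  have e1 := congrArg (algebraMap F Ω) hfinal
  rw [hl₁, hm₁, hl, hm] at e1
  exact e1

end Pool.Agent.H8.OA
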