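import Pool.Agent.H8.OA.S2a
import Pool.Agent.H12.OG.Gau
import Pool.Agent.H12.ON.Ord

/-! # [H8 OA S2B] An absolutely invariant function of the first curve lives on the second curve

`Ω = AlgebraicClosure L`, `i` the inclusion; `Ω` is algebraic over `k₂(i a₂ ξ₂)` (`L` is algebraic over `k₂(a₂ ξ₂)`: `FF k₂ (a₂ ξ₂)`). `a, b`: `ord_ratio` (H12/ON/Ord.lean) for `K := L`, `V := O`, `x := j ξ₁`, `z := a₂ ξ₂` (`FF k₂ (j ξ₁)`).
`s2a` for every `σ`; `fixed_range` (H12/OG/Gau.lean) for `l := i.comp a₂`: `i (j u) = i (a₂ u₂)`, so `j u = a₂ u₂`. Integrality as in `gfx` (H12/OG/Gfx.lean): let `V` be over `k₂` in `L` with `a₂ ξ₂ ∈ V`; then `j ξ₁ ∈ V` (otherwise `V = O`, `a₂ ξ₂ ∉ O`), so `j u ∈ V`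
(`j u` is integral over `k₂[j ξ₁]`: image of the monic equation over `k₁[ξ₁]`; `ot_mem` in H82/NS/OneT.lean or ON/Val). `int_of_all` (ON/Val): `a₂ u₂` is integral over `k₂[a₂ ξ₂]`, and `a₂` is injective: `u₂` is integral over `k₂[ξ₂]`. -/

namespace Pool.Agent.H8.OA

open Pool.Agent.H12.ON Pool.Agent.H12.OG Pool.Agent.H82.NS IntermediateField

/-- integral over `k[x]` and `x` in the valuation ring -/
private theorem s2b_mem {k K : Type} [Field k] [Field K] [Algebra k K] {W : ValuationSubring K} (hW : Ov k W)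
    {x q : K} (hx : x ∈ W) (hq : IsInt k x q) : q ∈ W := by
  obtain ⟨p, hp, hpz⟩ := hq
  have hle : (Algebra.adjoin k {x}).toSubring ≤ W.toSubring := by
    have h1 : Algebra.adjoin k {x} ≤ ({ W.toSubring with algebraMap_mem' := hW } : Subalgebra k K) :=
      Algebra.adjoin_le (Set.singleton_subset_iff.2 hx)
    exact h1
  have h1 : IsIntegral W q := by
    refine ⟨p.map (Subring.inclusion hle), hp.map _, ?_⟩
    rw [Polynomial.eval₂_map]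
    exact hpz
  obtain ⟨y, rfl⟩ := IsIntegrallyClosed.isIntegral_iff.1 h1
  exact y.2

/-- integrality descends along embeddings -/
private theorem s2b_desc {k K K' : Type} [Field k] [Field K] [Field K'] [Algebra k K] [Algebra k K'] (f : K →ₐ[k] K')
    {x q : K} (h : IsInt k (f x) (f q)) : IsInt k x q := by
  have hA : (Algebra.adjoin k {x}).map f = Algebra.adjoin k {f x} := AlgHom.map_adjoin_singleton _ _
  obtain ⟨p, hp, hpz⟩ := h
  obtain ⟨e, he⟩ : ∃ e : Algebra.adjoin k {x} ≃ₐ[k] Algebra.adjoin k {f x},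
      ∀ a, ((e a : Algebra.adjoin k {f x}) : K') = f (a : K) :=
    ⟨((Algebra.adjoin k {x}).equivMapOfInjective f f.injective).trans (Subalgebra.equivOfEq _ _ hA),
      fun _ => rfl⟩
  refine ⟨p.map (e.symm : Algebra.adjoin k {f x} →+* Algebra.adjoin k {x}), hp.map _, ?_⟩
  rw [Polynomial.eval₂_map]
  refine f.injective ?_
  change (f : K →+* K') _ = (f : K →+* K') _
  rw [Polynomial.hom_eval₂, map_zero]
  have hc : ((f : K →+* K').comp ((algebraMap (Algebra.adjoin k {x}) K).comp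
      (e.symm : Algebra.adjoin k {f x} →+* Algebra.adjoin k {x}))) =
      algebraMap (Algebra.adjoin k {f x}) K' := by
    ext a
    change f ((e.symm a : Algebra.adjoin k {x}) : K) = (a : K')
    rw [← he, AlgEquiv.apply_symm_apply]
  rw [hc]
  exact hpz

/-- the algebraic closure is algebraic over `k(i x)` -/
private theorem s2b_alg {k L Ω : Type} [Field k] [Field L] [Field Ω] [Algebra k L] [Algebra k Ω] [Algebra L Ω]
    [IsScalarTower k L Ω] [Algebra.IsAlgebraic L Ω] {x : L} (hx : FF k x) :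
    Algebra.IsAlgebraic k⟮IsScalarTower.toAlgHom k L Ω x⟯ Ω := by
  have hfin := hx.fin
  have hL : Algebra.IsAlgebraic k⟮x⟯ L := inferInstance
  have hΩ : Algebra.IsAlgebraic k⟮x⟯ Ω := Algebra.IsAlgebraic.trans k⟮x⟯ L Ω
  have hmem : ∀ a : k⟮x⟯, algebraMap L Ω a ∈ k⟮IsScalarTower.toAlgHom k L Ω x⟯ := by
    intro a
    have h1 : (IsScalarTower.toAlgHom k L Ω) (a : L) ∈ (k⟮x⟯).map (IsScalarTower.toAlgHom k L Ω) := ⟨a, a.2, rfl⟩
    rw [IntermediateField.adjoin_map, Set.image_singleton] at h1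
    exact h1
  obtain ⟨f, hf⟩ : ∃ f : k⟮x⟯ →+* k⟮IsScalarTower.toAlgHom k L Ω x⟯,
      ∀ a, ((f a : k⟮IsScalarTower.toAlgHom k L Ω x⟯) : Ω) = algebraMap L Ω (a : L) :=
    ⟨((algebraMap L Ω).comp (algebraMap k⟮x⟯ L)).codRestrict _ hmem, fun _ => rfl⟩
  refine ⟨fun z => ?_⟩
  obtain ⟨q, hq0, hq⟩ := hΩ.isAlgebraic z
  refine ⟨q.map f, (Polynomial.map_ne_zero_iff f.injective).2 hq0, ?_⟩
  rw [Polynomial.aeval_def, Polynomial.eval₂_map]
  have hc : (algebraMap k⟮IsScalarTower.toAlgHom k L Ω x⟯ Ω).comp f = algebraMap k⟮x⟯ Ω := by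
    ext a
    exact hf a
  rw [hc]
  exact hq

theorem s2b {k₁ k₂ L₁ L₂ L : Type} [Field k₁] [CharZero k₁] [Field k₂] [Field L₁] [Field L₂] [Field L]
    [Algebra k₁ k₂] [Algebra k₁ L₁] [Algebra k₂ L₂] [Algebra k₂ L] [Algebra k₁ L]
    [IsScalarTower k₁ k₂ L] (hcl : RelCl k₁ k₂)
    (hcl₁ : RelCl k₁ L₁) (j : L₁ →ₐ[k₁] L) (a₂ : L₂ →ₐ[k₂] L) {ξ₁ g₁ u : L₁} {ξ₂ g₂ : L₂}
    (hK₁ : FF k₁ ξ₁) (hK₂ : FF k₂ ξ₂) (hL₁ : FF k₂ (j ξ₁)) (hL₂ : FF k₂ (a₂ ξ₂)) (hz : SZero k₁ ξ₁ g₁)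
    (hu : AInv k₁ ξ₁ g₁ u)
    {O : ValuationSubring L} (hO : Ov k₂ O) (h1 : j ξ₁ ∉ O) (h2 : a₂ ξ₂ ∉ O)
    (hO1 : ∀ W : ValuationSubring L, Ov k₂ W → j ξ₁ ∉ W → W = O)
    (hO2 : ∀ W : ValuationSubring L, Ov k₂ W → a₂ ξ₂ ∉ W → W = O)
    (hg : j g₁ - a₂ g₂ ∈ O.nonunits) : ∃ u₂ : L₂, IsInt k₂ ξ₂ u₂ ∧ j u = a₂ u₂ := by
  have hch : CharZero k₂ := charZero_of_injective_algebraMap (algebraMap k₁ k₂).injective
  obtain ⟨a, b, -, hb, hab, hba⟩ := ord_ratio hL₁ ⟨hO, h1⟩ h2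
  obtain ⟨i, hi⟩ : ∃ i : L →ₐ[k₂] AlgebraicClosure L, i = IsScalarTower.toAlgHom k₂ L (AlgebraicClosure L) := ⟨_, rfl⟩
  have hΩ : Algebra.IsAlgebraic k₂⟮i (a₂ ξ₂)⟯ (AlgebraicClosure L) := by
    rw [hi]
    exact s2b_alg hL₂
  obtain ⟨u₂, hu₂⟩ := fixed_range hK₂ (i.comp a₂) hΩ (z := i (j u)) (fun σ hσ =>
    s2a hcl hcl₁ j a₂ i hK₁ hL₁.tr hz hu h1 h2 hO1 hO2 hb hab hba hg σ hσ)
  have hju : j u = a₂ u₂ := (i.injective hu₂).symm
  refine ⟨u₂, ?_, hju⟩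
  refine s2b_desc a₂ ?_
  refine int_of_all (k := k₂) (x := a₂ ξ₂) (z := a₂ u₂) fun V hV hx => ?_
  have h3 : j ξ₁ ∈ V := by
    by_contra hc
    have h4 : V = O := hO1 _ hV hc
    exact h2 (h4 ▸ hx)
  have hov : Ov k₁ (V.comap (j : L₁ →+* L)) := by
    intro e
    rw [ValuationSubring.mem_comap]
    have h5 : (j : L₁ →+* L) (algebraMap k₁ L₁ e) = algebraMap k₁ L e := j.commutes e
    rw [h5, IsScalarTower.algebraMap_apply k₁ k₂ L]
    exact hV _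
  have h5 : u ∈ V.comap (j : L₁ →+* L) := s2b_mem hov (x := ξ₁) h3 hu.1
  rw [← hju]
  exact h5

end Pool.Agent.H8.OA
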