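import Pool.Agent.H82.NS.Def

/-! # [H8 OA SBD] Sequences of integer polynomials of bounded degree with small coefficients

`Si H c`: `|c N| ≤ (H N + 2)^C` for almost all `N`. `Sb H P`: `P N` of degree `≤ C`, coefficients `≤ (H N + 2)^C` for almost all `N`.
`sb_mul`: `coeff m (P Q) = ∑_(p + q = m) coeff p P * coeff q Q` (`coeff_mul`); the `p` with `coeff p P ≠ 0` have all entries `≤ C` (degree), there are at most `(C+1)^(card σ) =: M` of them, `M ≤ 2^M ≤ (H N + 2)^M`. `sb_C`: degree `0`; `sb_sum`: induction; `sb_pow`: induction from `sb_mul`, `sb_C`.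
`sb_rename`: injective: `coeff_rename_mapDomain`, `coeff_rename_eq_zero`, `totalDegree_rename_le`. -/

namespace Pool.Agent.H8.OA

open Filter MvPolynomial Pool.Agent.H82.NS

/-- small integer sequences -/
def Si (H : ℕ → ℕ) (c : ℕ → ℤ) : Prop := ∃ C : ℕ, ∀ᶠ N in UU, |c N| ≤ ((H N + 2 : ℕ) : ℤ) ^ C

/-- sequences of polynomials of bounded degree with small coefficients -/
def Sb {σ : Type} (H : ℕ → ℕ) (P : ℕ → MvPolynomial σ ℤ) : Prop :=
  ∃ C : ℕ, ∀ᶠ N in UU, (P N).totalDegree ≤ C ∧ ∀ m, |coeff m (P N)| ≤ ((H N + 2 : ℕ) : ℤ) ^ C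

variable {σ τ : Type} {H : ℕ → ℕ}

private theorem one_le_b (h : ℕ) : (1 : ℤ) ≤ ((h + 2 : ℕ) : ℤ) := by push_cast; omega

private theorem nat_le_b (h k : ℕ) : (k : ℤ) ≤ ((h + 2 : ℕ) : ℤ) ^ k := by
  have h1 : k ≤ 2 ^ k := Nat.lt_two_pow_self.le
  have h2 : 2 ^ k ≤ (h + 2) ^ k := Nat.pow_le_pow_left (by omega) k
  exact_mod_cast h1.trans h2

theorem si_const (c : ℤ) : Si H (fun _ => c) := by
  refine ⟨c.natAbs, Eventually.of_forall fun N => ?_⟩
  rw [Int.abs_eq_natAbs]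
  exact nat_le_b _ _

theorem sb_congr {P Q : ℕ → MvPolynomial σ ℤ} (h : ∀ᶠ N in UU, P N = Q N) (hP : Sb H P) : Sb H Q := by
  obtain ⟨C, hC⟩ := hP
  refine ⟨C, ?_⟩
  filter_upwards [h, hC] with N h1 h2
  rw [← h1]
  exact h2

theorem sb_C {c : ℕ → ℤ} (h : Si H c) : Sb (σ := σ) H (fun N => C (c N)) := by
  classical
  obtain ⟨C', hC⟩ := h
  refine ⟨C', ?_⟩
  filter_upwards [hC] with N hN
  refine ⟨by rw [totalDegree_C]; exact Nat.zero_le _, fun m => ?_⟩
  rw [coeff_C]
  split_ifs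
  · exact hN
  · rw [abs_zero]
    exact pow_nonneg (by positivity) _

theorem sb_X (i : σ) : Sb H (fun _ => X i) := by
  classical
  refine ⟨1, Eventually.of_forall fun N => ⟨by rw [totalDegree_X], fun m => ?_⟩⟩
  rw [coeff_X', pow_one]
  split_ifs
  · rw [abs_one]
    exact one_le_b _
  · rw [abs_zero]
    positivity

theorem sb_add {P Q : ℕ → MvPolynomial σ ℤ} (hP : Sb H P) (hQ : Sb H Q) : Sb H (fun N => P N + Q N) := by
  obtain ⟨C₁, h1⟩ := hP
  obtain ⟨C₂, h2⟩ := hQ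
  refine ⟨C₁ + C₂ + 1, ?_⟩
  filter_upwards [h1, h2] with N ⟨d1, c1⟩ ⟨d2, c2⟩
  refine ⟨(totalDegree_add _ _).trans (max_le (by omega) (by omega)), fun m => ?_⟩
  rw [coeff_add]
  have hb := one_le_b (H N)
  have hb2 : (2 : ℤ) ≤ ((H N + 2 : ℕ) : ℤ) := by push_cast; omega
  have e1 : ((H N + 2 : ℕ) : ℤ) ^ C₁ ≤ ((H N + 2 : ℕ) : ℤ) ^ (C₁ + C₂) := pow_le_pow_right₀ hb (by omega)
  have e2 : ((H N + 2 : ℕ) : ℤ) ^ C₂ ≤ ((H N + 2 : ℕ) : ℤ) ^ (C₁ + C₂) := pow_le_pow_right₀ hb (by omega)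
  have e3 : (0 : ℤ) ≤ ((H N + 2 : ℕ) : ℤ) ^ (C₁ + C₂) := by positivity
  calc |coeff m (P N) + coeff m (Q N)| ≤ |coeff m (P N)| + |coeff m (Q N)| := abs_add_le _ _
    _ ≤ ((H N + 2 : ℕ) : ℤ) ^ (C₁ + C₂) + ((H N + 2 : ℕ) : ℤ) ^ (C₁ + C₂) :=
        add_le_add ((c1 m).trans e1) ((c2 m).trans e2)
    _ ≤ ((H N + 2 : ℕ) : ℤ) ^ (C₁ + C₂ + 1) := by
        rw [pow_succ]
        nlinarith

private theorem card_supp [Fintype σ] (p : MvPolynomial σ ℤ) {C : ℕ} (h : p.totalDegree ≤ C) :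
    p.support.card ≤ (C + 1) ^ Fintype.card σ := by
  classical
  have h1 : p.support.card ≤ (Fintype.piFinset (fun _ : σ => Finset.range (C + 1))).card := by
    refine Finset.card_le_card_of_injOn (fun m => (m : σ → ℕ)) (fun m hm => ?_) (fun a _ b _ hab => ?_)
    · rw [Finset.mem_coe, Fintype.mem_piFinset]
      intro i
      rw [Finset.mem_range]
      change m i < C + 1
      have h2 := le_totalDegree (Finset.mem_coe.1 hm)
      have h3 : m i ≤ m.sum fun _ e => e := by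
        by_cases hi : i ∈ m.support
        · exact Finset.single_le_sum (f := fun j => m j) (fun _ _ => Nat.zero_le _) hi
        · rw [Finsupp.notMem_support_iff.1 hi]
          exact Nat.zero_le _
      omega
    · exact DFunLike.coe_injective hab
  have h2 : (Fintype.piFinset (fun _ : σ => Finset.range (C + 1))).card = (C + 1) ^ Fintype.card σ := by
    rw [Fintype.card_piFinset]
    simp
  rw [h2] at h1
  exact h1

private theorem mul_coeff [Fintype σ] (p q : MvPolynomial σ ℤ) {C : ℕ} (h : p.totalDegree ≤ C) {A B : ℤ}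
    (hA : ∀ m, |coeff m p| ≤ A) (hB : ∀ m, |coeff m q| ≤ B) (m : σ →₀ ℕ) :
    |coeff m (p * q)| ≤ (((C + 1) ^ Fintype.card σ : ℕ) : ℤ) * A * B := by
  classical
  have hA0 : 0 ≤ A := (abs_nonneg _).trans (hA 0)
  have hB0 : 0 ≤ B := (abs_nonneg _).trans (hB 0)
  rw [coeff_mul]
  have e1 : |∑ x ∈ Finset.HasAntidiagonal.antidiagonal m, coeff x.1 p * coeff x.2 q| ≤
      ∑ x ∈ Finset.HasAntidiagonal.antidiagonal m, |coeff x.1 p| * B := by
    refine (Finset.abs_sum_le_sum_abs _ _).trans (Finset.sum_le_sum fun x _ => ?_)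
    rw [abs_mul]
    exact mul_le_mul_of_nonneg_left (hB _) (abs_nonneg _)
  refine e1.trans ?_
  rw [← Finset.sum_mul]
  refine mul_le_mul_of_nonneg_right ?_ hB0
  have e2 : ∑ x ∈ Finset.HasAntidiagonal.antidiagonal m, |coeff x.1 p| =
      ∑ a ∈ (Finset.HasAntidiagonal.antidiagonal m).image Prod.fst, |coeff a p| := by
    rw [Finset.sum_image]
    intro x hx y hy hxy
    have h1 := Finset.HasAntidiagonal.mem_antidiagonal.1 (Finset.mem_coe.1 hx)
    have h2 := Finset.HasAntidiagonal.mem_antidiagonal.1 (Finset.mem_coe.1 hy)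
    have h3 : x.1 = y.1 := hxy
    refine Prod.ext h3 ?_
    rw [← h2, h3] at h1
    exact add_left_cancel h1
  rw [e2]
  calc ∑ a ∈ (Finset.HasAntidiagonal.antidiagonal m).image Prod.fst, |coeff a p|
      ≤ ∑ a ∈ p.support, |coeff a p| := by
        rw [← Finset.sum_filter_add_sum_filter_not ((Finset.HasAntidiagonal.antidiagonal m).image Prod.fst)
          (fun a => a ∈ p.support)]
        have h0 : ∑ a ∈ ((Finset.HasAntidiagonal.antidiagonal m).image Prod.fst).filter (fun a => a ∉ p.support), |coeff a p| = 0 := by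
          refine Finset.sum_eq_zero fun a ha => ?_
          rw [Finset.mem_filter, notMem_support_iff] at ha
          rw [ha.2, abs_zero]
        rw [h0, add_zero]
        refine Finset.sum_le_sum_of_subset_of_nonneg (fun a ha => (Finset.mem_filter.1 ha).2)
          (fun a _ _ => abs_nonneg _)
    _ ≤ ∑ a ∈ p.support, A := Finset.sum_le_sum fun a _ => hA a
    _ = (p.support.card : ℤ) * A := by rw [Finset.sum_const, nsmul_eq_mul]
    _ ≤ _ := by
        refine mul_le_mul_of_nonneg_right ?_ hA0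
        exact_mod_cast card_supp p h

theorem sb_mul [Fintype σ] {P Q : ℕ → MvPolynomial σ ℤ} (hP : Sb H P) (hQ : Sb H Q) :
    Sb H (fun N => P N * Q N) := by
  obtain ⟨C₁, h1⟩ := hP
  obtain ⟨C₂, h2⟩ := hQ
  refine ⟨(C₁ + 1) ^ Fintype.card σ + C₁ + C₂, ?_⟩
  filter_upwards [h1, h2] with N ⟨d1, c1⟩ ⟨d2, c2⟩
  refine ⟨(totalDegree_mul _ _).trans (by omega), fun m => ?_⟩
  refine (mul_coeff (P N) (Q N) d1 c1 c2 m).trans ?_
  rw [pow_add, pow_add]
  refine mul_le_mul_of_nonneg_right (mul_le_mul_of_nonneg_right (nat_le_b _ _) (by positivity)) (by positivity)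

theorem sb_pow [Fintype σ] {P : ℕ → MvPolynomial σ ℤ} (hP : Sb H P) (k : ℕ) : Sb H (fun N => P N ^ k) := by
  induction k with
  | zero =>
    have h1 : Sb (σ := σ) H (fun _ => C (1 : ℤ)) := sb_C (si_const 1)
    refine sb_congr (Eventually.of_forall fun N => ?_) h1
    rw [pow_zero, C_1]
  | succ k ih =>
    refine sb_congr (Eventually.of_forall fun N => ?_) (sb_mul ih hP)
    rw [pow_succ]

theorem sb_sum {ι : Type} (s : Finset ι) {P : ι → ℕ → MvPolynomial σ ℤ} (h : ∀ i ∈ s, Sb H (P i)) :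
    Sb H (fun N => ∑ i ∈ s, P i N) := by
  classical
  induction s using Finset.induction_on with
  | empty =>
    have h1 : Sb (σ := σ) H (fun _ => C (0 : ℤ)) := sb_C (si_const 0)
    refine sb_congr (Eventually.of_forall fun N => ?_) h1
    rw [Finset.sum_empty, C_0]
  | insert i s hi ih =>
    refine sb_congr (Eventually.of_forall fun N => ?_) (sb_add (h i (Finset.mem_insert_self i s))
      (ih fun j hj => h j (Finset.mem_insert_of_mem hj)))
    rw [Finset.sum_insert hi]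

theorem sb_rename {f : σ → τ} (hf : Function.Injective f) {P : ℕ → MvPolynomial σ ℤ} (hP : Sb H P) :
    Sb H (fun N => rename f (P N)) := by
  classical
  obtain ⟨C', hC⟩ := hP
  refine ⟨C', ?_⟩
  filter_upwards [hC] with N hN
  refine ⟨(totalDegree_rename_le _ _).trans hN.1, fun m => ?_⟩
  by_cases hm : ∃ d : σ →₀ ℕ, d.mapDomain f = m
  · obtain ⟨d, rfl⟩ := hm
    rw [coeff_rename_mapDomain f hf]
    exact hN.2 d
  · rw [coeff_rename_eq_zero f (P N) m (fun u hu => absurd ⟨u, hu⟩ hm), abs_zero]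
    positivity

end Pool.Agent.H8.OA
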