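import Pool.Agent.H8.OA.Gnw
import Pool.Agent.H8.OA.Sq1
import Pool.Agent.H8.OA.Ng1
import Pool.Agent.H8.OA.Ng2

/-! # [H8 OA ST1A] Stage 1: the invariant functions of the curve of a sequence of exceptional points

`la` from `ngen hs`, `γ` from `ng hs hb (H' := H)`, `g := ⟨cl γ, _⟩ : LL H x y`, `P` from `np hs`. `k = Q0 H` (char 0), `L₁ = LL H x y`, `ξ = ul n H x y`, `O = OO H x y`: `FF` (`sq_ff`, `H₁ := H`), the unique place (`sq_uni`), `RelCl` (`sq_cl`).
`aeval g P ∈ O.nonunits`: `O = (V0 H).comap`, `aeval g P` maps to `aeval (cl γ) P ∈ (V0 H).nonunits` (universal clause of `np` with `H' := H`, `u' := uu n x y`); `z` is a nonunit of the comap iff its image is a nonunit of `V0 H` (`z = 0` or `z⁻¹ ∉ V`: `ValuationSubring.mem_nonunits_iff_or` or the valuation).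
`g ∈ O` from it: `P` is monic over `k ⊆ V0 H`, so `cl γ` is a root of the monic polynomial `P - C (aeval (cl γ) P)` over `V0 H` (`3 ≤ natDegree`), integrally closed. `SZero`: `szero_w`; finiteness: `gfin_w`; then `gquo_un` (H8/OA/Gun.lean). -/

namespace Pool.Agent.H8.OA

open Filter IntermediateField Pool.Agent.H82.NS Pool.Agent.H12.ON Pool.Agent.H12.OG Polynomial

/-- the approximation `g` of the generator `la` in the function field of the points -/
structure Stg (n : ℕ) (K : ℕ → Subfield ℝ) (H : ℕ → ℕ) (x y : ℕ → ℤ) (la : ℕ → ℝ) (γ : ℕ → ℚ)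
    (g : LL H x y) : Prop where
  sg : Sgs K H la
  gg : (g : QS) = cl γ
  nr : Nr H (uu n x y) la γ
  gO : g ∈ OO H x y
  sz : SZero (Q0 H) (ul n H x y) g

theorem nonunits_comap {F L : Type} [Field F] [Field L] (V : ValuationSubring L) (f : F →+* L) (z : F) :
    z ∈ (V.comap f).nonunits ↔ f z ∈ V.nonunits := by
  have hm : ∀ x : F, x ∈ V.comap f ↔ f x ∈ V := fun x => Iff.rfl
  rw [ValuationSubring.mem_nonunits_iff_or, ValuationSubring.mem_nonunits_iff_or, hm, map_inv₀,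
    map_eq_zero]

theorem st1a {n : ℕ} {K : ℕ → Subfield ℝ} {H : ℕ → ℕ} {x y : ℕ → ℤ} (hs : Sq n K H x y) (hb : Bg H (uu n x y)) :
    ∃ (la : ℕ → ℝ) (γ : ℕ → ℚ) (g : LL H x y), Stg n K H x y la γ g ∧ ∃ (u w : LL H x y) (κ : ℕ),
      AInv (Q0 H) (ul n H x y) g u ∧ AInv (Q0 H) (ul n H x y) g w ∧ Transcendental (Q0 H) u ∧
      w / u ^ κ - g ∈ (OO H x y).nonunits := by
  obtain ⟨la, hla⟩ := ngen hs
  obtain ⟨γ, hγm, hγ⟩ := ng hs hb (H' := H) (fun _ => le_rfl) hla
  obtain ⟨P, hPm, -, hPi, hP3, hPn⟩ := np hs hla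
  have hPg : aeval (cl γ : QS) P ∈ (V0 H).nonunits := hPn H (uu n x y) γ (fun _ => le_rfl) hb hγ
  have hK := sq_ff hs (fun _ => le_rfl) hb
  obtain ⟨hOv, hul, huni⟩ := sq_uni hs (fun _ => le_rfl) hb
  have hcl := sq_cl H x y
  obtain ⟨g, hg⟩ : ∃ g : LL H x y, (g : QS) = cl γ := ⟨⟨cl γ, hγm⟩, rfl⟩
  have hev : algebraMap (LL H x y) QS (aeval g P) = aeval (cl γ : QS) P := by
    rw [← aeval_algebraMap_apply]
    congr 1
    exact congrArg _ hg
  have hPgO : aeval g P ∈ (OO H x y).nonunits := by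
    unfold OO
    rw [nonunits_comap, hev]
    exact hPg
  have hbase : ∀ e : Q0 H, algebraMap (Q0 H) QS e ∈ V0 H := fun e => hOv e
  have hγV : (cl γ : QS) ∈ V0 H := by
    have htriv : (V0 H).valuation.IsTrivialOn (Q0 H) := by
      refine ⟨fun a ha => ?_⟩
      have h1 : (V0 H).valuation (algebraMap (Q0 H) QS a) ≤ 1 :=
        ((V0 H).valuation_le_one_iff _).2 (hbase a)
      have h2 : (V0 H).valuation (algebraMap (Q0 H) QS a⁻¹) ≤ 1 :=
        ((V0 H).valuation_le_one_iff _).2 (hbase a⁻¹)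
      refine le_antisymm h1 ?_
      by_contra h
      rw [not_le] at h
      have h3 : (V0 H).valuation (algebraMap (Q0 H) QS a) * (V0 H).valuation (algebraMap (Q0 H) QS a⁻¹) =
          1 := by
        rw [← map_mul, ← map_mul, mul_inv_cancel₀ ha, map_one, map_one]
      have h4 : (V0 H).valuation (algebraMap (Q0 H) QS a) * (V0 H).valuation (algebraMap (Q0 H) QS a⁻¹) <
          1 := lt_of_le_of_lt (mul_le_mul' le_rfl h2) (by rwa [mul_one])
      rw [h3] at h4
      exact lt_irrefl _ h4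
    by_contra hcon
    have hx : 1 < (V0 H).valuation (cl γ : QS) := by
      rw [← not_le, (V0 H).valuation_le_one_iff]
      exact hcon
    have h1 := Polynomial.valuation_aeval_eq_valuation_X_pow_natDegree_of_one_lt_valuation_X
      (v := (V0 H).valuation) (cl γ : QS) hx hPi.ne_zero
    have h2 := (V0 H).mem_nonunits_iff.1 hPg
    rw [h1] at h2
    exact absurd h2 (not_lt.2 (one_le_pow₀ hx.le))
  have hgO : g ∈ OO H x y := by
    show algebraMap (LL H x y) QS g ∈ V0 H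
    have h1 : algebraMap (LL H x y) QS g = cl γ := hg
    rw [h1]
    exact hγV
  have hsz := szero_w hK hOv hul huni hPi hP3 hPgO
  refine ⟨la, γ, g, ⟨hla, hg, hγ, hgO, hsz⟩, ?_⟩
  exact gquo_un hK hOv hul huni hgO fun Ω _ _ _ l hΩ =>
    gfin_w hK hcl hOv hul huni hPi hP3 hPgO Ω l hΩ

end Pool.Agent.H8.OA
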