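import Pool.Agent.H8.OA.St1a
import Pool.Agent.H8.OA.Mdq
import Pool.Agent.H8.OA.Fg2
import Pool.Agent.H8.OA.Aik

/-! # [H8 OA ST1B] Stage 1: the quotient curve and its integer points

(1) `int_small` (H82/NS/Int.lean) for `x := qz (uu n x y)`, `g := (u : QS)` (`hu.1`, pushed from `LL` to `QS`; cf. the private `int_map` in H12/ON/Uni.lean): `δ₁ ∈ Q0 H`, `δ₁ ≠ 0`, `δ₁ u ∈ ZS`: `δ₁ u = qz a` (`mem_zs`). `u₁ = δ₁ u`, `w₁ = δ₁^κ w` in `LL` (`algebraMap (Q0 H) _`), `w₁/u₁^κ = w/u^κ`; `ainv_smul`.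
(2) `P` from `np hs hS.sg`; `aeval g P ∈ O.nonunits` (as in ST1A). `mdq` for `L = LL H x y`, `u₁`, `w₁` (`hk, hξ, hO` from `sq_uni`): `G`; `model_map` for `(LL H x y).val`: `Model (qz a) (w₁ : QS) κ G`.
(3) `qz a` is transcendental, so not in `Q0 H`: `frame_good2` (FG2): `D₁`, `δ₂`, `ws =: b`, `qz b = δ₂ w₁`, `Good D₁ (H N) κ g p`, `ev (a N) (b N) g = 0` for almost all `N`; choose `g N, p N` as sequences; `Φ N := toM (g N)` on this set, `0` outside.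
(4) `δ₂ = cl ε` with `Small H ε`, `ε N ≠ 0` for almost all `N`. For every `C`: `|b N/(a N)^κ - ε N * la N| * (H N)^C ≤ 1` for almost all `N`: `qz b/(qz a)^κ - δ₂ cl γ = δ₂ (w/u^κ - g) ∈ (V0 H).nonunits` (smaller than every positive element of `Q0 H`), `|γ - la| |uu n x y| ≤ (H + 2)^C'` (`hS.nr`) and `Bg`.
`(H N)^C ≤ |a N|` for almost all `N` (`zs_big`; cf. the private `fgd_large` in H97/SI/FGD.lean). `NumberField (K N)`, `finrank ≤ n (n+1)`: `hs.ty N`, `sg_poly` (TY2). `H N + 2 ≤ (H N)^2`. `Sg` is monotone in `B`. `aik` (AIK) with `D := D₁` and `D'` large: `AtInf (K N) (Φ N)`.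
(5) `toM_tot`, `toM_coeff`, `toM_eval` (H4/SF/TOF.lean) and `Good.cf`: degree `≤ D₁ (D₁ + 1)`, coefficients `≤ (H N)^D₁`, zero `(a N, b N)`. -/

namespace Pool.Agent.H8.OA

open Filter IntermediateField Pool.Agent.H82.NS Pool.Agent.H12.ON Pool.Agent.H12.OG Polynomial

/-- the quotient curve `Φ N` and its integer points `(a N, b N)` -/
structure Qot (n : ℕ) (K : ℕ → Subfield ℝ) (H : ℕ → ℕ) (x y : ℕ → ℤ) (g : LL H x y) (a b : ℕ → ℤ)
    (Φ : ℕ → MvPolynomial (Fin 2) ℤ) (D : ℕ) : Prop where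
  am : qz a ∈ LL H x y
  bm : qz b ∈ LL H x y
  ai : AInv (Q0 H) (ul n H x y) g ⟨qz a, am⟩
  bi : AInv (Q0 H) (ul n H x y) g ⟨qz b, bm⟩
  tr : Transcendental (Q0 H) (qz a)
  ev : ∀ᶠ N in UU, H98.SI.AtInf (K N) (Φ N) ∧ (Φ N).totalDegree ≤ D ∧
    (∀ m, |MvPolynomial.coeff m (Φ N)| ≤ (H N : ℤ) ^ D) ∧ MvPolynomial.eval ![a N, b N] (Φ N) = 0

private theorem sb_q0_v0 (H : ℕ → ℕ) {z : QS} (hz : z ∈ Q0 H) : z ∈ V0 H := by
  refine ⟨|z|, ?_, le_rfl⟩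
  rcases abs_choice z with h | h
  · rw [h]
    exact hz
  · rw [h]
    exact (Q0 H).neg_mem hz

private theorem sb_int_map {E K M : Type} [Field E] [Field K] [Field M] [Algebra E K] [Algebra E M] (φ : K →ₐ[E] M)
    {x g : K} (h : IsIntegral (Algebra.adjoin E {x}) g) : IsIntegral (Algebra.adjoin E {φ x}) (φ g) := by
  obtain ⟨p, hp, hpg⟩ := h
  have h1 : ∀ z : Algebra.adjoin E {x}, φ z ∈ Algebra.adjoin E {φ x} := by
    intro z
    have h2 : φ z ∈ (Algebra.adjoin E {x}).map φ := ⟨z, z.2, rfl⟩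
    rw [AlgHom.map_adjoin, Set.image_singleton] at h2
    exact h2
  refine ⟨p.map (((φ : K →+* M).comp (Algebra.adjoin E {x}).subtype).codRestrict (Algebra.adjoin E {φ x}) h1),
    hp.map _, ?_⟩
  rw [Polynomial.eval₂_map]
  have h3 := congrArg φ hpg
  rw [map_zero] at h3
  rw [← h3]
  have h4 := Polynomial.hom_eval₂ p (algebraMap (Algebra.adjoin E {x}) K) (φ : K →+* M) g
  refine Eq.trans ?_ h4.symm
  rfl

private theorem sb_large {H : ℕ → ℕ} {xs : ℕ → ℤ} (hx : (cl fun N => (xs N : ℚ)) ∉ Q0 H) (E : ℕ) :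
    ∀ᶠ N in UU, ((H N + 2 : ℕ) : ℤ) ^ E ≤ |xs N| := by
  have hr : (cl fun N => (((H N + 2) ^ E : ℕ) : ℚ)) ∈ Q0 H := by
    refine ⟨_, ⟨E, fun N => ⟨?_, ?_⟩⟩, rfl⟩
    · show ((((H N + 2) ^ E : ℕ) : ℚ)).num.natAbs ≤ _
      rw [Rat.num_natCast, Int.natAbs_natCast]
    · show ((((H N + 2) ^ E : ℕ) : ℚ)).den ≤ _
      rw [Rat.den_natCast]
      exact Nat.one_le_pow _ _ (by omega)
  have h1 : ¬ |(cl fun N => (xs N : ℚ) : QS)| ≤ cl fun N => (((H N + 2) ^ E : ℕ) : ℚ) := fun h =>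
    hx (zs_small H _ _ (mem_zs.2 ⟨xs, rfl⟩) hr h)
  rw [abs_le, cl_neg, cl_le, cl_le, ← eventually_and] at h1
  have h2 := Ultrafilter.eventually_not.2 h1
  refine h2.mono fun N hN => ?_
  by_contra h3
  rw [not_le] at h3
  apply hN
  have h4 : |(xs N : ℚ)| ≤ (((H N + 2) ^ E : ℕ) : ℚ) := by
    rw [← Int.cast_abs]
    have h5 : |xs N| ≤ (((H N + 2) ^ E : ℕ) : ℤ) := by
      push_cast at h3 ⊢
      exact h3.le
    exact_mod_cast h5
  exact abs_le.1 h4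

/-- a nonunit is smaller than all powers -/
private theorem sb_small {H : ℕ → ℕ} {f : ℕ → ℚ} (hf : (cl f : QS) ∈ (V0 H).nonunits) (E : ℕ) :
    ∀ᶠ N in UU, |(f N : ℝ)| * ((H N + 2 : ℕ) : ℝ) ^ E ≤ 1 := by
  by_contra hc
  have h1 := Ultrafilter.eventually_not.2 hc
  rw [(V0 H).mem_nonunits_iff_or] at hf
  have h2 : ∀ᶠ N in UU, 1 < |(f N : ℝ)| * ((H N + 2 : ℕ) : ℝ) ^ E := h1.mono fun N hN => not_le.1 hN
  rcases hf with h0 | h0
  · rw [cl_zero, cl_eq] at h0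
    obtain ⟨N, h3, h4⟩ := (h2.and h0).exists
    rw [h4] at h3
    simp at h3
    linarith
  · apply h0
    have hr : (cl fun N => (((H N + 2) ^ E : ℕ) : ℚ)) ∈ Q0 H := by
      refine ⟨_, ⟨E, fun N => ⟨?_, ?_⟩⟩, rfl⟩
      · show ((((H N + 2) ^ E : ℕ) : ℚ)).num.natAbs ≤ _
        rw [Rat.num_natCast, Int.natAbs_natCast]
      · show ((((H N + 2) ^ E : ℕ) : ℚ)).den ≤ _
        rw [Rat.den_natCast]
        exact Nat.one_le_pow _ _ (by omega)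
    refine ⟨_, hr, ?_⟩
    rw [cl_inv]
    have h3 : ∀ᶠ N in UU, |(f N)⁻¹| ≤ (((H N + 2) ^ E : ℕ) : ℚ) := by
      filter_upwards [h2] with N hN
      have h4 : (1 : ℚ) < |f N| * ((H N + 2 : ℕ) : ℚ) ^ E := by
        have e1 : ((1 : ℚ) : ℝ) < ((|f N| * ((H N + 2 : ℕ) : ℚ) ^ E : ℚ) : ℝ) := by
          push_cast at hN ⊢
          exact hN
        exact_mod_cast e1
      have h5 : 0 < |f N| := by
        rcases (abs_nonneg (f N)).lt_or_eq with h6 | h6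
        · exact h6
        · rw [← h6, zero_mul] at h4
          linarith
      rw [abs_inv, inv_le_iff_one_le_mul₀ h5]
      push_cast at h4 ⊢
      rw [mul_comm]
      exact h4.le
    rw [abs_le, cl_neg, cl_le, cl_le]
    exact ⟨h3.mono fun N hN => (abs_le.1 hN).1, h3.mono fun N hN => (abs_le.1 hN).2⟩

private theorem sb_two (H : ℕ) : (2 : ℝ) ≤ ((H + 2 : ℕ) : ℝ) := by
  push_cast
  have : (0 : ℝ) ≤ (H : ℝ) := Nat.cast_nonneg _
  linarith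

private theorem sb_nr {H : ℕ → ℕ} {u : ℕ → ℤ} {la : ℕ → ℝ} {γ : ℕ → ℚ} (hb : Bg H u) (h : Nr H u la γ) (C' : ℕ) :
    ∀ᶠ N in UU, |(γ N : ℝ) - la N| * ((H N + 2 : ℕ) : ℝ) ^ C' ≤ 1 := by
  obtain ⟨C, hC⟩ := h
  filter_upwards [hC, hb (C + C' + 1)] with N h1 h3
  have h3' : ((H N + 2 : ℕ) : ℝ) ^ (C + C' + 1) ≤ |(u N : ℝ)| := by exact_mod_cast h3
  have h2 := sb_two (H N)
  obtain ⟨t, ht⟩ : ∃ t : ℝ, t = ((H N + 2 : ℕ) : ℝ) := ⟨_, rfl⟩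
  rw [← ht] at h1 h2 h3' ⊢
  by_contra hc
  rw [not_le] at hc
  have h4 : |(u N : ℝ)| ≤ t ^ (C + C') := by
    calc |(u N : ℝ)| ≤ (|(γ N : ℝ) - la N| * t ^ C') * |(u N : ℝ)| := le_mul_of_one_le_left (abs_nonneg _) hc.le
      _ = (|(γ N : ℝ) - la N| * |(u N : ℝ)|) * t ^ C' := by ring
      _ ≤ t ^ C * t ^ C' := mul_le_mul_of_nonneg_right h1 (by positivity)
      _ = t ^ (C + C') := (pow_add _ _ _).symm
  have h5 : t ^ (C + C') < t ^ (C + C' + 1) := pow_lt_pow_right₀ (by linarith) (Nat.lt_succ_self _)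
  linarith

/-- the bound of a small rational number -/
private theorem sb_abs {H C : ℕ} {e : ℚ} (h : e.num.natAbs ≤ (H + 2) ^ C) : |(e : ℝ)| ≤ ((H + 2 : ℕ) : ℝ) ^ C := by
  have h1 : |e| ≤ ((H + 2 : ℕ) : ℚ) ^ C := by
    have e1 : (1 : ℚ) ≤ (e.den : ℚ) := by exact_mod_cast e.den_pos
    have e2 : |e| * (e.den : ℚ) = (e.num.natAbs : ℚ) := by
      rw [Nat.cast_natAbs, Int.cast_abs]
      have e3 : (e : ℚ) * (e.den : ℚ) = (e.num : ℚ) := Rat.mul_den_eq_num e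
      rw [← e3, abs_mul, abs_of_nonneg (by positivity : (0 : ℚ) ≤ (e.den : ℚ))]
    have e4 : (e.num.natAbs : ℚ) ≤ ((H + 2 : ℕ) : ℚ) ^ C := by exact_mod_cast h
    calc |e| ≤ |e| * (e.den : ℚ) := le_mul_of_one_le_right (abs_nonneg _) e1
      _ ≤ _ := by rw [e2]; exact e4
  have e1 : ((|e| : ℚ) : ℝ) ≤ ((((H + 2 : ℕ) : ℚ) ^ C : ℚ) : ℝ) := by exact_mod_cast h1
  push_cast at e1 ⊢
  exact e1

/-- the point at infinity of the quotient curve is close to a multiple of the generator -/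
private theorem sb_close {H : ℕ → ℕ} {u : ℕ → ℤ} {la : ℕ → ℝ} {γ ε t : ℕ → ℚ} (hb : Bg H u) (h : Nr H u la γ)
    (hε : Small H ε) (ht : (cl t - cl ε * cl γ : QS) ∈ (V0 H).nonunits) (C : ℕ) :
    ∀ᶠ N in UU, |(t N : ℝ) - (ε N : ℝ) * la N| * ((H N + 2 : ℕ) : ℝ) ^ C ≤ 1 := by
  obtain ⟨C₀, hC₀⟩ := hε
  have ht' : (cl (fun N => t N - ε N * γ N) : QS) ∈ (V0 H).nonunits := ht
  filter_upwards [sb_small ht' (C + 1), sb_nr hb h (C₀ + C + 1)] with N h1 h2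
  have h3 := sb_abs (hC₀ N).1
  have h4 := sb_two (H N)
  obtain ⟨s, hs⟩ : ∃ s : ℝ, s = ((H N + 2 : ℕ) : ℝ) := ⟨_, rfl⟩
  rw [← hs] at h1 h2 h3 h4 ⊢
  have hs0 : 0 < s := by linarith
  have e1 : |(t N : ℝ) - (ε N : ℝ) * la N| ≤ |((t N - ε N * γ N : ℚ) : ℝ)| + |(ε N : ℝ)| * |(γ N : ℝ) - la N| := by
    have e2 : (t N : ℝ) - (ε N : ℝ) * la N = ((t N - ε N * γ N : ℚ) : ℝ) + (ε N : ℝ) * ((γ N : ℝ) - la N) := by
      push_cast
      ring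
    rw [e2, ← abs_mul]
    exact abs_add_le _ _
  have e3 : |((t N - ε N * γ N : ℚ) : ℝ)| * s ^ C ≤ 1 / 2 := by
    have e4 : 2 * (|((t N - ε N * γ N : ℚ) : ℝ)| * s ^ C) ≤ 1 := by
      calc 2 * (|((t N - ε N * γ N : ℚ) : ℝ)| * s ^ C) ≤ s * (|((t N - ε N * γ N : ℚ) : ℝ)| * s ^ C) :=
            mul_le_mul_of_nonneg_right h4 (by positivity)
        _ = |((t N - ε N * γ N : ℚ) : ℝ)| * s ^ (C + 1) := by rw [pow_succ]; ring
        _ ≤ 1 := h1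
    linarith
  have e5 : |(ε N : ℝ)| * |(γ N : ℝ) - la N| * s ^ C ≤ 1 / 2 := by
    have e6 : 2 * (|(ε N : ℝ)| * |(γ N : ℝ) - la N| * s ^ C) ≤ 1 := by
      calc 2 * (|(ε N : ℝ)| * |(γ N : ℝ) - la N| * s ^ C)
          ≤ s * (s ^ C₀ * |(γ N : ℝ) - la N| * s ^ C) := by
            gcongr
        _ = |(γ N : ℝ) - la N| * s ^ (C₀ + C + 1) := by rw [pow_succ, pow_add]; ring
        _ ≤ 1 := h2
    linarith
  calc |(t N : ℝ) - (ε N : ℝ) * la N| * s ^ C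
      ≤ (|((t N - ε N * γ N : ℚ) : ℝ)| + |(ε N : ℝ)| * |(γ N : ℝ) - la N|) * s ^ C :=
        mul_le_mul_of_nonneg_right e1 (by positivity)
    _ = |((t N - ε N * γ N : ℚ) : ℝ)| * s ^ C + |(ε N : ℝ)| * |(γ N : ℝ) - la N| * s ^ C := by ring
    _ ≤ 1 := by linarith

theorem ainv_smul {k L₁ : Type} [Field k] [Field L₁] [Algebra k L₁] {ξ g u : L₁} (h : AInv k ξ g u) (c : k) :
    AInv k ξ g (algebraMap k L₁ c * u) := by
  refine ⟨?_, fun Ω _ _ _ l m hΩ hlm => ?_⟩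
  · have h1 : IsIntegral (Algebra.adjoin k {ξ}) (algebraMap k L₁ c) := by
      rw [IsScalarTower.algebraMap_apply k (Algebra.adjoin k {ξ}) L₁]
      exact isIntegral_algebraMap
    exact h1.mul h.1
  · rw [map_mul, map_mul, h.2 Ω l m hΩ hlm, AlgHom.commutes, AlgHom.commutes]

theorem st1b {n : ℕ} {K : ℕ → Subfield ℝ} {H : ℕ → ℕ} {x y : ℕ → ℤ} (hs : Sq n K H x y) (hb : Bg H (uu n x y))
    {la : ℕ → ℝ} {γ : ℕ → ℚ} {g : LL H x y} (hS : Stg n K H x y la γ g) {u w : LL H x y} {κ : ℕ}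
    (hu : AInv (Q0 H) (ul n H x y) g u) (hw : AInv (Q0 H) (ul n H x y) g w) (ht : Transcendental (Q0 H) u)
    (hg : w / u ^ κ - g ∈ (OO H x y).nonunits) :
    ∃ (a b : ℕ → ℤ) (Φ : ℕ → MvPolynomial (Fin 2) ℤ) (D : ℕ), Qot n K H x y g a b Φ D := by
  classical
  -- (1) integrality
  have hui := sb_int_map (LL H x y).val (x := ul n H x y) (g := u) hu.1
  have e0 : (LL H x y).val (ul n H x y) = qz (uu n x y) := rfl
  have e0' : (LL H x y).val u = (u : QS) := rfl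
  rw [e0, e0'] at hui
  have huz : qz (uu n x y) ∈ ZS := mem_zs.2 ⟨uu n x y, rfl⟩
  obtain ⟨δ₁, hδ1, -, hδ0, hδu⟩ := int_small H (qz (uu n x y)) (u : QS) huz hui
  obtain ⟨a, ha⟩ := mem_zs.1 hδu
  obtain ⟨d₁, hd₁⟩ : ∃ d₁ : Q0 H, (d₁ : QS) = δ₁ := ⟨⟨δ₁, hδ1⟩, rfl⟩
  have hd₁0 : d₁ ≠ 0 := by
    rintro rfl
    exact hδ0 hd₁.symm
  obtain ⟨u₁, hu₁⟩ : ∃ u₁ : LL H x y, u₁ = algebraMap (Q0 H) (LL H x y) d₁ * u := ⟨_, rfl⟩
  obtain ⟨w₁, hw₁⟩ : ∃ w₁ : LL H x y, w₁ = algebraMap (Q0 H) (LL H x y) (d₁ ^ κ) * w := ⟨_, rfl⟩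
  have hua : (u₁ : QS) = qz a := by
    rw [hu₁]
    show (algebraMap (Q0 H) (LL H x y) d₁ : QS) * (u : QS) = qz a
    unfold qz
    rw [← ha, ← hd₁]
    rfl
  have hau : AInv (Q0 H) (ul n H x y) g u₁ := by
    rw [hu₁]
    exact ainv_smul hu d₁
  have haw : AInv (Q0 H) (ul n H x y) g w₁ := by
    rw [hw₁]
    exact ainv_smul hw (d₁ ^ κ)
  have hdm0 : algebraMap (Q0 H) (LL H x y) d₁ ≠ 0 := (_root_.map_ne_zero _).2 hd₁0
  have hwu : w₁ / u₁ ^ κ = w / u ^ κ := by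
    rw [hw₁, hu₁, map_pow, mul_pow, mul_div_mul_left _ _ (pow_ne_zero κ hdm0)]
  have htr : Transcendental (Q0 H) u₁ := by
    intro hc
    apply ht
    have h1 : u = algebraMap (Q0 H) (LL H x y) d₁⁻¹ * u₁ := by
      rw [hu₁, map_inv₀, inv_mul_cancel_left₀ hdm0]
    rw [h1]
    exact (isAlgebraic_algebraMap _).mul hc
  have htra : Transcendental (Q0 H) (qz a) := by
    intro hc
    apply htr
    rw [← hua] at hc
    exact (isAlgebraic_algHom_iff (LL H x y).val (LL H x y).val.injective).1 hc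
  -- (2) the model
  obtain ⟨P, hPm, -, hPi, hP3, hPu⟩ := np hs hS.sg
  have hPg : aeval g P ∈ (OO H x y).nonunits := by
    unfold OO
    rw [nonunits_comap]
    have h1 := hPu H (uu n x y) γ (fun _ => le_rfl) hb hS.nr
    have h2 : algebraMap (LL H x y) QS (aeval g P) = aeval (cl γ : QS) P := by
      rw [← aeval_algebraMap_apply]
      have h3 : algebraMap (LL H x y) QS g = cl γ := hS.gg
      rw [h3]
    rw [h2]
    exact h1
  obtain ⟨hk, hξ, hO⟩ := sq_uni hs (fun _ => le_rfl) hb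
  obtain ⟨G, hG, hT⟩ := mdq hk hξ hO hau.1 haw.1 htr hS.gO (by rw [hwu]; exact hg) hPi hP3 hPg
  have hG' : Pool.Agent.H37.SI.Model (cl fun N => (a N : ℚ)) (w₁ : QS) κ G := by
    have h1 := model_map (LL H x y).val hG
    have h2 : (LL H x y).val u₁ = cl fun N => (a N : ℚ) := hua
    rw [h2] at h1
    exact h1
  -- (3) the frame
  have hxa : (cl fun N => (a N : ℚ)) ∉ Q0 H := by
    intro hc
    exact htra (isAlgebraic_algebraMap (⟨_, hc⟩ : Q0 H))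
  obtain ⟨D₁, δ₂, b, hδ2, hδ20, hbw, hgood⟩ := frame_good2 hs.H2 hxa hG' hT
  obtain ⟨d₂, hd₂⟩ : ∃ d₂ : Q0 H, (d₂ : QS) = δ₂ := ⟨⟨δ₂, hδ2⟩, rfl⟩
  obtain ⟨ε, hεs, hε⟩ := hδ2
  have hε0 : ∀ᶠ N in UU, ε N ≠ 0 := by
    refine Ultrafilter.eventually_not.2 fun h2 => hδ20 ?_
    rw [hε, cl_zero, cl_eq]
    exact h2
  have hbm : (algebraMap (Q0 H) (LL H x y) d₂ * w₁ : LL H x y) = (qz b : QS) := by
    show (algebraMap (Q0 H) (LL H x y) d₂ : QS) * (w₁ : QS) = qz b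
    unfold qz
    rw [hbw, ← hd₂]
    rfl
  -- (4) closeness
  have hnear : ∀ C : ℕ, ∀ᶠ N in UU, |((b N : ℝ) / (a N : ℝ) ^ κ) - (ε N : ℝ) * la N| *
      ((H N + 2 : ℕ) : ℝ) ^ C ≤ 1 := by
    intro C
    have h1 : (cl (fun N => (b N : ℚ) / (a N : ℚ) ^ κ) - cl ε * cl γ : QS) ∈ (V0 H).nonunits := by
      have h2 : w₁ / u₁ ^ κ - g ∈ (OO H x y).nonunits := by
        rw [hwu]
        exact hg
      unfold OO at h2
      rw [nonunits_comap] at h2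
      have h3 : algebraMap (LL H x y) QS (w₁ / u₁ ^ κ - g) = (w₁ : QS) / (qz a) ^ κ - cl γ := by
        rw [map_sub, map_div₀, map_pow]
        show (w₁ : QS) / (u₁ : QS) ^ κ - (g : QS) = _
        rw [hua, hS.gg]
      rw [h3] at h2
      have h4 : (cl (fun N => (b N : ℚ) / (a N : ℚ) ^ κ) - cl ε * cl γ : QS) =
          δ₂ * ((w₁ : QS) / (qz a) ^ κ - cl γ) := by
        have h5 : (cl (fun N => (b N : ℚ) / (a N : ℚ) ^ κ) : QS) = (cl fun N => (b N : ℚ)) / (qz a) ^ κ := by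
          unfold qz
          rw [← clHom_apply, ← clHom_apply, ← clHom_apply, ← map_pow, div_eq_mul_inv]
          rfl
        rw [h5, hbw, ← hε]
        ring
      rw [h4]
      rw [ValuationSubring.mem_nonunits_iff] at h2 ⊢
      rw [map_mul]
      exact (mul_le_of_le_one_left' (((V0 H).valuation_le_one_iff δ₂).2
        (sb_q0_v0 H (by rw [hε]; exact ⟨ε, hεs, rfl⟩)))).trans_lt h2
    have h2 := sb_close hb hS.nr hεs h1 C
    refine h2.mono fun N hN => ?_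
    push_cast at hN ⊢
    exact hN
  -- the polynomials
  obtain ⟨Φ, hΦ⟩ : ∃ Φ : ℕ → MvPolynomial (Fin 2) ℤ, ∀ N, (∃ (g : ℤ[X][X]) (p : ℤ[X]),
      Pool.Agent.H4.SF.Good D₁ (H N) κ g p ∧ Pool.Agent.H4.SF.ev (a N) (b N) g = 0) →
      ∃ (g : ℤ[X][X]) (p : ℤ[X]), Pool.Agent.H4.SF.Good D₁ (H N) κ g p ∧
        Pool.Agent.H4.SF.ev (a N) (b N) g = 0 ∧ Φ N = Pool.Agent.H4.SF.toM g := by
    refine ⟨fun N => if h : ∃ (g : ℤ[X][X]) (p : ℤ[X]), Pool.Agent.H4.SF.Good D₁ (H N) κ g p ∧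
      Pool.Agent.H4.SF.ev (a N) (b N) g = 0 then Pool.Agent.H4.SF.toM h.choose else 0, fun N h => ?_⟩
    obtain ⟨p, h1, h2⟩ := h.choose_spec
    exact ⟨h.choose, p, h1, h2, dif_pos h⟩
  obtain ⟨C₁, hC₁⟩ := hS.sg
  obtain ⟨C₂, hC₂⟩ := hεs
  obtain ⟨D', hD'⟩ : ∃ D' : ℕ, D' = C₁ + 2 * C₂ + n * (n + 1) := ⟨_, rfl⟩
  obtain ⟨C, hC⟩ := aik D₁ D'
  refine ⟨a, b, Φ, D₁ * (D₁ + 1), ⟨?_, ?_, ?_, ?_, htra, ?_⟩⟩
  · rw [← hua]
    exact u₁.2
  · rw [← hbm]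
    exact (algebraMap (Q0 H) (LL H x y) d₂ * w₁ : LL H x y).2
  · have h1 : (⟨qz a, by rw [← hua]; exact u₁.2⟩ : LL H x y) = u₁ := Subtype.ext hua.symm
    rw [h1]
    exact hau
  · have h1 : (⟨qz b, by rw [← hbm]; exact (algebraMap (Q0 H) (LL H x y) d₂ * w₁ : LL H x y).2⟩ : LL H x y) =
        algebraMap (Q0 H) (LL H x y) d₂ * w₁ := Subtype.ext hbm.symm
    rw [h1]
    exact ainv_smul haw d₂
  · filter_upwards [hgood, hε0, hnear C, sb_large hxa C] with N h1 h2 h3 h4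
    obtain ⟨g', p, h5, h6, h7⟩ := hΦ N h1
    have hH2 := hs.H2 N
    have hH1 : (1 : ℤ) ≤ (H N : ℤ) := by exact_mod_cast (by omega : 1 ≤ H N)
    have hHle : (H N : ℝ) ≤ ((H N + 2 : ℕ) : ℝ) := by
      push_cast
      linarith
    have hH22 : H N + 2 ≤ (H N) ^ 2 := by nlinarith
    obtain ⟨hNF, -⟩ := hs.ty N
    have hfin : Module.finrank ℚ (K N) ≤ D' := by
      obtain ⟨P', -, -, -, h8, h9, -⟩ := sg_poly n (hs.ty N) (hC₁ N)
      rw [← h8]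
      omega
    have hsg : Sg (K N) ((H N) ^ D') (la N) := by
      obtain ⟨k1, k2, k3, k4⟩ := hC₁ N
      refine ⟨k1, k2, k3, fun φ => (k4 φ).trans ?_⟩
      exact_mod_cast Nat.pow_le_pow_right (by omega) (by omega)
    have hpow : (H N + 2) ^ C₂ ≤ (H N) ^ D' := by
      calc (H N + 2) ^ C₂ ≤ ((H N) ^ 2) ^ C₂ := Nat.pow_le_pow_left hH22 _
        _ = (H N) ^ (2 * C₂) := by rw [← pow_mul]
        _ ≤ (H N) ^ D' := Nat.pow_le_pow_right (by omega) (by omega)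
    have hbig : (H N : ℝ) ^ C ≤ |(a N : ℝ)| := by
      have k1 : ((H N + 2 : ℕ) : ℝ) ^ C ≤ |(a N : ℝ)| := by exact_mod_cast h4
      exact (pow_le_pow_left₀ (by positivity) hHle C).trans k1
    have hcl : |(b N : ℝ) / (a N : ℝ) ^ κ - (ε N : ℝ) * la N| * (H N : ℝ) ^ C ≤ 1 := by
      refine le_trans ?_ h3
      exact mul_le_mul_of_nonneg_left (pow_le_pow_left₀ (by positivity) hHle C) (abs_nonneg _)
    have h10 := hC (K N) hNF (H N) κ g' p (a N) (b N) (ε N) (la N) hH2 h5 h6 hfin hsg h2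
      ((hC₂ N).1.trans hpow) ((hC₂ N).2.trans hpow) hbig hcl
    rw [h7]
    refine ⟨h10, Pool.Agent.H4.SF.toM_tot h5.κD h5.deg h5.wt, fun m => ?_, ?_⟩
    · rw [Pool.Agent.H4.SF.toM_coeff]
      exact (h5.cf _ _).trans (pow_le_pow_right₀ hH1 (by nlinarith))
    · rw [Pool.Agent.H4.SF.toM_eval]
      exact h6

end Pool.Agent.H8.OA
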