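import Pool.Agent.H8.OA.St1b
import Pool.Agent.H8.OA.S2b

/-! # [H8 OA ST2A] Stage 2: an absolutely invariant function of the first curve is a function of the second curve

`k₁ = Q0 H₁ ≤ k₂ = Q0 H₂` (`q0_mono`: `Small H₁ f → Small H₂ f`); `Algebra k₁ k₂` by `(Subfield.inclusion _).toAlgebra`, `RelCl k₁ k₂` (`q0_alg H₁`: an element of `k₂ ⊆ QS` algebraic over `k₁` is in `k₁`). `x₁` etc. stand for the classes.
(1) `γ₂` from `ng hs₂ hb₂ hle hS.sg` (NG1): `cl γ₂ ∈ LL H₂ x₂ y₂`, `Nr H₂ u₂ la γ₂`. `Nr H₂ u₁ la γ` (`nr_mono`). `cl γ - cl γ₂ ∈ (V0 H₂).nonunits` (`nr_sub`). `P₁` from `np hs₁ hS.sg`; `P = P₁.map (algebraMap k₁ k₂)` is irreducible over `k₂` (it is so over `QS`), degree `≥ 3`, `aeval (cl γ) P ∈ (V0 H₂).nonunits` (universal clause for `H' := H₂`, `u' := u₁`).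
(2) `A = LL H₂ x₁ y₁`, `B = LL H₂ x₂ y₂`: `FF k₂ u₁` in `A` (`sq_ff` for `H₁ := H₁`, `H := H₂`), `FF k₂ u₂` in `B`. `cl γ ∈ A` (`LL H₁ x₁ y₁ ⊆ LL H₂ x₁ y₁`: `ll_mono`). `dep_w`: `u₂` is algebraic over `k₂(u₁)`; by `dep_w` with the roles exchanged (`cl γ₂ - cl γ`, `aeval (cl γ₂) P ∈ nonunits`) `u₁` is algebraic over `k₂(u₂)`. The bounds: `|u₁| ≤ |u₂|^C` in `QS` from `hc1`, `hc2`.
(3) `L = adjoin k₂ {x₁, y₁, x₂, y₂}`: finite over `k₂(u₁)` and over `k₂(u₂)` (generated by four algebraic elements): `FF k₂ u₁`, `FF k₂ u₂` in `L`. `O = (V0 H₂).comap (algebraMap L QS)`, `uni` (H12/ON/Uni.lean) for `u₁` and for `u₂` (`qz _ ∈ ZS`, `bg_v0`): both uniqueness hypotheses.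
(4) `s2b` (S2B) with `k₁, k₂`, `L₁ = LL H₁ x₁ y₁`, `L₂ = B`, `L`, `j`, `a₂` the inclusions (`j : L₁ →ₐ[k₁] L`; `Algebra k₁ L` through `k₂`), `g₁ = g`, `g₂ = ⟨cl γ₂, _⟩`, `u := ⟨qz a, _⟩`; `hz = hS.sz`, `hcl₁ = sq_cl H₁ x₁ y₁`. It gives `z ∈ B` integral over `k₂[u₂]` with `qz a = z`. -/

namespace Pool.Agent.H8.OA

open Filter IntermediateField Pool.Agent.H82.NS Pool.Agent.H12.ON Pool.Agent.H12.OG Polynomial

theorem q0_mono {H₁ H₂ : ℕ → ℕ} (hle : ∀ N, H₁ N ≤ H₂ N) : Q0 H₁ ≤ Q0 H₂ := by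
  rintro _ ⟨f, ⟨C, hC⟩, rfl⟩
  refine ⟨f, ⟨C, fun N => ?_⟩, rfl⟩
  have h1 : (H₁ N + 2) ^ C ≤ (H₂ N + 2) ^ C := Nat.pow_le_pow_left (by have := hle N; omega) C
  exact ⟨(hC N).1.trans h1, (hC N).2.trans h1⟩

theorem ll_mono {H₁ H₂ : ℕ → ℕ} (hle : ∀ N, H₁ N ≤ H₂ N) (x y : ℕ → ℤ) {z : QS} (hz : z ∈ LL H₁ x y) :
    z ∈ LL H₂ x y := by
  unfold LL at hz
  induction hz using IntermediateField.adjoin_induction with
  | mem a ha => exact IntermediateField.subset_adjoin _ _ ha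
  | algebraMap r => exact (LL H₂ x y).algebraMap_mem (⟨(r : QS), q0_mono hle r.2⟩ : Q0 H₂)
  | add a b _ _ ha hb => exact (LL H₂ x y).add_mem ha hb
  | mul a b _ _ ha hb => exact (LL H₂ x y).mul_mem ha hb
  | inv a _ ha => exact (LL H₂ x y).inv_mem ha

private theorem sa_v0_ov (H : ℕ → ℕ) : Ov (Q0 H) (V0 H) := by
  intro c
  rcases abs_choice (c : QS) with h | h
  · exact ⟨(c : QS), c.2, le_of_eq h⟩
  · exact ⟨-(c : QS), (Q0 H).neg_mem c.2, le_of_eq h⟩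

open scoped IntermediateField.algebraAdjoinAdjoin in
private theorem sa_desc {k K K' : Type} [Field k] [Field K] [Field K'] [Algebra k K] [Algebra k K'] (f : K →ₐ[k] K')
    {x q : K} (h : IsAlgebraic k⟮f x⟯ (f q)) : IsAlgebraic k⟮x⟯ q := by
  have h1 : IsAlgebraic (Algebra.adjoin k {f x}) (f q) :=
    (IsFractionRing.isAlgebraic_iff (Algebra.adjoin k {f x}) k⟮f x⟯ K').2 h
  have hA : (Algebra.adjoin k {x}).map f = Algebra.adjoin k {f x} := AlgHom.map_adjoin_singleton _ _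
  obtain ⟨e, he⟩ : ∃ e : Algebra.adjoin k {x} ≃ₐ[k] Algebra.adjoin k {f x},
      ∀ a, ((e a : Algebra.adjoin k {f x}) : K') = f (a : K) :=
    ⟨((Algebra.adjoin k {x}).equivMapOfInjective f f.injective).trans (Subalgebra.equivOfEq _ _ hA),
      fun _ => rfl⟩
  obtain ⟨p, hp, hpz⟩ := h1
  have h2 : IsAlgebraic (Algebra.adjoin k {x}) q := by
    refine ⟨p.map (e.symm : Algebra.adjoin k {f x} →+* Algebra.adjoin k {x}),
      (Polynomial.map_ne_zero_iff e.symm.injective).2 hp, ?_⟩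
    rw [Polynomial.aeval_def, Polynomial.eval₂_map]
    refine f.injective ?_
    change (f : K →+* K') _ = (f : K →+* K') _
    rw [Polynomial.hom_eval₂, map_zero]
    have hc : ((f : K →+* K').comp ((algebraMap (Algebra.adjoin k {x}) K).comp
        (e.symm : Algebra.adjoin k {f x} →+* Algebra.adjoin k {x}))) =
        algebraMap (Algebra.adjoin k {f x}) K' := by
      ext a
      change f ((e.symm a : Algebra.adjoin k {x}) : K) = (a : K')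
      rw [← he, AlgEquiv.apply_symm_apply]
    rw [hc]
    exact hpz
  exact (IsFractionRing.isAlgebraic_iff (Algebra.adjoin k {x}) k⟮x⟯ K).1 h2

/-- integral over `k[x]`, `x` algebraic over `F` -/
private theorem sa_alg {k M F : Type} [Field k] [Field M] [Field F] [Algebra k M] [Algebra F M] {x q : M}
    (h : IsIntegral (Algebra.adjoin k {x}) q) (hx : IsAlgebraic F x)
    (hk : ∀ c : k, ∃ d : F, algebraMap F M d = algebraMap k M c) : IsAlgebraic F q := by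
  obtain ⟨p, hp, hpz⟩ := h
  have hE : ∀ a : Algebra.adjoin k {x}, (a : M) ∈ F⟮x⟯ := by
    intro a
    have h1 : Algebra.adjoin k {x} ≤ ({ F⟮x⟯.toSubring with
        algebraMap_mem' := fun c => by
          obtain ⟨d, hd⟩ := hk c
          rw [← hd]
          exact F⟮x⟯.algebraMap_mem d } : Subalgebra k M) :=
      Algebra.adjoin_le (Set.singleton_subset_iff.2 (IntermediateField.mem_adjoin_simple_self F x))
    exact h1 a.2
  have h1 : IsIntegral F⟮x⟯ q := by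
    refine ⟨p.map ((algebraMap (Algebra.adjoin k {x}) M).codRestrict F⟮x⟯ hE), hp.map _, ?_⟩
    rw [Polynomial.eval₂_map]
    exact hpz
  have : Algebra.IsAlgebraic F F⟮x⟯ := IntermediateField.isAlgebraic_adjoin_simple hx.isIntegral
  exact h1.isAlgebraic.restrictScalars F

private theorem sa_ff {H : ℕ → ℕ} {T : Set QS} (hT : T.Finite) {U : QS} (hU : U ∈ IntermediateField.adjoin (Q0 H) T)
    (htr : Transcendental (Q0 H) U) (halg : ∀ s ∈ T, IsAlgebraic (Q0 H)⟮U⟯ s) :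
    FF (Q0 H) (⟨U, hU⟩ : IntermediateField.adjoin (Q0 H) T) := by
  obtain ⟨L, hL⟩ : ∃ L : IntermediateField (Q0 H) QS, L = IntermediateField.adjoin (Q0 H) T := ⟨_, rfl⟩
  obtain ⟨S, hS⟩ : ∃ S : Set (IntermediateField.adjoin (Q0 H) T), S = {s : IntermediateField.adjoin (Q0 H) T | (s : QS) ∈ T} := ⟨_, rfl⟩
  have hSf : S.Finite := by
    rw [hS]
    exact hT.preimage Subtype.val_injective.injOn
  have himg : (IntermediateField.adjoin (Q0 H) T).val '' S = T := by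
    ext z
    constructor
    · rintro ⟨s, hs, rfl⟩
      rw [hS] at hs
      exact hs
    · intro hz
      refine ⟨⟨z, IntermediateField.subset_adjoin _ _ hz⟩, ?_, rfl⟩
      rw [hS]
      exact hz
  have htop : IntermediateField.adjoin (Q0 H) S = ⊤ := by
    rw [eq_top_iff]
    intro z _
    have h1 : (z : QS) ∈ (IntermediateField.adjoin (Q0 H) S).map (IntermediateField.adjoin (Q0 H) T).val := by
      rw [IntermediateField.adjoin_map, himg]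
      exact z.2
    obtain ⟨w, hw, hwz⟩ := h1
    have h2 : w = z := Subtype.ext hwz
    rw [← h2]
    exact hw
  refine ⟨?_, ?_⟩
  · intro hc
    apply htr
    exact (isAlgebraic_algHom_iff (IntermediateField.adjoin (Q0 H) T).val
      (IntermediateField.adjoin (Q0 H) T).val.injective).2 hc
  · obtain ⟨u, hu⟩ : ∃ u : IntermediateField.adjoin (Q0 H) T, u = ⟨U, hU⟩ := ⟨_, rfl⟩
    rw [← hu]
    have hint : ∀ s ∈ S, IsIntegral (Q0 H)⟮u⟯ s := by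
      intro s hs
      rw [hS] at hs
      have h1 := halg _ hs
      have h2 : U = (IntermediateField.adjoin (Q0 H) T).val u := by rw [hu]; rfl
      rw [h2] at h1
      exact (sa_desc (IntermediateField.adjoin (Q0 H) T).val (x := u) (q := s) h1).isIntegral
    have := hSf.to_subtype
    have h1 : FiniteDimensional (Q0 H)⟮u⟯ (IntermediateField.adjoin (Q0 H)⟮u⟯ S) :=
      IntermediateField.finiteDimensional_adjoin hint
    have h2 : IntermediateField.adjoin (Q0 H)⟮u⟯ S = ⊤ := by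
      rw [eq_top_iff]
      intro z _
      have h3 : IntermediateField.adjoin (Q0 H) S ≤
          (IntermediateField.adjoin (Q0 H)⟮u⟯ S).restrictScalars (Q0 H) :=
        IntermediateField.adjoin_le_iff.2 (IntermediateField.subset_adjoin _ _)
      exact h3 (by rw [htop]; exact IntermediateField.mem_top)
    rw [h2] at h1
    exact (IntermediateField.topEquiv (F := (Q0 H)⟮u⟯)
      (E := IntermediateField.adjoin (Q0 H) T)).toLinearEquiv.finiteDimensional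

private theorem sa_int_map {E K M : Type} [Field E] [Field K] [Field M] [Algebra E K] [Algebra E M] (φ : K →ₐ[E] M)
    {x g : K} (h : IsIntegral (Algebra.adjoin E {x}) g) : IsIntegral (Algebra.adjoin E {φ x}) (φ g) := by
  obtain ⟨p, hp, hpg⟩ := h
  have h1 : ∀ z : Algebra.adjoin E {x}, φ z ∈ Algebra.adjoin E {φ x} := by
    intro z
    have h2 : φ z ∈ (Algebra.adjoin E {x}).map φ := ⟨z, z.2, rfl⟩
    rw [AlgHom.map_adjoin, Set.image_singleton] at h2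
    exact h2
  refine ⟨p.map (((φ : K →+* M).comp (Algebra.adjoin E {x}).subtype).codRestrict (Algebra.adjoin E {φ x}) h1),
    hp.map _, ?_⟩
  rw [Polynomial.eval₂_map]
  have h3 := congrArg φ hpg
  rw [map_zero] at h3
  rw [← h3]
  have h4 := Polynomial.hom_eval₂ p (algebraMap (Algebra.adjoin E {x}) K) (φ : K →+* M) g
  refine Eq.trans ?_ h4.symm
  rfl

private theorem sa_abs (f : ℕ → ℚ) : |(cl f : QS)| = cl (fun N => |f N|) := by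
  rcases le_total 0 (cl f : QS) with h | h
  · rw [abs_of_nonneg h, cl_eq]
    rw [cl_zero, cl_le] at h
    exact h.mono fun N hN => (abs_of_nonneg hN).symm
  · rw [abs_of_nonpos h, cl_neg, cl_eq]
    rw [cl_zero, cl_le] at h
    exact h.mono fun N hN => (abs_of_nonpos hN).symm

private theorem sa_cmp {a b : ℕ → ℤ} {C : ℕ} (h : ∀ᶠ N in UU, |a N| ≤ |b N| ^ C) : |qz a| ≤ |qz b| ^ C := by
  unfold qz
  rw [sa_abs, sa_abs, ← clHom_apply, ← clHom_apply, ← map_pow, clHom_apply, clHom_apply]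
  refine cl_le.2 (h.mono fun N hN => ?_)
  show |(a N : ℚ)| ≤ |(b N : ℚ)| ^ C
  exact_mod_cast hN

theorem st2a {n : ℕ} {K : ℕ → Subfield ℝ} {H₁ H₂ : ℕ → ℕ} {x₁ y₁ x₂ y₂ : ℕ → ℤ} (hs₁ : Sq n K H₁ x₁ y₁)
    (hs₂ : Sq n K H₂ x₂ y₂) (hle : ∀ N, H₁ N ≤ H₂ N) (hb₁ : Bg H₂ (uu n x₁ y₁)) (hb₂ : Bg H₂ (uu n x₂ y₂)) {C : ℕ}
    (hc1 : ∀ᶠ N in UU, |uu n x₁ y₁ N| ≤ |uu n x₂ y₂ N| ^ C) (hc2 : ∀ᶠ N in UU, |uu n x₂ y₂ N| ≤ |uu n x₁ y₁ N| ^ C)
    {la : ℕ → ℝ} {γ : ℕ → ℚ} {g : LL H₁ x₁ y₁} (hS : Stg n K H₁ x₁ y₁ la γ g) {a : ℕ → ℤ} (ha : qz a ∈ LL H₁ x₁ y₁)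
    (hai : AInv (Q0 H₁) (ul n H₁ x₁ y₁) g ⟨qz a, ha⟩) :
    ∃ h : qz a ∈ LL H₂ x₂ y₂, IsInt (Q0 H₂) (ul n H₂ x₂ y₂) ⟨qz a, h⟩ := by
  -- the base fields
  letI i12 : Algebra (Q0 H₁) (Q0 H₂) := (Subfield.inclusion (q0_mono hle)).toAlgebra
  have hk : ∀ c : Q0 H₁, ((algebraMap (Q0 H₁) (Q0 H₂) c : Q0 H₂) : QS) = c := fun _ => rfl
  -- (1)
  obtain ⟨γ₂, hγ₂, hN₂⟩ := ng hs₂ hb₂ hle hS.sg
  have hN₁ := nr_mono hS.nr hle
  have hγγ := nr_sub hb₁ hb₂ hN₁ hN₂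
  obtain ⟨P₁, hP₁m, hP₁i, -, hP₁3, hP₁u⟩ := np hs₁ hS.sg
  obtain ⟨P, hP⟩ : ∃ P : (Q0 H₂)[X], P = P₁.map (algebraMap (Q0 H₁) (Q0 H₂)) := ⟨_, rfl⟩
  have hPm : P.Monic := by rw [hP]; exact hP₁m.map _
  have hPi : Irreducible P := by
    refine hPm.irreducible_of_irreducible_map (algebraMap (Q0 H₂) QS) P ?_
    rw [hP, Polynomial.map_map]
    exact hP₁i
  have hP3 : 3 ≤ P.natDegree := by
    rw [hP, Polynomial.natDegree_map]
    exact hP₁3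
  have hPe : ∀ z : QS, aeval z P = aeval z P₁ := by
    intro z
    rw [hP, Polynomial.aeval_def, Polynomial.eval₂_map, Polynomial.aeval_def]
    rfl
  have hPg₁ : aeval (cl γ : QS) P ∈ (V0 H₂).nonunits := by
    rw [hPe]
    exact hP₁u H₂ _ γ hle hb₁ hN₁
  have hPg₂ : aeval (cl γ₂ : QS) P ∈ (V0 H₂).nonunits := by
    rw [hPe]
    exact hP₁u H₂ _ γ₂ hle hb₂ hN₂
  -- (2)
  have hff₁ := sq_ff hs₁ hle hb₁
  have hff₂ := sq_ff hs₂ (fun _ => le_rfl) hb₂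
  have hgA : (cl γ : QS) ∈ LL H₂ x₁ y₁ := by
    rw [← hS.gg]
    exact ll_mono hle x₁ y₁ g.2
  have hz₁ : qz (uu n x₁ y₁) ∈ ZS := mem_zs.2 ⟨_, rfl⟩
  have hz₂ : qz (uu n x₂ y₂) ∈ ZS := mem_zs.2 ⟨_, rfl⟩
  have hγγ' : (cl γ₂ - cl γ : QS) ∈ (V0 H₂).nonunits := by
    have h1 : (cl γ₂ - cl γ : QS) = -(cl γ - cl γ₂) := by ring
    rw [h1, ValuationSubring.mem_nonunits_iff, Valuation.map_neg, ← ValuationSubring.mem_nonunits_iff]
    exact hγγ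
  have hdep₁ : IsAlgebraic (Q0 H₂)⟮qz (uu n x₁ y₁)⟯ (qz (uu n x₂ y₂)) :=
    dep_w H₂ (LL H₂ x₁ y₁) (LL H₂ x₂ y₂) (u_mem n H₂ x₁ y₁) (u_mem n H₂ x₂ y₂) hz₁ hz₂ (bg_v0 hb₁) (bg_v0 hb₂)
      hff₁ hff₂ hgA hγ₂ hPi hP3 hPg₁ hγγ (sa_cmp hc1) (sa_cmp hc2)
  have hdep₂ : IsAlgebraic (Q0 H₂)⟮qz (uu n x₂ y₂)⟯ (qz (uu n x₁ y₁)) :=
    dep_w H₂ (LL H₂ x₂ y₂) (LL H₂ x₁ y₁) (u_mem n H₂ x₂ y₂) (u_mem n H₂ x₁ y₁) hz₂ hz₁ (bg_v0 hb₂) (bg_v0 hb₁)
      hff₂ hff₁ hγ₂ hgA hPi hP3 hPg₂ hγγ' (sa_cmp hc2) (sa_cmp hc1)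
  -- (3)
  obtain ⟨T, hT⟩ : ∃ T : Set QS, T = {qz x₁, qz y₁, qz x₂, qz y₂} := ⟨_, rfl⟩
  have hTf : T.Finite := by
    rw [hT]
    exact Set.toFinite _
  obtain ⟨L, hL⟩ : ∃ L : IntermediateField (Q0 H₂) QS, L = IntermediateField.adjoin (Q0 H₂) T := ⟨_, rfl⟩
  have hL₁ : ∀ z ∈ LL H₂ x₁ y₁, z ∈ L := by
    intro z hz
    rw [hL]
    refine IntermediateField.adjoin.mono _ _ _ ?_ hz
    rw [hT]
    intro s hs
    rcases hs with rfl | hs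
    · exact Set.mem_insert _ _
    · rw [Set.mem_singleton_iff.1 hs]
      exact Set.mem_insert_of_mem _ (Set.mem_insert _ _)
  have hL₂ : ∀ z ∈ LL H₂ x₂ y₂, z ∈ L := by
    intro z hz
    rw [hL]
    refine IntermediateField.adjoin.mono _ _ _ ?_ hz
    rw [hT]
    intro s hs
    rcases hs with rfl | hs
    · exact Set.mem_insert_of_mem _ (Set.mem_insert_of_mem _ (Set.mem_insert _ _))
    · rw [Set.mem_singleton_iff.1 hs]
      exact Set.mem_insert_of_mem _ (Set.mem_insert_of_mem _ (Set.mem_insert_of_mem _ (Set.mem_singleton _)))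
  obtain ⟨ix₁, iy₁⟩ := sq_int hs₁ hle
  obtain ⟨ix₂, iy₂⟩ := sq_int hs₂ (H := H₂) (fun _ => le_rfl)
  have jx₁ := sa_int_map (LL H₂ x₁ y₁).val ix₁
  have jy₁ := sa_int_map (LL H₂ x₁ y₁).val iy₁
  have jx₂ := sa_int_map (LL H₂ x₂ y₂).val ix₂
  have jy₂ := sa_int_map (LL H₂ x₂ y₂).val iy₂
  have hself : ∀ U : QS, IsAlgebraic (Q0 H₂)⟮U⟯ U := fun U =>
    isAlgebraic_algebraMap (⟨U, IntermediateField.mem_adjoin_simple_self _ U⟩ : (Q0 H₂)⟮U⟯)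
  have hbase : ∀ (U : QS) (c : Q0 H₂), ∃ d : (Q0 H₂)⟮U⟯, algebraMap (Q0 H₂)⟮U⟯ QS d = algebraMap (Q0 H₂) QS c :=
    fun U c => ⟨algebraMap (Q0 H₂) (Q0 H₂)⟮U⟯ c, rfl⟩
  have halg₁ : ∀ s ∈ T, IsAlgebraic (Q0 H₂)⟮qz (uu n x₁ y₁)⟯ s := by
    intro s hs
    rw [hT] at hs
    rcases hs with rfl | rfl | rfl | hs
    · exact sa_alg jx₁ (hself _) (hbase _)
    · exact sa_alg jy₁ (hself _) (hbase _)
    · exact sa_alg jx₂ hdep₁ (hbase _)
    · rw [Set.mem_singleton_iff.1 hs]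
      exact sa_alg jy₂ hdep₁ (hbase _)
  have halg₂ : ∀ s ∈ T, IsAlgebraic (Q0 H₂)⟮qz (uu n x₂ y₂)⟯ s := by
    intro s hs
    rw [hT] at hs
    rcases hs with rfl | rfl | rfl | hs
    · exact sa_alg jx₁ hdep₂ (hbase _)
    · exact sa_alg jy₁ hdep₂ (hbase _)
    · exact sa_alg jx₂ (hself _) (hbase _)
    · rw [Set.mem_singleton_iff.1 hs]
      exact sa_alg jy₂ (hself _) (hbase _)
  have hU₁ : qz (uu n x₁ y₁) ∈ L := hL₁ _ (u_mem n H₂ x₁ y₁)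
  have hU₂ : qz (uu n x₂ y₂) ∈ L := hL₂ _ (u_mem n H₂ x₂ y₂)
  have hF₁ : FF (Q0 H₂) (⟨qz (uu n x₁ y₁), hU₁⟩ : L) := by
    subst hL
    exact sa_ff hTf hU₁ (bg_tr hb₁) halg₁
  have hF₂ : FF (Q0 H₂) (⟨qz (uu n x₂ y₂), hU₂⟩ : L) := by
    subst hL
    exact sa_ff hTf hU₂ (bg_tr hb₂) halg₂
  -- (4)
  letI i1L : Algebra (Q0 H₁) L := ((algebraMap (Q0 H₂) L).comp (algebraMap (Q0 H₁) (Q0 H₂))).toAlgebra
  haveI : IsScalarTower (Q0 H₁) (Q0 H₂) L := IsScalarTower.of_algebraMap_eq fun _ => rfl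
  obtain ⟨j, hj⟩ : ∃ j : LL H₁ x₁ y₁ →ₐ[Q0 H₁] L, ∀ z, ((j z : L) : QS) = z := by
    refine ⟨{ toFun := fun z => ⟨(z : QS), hL₁ _ (ll_mono hle x₁ y₁ z.2)⟩
              map_one' := rfl
              map_mul' := fun _ _ => rfl
              map_zero' := rfl
              map_add' := fun _ _ => rfl
              commutes' := fun _ => rfl }, fun _ => rfl⟩
  obtain ⟨a₂, ha₂⟩ : ∃ a₂ : LL H₂ x₂ y₂ →ₐ[Q0 H₂] L, ∀ z, ((a₂ z : L) : QS) = z := by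
    refine ⟨{ toFun := fun z => ⟨(z : QS), hL₂ _ z.2⟩
              map_one' := rfl
              map_mul' := fun _ _ => rfl
              map_zero' := rfl
              map_add' := fun _ _ => rfl
              commutes' := fun _ => rfl }, fun _ => rfl⟩
  have hjξ : j (ul n H₁ x₁ y₁) = ⟨qz (uu n x₁ y₁), hU₁⟩ := Subtype.ext (hj _)
  have haξ : a₂ (ul n H₂ x₂ y₂) = ⟨qz (uu n x₂ y₂), hU₂⟩ := Subtype.ext (ha₂ _)
  have hb₁' : Bg H₁ (uu n x₁ y₁) := by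
    intro C
    refine (hb₁ C).mono fun N hN => le_trans ?_ hN
    have := hle N
    exact_mod_cast Nat.pow_le_pow_left (by omega : H₁ N + 2 ≤ H₂ N + 2) C
  have hcl : RelCl (Q0 H₁) (Q0 H₂) := by
    intro z hz
    have h1 : IsAlgebraic (Q0 H₁) (z : QS) := by
      obtain ⟨p, hp, hpz⟩ := hz
      refine ⟨p, hp, ?_⟩
      have h2 := congrArg (Q0 H₂).subtype hpz
      rw [map_zero, Polynomial.aeval_def, Polynomial.hom_eval₂] at h2
      rw [Polynomial.aeval_def]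
      exact h2
    exact ⟨⟨(z : QS), q0_alg H₁ _ h1⟩, rfl⟩
  have hO : Ov (Q0 H₂) ((V0 H₂).comap (algebraMap L QS)) := fun c => sa_v0_ov H₂ c
  obtain ⟨u₂, hu₂, hju⟩ := s2b hcl (sq_cl H₁ x₁ y₁) j a₂ (ξ₁ := ul n H₁ x₁ y₁) (g₁ := g) (u := ⟨qz a, ha⟩)
    (ξ₂ := ul n H₂ x₂ y₂) (g₂ := ⟨cl γ₂, hγ₂⟩) (sq_ff hs₁ (fun _ => le_rfl) hb₁') hff₂
    (by rw [hjξ]; exact hF₁) (by rw [haξ]; exact hF₂) hS.sz hai (O := (V0 H₂).comap (algebraMap L QS)) hO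
    (by rw [hjξ]; exact bg_v0 hb₁) (by rw [haξ]; exact bg_v0 hb₂)
    (fun W hW hx => uni H₂ L ⟨qz (uu n x₁ y₁), hU₁⟩ hz₁ (bg_v0 hb₁) hF₁ W hW (by rw [← hjξ]; exact hx))
    (fun W hW hx => uni H₂ L ⟨qz (uu n x₂ y₂), hU₂⟩ hz₂ (bg_v0 hb₂) hF₂ W hW (by rw [← haξ]; exact hx))
    (by
      rw [nonunits_comap]
      have h1 : algebraMap L QS (j g - a₂ ⟨cl γ₂, hγ₂⟩) = cl γ - cl γ₂ := by
        rw [map_sub]
        show ((j g : L) : QS) - ((a₂ ⟨cl γ₂, hγ₂⟩ : L) : QS) = _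
        rw [hj, ha₂, hS.gg]
      rw [h1]
      exact hγγ)
  have h1 : qz a = (u₂ : QS) := by
    have h2 := congrArg (fun z : L => (z : QS)) hju
    have h3 : ((j ⟨qz a, ha⟩ : L) : QS) = ((a₂ u₂ : L) : QS) := h2
    rw [hj, ha₂] at h3
    exact h3
  refine ⟨by rw [h1]; exact u₂.2, ?_⟩
  have h2 : (⟨qz a, by rw [h1]; exact u₂.2⟩ : LL H₂ x₂ y₂) = u₂ := Subtype.ext h1
  rw [h2]
  exact hu₂

end Pool.Agent.H8.OA
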