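import Pool.Agent.H8.OA.Res
import Pool.Agent.H8.OA.Gen
import Pool.Agent.H8.AF.Fin

/-! # [H8 OA TY] The type of an exceptional point

`Ty n K H x y`: `K ⊆ ℝ` a number field of degree `≥ 3`, and the integer point `(u,v) = (y + x^(n+1), a x)` lies above the threshold on a curve `F` with all constants `b ≤ H^(cR n)`, on a branch `i` carrying the embedding `K ⊆ ℝ`. -/

namespace Pool.Agent.H8.OA

open Finset Polynomial Pool.Agent.H87.SA2 Pool.Agent.H8.AS Pool.Agent.H72.ES Pool.Agent.H34.AC Pool.Agent.H52.AC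

/-- the type of an integer point -/
def Ty (n : ℕ) (K : Subfield ℝ) (H : ℕ) (x y : ℤ) : Prop :=
  ∃ (_ : NumberField K) (d b : ℕ) (F : ℕ → ℕ → ℤ) (a : ℤ) (Q : CrvS K (n * (n + 1)) d b F) (i : Fin d) (T : ℂ),
    3 ≤ Module.finrank ℚ K ∧ b ≤ H ^ cR n ∧ a ≠ 0 ∧ |a| ≤ (H : ℤ) ∧ ev d F (y + x ^ (n + 1)) (a * x) = 0 ∧
    ((Q.pd.q : ℂ) * T) ^ Q.pd.e * ((y + x ^ (n + 1) : ℤ) : ℂ) = 1 ∧
    HasSum (fun m => PowerSeries.coeff m (Q.pd.x i) * T ^ m) (((a * x : ℤ) : ℂ) / ((y + x ^ (n + 1) : ℤ) : ℂ)) ∧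
    i ∈ Q.kp.S ∧ Q.kp.kap i = Complex.ofRealHom.comp K.subtype ∧
    (b : ℝ) ^ cA (n * (n + 1)) ≤ |((y + x ^ (n + 1) : ℤ) : ℝ)|

end Pool.Agent.H8.OA
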