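import Pool.Agent.H8.OA.Ty
import Pool.Agent.H98.SI.Stmt

/-! # [H8 OA TY1] Large integer points have a type; sizes; comparison

`ty_exists`: follow the proof of `all_curves` (H8/AF/Fin.lean, lines 45-95): `redS` gives `d, b, F, a, Q` and `hev`; `|u| ≥ b^cA` for `u = y + x^(n+1)` (there: `huR`); then the proof of `CrvS.exc` (H8/AS/Pt.lean) for this `Q` gives `τ : k →+* ℝ`, `i`, `T` (copy it; the
theorem `CrvS.exc` itself hides `Q`). `K := τ.fieldRange`, `e : K ≃+* k` (inverse of `τ` onto its image), a number field (`NumberField.of_ringEquiv`), degree `≥ 3`. Transport `Q : CrvS k …` to `K`: the same data with `kap' i = (kap i).comp e`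
(compare `KapS.twist` in H8/AS/Pt.lean), `kap' i = ofReal ∘ K.subtype` at the branch.
`AtInf` (H98/SI) is `INFR` (H34/AC; see how `allC` in H4/SF/ALC.lean uses `all_curves`).
`ty_size`: `hkey` in the proof of `all_curves` (`size_up`) with `V = |u|` and `size_low`. `ty_cmp`: `repelS` (H8/AS/Two.lean) for `k := K`, `τ := K.subtype`: `Ty` contains `ExcS K K.subtype (n(n+1)) (cA (n(n+1))) u (a x)` for both points
(the `NumberField` instances of the two points are equal: `Subsingleton`/proof irrelevance). -/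

namespace Pool.Agent.H8.OA

open Finset Pool.Agent.H34.AC Pool.Agent.H52.AC Pool.Agent.H8.AF
open Polynomial Pool.Agent.H72.ES Pool.Agent.H87.SA2 Pool.Agent.H8.AW Pool.Agent.H8.AS

/-- transport of the embeddings along an isomorphism of fields -/
noncomputable def kapTr {k K : Type} [Field k] [Field K] {f : ℤ[X][X]} {d : ℕ} {pd : PData f d} (P : KapS k pd) (e : K ≃+* k) :
    KapS K pd where
  S := P.S
  kap i := (P.kap i).comp (e : K →+* k)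
  real_mem := P.real_mem
  gal σ i hi j h := ⟨(P.gal σ i hi j h).1, fun z a ha => (P.gal σ i hi j h).2 (e z) a ha⟩
  rot ζ i hi j h h' := ⟨(P.rot ζ i hi j h h').1, by rw [(P.rot ζ i hi j h h').2]⟩

/-- transport of a curve along an isomorphism of fields -/
noncomputable def crvTr {k K : Type} [Field k] [Field K] {n d b : ℕ} {F : ℕ → ℕ → ℤ} (Q : CrvS k n d b F) (e : K ≃+* k) :
    CrvS K n d b F where
  d4 := Q.d4
  dn := Q.dn
  b2 := Q.b2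
  lead := Q.lead
  le := Q.le
  irr := Q.irr
  pd := Q.pd
  e_le := Q.e_le
  q_le := Q.q_le
  R_le := Q.R_le
  kp := kapTr Q.kp e
  bez := Q.bez

/-- `CrvS.exc` with the curve kept -/
theorem exc_keep {k : Type} [Field k] {n d b : ℕ} {F : ℕ → ℕ → ℤ} [NumberField k] (Q : CrvS k n d b F) {c : ℕ}
    (hc : 4 * n.factorial ≤ c) {x y : ℤ} (hz : ev d F x y = 0) (hx : (b : ℝ) ^ c ≤ |(x : ℝ)|) :
    ∃ (τ : k →+* ℝ) (i : Fin d) (T : ℂ), ((Q.pd.q : ℂ) * T) ^ Q.pd.e * (x : ℂ) = 1 ∧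
    HasSum (fun m => PowerSeries.coeff m (Q.pd.x i) * T ^ m) ((y : ℂ) / (x : ℂ)) ∧
    i ∈ Q.kp.S ∧ Q.kp.kap i = Complex.ofRealHom.comp τ := by
  have hb2 : (2 : ℝ) ≤ b := by exact_mod_cast Q.b2
  have hn1 : 1 ≤ n.factorial := Nat.factorial_pos n
  have hb1 : (b : ℝ) + 1 ≤ |(x : ℝ)| := by
    calc (b : ℝ) + 1 ≤ (b : ℝ) ^ 2 := by nlinarith
      _ ≤ (b : ℝ) ^ c := pow_le_pow_right₀ (by linarith) (by omega)
      _ ≤ _ := hx
  have hx0 : x ≠ 0 := by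
    rintro rfl
    rw [Int.cast_zero, abs_zero] at hb1
    linarith
  have hxC : (x : ℂ) ≠ 0 := by exact_mod_cast hx0
  have he : 0 < Q.pd.e := Q.pd.e_pos
  have hq0 : (Q.pd.q : ℂ) ≠ 0 := by
    have := Q.pd.q_pos
    exact_mod_cast (by omega : Q.pd.q ≠ 0)
  obtain ⟨S, hS⟩ := IsAlgClosed.exists_pow_nat_eq (1 / (x : ℂ)) he
  set T : ℂ := S / (Q.pd.q : ℂ) with hTdef
  have hqT : (Q.pd.q : ℂ) * T = S := by rw [hTdef]; field_simp
  have hTx : ((Q.pd.q : ℂ) * T) ^ Q.pd.e * (x : ℂ) = 1 := by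
    rw [hqT, hS]
    field_simp
  have hSn : ‖S‖ < 1 / (b : ℝ) ^ 2 := by
    by_contra hcon
    push Not at hcon
    have hb0 : (0 : ℝ) < (b : ℝ) ^ 2 := by positivity
    have h1 : (1 / (b : ℝ) ^ 2) ^ Q.pd.e ≤ ‖S‖ ^ Q.pd.e :=
      pow_le_pow_left₀ (by positivity) hcon _
    rw [← norm_pow, hS, norm_div, norm_one, Complex.norm_intCast, one_div_pow] at h1
    have hxp : (0 : ℝ) < |(x : ℝ)| := by linarith
    rw [one_div_le_one_div (by positivity) hxp, ← pow_mul] at h1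
    have h2 : 2 * Q.pd.e < c := by
      have h3 : Q.pd.e ≤ n.factorial := Q.e_le.trans (Nat.factorial_le Q.dn)
      omega
    have h3 : (b : ℝ) ^ (2 * Q.pd.e) < (b : ℝ) ^ c := pow_lt_pow_right₀ (by linarith) h2
    linarith
  have hTn : ‖T‖ ≤ ‖S‖ := by
    rw [hTdef, norm_div, Complex.norm_natCast]
    have h1 : (1 : ℝ) ≤ Q.pd.q := by exact_mod_cast Q.pd.q_pos
    exact div_le_self (norm_nonneg _) h1
  have hT : Q.pd.R * ‖T‖ < 1 := by
    have h1 : Q.pd.R * ‖T‖ ≤ b * ‖S‖ :=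
      mul_le_mul Q.R_le hTn (norm_nonneg _) (by linarith)
    have h2 : (b : ℝ) * ‖S‖ < b * (1 / (b : ℝ) ^ 2) :=
      mul_lt_mul_of_pos_left hSn (by linarith)
    have h3 : (b : ℝ) * (1 / (b : ℝ) ^ 2) ≤ 1 := by
      have : (b : ℝ) ≠ 0 := by linarith
      rw [mul_one_div, div_le_one (by positivity)]
      nlinarith
    linarith
  obtain ⟨i, hi⟩ := Q.toQ.branch hz hx0 hT hTx
  change evT T (Q.pd.x i) = (y : ℂ) / (x : ℂ) at hi
  obtain ⟨hiS, τ, hτ⟩ := Q.real hb1 hT hTx hi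
  refine ⟨τ, i, T, hTx, ?_, hiS, hτ⟩
  rw [← hi]
  have hR : 0 ≤ Q.pd.R := by linarith [Q.pd.R_ge]
  exact (CvT_of hR (Q.pd.growth i) hT).hasSum

theorem ty_exists (n : ℕ) (hn : 3 ≤ n) (k : Type) [Field k] [NumberField k] (hk : 3 ≤ Module.finrank ℚ k)
    (G : MvPolynomial (Fin 2) ℤ) (H : ℕ) (hG : G.totalDegree ≤ n) (hinf : Pool.Agent.H98.SI.AtInf k G) (hH : 2 ≤ H)
    (hc : ∀ m, |MvPolynomial.coeff m G| ≤ (H : ℤ)) (x y : ℤ) (h0 : MvPolynomial.eval ![x, y] G = 0)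
    (hbig : (H : ℤ) ^ cF n < max |x| |y|) : ∃ K : Subfield ℝ, Nonempty (k ≃+* K) ∧ Ty n K H x y := by
  have h0' : vl G x y = 0 := by
    have h1 : vl G x y = MvPolynomial.eval ![x, y] G := by
      unfold vl
      rw [← MvPolynomial.eval₂_id]
      congr 1
    rw [h1, h0]
  obtain ⟨d, b, F', a, ⟨Q⟩, hb, ha0, haH, hev⟩ := redS k (by omega) n hn G hinf.1 hG H hH hc hinf.2 x y h0'
  obtain ⟨m, hm⟩ : ∃ m, m = max x.natAbs y.natAbs := ⟨_, rfl⟩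
  have hmz : max |x| |y| = (m : ℤ) := by
    rw [hm, Int.abs_eq_natAbs, Int.abs_eq_natAbs]
    push_cast
    rfl
  have hbig' : H ^ cF n < m := by
    rw [hmz] at hbig
    exact_mod_cast hbig
  have hN1 : 1 ≤ n * (n + 1) := Nat.mul_pos (by omega) (by omega)
  obtain ⟨hcA1, hcA2⟩ := cA_ge hN1
  have hb2 : 2 ≤ b := Q.b2
  have hd4 := Q.d4
  have hHm : b ^ (cA (n * (n + 1)) * (2 * n + 3)) < m := by
    calc b ^ (cA (n * (n + 1)) * (2 * n + 3)) ≤ (H ^ cR n) ^ (cA (n * (n + 1)) * (2 * n + 3)) :=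
          Nat.pow_le_pow_left hb _
      _ = H ^ cF n := by rw [← pow_mul, cF, mul_assoc]
      _ < m := hbig'
  have hkey : ∀ V : ℤ, (b : ℤ) ^ (2 * (n * (n + 1)) + 1) ≤ V → |y + x ^ (n + 1)| ≤ V →
      (m : ℤ) ≤ V ^ (2 * n + 3) := by
    intro V hV hu
    obtain ⟨h1, h2⟩ := size_up (by omega) Q.dn hb2 Q.lead Q.le ha0 hV hu (hev x y h0')
    rw [hm]
    rw [Int.abs_eq_natAbs] at h1 h2
    push_cast
    rw [Int.abs_eq_natAbs, Int.abs_eq_natAbs]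
    exact max_le h1 h2
  have hbc : (b : ℤ) ^ (2 * (n * (n + 1)) + 1) ≤ (b : ℤ) ^ cA (n * (n + 1)) :=
    pow_le_pow_right₀ (by exact_mod_cast (by omega : 1 ≤ b)) hcA1
  have hu : (b : ℤ) ^ cA (n * (n + 1)) ≤ |y + x ^ (n + 1)| := by
    by_contra hc
    push Not at hc
    have h1 := hkey _ hbc hc.le
    rw [← pow_mul] at h1
    have h2 : m ≤ b ^ (cA (n * (n + 1)) * (2 * n + 3)) := by exact_mod_cast h1
    omega
  have huR : (b : ℝ) ^ cA (n * (n + 1)) ≤ |((y + x ^ (n + 1) : ℤ) : ℝ)| := by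
    have : ((b : ℤ) ^ cA (n * (n + 1)) : ℤ) ≤ |y + x ^ (n + 1)| := hu
    exact_mod_cast this
  obtain ⟨τ, i, T, hT, hsum, hiS, hτ⟩ := exc_keep Q hcA2 (hev x y h0') huR
  refine ⟨τ.fieldRange, ⟨τ.rangeRestrictFieldEquiv⟩, ?_⟩
  have hNF : NumberField τ.fieldRange := NumberField.of_ringEquiv k τ.fieldRange τ.rangeRestrictFieldEquiv
  refine ⟨hNF, d, b, F', a, crvTr Q τ.rangeRestrictFieldEquiv.symm, i, T, ?_, hb, ha0, haH, hev x y h0', hT, hsum, hiS,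
    ?_, huR⟩
  · refine le_trans hk (le_of_eq ?_)
    exact LinearEquiv.finrank_eq (τ.rangeRestrictFieldEquiv.toRatAlgEquiv.toLinearEquiv)
  · refine RingHom.ext fun z => ?_
    change Q.kp.kap i (τ.rangeRestrictFieldEquiv.symm z) = ((z : ℝ) : ℂ)
    rw [hτ]
    change ((τ (τ.rangeRestrictFieldEquiv.symm z) : ℝ) : ℂ) = ((z : ℝ) : ℂ)
    congr 1
    exact congrArg Subtype.val (τ.rangeRestrictFieldEquiv.apply_symm_apply z)

theorem ty_size (n : ℕ) (hn : 3 ≤ n) {K : Subfield ℝ} {H : ℕ} {x y : ℤ} (h : Ty n K H x y) :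
    max |x| |y| ≤ |y + x ^ (n + 1)| ^ (2 * n + 3) ∧
      (2 ≤ max |x| |y| → |y + x ^ (n + 1)| ≤ (max |x| |y|) ^ (2 * n + 3)) := by
  obtain ⟨hNF, d, b, F, a, Q, i, T, hK, hb, ha0, haH, hev, hT, hsum, hiS, hkap, hbig⟩ := h
  have hN1 : 1 ≤ n * (n + 1) := Nat.mul_pos (by omega) (by omega)
  obtain ⟨hcA1, hcA2⟩ := cA_ge hN1
  have hb2 : 2 ≤ b := Q.b2
  have hd4 := Q.d4
  have hbc : (b : ℤ) ^ (2 * (n * (n + 1)) + 1) ≤ (b : ℤ) ^ cA (n * (n + 1)) :=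
    pow_le_pow_right₀ (by exact_mod_cast (by omega : 1 ≤ b)) hcA1
  have hu : (b : ℤ) ^ cA (n * (n + 1)) ≤ |y + x ^ (n + 1)| := by exact_mod_cast hbig
  obtain ⟨h1, h2⟩ := size_up (by omega) Q.dn hb2 Q.lead Q.le ha0 (hbc.trans hu) le_rfl hev
  exact ⟨max_le h1 h2, fun hm => size_low hm (le_max_left _ _) (le_max_right _ _)⟩

theorem ty_cmp (n : ℕ) (hn : 3 ≤ n) {K : Subfield ℝ} {H₁ H₂ : ℕ} {x₁ y₁ x₂ y₂ : ℤ} (h₁ : Ty n K H₁ x₁ y₁)
    (h₂ : Ty n K H₂ x₂ y₂) : |y₂ + x₂ ^ (n + 1)| ≤ |y₁ + x₁ ^ (n + 1)| ^ wA (n * (n + 1)) := by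
  obtain ⟨hNF, d, b, F, a, Q, i, T, hK, hb, ha0, haH, hev, hT, hsum, hiS, hkap, hbig⟩ := h₁
  obtain ⟨-, d', b', F', a', Q', i', T', -, hb', ha0', haH', hev', hT', hsum', hiS', hkap', hbig'⟩ := h₂
  have h := repelS (k := K) hK (τ := K.subtype) (n := n * (n + 1)) (x1 := y₁ + x₁ ^ (n + 1)) (y1 := a * x₁)
    (x2 := y₂ + x₂ ^ (n + 1)) (y2 := a' * x₂) ⟨d, b, F, Q, i, T, hev, hT, hsum, hiS, hkap, hbig⟩
    ⟨d', b', F', Q', i', T', hev', hT', hsum', hiS', hkap', hbig'⟩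
  exact_mod_cast h

end Pool.Agent.H8.OA
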